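import Pool.Agent.Helper873.OneVar

set_option autoImplicit false
open MeasureTheory Metric
open scoped ComplexConjugate

namespace Pool.Agent.Helper873.OneVar

/-- normalised kernel -/
noncomputable def ker (x : ℝ) (t : UnitAddCircle) : ℝ :=
  Real.sqrt (1 - x ^ 2) / ‖1 - (x : ℂ) * zet t‖

lemma continuous_den (x : ℝ) : Continuous fun t : UnitAddCircle => 1 - (x : ℂ) * zet t := by
  have := continuous_zet
  fun_prop

lemma continuous_inv_den (x : ℝ) (hx0 : 0 ≤ x) (hx : x < 1) :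
    Continuous fun t : UnitAddCircle => 1 / (1 - (x : ℂ) * zet t) := by
  refine continuous_const.div (continuous_den x) fun t => ?_
  exact norm_pos_iff.1 (one_sub_zet_ne x hx0 hx t)

lemma continuous_inv_norm (x : ℝ) (hx0 : 0 ≤ x) (hx : x < 1) :
    Continuous fun t : UnitAddCircle => 1 / ‖1 - (x : ℂ) * zet t‖ := by
  refine continuous_const.div (continuous_den x).norm fun t => ?_
  exact (one_sub_zet_ne x hx0 hx t).ne'

lemma integrable_cont {E : Type*} [NormedAddCommGroup E] {f : UnitAddCircle → E}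
    (hf : Continuous f) : Integrable f AddCircle.haarAddCircle :=
  hf.integrable_of_hasCompactSupport (HasCompactSupport.of_compactSpace f)

lemma continuous_ker (x : ℝ) (hx0 : 0 ≤ x) (hx : x < 1) : Continuous (ker x) := by
  have h := (continuous_inv_norm x hx0 hx).const_smul (Real.sqrt (1 - x ^ 2))
  refine h.congr fun t => ?_
  simp [ker, div_eq_mul_inv]

lemma ker_pos (x : ℝ) (hx0 : 0 ≤ x) (hx : x < 1) (t : UnitAddCircle) : 0 < ker x t := by
  unfold ker
  have : 0 < 1 - x ^ 2 := by nlinarith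
  exact div_pos (Real.sqrt_pos.2 this) (one_sub_zet_ne x hx0 hx t)

/-- real part version of the Cauchy kernel identity -/
lemma re_kernel (x y : ℝ) (hx0 : 0 ≤ x) (hx : x < 1) (hy0 : 0 ≤ y) (hy : y < 1) :
    ∫ t : UnitAddCircle, ((1 / (1 - (x : ℂ) * zet t)) * conj (1 / (1 - (y : ℂ) * zet t))).re
      ∂AddCircle.haarAddCircle = 1 / (1 - x * y) := by
  have hc : Continuous fun t : UnitAddCircle =>
      (1 / (1 - (x : ℂ) * zet t)) * conj (1 / (1 - (y : ℂ) * zet t)) :=
    (continuous_inv_den x hx0 hx).mul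
      (Complex.continuous_conj.comp (continuous_inv_den y hy0 hy))
  have h1 := integral_re (𝕜 := ℂ) (integrable_cont hc)
  simp only [RCLike.re_to_complex] at h1
  rw [h1, cauchy_kernel x y hx0 hx hy0 hy]
  have : (1 / (1 - (x : ℂ) * y)) = ((1 / (1 - x * y) : ℝ) : ℂ) := by push_cast; ring
  rw [this, Complex.ofReal_re]

lemma integral_V (x : ℝ) (hx0 : 0 ≤ x) (hx : x < 1) :
    ∫ t : UnitAddCircle, (1 / ‖1 - (x : ℂ) * zet t‖) ^ 2 ∂AddCircle.haarAddCircle =
      1 / (1 - x ^ 2) := by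
  have h := re_kernel x x hx0 hx hx0 hx
  rw [show 1 - x ^ 2 = 1 - x * x by ring, ← h]
  refine integral_congr_ae (Filter.Eventually.of_forall fun t => ?_)
  simp only
  rw [Complex.mul_conj, Complex.ofReal_re, Complex.normSq_eq_norm_sq, norm_div, norm_one]

lemma integral_U (x y : ℝ) (hx0 : 0 ≤ x) (hx : x < 1) (hy0 : 0 ≤ y) (hy : y < 1) :
    ∫ t : UnitAddCircle, (‖1 - ((x + y) / 2 : ℝ) * zet t‖ /
      (‖1 - (x : ℂ) * zet t‖ * ‖1 - (y : ℂ) * zet t‖)) ^ 2 ∂AddCircle.haarAddCircle =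
      (1 / (1 - x ^ 2) + 1 / (1 - y ^ 2) + 2 / (1 - x * y)) / 4 := by
  have hxx := re_kernel x x hx0 hx hx0 hx
  have hyy := re_kernel y y hy0 hy hy0 hy
  have hxy := re_kernel x y hx0 hx hy0 hy
  have hc : ∀ a b : ℝ, 0 ≤ a → a < 1 → 0 ≤ b → b < 1 → Integrable (fun t : UnitAddCircle =>
      ((1 / (1 - (a : ℂ) * zet t)) * conj (1 / (1 - (b : ℂ) * zet t))).re)
        AddCircle.haarAddCircle := by
    intro a b ha0 ha hb0 hb
    refine integrable_cont ?_
    exact Complex.continuous_re.comp ((continuous_inv_den a ha0 ha).mul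
      (Complex.continuous_conj.comp (continuous_inv_den b hb0 hb)))
  have e : (1 / (1 - x ^ 2) + 1 / (1 - y ^ 2) + 2 / (1 - x * y)) / 4 =
      (1 / 4) * (1 / (1 - x * x)) + (1 / 4) * (1 / (1 - y * y)) + (1 / 2) * (1 / (1 - x * y)) := by
    ring
  have hsum : ∫ t : UnitAddCircle,
      ((1 / 4) * ((1 / (1 - (x : ℂ) * zet t)) * conj (1 / (1 - (x : ℂ) * zet t))).re +
      (1 / 4) * ((1 / (1 - (y : ℂ) * zet t)) * conj (1 / (1 - (y : ℂ) * zet t))).re +
      (1 / 2) * ((1 / (1 - (x : ℂ) * zet t)) * conj (1 / (1 - (y : ℂ) * zet t))).re)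
        ∂AddCircle.haarAddCircle =
      (1 / 4) * (1 / (1 - x * x)) + (1 / 4) * (1 / (1 - y * y)) + (1 / 2) * (1 / (1 - x * y)) := by
    rw [integral_add, integral_add, integral_const_mul, integral_const_mul, integral_const_mul,
      hxx, hyy, hxy]
    · exact (hc x x hx0 hx hx0 hx).const_mul _
    · exact (hc y y hy0 hy hy0 hy).const_mul _
    · exact ((hc x x hx0 hx hx0 hx).const_mul _).add ((hc y y hy0 hy hy0 hy).const_mul _)
    · exact (hc x y hx0 hx hy0 hy).const_mul _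
  rw [e, ← hsum]
  refine integral_congr_ae (Filter.Eventually.of_forall fun t => ?_)
  simp only
  have hxne : (1 - (x : ℂ) * zet t) ≠ 0 := norm_pos_iff.1 (one_sub_zet_ne x hx0 hx t)
  have hyne : (1 - (y : ℂ) * zet t) ≠ 0 := norm_pos_iff.1 (one_sub_zet_ne y hy0 hy t)
  set p : ℂ := 1 / (1 - (x : ℂ) * zet t) with hp
  set q : ℂ := 1 / (1 - (y : ℂ) * zet t) with hq
  have h1 : ‖1 - ((x + y) / 2 : ℝ) * zet t‖ / (‖1 - (x : ℂ) * zet t‖ * ‖1 - (y : ℂ) * zet t‖)
      = ‖(p + q) / 2‖ := by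
    rw [← norm_mul, ← norm_div]
    congr 1
    rw [hp, hq]
    push_cast
    field_simp
    ring
  rw [h1, ← Complex.normSq_eq_norm_sq, Complex.normSq_apply]
  simp only [Complex.mul_re, Complex.conj_re, Complex.conj_im]
  have r1 : ((p + q) / 2).re = (p.re + q.re) / 2 := by simp
  have r2 : ((p + q) / 2).im = (p.im + q.im) / 2 := by simp
  rw [r1, r2]
  ring

/-- Cauchy-Schwarz bound of the affinity. -/
lemma aff_sq (x y : ℝ) (hx0 : 0 ≤ x) (hx : x < 1) (hy0 : 0 ≤ y) (hy : y < 1) :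
    (∫ t : UnitAddCircle, ker x t * ker y t ∂AddCircle.haarAddCircle) ^ 2 ≤
      (1 - x ^ 2) * (1 - y ^ 2) *
      ((1 / (1 - x ^ 2) + 1 / (1 - y ^ 2) + 2 / (1 - x * y)) / 4 * (1 / (1 - ((x + y) / 2) ^ 2)))
      := by
  have hm0 : 0 ≤ (x + y) / 2 := by positivity
  have hm : (x + y) / 2 < 1 := by linarith
  set a : UnitAddCircle → ℝ := fun t => ‖1 - (x : ℂ) * zet t‖ with ha
  set b : UnitAddCircle → ℝ := fun t => ‖1 - (y : ℂ) * zet t‖ with hb
  set c : UnitAddCircle → ℝ := fun t => ‖1 - ((x + y) / 2 : ℝ) * zet t‖ with hc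
  have ap : ∀ t, 0 < a t := one_sub_zet_ne x hx0 hx
  have bp : ∀ t, 0 < b t := one_sub_zet_ne y hy0 hy
  have cp : ∀ t, 0 < c t := one_sub_zet_ne _ hm0 hm
  have ac : Continuous a := (continuous_den x).norm
  have bc : Continuous b := (continuous_den y).norm
  have cc : Continuous c := (continuous_den _).norm
  set I : ℝ := ∫ t : UnitAddCircle, 1 / (a t * b t) ∂AddCircle.haarAddCircle with hI
  have hU := integral_U x y hx0 hx hy0 hy
  have hV := integral_V ((x + y) / 2) hm0 hm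
  set u : ℝ := (1 / (1 - x ^ 2) + 1 / (1 - y ^ 2) + 2 / (1 - x * y)) / 4 with hu
  set v : ℝ := 1 / (1 - ((x + y) / 2) ^ 2) with hv
  have iU : Integrable (fun t => (c t / (a t * b t)) ^ 2) AddCircle.haarAddCircle :=
    integrable_cont ((cc.div (ac.mul bc) fun t => (mul_pos (ap t) (bp t)).ne').pow 2)
  have iV : Integrable (fun t => (1 / c t) ^ 2) AddCircle.haarAddCircle :=
    integrable_cont ((continuous_const.div cc fun t => (cp t).ne').pow 2)
  have iI : Integrable (fun t => 1 / (a t * b t)) AddCircle.haarAddCircle :=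
    integrable_cont (continuous_const.div (ac.mul bc) fun t => (mul_pos (ap t) (bp t)).ne')
  have hx2 : 0 < 1 - x ^ 2 := by nlinarith
  have hy2 : 0 < 1 - y ^ 2 := by nlinarith
  have hxy : 0 < 1 - x * y := by nlinarith
  have upos : 0 < u := by rw [hu]; positivity
  have Inn : 0 ≤ I := integral_nonneg fun t => by
    have := ap t; have := bp t; positivity
  have key : ∀ l : ℝ, 0 < l → I ≤ l / 2 * u + 1 / (2 * l) * v := by
    intro l hl
    rw [← hU, ← hV, ← integral_const_mul, ← integral_const_mul,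
      ← integral_add (iU.const_mul _) (iV.const_mul _)]
    refine integral_mono iI ((iU.const_mul _).add (iV.const_mul _)) fun t => ?_
    have h1 := ap t; have h2 := bp t; have h3 := cp t
    have e1 : 1 / (a t * b t) = (c t / (a t * b t)) * (1 / c t) := by
      field_simp
    simp only
    rw [e1]
    set p := c t / (a t * b t)
    set q := 1 / c t
    have h4 : 0 ≤ (l * p - q) ^ 2 := sq_nonneg _
    have e2 : l / 2 * p ^ 2 + 1 / (2 * l) * q ^ 2 - p * q = (l * p - q) ^ 2 / (2 * l) := by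
      field_simp; ring
    have : 0 ≤ (l * p - q) ^ 2 / (2 * l) := by positivity
    linarith
  have hI2 : I ^ 2 ≤ u * v := by
    rcases Inn.eq_or_lt with h0 | h0
    · rw [← h0]
      have : 0 < v := by
        rw [hv]
        have : 0 < 1 - ((x + y) / 2) ^ 2 := by nlinarith
        positivity
      nlinarith [mul_pos upos this]
    · have h1 := key (I / u) (by positivity)
      have h2 : I / u / 2 * u + 1 / (2 * (I / u)) * v = I / 2 + u * v / (2 * I) := by
        field_simp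
      rw [h2] at h1
      have h3 : I / 2 ≤ u * v / (2 * I) := by linarith
      rw [le_div_iff₀ (by positivity)] at h3
      nlinarith
  have e3 : ∫ t : UnitAddCircle, ker x t * ker y t ∂AddCircle.haarAddCircle =
      Real.sqrt (1 - x ^ 2) * Real.sqrt (1 - y ^ 2) * I := by
    rw [hI, ← integral_const_mul]
    refine integral_congr_ae (Filter.Eventually.of_forall fun t => ?_)
    simp only [ker, ha, hb]
    ring
  rw [e3, mul_pow, mul_pow, Real.sq_sqrt hx2.le, Real.sq_sqrt hy2.le]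
  exact mul_le_mul_of_nonneg_left hI2 (by positivity)

/-- The affinity bound: `A ^ 8 ≤ (1-x²)(1-y²)/(1-xy)²`. -/
theorem aff_bound (x y : ℝ) (hx0 : 0 ≤ x) (hx : x ^ 2 ≤ 1 / 2) (hy0 : 0 ≤ y)
    (hy : y ^ 2 ≤ 1 / 2) :
    (∫ t : UnitAddCircle, ker x t * ker y t ∂AddCircle.haarAddCircle) ^ 8 ≤
      (1 - x ^ 2) * (1 - y ^ 2) / (1 - x * y) ^ 2 := by
  have hx1 : x < 1 := by nlinarith
  have hy1 : y < 1 := by nlinarith
  have h := aff_sq x y hx0 hx1 hy0 hy1
  set A := ∫ t : UnitAddCircle, ker x t * ker y t ∂AddCircle.haarAddCircle with hA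
  have hx2 : 0 < 1 - x ^ 2 := by nlinarith
  have hy2 : 0 < 1 - y ^ 2 := by nlinarith
  have hxy1 : x * y ≤ 1 / 2 := by nlinarith [sq_nonneg (x - y)]
  have hw : 0 < 1 - x * y := by linarith
  have hm2 : 0 < 1 - ((x + y) / 2) ^ 2 := by nlinarith [sq_nonneg (x - y)]
  set r : ℝ := (x - y) ^ 2 / (1 - x * y) ^ 2 with hr
  have hr0 : 0 ≤ r := by positivity
  have hr1 : r ≤ 1 / 2 := by
    rw [hr, div_le_iff₀ (by positivity)]
    rcases le_total x y with hxy | hxy
    · nlinarith [mul_nonneg hx0 (sub_nonneg.2 hxy), mul_nonneg (sq_nonneg x) (sq_nonneg y)]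
    · nlinarith [mul_nonneg hy0 (sub_nonneg.2 hxy), mul_nonneg (sq_nonneg x) (sq_nonneg y)]
  have hB : (1 - x ^ 2) * (1 - y ^ 2) *
      ((1 / (1 - x ^ 2) + 1 / (1 - y ^ 2) + 2 / (1 - x * y)) / 4 * (1 / (1 - ((x + y) / 2) ^ 2)))
      ≤ 1 - r / 2 := by
    have hd : 0 < 4 * (1 - x * y) - (x - y) ^ 2 := by nlinarith
    have e1 : (1 - x ^ 2) * (1 - y ^ 2) *
      ((1 / (1 - x ^ 2) + 1 / (1 - y ^ 2) + 2 / (1 - x * y)) / 4 * (1 / (1 - ((x + y) / 2) ^ 2)))
      = 1 - 2 * (x - y) ^ 2 / ((1 - x * y) * (4 * (1 - x * y) - (x - y) ^ 2)) := by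
      have e0 : (1 - ((x + y) / 2) ^ 2) = (4 * (1 - x * y) - (x - y) ^ 2) / 4 := by ring
      rw [e0]
      have gen : ∀ P Q w d D : ℝ, 0 < P → 0 < Q → 0 < w → 0 < D → P * Q = w ^ 2 - d →
          P + Q = 2 * w - d → D = 4 * w - d →
          P * Q * ((1 / P + 1 / Q + 2 / w) / 4 * (1 / (D / 4))) = 1 - 2 * d / (w * D) := by
        intro P Q w d D hP hQ hw hD h1 h2 h3
        have s1 : P * Q * ((1 / P + 1 / Q + 2 / w) / 4 * (1 / (D / 4))) =
            ((P + Q) + 2 * (P * Q) / w) / D := by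
          field_simp
          ring
        rw [s1, h1, h2]
        field_simp
        rw [h3]
        ring
      exact gen _ _ _ _ _ hx2 hy2 hw hd (by ring) (by ring) rfl
    rw [e1, hr]
    have : (x - y) ^ 2 / (1 - x * y) ^ 2 / 2 ≤
        2 * (x - y) ^ 2 / ((1 - x * y) * (4 * (1 - x * y) - (x - y) ^ 2)) := by
      rw [div_div, div_le_div_iff₀ (by positivity) (by positivity)]
      have h5 : 0 ≤ (x - y) ^ 2 := sq_nonneg _
      nlinarith [mul_nonneg h5 hw.le, mul_nonneg h5 h5, mul_nonneg (mul_nonneg h5 h5) hw.le]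
    linarith
  have h1 : A ^ 2 ≤ 1 - r / 2 := h.trans hB
  have h2 : A ^ 8 ≤ (1 - r / 2) ^ 4 := by
    have : A ^ 8 = (A ^ 2) ^ 4 := by ring
    rw [this]
    exact pow_le_pow_left₀ (sq_nonneg A) h1 4
  have h3 : (1 - r / 2) ^ 4 ≤ 1 - r := by
    nlinarith [mul_nonneg hr0 (sub_nonneg.2 hr1), mul_nonneg (mul_nonneg hr0 hr0) hr0,
      mul_nonneg (mul_nonneg hr0 hr0) (sub_nonneg.2 hr1),
      mul_nonneg (mul_nonneg (mul_nonneg hr0 hr0) hr0) (sub_nonneg.2 hr1)]
  have h4 : 1 - r = (1 - x ^ 2) * (1 - y ^ 2) / (1 - x * y) ^ 2 := by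
    rw [hr]
    field_simp
    ring
  rw [← h4]
  exact h2.trans h3

end Pool.Agent.Helper873.OneVar
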