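import Pool.Agent.Helper873.Monomial

set_option autoImplicit false
open MeasureTheory Metric
open scoped ComplexConjugate ENNReal

namespace Pool.Agent.Helper873.Alg

open Pool.Agent.Helper873.OneVar Pool.Agent.Helper873.Product Pool.Agent.Helper873.Monomial

/-- the class of polynomials in the prime variables -/
def IsP (F : (ℕ → ℂ) → ℂ) : Prop := ∃ c : ℕ →₀ ℂ, ∀ w, F w = poly c w

lemma mon_mul (m n : ℕ) (hm : m ≠ 0) (hn : n ≠ 0) (w : ℕ → ℂ) :
    mon m w * mon n w = mon (m * n) w := by
  have h1 : m ≤ m * n := Nat.le_mul_of_pos_right m (Nat.pos_of_ne_zero hn)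
  have h2 : n ≤ m * n := Nat.le_mul_of_pos_left n (Nat.pos_of_ne_zero hm)
  rw [mon_eq m (m * n) h1, mon_eq n (m * n) h2, mon_eq (m * n) (m * n) le_rfl,
    ← Finset.prod_mul_distrib]
  refine Finset.prod_congr rfl fun k _ => ?_
  rw [← pow_add]
  congr 1
  unfold ex
  rw [Nat.factorization_mul hm hn]
  rfl

lemma mon_one (w : ℕ → ℂ) : mon 1 w = 1 := by
  unfold mon ex
  simp

lemma mon_prime (k : ℕ) (w : ℕ → ℂ) : mon (Nat.nth Nat.Prime k) w = w k := by
  unfold mon
  have hk : k ∈ Finset.range (Nat.nth Nat.Prime k) := by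
    rw [Finset.mem_range]
    have := Nat.add_two_le_nth_prime k
    omega
  rw [Finset.prod_eq_single_of_mem k hk]
  · unfold ex
    rw [(Nat.prime_nth_prime k).factorization]
    simp
  · intro j _ hj
    unfold ex
    rw [(Nat.prime_nth_prime k).factorization, Finsupp.single_apply, if_neg, pow_zero]
    intro h
    exact hj (Nat.nth_injective Nat.infinite_setOfPred_prime h).symm

lemma poly_add (c d : ℕ →₀ ℂ) (w : ℕ → ℂ) : poly (c + d) w = poly c w + poly d w := by
  unfold poly
  rw [Finsupp.sum_add_index']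
  · intro m; ring
  · intro m a b; ring

lemma poly_smul (a : ℂ) (c : ℕ →₀ ℂ) (w : ℕ → ℂ) : poly (a • c) w = a * poly c w := by
  unfold poly
  rw [Finsupp.sum_smul_index' (by intro m; ring)]
  rw [Finsupp.sum, Finsupp.sum, Finset.mul_sum]
  refine Finset.sum_congr rfl fun m _ => ?_
  rw [smul_eq_mul]; ring

lemma poly_zero (w : ℕ → ℂ) : poly 0 w = 0 := by
  unfold poly; simp

lemma poly_sub (c d : ℕ →₀ ℂ) (w : ℕ → ℂ) : poly (c - d) w = poly c w - poly d w := by
  have h : c = (c - d) + d := by simp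
  have h2 := poly_add (c - d) d w
  rw [← h] at h2
  rw [h2]; ring

lemma poly_single (m : ℕ) (a : ℂ) (w : ℕ → ℂ) :
    poly (Finsupp.single m a) w = a * mon (m + 1) w := by
  unfold poly
  rw [Finsupp.sum_single_index]
  ring

lemma IsP.add {F G : (ℕ → ℂ) → ℂ} (hF : IsP F) (hG : IsP G) : IsP (fun w => F w + G w) := by
  obtain ⟨c, hc⟩ := hF
  obtain ⟨d, hd⟩ := hG
  exact ⟨c + d, fun w => by simp only [poly_add, hc, hd]⟩

lemma IsP.smul {F : (ℕ → ℂ) → ℂ} (a : ℂ) (hF : IsP F) : IsP (fun w => a * F w) := by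
  obtain ⟨c, hc⟩ := hF
  exact ⟨a • c, fun w => by simp only [poly_smul, hc]⟩

lemma isP_zero : IsP (fun _ => 0) := ⟨0, fun w => (poly_zero w).symm⟩

lemma isP_mon (n : ℕ) (hn : n ≠ 0) : IsP (mon n) := by
  refine ⟨Finsupp.single (n - 1) 1, fun w => ?_⟩
  rw [poly_single, Nat.sub_add_cancel (Nat.one_le_iff_ne_zero.2 hn), one_mul]

lemma isP_const (a : ℂ) : IsP (fun _ => a) := by
  have h := (isP_mon 1 one_ne_zero).smul a
  simp only [mon_one, mul_one] at h
  exact h

lemma isP_coord (k : ℕ) : IsP (fun w => w k) := by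
  have h := isP_mon (Nat.nth Nat.Prime k) (Nat.prime_nth_prime k).ne_zero
  have e : mon (Nat.nth Nat.Prime k) = fun w => w k := by
    funext w; exact mon_prime k w
  rwa [e] at h

lemma IsP.mul {F G : (ℕ → ℂ) → ℂ} (hF : IsP F) (hG : IsP G) : IsP (fun w => F w * G w) := by
  obtain ⟨c, hc⟩ := hF
  have h1 : ∀ c : ℕ →₀ ℂ, IsP (fun w => poly c w * G w) := by
    intro c
    induction c using Finsupp.induction_linear with
    | zero =>
      simp only [poly_zero, zero_mul]
      exact isP_zero
    | add f g hf hg =>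
      simp only [poly_add, add_mul]
      exact hf.add hg
    | single m a =>
      obtain ⟨d, hd⟩ := hG
      have h2 : ∀ d : ℕ →₀ ℂ, IsP (fun w => poly (Finsupp.single m a) w * poly d w) := by
        intro d
        induction d using Finsupp.induction_linear with
        | zero =>
          simp only [poly_zero, mul_zero]
          exact isP_zero
        | add f g hf hg =>
          simp only [poly_add, mul_add]
          exact hf.add hg
        | single n b =>
          have h3 := (isP_mon ((m + 1) * (n + 1)) (by positivity)).smul (a * b)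
          have e : (fun w => poly (Finsupp.single m a) w * poly (Finsupp.single n b) w) =
              fun w => (a * b) * mon ((m + 1) * (n + 1)) w := by
            funext w
            rw [poly_single, poly_single, ← mon_mul (m + 1) (n + 1) (by omega) (by omega)]
            ring
          rwa [e]
      simp only [hd]
      exact h2 d
  simp only [hc]
  exact h1 c

lemma isP_pow {F : (ℕ → ℂ) → ℂ} (hF : IsP F) (n : ℕ) : IsP (fun w => F w ^ n) := by
  induction n with
  | zero => simp only [pow_zero]; exact isP_const 1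
  | succ n ih => simp only [pow_succ]; exact ih.mul hF

lemma isP_sum {ι : Type*} (S : Finset ι) (F : ι → (ℕ → ℂ) → ℂ) (hF : ∀ i ∈ S, IsP (F i)) :
    IsP (fun w => ∑ i ∈ S, F i w) := by
  classical
  induction S using Finset.induction_on with
  | empty => simp only [Finset.sum_empty]; exact isP_zero
  | insert i S hi ih =>
    simp only [Finset.sum_insert hi]
    exact (hF i (Finset.mem_insert_self _ _)).add
      (ih fun j hj => hF j (Finset.mem_insert_of_mem hj))

lemma isP_prod {ι : Type*} (S : Finset ι) (F : ι → (ℕ → ℂ) → ℂ) (hF : ∀ i ∈ S, IsP (F i)) :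
    IsP (fun w => ∏ i ∈ S, F i w) := by
  classical
  induction S using Finset.induction_on with
  | empty => simp only [Finset.prod_empty]; exact isP_const 1
  | insert i S hi ih =>
    simp only [Finset.prod_insert hi]
    exact (hF i (Finset.mem_insert_self _ _)).mul
      (ih fun j hj => hF j (Finset.mem_insert_of_mem hj))

/-- the point `(p_k^{-s})_k` -/
noncomputable def vs (s : ℂ) (k : ℕ) : ℂ := (Nat.nth Nat.Prime k : ℂ) ^ (-s)

/-- `n ↦ n^{-s}` as a monoid homomorphism -/
noncomputable def cp (s : ℂ) : ℕ →* ℂ where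
  toFun n := (n : ℂ) ^ (-s)
  map_one' := by simp
  map_mul' m n := by
    rw [Nat.cast_mul]
    exact Complex.natCast_mul_natCast_cpow m n _

lemma cp_apply (s : ℂ) (n : ℕ) : cp s n = (n : ℂ) ^ (-s) := rfl

lemma mon_vs (n : ℕ) (hn : n ≠ 0) (s : ℂ) : mon n (vs s) = (n : ℂ) ^ (-s) := by
  have h1 : mon n (vs s) = ∏ k ∈ Finset.range n, (cp s (Nat.nth Nat.Prime k)) ^ ex n k := rfl
  rw [h1]
  have h2 := prod_ex n n hn le_rfl
  conv_rhs => rw [← cp_apply, ← h2]
  rw [map_prod]
  refine Finset.prod_congr rfl fun k _ => ?_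
  rw [map_pow]

lemma poly_vs (c : ℕ →₀ ℂ) (s : ℂ) :
    poly c (vs s) = ∑ n ∈ c.support, c n * ((n : ℂ) + 1) ^ (-s) := by
  unfold poly Finsupp.sum
  refine Finset.sum_congr rfl fun m _ => ?_
  simp only [mon_vs (m + 1) (by omega)]
  push_cast; rfl

end Pool.Agent.Helper873.Alg
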