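import Pool.Agent.Helper873.Affinity

set_option autoImplicit false
open MeasureTheory Metric
open scoped ComplexConjugate ENNReal

namespace Pool.Agent.Helper873.Product

open Pool.Agent.Helper873.OneVar

/-- Haar measure of the infinite torus -/
noncomputable abbrev tor : Measure (ℕ → UnitAddCircle) :=
  Measure.infinitePi (fun _ : ℕ => AddCircle.haarAddCircle (T := 1))

/-- resampling one coordinate preserves the product measure -/
lemma resample (i : ℕ) :
    MeasurePreserving (fun p : (ℕ → UnitAddCircle) × UnitAddCircle => Function.update p.1 i p.2)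
      (tor.prod (AddCircle.haarAddCircle (T := 1))) tor := by
  have hm : Measurable
      (fun p : (ℕ → UnitAddCircle) × UnitAddCircle => Function.update p.1 i p.2) := by
    rw [measurable_pi_iff]
    intro j
    by_cases hj : j = i
    · subst hj
      simpa using measurable_snd
    · simp only [Function.update_of_ne hj]
      exact (measurable_pi_apply j).comp measurable_fst
  refine ⟨hm, ?_⟩
  refine Measure.eq_infinitePi _ ?_
  intro s t ht
  rw [Measure.map_apply hm (MeasurableSet.pi s.countable_toSet fun _ _ => ht _)]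
  by_cases hi : i ∈ s
  · have e : (fun p : (ℕ → UnitAddCircle) × UnitAddCircle => Function.update p.1 i p.2) ⁻¹'
        (Set.pi (s : Set ℕ) t) = (Set.pi ((s.erase i : Finset ℕ) : Set ℕ) t) ×ˢ (t i) := by
      ext p
      simp only [Set.mem_preimage, Set.mem_pi, Finset.mem_coe, Set.mem_prod, Finset.mem_erase]
      constructor
      · intro h
        refine ⟨fun j hj => ?_, ?_⟩
        · have := h j hj.2
          rwa [Function.update_of_ne hj.1] at this
        · simpa using h i hi
      · rintro ⟨h1, h2⟩ j hj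
        by_cases hji : j = i
        · subst hji; simpa using h2
        · rw [Function.update_of_ne hji]
          exact h1 j ⟨hji, hj⟩
    rw [e, Measure.prod_prod, Measure.infinitePi_pi _ (fun j _ => ht j), mul_comm,
      Finset.mul_prod_erase s (fun j => (AddCircle.haarAddCircle (T := 1)) (t j)) hi]
  · have e : (fun p : (ℕ → UnitAddCircle) × UnitAddCircle => Function.update p.1 i p.2) ⁻¹'
        (Set.pi (s : Set ℕ) t) = (Set.pi (s : Set ℕ) t) ×ˢ Set.univ := by
      ext p
      simp only [Set.mem_preimage, Set.mem_pi, Finset.mem_coe, Set.mem_prod, Set.mem_univ,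
        and_true]
      refine forall₂_congr fun j hj => ?_
      have hji : j ≠ i := fun h => hi (h ▸ hj)
      rw [Function.update_of_ne hji]
    rw [e, Measure.prod_prod, Measure.infinitePi_pi _ (fun j _ => ht j), measure_univ, mul_one]

lemma lintegral_resample (i : ℕ) (f : (ℕ → UnitAddCircle) → ℝ≥0∞) (hf : Measurable f) :
    ∫⁻ z, f z ∂tor =
      ∫⁻ z, ∫⁻ w, f (Function.update z i w) ∂(AddCircle.haarAddCircle (T := 1)) ∂tor := by
  rw [← (resample i).lintegral_comp hf]
  exact lintegral_prod _ (hf.comp (resample i).measurable).aemeasurable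

lemma integral_resample (i : ℕ) (f : (ℕ → UnitAddCircle) → ℂ) (hf : Continuous f)
    (C : ℝ) (hC : ∀ z, ‖f z‖ ≤ C) :
    ∫ z, f z ∂tor =
      ∫ z, ∫ w, f (Function.update z i w) ∂(AddCircle.haarAddCircle (T := 1)) ∂tor := by
  have h1 : ∫ z, f z ∂tor = ∫ p, f (Function.update p.1 i p.2)
      ∂(tor.prod (AddCircle.haarAddCircle (T := 1))) := by
    have h2 := integral_map (μ := tor.prod (AddCircle.haarAddCircle (T := 1)))
      (φ := fun p : (ℕ → UnitAddCircle) × UnitAddCircle => Function.update p.1 i p.2)
      (resample i).measurable.aemeasurable (f := f)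
      (by rw [(resample i).map_eq]; exact hf.aestronglyMeasurable)
    rw [(resample i).map_eq] at h2
    exact h2
  rw [h1, integral_prod]
  refine Integrable.of_bound ?_ C (Filter.Eventually.of_forall fun p => hC _)
  exact hf.aestronglyMeasurable.comp_measurePreserving (resample i)

/-- product formula -/
lemma lintegral_prod_range (H : ℕ → UnitAddCircle → ℝ≥0∞) (hH : ∀ j, Measurable (H j)) (N : ℕ) :
    ∫⁻ z, ∏ j ∈ Finset.range N, H j (z j) ∂tor =
      ∏ j ∈ Finset.range N, ∫⁻ w, H j w ∂(AddCircle.haarAddCircle (T := 1)) := by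
  induction N with
  | zero => simp
  | succ N ih =>
    rw [lintegral_resample N]
    · have e : ∀ z : ℕ → UnitAddCircle, ∀ w : UnitAddCircle,
          ∏ j ∈ Finset.range (N + 1), H j (Function.update z N w j) =
          (∏ j ∈ Finset.range N, H j (z j)) * H N w := by
        intro z w
        rw [Finset.prod_range_succ, Function.update_self]
        congr 1
        refine Finset.prod_congr rfl fun j hj => ?_
        rw [Function.update_of_ne (Finset.mem_range.1 hj).ne]
      simp_rw [e]
      have e2 : ∀ z : ℕ → UnitAddCircle,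
          ∫⁻ w, (∏ j ∈ Finset.range N, H j (z j)) * H N w ∂(AddCircle.haarAddCircle (T := 1)) =
          (∏ j ∈ Finset.range N, H j (z j)) * ∫⁻ w, H N w ∂(AddCircle.haarAddCircle (T := 1)) :=
        fun z => lintegral_const_mul _ (hH N)
      simp_rw [e2]
      rw [lintegral_mul_const, ih, Finset.prod_range_succ]
      exact Finset.measurable_prod _ fun j _ => (hH j).comp (measurable_pi_apply j)
    · exact Finset.measurable_prod _ fun j _ => (hH j).comp (measurable_pi_apply j)

/-- the one variable inequality in `ℝ≥0∞` form -/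
lemma one_var (g : Polynomial ℂ) (x : ℝ) (hx0 : 0 ≤ x) (hx : x < 1) (c : ℝ) (hc : 0 ≤ c) :
    ENNReal.ofReal (Real.sqrt ‖g.eval (x : ℂ)‖ * Real.sqrt (1 - x ^ 2) * c) ≤
      ∫⁻ w, ENNReal.ofReal (Real.sqrt ‖g.eval (zet w)‖ * ker x w * c)
        ∂(AddCircle.haarAddCircle (T := 1)) := by
  have hcont : Continuous fun w : UnitAddCircle =>
      Real.sqrt ‖g.eval (zet w)‖ * ker x w * c := by
    have h1 : Continuous fun w : UnitAddCircle => g.eval (zet w) :=
      g.continuous.comp continuous_zet
    exact ((Real.continuous_sqrt.comp h1.norm).mul (continuous_ker x hx0 hx)).mul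
      continuous_const
  have hnn : ∀ w, 0 ≤ Real.sqrt ‖g.eval (zet w)‖ * ker x w * c := fun w =>
    mul_nonneg (mul_nonneg (Real.sqrt_nonneg _) (ker_pos x hx0 hx w).le) hc
  rw [← ofReal_integral_eq_lintegral_ofReal (integrable_cont hcont)
    (Filter.Eventually.of_forall hnn)]
  refine ENNReal.ofReal_le_ofReal ?_
  have h := sqrt_ineq g x hx0 hx
  have e : ∫ w, Real.sqrt ‖g.eval (zet w)‖ * ker x w * c ∂(AddCircle.haarAddCircle (T := 1)) =
      (∫ w, Real.sqrt ‖g.eval (zet w)‖ / ‖1 - (x : ℂ) * zet w‖
        ∂(AddCircle.haarAddCircle (T := 1))) * (Real.sqrt (1 - x ^ 2) * c) := by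
    rw [← integral_mul_const]
    refine integral_congr_ae (Filter.Eventually.of_forall fun t => ?_)
    simp only [ker]
    ring
  rw [e, mul_assoc]
  exact mul_le_mul_of_nonneg_right h (mul_nonneg (Real.sqrt_nonneg _) hc)

/-- Tensorised inequality. -/
theorem tensor (F : (ℕ → ℂ) → ℂ) (hFc : Continuous F)
    (hFp : ∀ (w : ℕ → ℂ) (i : ℕ), ∃ g : Polynomial ℂ, ∀ u, F (Function.update w i u) = g.eval u)
    (N : ℕ) (hFN : ∀ w w' : ℕ → ℂ, (∀ j < N, w j = w' j) → F w = F w')
    (x : ℕ → ℝ) (hx0 : ∀ j, 0 ≤ x j) (hx : ∀ j, x j < 1) :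
    ENNReal.ofReal (Real.sqrt ‖F (fun j => (x j : ℂ))‖ *
        ∏ j ∈ Finset.range N, Real.sqrt (1 - x j ^ 2)) ≤
      ∫⁻ z, ENNReal.ofReal (Real.sqrt ‖F (fun j => zet (z j))‖ *
        ∏ j ∈ Finset.range N, ker (x j) (z j)) ∂tor := by
  classical
  let W : ℕ → (ℕ → UnitAddCircle) → ℕ → ℂ := fun n z j => if j < n then (x j : ℂ) else zet (z j)
  have hW : ∀ n, Continuous (W n) := by
    intro n
    refine continuous_pi fun j => ?_
    by_cases hj : j < n
    · simp only [W, hj, if_true]; exact continuous_const
    · simp only [W, hj, if_false]; exact continuous_zet.comp (continuous_apply j)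
  let Q : ℕ → (ℕ → UnitAddCircle) → ℝ := fun n z => Real.sqrt ‖F (W n z)‖ *
    (∏ j ∈ Finset.range n, Real.sqrt (1 - x j ^ 2)) * ∏ j ∈ Finset.Ico n N, ker (x j) (z j)
  have hQ : ∀ n, Continuous (Q n) := by
    intro n
    refine ((Real.continuous_sqrt.comp (hFc.comp (hW n)).norm).mul continuous_const).mul ?_
    refine continuous_finsetProd _ fun j _ => ?_
    exact (continuous_ker (x j) (hx0 j) (hx j)).comp (continuous_apply j)
  have step : ∀ n, n < N → ∫⁻ z, ENNReal.ofReal (Q (n + 1) z) ∂tor ≤
      ∫⁻ z, ENNReal.ofReal (Q n z) ∂tor := by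
    intro n hn
    rw [lintegral_resample n (fun z => ENNReal.ofReal (Q n z))
      (ENNReal.measurable_ofReal.comp (hQ n).measurable)]
    refine lintegral_mono fun z => ?_
    obtain ⟨g, hg⟩ := hFp (W n z) n
    have hWu : ∀ w, W n (Function.update z n w) = Function.update (W n z) n (zet w) := by
      intro w
      funext j
      by_cases hj : j = n
      · subst hj; simp [W]
      · rw [Function.update_of_ne hj]
        simp only [W]
        rw [Function.update_of_ne hj]
    have hW1 : W (n + 1) z = Function.update (W n z) n (x n : ℂ) := by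
      funext j
      by_cases hj : j = n
      · subst hj; simp [W]
      · rw [Function.update_of_ne hj]
        simp only [W]
        have : j < n + 1 ↔ j < n := by omega
        simp only [this]
    set c : ℝ := (∏ j ∈ Finset.range n, Real.sqrt (1 - x j ^ 2)) *
      ∏ j ∈ Finset.Ico (n + 1) N, ker (x j) (z j) with hc
    have hc0 : 0 ≤ c := by
      refine mul_nonneg (Finset.prod_nonneg fun j _ => Real.sqrt_nonneg _)
        (Finset.prod_nonneg fun j _ => (ker_pos (x j) (hx0 j) (hx j) _).le)
    have e1 : Q (n + 1) z = Real.sqrt ‖g.eval (x n : ℂ)‖ * Real.sqrt (1 - x n ^ 2) * c := by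
      simp only [Q, hW1, hg, Finset.prod_range_succ, hc]
      ring
    have e2 : ∀ w, Q n (Function.update z n w) =
        Real.sqrt ‖g.eval (zet w)‖ * ker (x n) w * c := by
      intro w
      simp only [Q, hWu, hg, hc]
      rw [Finset.prod_eq_prod_Ico_succ_bot hn, Function.update_self]
      have : ∏ j ∈ Finset.Ico (n + 1) N, ker (x j) (Function.update z n w j) =
          ∏ j ∈ Finset.Ico (n + 1) N, ker (x j) (z j) := by
        refine Finset.prod_congr rfl fun j hj => ?_
        rw [Function.update_of_ne (by have := (Finset.mem_Ico.1 hj).1; omega)]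
      rw [this]
      ring
    simp_rw [e2]
    rw [e1]
    exact one_var g (x n) (hx0 n) (hx n) c hc0
  have all : ∀ n, n ≤ N → ∫⁻ z, ENNReal.ofReal (Q n z) ∂tor ≤
      ∫⁻ z, ENNReal.ofReal (Q 0 z) ∂tor := by
    intro n
    induction n with
    | zero => intro _; exact le_rfl
    | succ n ih => intro h; exact (step n (by omega)).trans (ih (by omega))
  have hfin := all N le_rfl
  have e3 : ∀ z, Q N z = Real.sqrt ‖F (fun j => (x j : ℂ))‖ *
        ∏ j ∈ Finset.range N, Real.sqrt (1 - x j ^ 2) := by
    intro z
    simp only [Q, Finset.Ico_self, Finset.prod_empty, mul_one]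
    rw [hFN (W N z) (fun j => (x j : ℂ)) (fun j hj => by simp [W, hj])]
  have e4 : ∀ z, Q 0 z = Real.sqrt ‖F (fun j => zet (z j))‖ *
        ∏ j ∈ Finset.range N, ker (x j) (z j) := by
    intro z
    simp only [Q, Finset.range_zero, Finset.prod_empty, mul_one, W, Nat.not_lt_zero, if_false]
    rw [Finset.range_eq_Ico]
  simp_rw [e3, e4] at hfin
  simpa using hfin

end Pool.Agent.Helper873.Product
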