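import Pool.Agent.Helper873.Pk
import Pool.Agent.Helper873.Product

set_option autoImplicit false
open MeasureTheory Metric
open scoped ComplexConjugate ENNReal

namespace Pool.Agent.Helper873.Block

open Pool.Agent.Helper873.OneVar Pool.Agent.Helper873.Pk Pool.Agent.Helper873.Product
  Pool.Agent.Helper873.NT Pool.Agent.Helper873.Embed Pool.Agent.Helper873.Zeta

/-! ### integration on the torus -/

lemma integrable_torR {f : (ℕ → UnitAddCircle) → ℝ} (hf : Continuous f) : Integrable f tor :=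
  hf.integrable_of_hasCompactSupport (HasCompactSupport.of_compactSpace f)

lemma integral_resampleR (i : ℕ) (f : (ℕ → UnitAddCircle) → ℝ) (hf : Continuous f) :
    ∫ z, f z ∂tor = ∫ z, ∫ w, f (Function.update z i w) ∂mu ∂tor := by
  have h1 : ∫ z, f z ∂tor = ∫ p, f (Function.update p.1 i p.2) ∂(tor.prod mu) := by
    have h2 := integral_map (μ := tor.prod mu)
      (φ := fun p : (ℕ → UnitAddCircle) × UnitAddCircle => Function.update p.1 i p.2)
      (resample i).measurable.aemeasurable (f := f)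
      (by rw [(resample i).map_eq]; exact hf.aestronglyMeasurable)
    rw [(resample i).map_eq] at h2
    exact h2
  rw [h1, integral_prod]
  exact (resample i).integrable_comp_of_integrable (integrable_torR hf)

lemma indep (f : (ℕ → UnitAddCircle) → ℝ) (hf : Continuous f) (n : ℕ)
    (hdep : ∀ z z' : ℕ → UnitAddCircle, (∀ j < n, z j = z' j) → f z = f z')
    (h : ℕ → UnitAddCircle → ℝ) (hh : ∀ k, Continuous (h k)) (N : ℕ) (hN : n ≤ N) :
    ∫ z, f z * ∏ k ∈ Finset.Ico n N, h k (z k) ∂tor =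
      (∫ z, f z ∂tor) * ∏ k ∈ Finset.Ico n N, ∫ w, h k w ∂mu := by
  induction N, hN using Nat.le_induction with
  | base => simp
  | succ N hN ih =>
    rw [integral_resampleR N]
    · have e : ∀ z : ℕ → UnitAddCircle, ∀ w : UnitAddCircle,
          f (Function.update z N w) * ∏ k ∈ Finset.Ico n (N + 1), h k (Function.update z N w k) =
          (f z * ∏ k ∈ Finset.Ico n N, h k (z k)) * h N w := by
        intro z w
        rw [Finset.prod_Ico_succ_top hN, Function.update_self]
        have h1 : f (Function.update z N w) = f z := by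
          refine hdep _ _ fun j hj => ?_
          rw [Function.update_of_ne (by omega)]
        have h2 : ∏ k ∈ Finset.Ico n N, h k (Function.update z N w k) =
            ∏ k ∈ Finset.Ico n N, h k (z k) := by
          refine Finset.prod_congr rfl fun k hk => ?_
          rw [Finset.mem_Ico] at hk
          rw [Function.update_of_ne (by omega)]
        rw [h1, h2, mul_assoc]
      simp_rw [e]
      have e2 : ∀ z : ℕ → UnitAddCircle,
          ∫ w, (f z * ∏ k ∈ Finset.Ico n N, h k (z k)) * h N w ∂mu =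
          (f z * ∏ k ∈ Finset.Ico n N, h k (z k)) * ∫ w, h N w ∂mu :=
        fun z => integral_const_mul _ _
      simp_rw [e2]
      rw [integral_mul_const, ih, Finset.prod_Ico_succ_top hN, mul_assoc]
    · exact hf.mul (continuous_finsetProd _ fun k _ => (hh k).comp (continuous_apply k))

/-! ### the points and the weights -/

/-- `p_k^{-(1/2+1/J)} e^{i (a/J) log p_k}` -/
noncomputable def al (J a k : ℕ) : ℂ :=
  (((Nat.nth Nat.Prime k : ℝ) ^ (-(1 / 2 + 1 / (J : ℝ))) : ℝ) : ℂ) *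
    Complex.exp ((((a : ℝ) / J * Real.log (Nat.nth Nat.Prime k) : ℝ) : ℂ) * Complex.I)

/-- `p_k^{-(1+2/J)}` -/
noncomputable def qq (J k : ℕ) : ℝ := (Nat.nth Nat.Prime k : ℝ) ^ (-(1 + 2 / (J : ℝ)))

lemma qq_pos (J k : ℕ) : 0 < qq J k :=
  Real.rpow_pos_of_pos (by have := two_le_p k; linarith) _

lemma qq_le_inv (J k : ℕ) : qq J k ≤ 1 / (Nat.nth Nat.Prime k : ℝ) := by
  have h2 := two_le_p k
  unfold qq
  have h : (1 : ℝ) / (Nat.nth Nat.Prime k : ℝ) = (Nat.nth Nat.Prime k : ℝ) ^ (-1 : ℝ) := by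
    rw [Real.rpow_neg (by linarith), Real.rpow_one, one_div]
  rw [h]
  refine Real.rpow_le_rpow_of_exponent_le (by linarith) ?_
  have : (0 : ℝ) ≤ 2 / (J : ℝ) := by positivity
  linarith

lemma qq_le_half (J k : ℕ) : qq J k ≤ 1 / 2 := by
  refine (qq_le_inv J k).trans ?_
  have h2 := two_le_p k
  exact one_div_le_one_div_of_le (by norm_num) h2

lemma norm_al (J a k : ℕ) : ‖al J a k‖ = (Nat.nth Nat.Prime k : ℝ) ^ (-(1 / 2 + 1 / (J : ℝ))) := by
  unfold al
  rw [norm_mul, Complex.norm_exp_ofReal_mul_I, mul_one, Complex.norm_real,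
    Real.norm_of_nonneg (by positivity)]

lemma norm_al_sq (J a k : ℕ) : ‖al J a k‖ ^ 2 = qq J k := by
  rw [norm_al, qq, ← Real.rpow_natCast, ← Real.rpow_mul (by positivity)]
  congr 1
  push_cast
  ring

lemma norm_al_sq_le (J a k : ℕ) : ‖al J a k‖ ^ 2 ≤ 1 / 2 := by
  rw [norm_al_sq]; exact qq_le_half J k

lemma norm_al_lt (J a k : ℕ) : ‖al J a k‖ < 1 := norm_lt_one (norm_al_sq_le J a k)

lemma al_mul_conj (J s a k : ℕ) : al J s k * conj (al J a k) = ((qq J k : ℝ) : ℂ) *
    Complex.exp ((((s : ℝ) - a) / J * Real.log (Nat.nth Nat.Prime k) : ℝ) * Complex.I) := by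
  unfold al
  rw [map_mul, Complex.conj_ofReal, ← Complex.exp_conj, map_mul, Complex.conj_ofReal,
    Complex.conj_I]
  have h1 : qq J k = (Nat.nth Nat.Prime k : ℝ) ^ (-(1 / 2 + 1 / (J : ℝ))) *
      (Nat.nth Nat.Prime k : ℝ) ^ (-(1 / 2 + 1 / (J : ℝ))) := by
    rw [← norm_al J a k, ← sq, norm_al_sq]
  have h2 : Complex.exp ((((s : ℝ) - a) / J * Real.log (Nat.nth Nat.Prime k) : ℝ) * Complex.I) =
      Complex.exp ((((s : ℝ) / J * Real.log (Nat.nth Nat.Prime k) : ℝ) : ℂ) * Complex.I) *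
      Complex.exp ((((a : ℝ) / J * Real.log (Nat.nth Nat.Prime k) : ℝ) : ℂ) * -Complex.I) := by
    rw [← Complex.exp_add]
    congr 1
    push_cast
    ring
  rw [h1, h2]
  push_cast
  ring

/-- product weight -/
noncomputable def W (J N a : ℕ) (z : ℕ → UnitAddCircle) : ℝ :=
  ∏ k ∈ Finset.range N, pk (al J a k) (z k)

/-- average of the weights -/
noncomputable def MM (J N : ℕ) (z : ℕ → UnitAddCircle) : ℝ :=
  (1 / (J : ℝ)) * ∑ a ∈ Finset.range J, W J N a z

lemma continuous_W (J N a : ℕ) : Continuous (W J N a) :=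
  continuous_finsetProd _ fun k _ => (continuous_pk (norm_al_lt J a k)).comp (continuous_apply k)

lemma W_pos (J N a : ℕ) (z : ℕ → UnitAddCircle) : 0 < W J N a z :=
  Finset.prod_pos fun k _ => pk_pos (norm_al_lt J a k) _

lemma W_dep (J N a : ℕ) (z z' : ℕ → UnitAddCircle) (h : ∀ j < N, z j = z' j) :
    W J N a z = W J N a z' := by
  unfold W
  refine Finset.prod_congr rfl fun k hk => ?_
  rw [h k (Finset.mem_range.1 hk)]

lemma continuous_MM (J N : ℕ) : Continuous (MM J N) :=
  continuous_const.mul (continuous_finsetSum _ fun a _ => continuous_W J N a)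

lemma MM_pos (J N : ℕ) (hJ : 1 ≤ J) (z : ℕ → UnitAddCircle) : 0 < MM J N z := by
  unfold MM
  have hJ' : (0 : ℝ) < J := by exact_mod_cast hJ
  have : 0 < ∑ a ∈ Finset.range J, W J N a z :=
    Finset.sum_pos (fun a _ => W_pos J N a z) ⟨0, Finset.mem_range.2 (by omega)⟩
  positivity

/-- extension of the weight beyond `n` -/
lemma integral_W_mul (J n N a : ℕ) (hN : n ≤ N) (Q : (ℕ → UnitAddCircle) → ℝ) (hQ : Continuous Q)
    (hdep : ∀ z z' : ℕ → UnitAddCircle, (∀ j < n, z j = z' j) → Q z = Q z')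
    (h : ℕ → UnitAddCircle → ℝ) (hh : ∀ k, Continuous (h k)) :
    ∫ z, W J N a z * (Q z * ∏ k ∈ Finset.Ico n N, h k (z k)) ∂tor =
      (∫ z, W J n a z * Q z ∂tor) * ∏ k ∈ Finset.Ico n N, ∫ w, pk (al J a k) w * h k w ∂mu := by
  have h1 := indep (fun z => W J n a z * Q z) ((continuous_W J n a).mul hQ) n
    (fun z z' hz => by rw [W_dep J n a z z' hz, hdep z z' hz])
    (fun k w => pk (al J a k) w * h k w)
    (fun k => (continuous_pk (norm_al_lt J a k)).mul (hh k)) N hN
  rw [← h1]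
  refine integral_congr_ae (Filter.Eventually.of_forall fun z => ?_)
  simp only
  rw [Finset.prod_mul_distrib]
  have e : W J N a z = W J n a z * ∏ k ∈ Finset.Ico n N, pk (al J a k) (z k) := by
    unfold W
    rw [Finset.prod_range_mul_prod_Ico _ hN]
  rw [e]; ring

lemma integral_W_mul' (J n N a : ℕ) (hN : n ≤ N) (Q : (ℕ → UnitAddCircle) → ℝ) (hQ : Continuous Q)
    (hdep : ∀ z z' : ℕ → UnitAddCircle, (∀ j < n, z j = z' j) → Q z = Q z') :
    ∫ z, W J N a z * Q z ∂tor = ∫ z, W J n a z * Q z ∂tor := by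
  have h1 := integral_W_mul J n N a hN Q hQ hdep (fun _ _ => 1) (fun _ => continuous_const)
  simp only [Finset.prod_const_one, mul_one] at h1
  rw [h1]
  have : ∏ k ∈ Finset.Ico n N, ∫ w, pk (al J a k) w ∂mu = 1 :=
    Finset.prod_eq_one fun k _ => integral_pk (norm_al_lt J a k)
  rw [this, mul_one]

lemma integral_W (J N a : ℕ) : ∫ z, W J N a z ∂tor = 1 := by
  have h1 := integral_W_mul' J 0 N a (Nat.zero_le _) (fun _ => 1) continuous_const
    (fun _ _ _ => rfl)
  simp only [mul_one] at h1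
  rw [h1]
  simp [W]

lemma integral_MM (J N : ℕ) (hJ : 1 ≤ J) : ∫ z, MM J N z ∂tor = 1 := by
  unfold MM
  rw [integral_const_mul, integral_finsetSum _ fun a _ => integrable_torR (continuous_W J N a)]
  simp_rw [integral_W]
  have hJ' : (J : ℝ) ≠ 0 := by positivity
  simp [hJ']

/-! ### arithmetic-geometric mean -/

lemma sum_exp_ge {ι : Type*} (S : Finset ι) (hS : S.Nonempty) (x : ι → ℝ) :
    (S.card : ℝ) * Real.exp ((1 / (S.card : ℝ)) * ∑ s ∈ S, x s) ≤ ∑ s ∈ S, Real.exp (x s) := by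
  have hS' : (0 : ℝ) < S.card := by exact_mod_cast hS.card_pos
  set m := (1 / (S.card : ℝ)) * ∑ s ∈ S, x s with hm
  have h1 : ∀ s ∈ S, Real.exp m * (1 + (x s - m)) ≤ Real.exp (x s) := by
    intro s _
    have h2 : Real.exp (x s) = Real.exp m * Real.exp (x s - m) := by
      rw [← Real.exp_add]; congr 1; ring
    rw [h2]
    refine mul_le_mul_of_nonneg_left ?_ (Real.exp_pos _).le
    have := Real.add_one_le_exp (x s - m)
    linarith
  refine le_trans (le_of_eq ?_) (Finset.sum_le_sum h1)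
  rw [← Finset.mul_sum, Finset.sum_add_distrib, Finset.sum_sub_distrib]
  have h3 : ∑ s ∈ S, x s = S.card * m := by rw [hm]; field_simp
  rw [h3]
  simp only [Finset.sum_const, nsmul_eq_mul]
  ring

/-- the block of `a` -/
def bl (m a : ℕ) : Finset ℕ := Finset.Ico (m * (a / m)) (m * (a / m) + m)

lemma mem_bl (m a : ℕ) (hm : 1 ≤ m) : a ∈ bl m a := by
  unfold bl
  rw [Finset.mem_Ico]
  have h1 := Nat.div_add_mod a m
  have h2 := Nat.mod_lt a (show 0 < m by omega)
  omega

lemma card_bl (m a : ℕ) : (bl m a).card = m := by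
  unfold bl; simp

lemma bl_nonempty (m a : ℕ) (hm : 1 ≤ m) : (bl m a).Nonempty := ⟨a, mem_bl m a hm⟩

lemma bl_subset (b m a : ℕ) (hm : 1 ≤ m) (ha : a < b * m) : bl m a ⊆ Finset.range (b * m) := by
  intro s hs
  unfold bl at hs
  rw [Finset.mem_Ico] at hs
  rw [Finset.mem_range]
  have h1 : a / m < b := (Nat.div_lt_iff_lt_mul (by omega)).2 ha
  have h2 : m * (a / m) + m ≤ b * m := by
    calc m * (a / m) + m = (a / m + 1) * m := by ring
      _ ≤ b * m := Nat.mul_le_mul_right m h1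
  omega

lemma abs_sub_bl (m a s : ℕ) (hm : 1 ≤ m) (hs : s ∈ bl m a) : |(s : ℝ) - a| ≤ m := by
  have ha := mem_bl m a hm
  unfold bl at hs ha
  rw [Finset.mem_Ico] at hs ha
  rw [abs_le]
  constructor
  · have : (a : ℝ) ≤ s + m := by
      have : a ≤ s + m := by omega
      exact_mod_cast this
    linarith
  · have : (s : ℝ) ≤ a + m := by
      have : s ≤ a + m := by omega
      exact_mod_cast this
    linarith

lemma MM_ge (b m N a : ℕ) (hm : 1 ≤ m) (hb : 1 ≤ b) (ha : a < b * m) (z : ℕ → UnitAddCircle) :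
    (1 / (b : ℝ)) * Real.exp (∑ k ∈ Finset.range N, gg (bl m a) (fun s => al (b * m) s k) (z k)) ≤
      MM (b * m) N z := by
  have hm' : (0 : ℝ) < m := by exact_mod_cast hm
  have hb' : (0 : ℝ) < b := by exact_mod_cast hb
  have h1 : ∑ s ∈ bl m a, W (b * m) N s z ≤ ∑ s ∈ Finset.range (b * m), W (b * m) N s z :=
    Finset.sum_le_sum_of_subset_of_nonneg (bl_subset b m a hm ha) fun s _ _ => (W_pos _ _ _ _).le
  have h2 : ∀ s, W (b * m) N s z =
      Real.exp (∑ k ∈ Finset.range N, Real.log (pk (al (b * m) s k) (z k))) := by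
    intro s
    unfold W
    rw [Real.exp_sum]
    refine Finset.prod_congr rfl fun k _ => ?_
    rw [Real.exp_log (pk_pos (norm_al_lt _ _ _) _)]
  have h3 := sum_exp_ge (bl m a) (bl_nonempty m a hm)
    (fun s => ∑ k ∈ Finset.range N, Real.log (pk (al (b * m) s k) (z k)))
  rw [card_bl] at h3
  simp_rw [h2] at h1
  have h4 : ∑ k ∈ Finset.range N, gg (bl m a) (fun s => al (b * m) s k) (z k) =
      (1 / (m : ℝ)) * ∑ s ∈ bl m a, ∑ k ∈ Finset.range N,
        Real.log (pk (al (b * m) s k) (z k)) := by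
    unfold gg
    rw [card_bl, ← Finset.mul_sum, Finset.sum_comm]
  rw [h4]
  unfold MM
  simp_rw [h2]
  have h5 := h3.trans h1
  calc (1 / (b : ℝ)) * Real.exp ((1 / (m : ℝ)) * ∑ s ∈ bl m a, ∑ k ∈ Finset.range N,
        Real.log (pk (al (b * m) s k) (z k)))
      = (1 / ((b * m : ℕ) : ℝ)) * (m * Real.exp ((1 / (m : ℝ)) * ∑ s ∈ bl m a,
        ∑ k ∈ Finset.range N, Real.log (pk (al (b * m) s k) (z k)))) := by
        push_cast; field_simp
    _ ≤ _ := by
        refine mul_le_mul_of_nonneg_left h5 (by positivity)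

/-! ### numbers -/

lemma one_add_sum_le_prod (S : Finset ℕ) (x : ℕ → ℝ) (hx : ∀ k ∈ S, 0 ≤ x k) :
    1 + ∑ k ∈ S, x k ≤ ∏ k ∈ S, (1 + x k) := by
  classical
  induction S using Finset.induction_on with
  | empty => simp
  | insert a S ha ih =>
    rw [Finset.sum_insert ha, Finset.prod_insert ha]
    have h1 := ih fun k hk => hx k (Finset.mem_insert_of_mem hk)
    have h2 := hx a (Finset.mem_insert_self a S)
    have h3 : 0 ≤ ∑ k ∈ S, x k := Finset.sum_nonneg fun k hk => hx k (Finset.mem_insert_of_mem hk)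
    nlinarith

lemma tail_large (n : ℕ) (V : ℝ) : ∃ B : ℕ, ∀ b ≥ B, n ≤ NN b ∧
    V ≤ ∑ k ∈ Finset.Ico n (NN b), (1 : ℝ) / (Nat.nth Nat.Prime k) := by
  have h1 := (sum_inv_tendsto.comp NN_tendsto).eventually_ge_atTop
    (V + ∑ k ∈ Finset.range n, (1 : ℝ) / (Nat.nth Nat.Prime k))
  have h2 := NN_tendsto.eventually_ge_atTop n
  obtain ⟨B, hB⟩ := Filter.eventually_atTop.1 (h1.and h2)
  refine ⟨B, fun b hb => ⟨(hB b hb).2, ?_⟩⟩
  have h3 := (hB b hb).1
  simp only [Function.comp] at h3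
  rw [← Finset.sum_range_add_sum_Ico _ (hB b hb).2] at h3
  linarith

/-- the lower bound for the sum of means -/
lemma sum_means (b J : ℕ) (hb : 2 ≤ b) (hJ : 2 * b ≤ J) (m : ℕ → ℝ)
    (hm : ∀ k < NN b, -Real.log (1 - qq J k) -
      4 * qq J k * (Real.log (Nat.nth Nat.Prime k) / b) ^ 2 ≤ m k) :
    Real.log (b / 4) - 48 ≤ ∑ k ∈ Finset.range (NN b), m k := by
  have hb0 : (0 : ℝ) < b := by
    have : 0 < b := by omega
    exact_mod_cast this
  have hJ0 : (0 : ℝ) < J := by
    have : 0 < J := by omega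
    exact_mod_cast this
  have h1 : ∑ k ∈ Finset.range (NN b), (-Real.log (1 - qq J k) -
      4 * qq J k * (Real.log (Nat.nth Nat.Prime k) / b) ^ 2) ≤ ∑ k ∈ Finset.range (NN b), m k :=
    Finset.sum_le_sum fun k hk => hm k (Finset.mem_range.1 hk)
  refine le_trans ?_ h1
  rw [Finset.sum_sub_distrib]
  have h2 : ∑ k ∈ Finset.range (NN b), -Real.log (1 - qq J k) =
      Real.log (Z ⌊Real.exp b⌋₊ (2 / J)) := by
    have h3 := prod_Z ⌊Real.exp b⌋₊ (2 / (J : ℝ))
    have h4 : ∏ k ∈ Finset.range (NN b), (1 - qq J k) = (Z ⌊Real.exp b⌋₊ (2 / J))⁻¹ := by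
      rw [← h3]; rfl
    rw [Finset.sum_neg_distrib, ← Real.log_prod, h4, Real.log_inv, neg_neg]
    intro k _
    have := qq_le_half J k
    linarith
  have h5 : Real.log (b / 4) ≤ Real.log (Z ⌊Real.exp b⌋₊ (2 / J)) :=
    Real.log_le_log (by positivity) (Z_low b hb J hJ)
  have h6 : ∑ k ∈ Finset.range (NN b), 4 * qq J k * (Real.log (Nat.nth Nat.Prime k) / b) ^ 2 ≤
      48 := by
    have h7 : ∀ k ∈ Finset.range (NN b),
        4 * qq J k * (Real.log (Nat.nth Nat.Prime k) / b) ^ 2 ≤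
        (4 / (b : ℝ) ^ 2) * ((Real.log (Nat.nth Nat.Prime k)) ^ 2 *
          (Nat.nth Nat.Prime k : ℝ) ^ (-(1 : ℝ))) := by
      intro k _
      have h8 := qq_le_inv J k
      have h9 := two_le_p k
      have h10 : (1 : ℝ) / (Nat.nth Nat.Prime k : ℝ) = (Nat.nth Nat.Prime k : ℝ) ^ (-(1 : ℝ)) := by
        rw [Real.rpow_neg (by linarith), Real.rpow_one, one_div]
      rw [h10] at h8
      calc 4 * qq J k * (Real.log (Nat.nth Nat.Prime k) / b) ^ 2
          = (4 / (b : ℝ) ^ 2) * ((Real.log (Nat.nth Nat.Prime k)) ^ 2 * qq J k) := by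
            field_simp
        _ ≤ _ := by gcongr
    refine (Finset.sum_le_sum h7).trans ?_
    rw [← Finset.mul_sum]
    have h11 := sum_primes_eq (fun p => (Real.log p) ^ 2 * (p : ℝ) ^ (-(1 : ℝ))) ⌊Real.exp b⌋₊
    have h12 := sum_log_sq b (by omega) ⌊Real.exp b⌋₊ (Nat.floor_le (Real.exp_pos _).le)
    have h13 : ∑ k ∈ Finset.range (NN b), ((Real.log (Nat.nth Nat.Prime k)) ^ 2 *
          (Nat.nth Nat.Prime k : ℝ) ^ (-(1 : ℝ))) ≤ 12 * (b : ℝ) ^ 2 := by
      refine le_trans (le_of_eq ?_) h12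
      exact h11
    calc (4 / (b : ℝ) ^ 2) * ∑ k ∈ Finset.range (NN b), ((Real.log (Nat.nth Nat.Prime k)) ^ 2 *
          (Nat.nth Nat.Prime k : ℝ) ^ (-(1 : ℝ))) ≤ (4 / (b : ℝ) ^ 2) * (12 * (b : ℝ) ^ 2) := by
          gcongr
      _ = 48 := by field_simp; norm_num
  linarith

lemma qq_ge (b J k : ℕ) (hb : 1 ≤ b) (hJ : 2 * b ≤ J) (hk : k < NN b) :
    (1 / 3) * (1 / (Nat.nth Nat.Prime k : ℝ)) ≤ qq J k := by
  have h2 := two_le_p k
  have hJ0 : (0 : ℝ) < J := by
    have : 0 < J := by omega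
    exact_mod_cast this
  have hlog := log_p_le b k hk
  have h3 : qq J k = (1 / (Nat.nth Nat.Prime k : ℝ)) *
      Real.exp (-(2 / J * Real.log (Nat.nth Nat.Prime k))) := by
    unfold qq
    rw [Real.rpow_def_of_pos (by linarith)]
    have h4 : Real.log (Nat.nth Nat.Prime k : ℝ) * -(1 + 2 / (J : ℝ)) =
        -Real.log (Nat.nth Nat.Prime k : ℝ) +
          -(2 / J * Real.log (Nat.nth Nat.Prime k)) := by ring
    rw [h4, Real.exp_add, Real.exp_neg, Real.exp_log (by linarith), one_div]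
  have h5 : 2 / (J : ℝ) * Real.log (Nat.nth Nat.Prime k) ≤ 1 := by
    rw [div_mul_eq_mul_div, div_le_one hJ0]
    have : (2 : ℝ) * b ≤ J := by exact_mod_cast hJ
    linarith
  have h6 : (1 : ℝ) / 3 ≤ Real.exp (-(2 / J * Real.log (Nat.nth Nat.Prime k))) := by
    have h7 : Real.exp (-1) ≤ Real.exp (-(2 / J * Real.log (Nat.nth Nat.Prime k))) :=
      Real.exp_le_exp.2 (by linarith)
    refine le_trans ?_ h7
    rw [Real.exp_neg, one_div]
    exact inv_anti₀ (Real.exp_pos _) (by linarith [Real.exp_one_lt_d9])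
  rw [h3, mul_comm]
  exact mul_le_mul_of_nonneg_left h6 (by positivity)

lemma inv_sqrt_bound (V : ℝ) (hV : 0 < V) (x : ℝ) (hx : Real.log 2 < Real.sqrt (12 / V) * x) :
    Real.sqrt V / 6 ≤ x := by
  have hl := Real.log_two_gt_d9
  have hsV : 0 < Real.sqrt V := Real.sqrt_pos.2 hV
  have h1 : Real.sqrt (12 / V) = Real.sqrt 12 / Real.sqrt V := by
    rw [Real.sqrt_div (by norm_num)]
  have h2 : Real.sqrt 12 ≤ 4 := by
    rw [Real.sqrt_le_left (by norm_num)]; norm_num
  rw [h1] at hx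
  have h3 : Real.log 2 * Real.sqrt V < Real.sqrt 12 * x := by
    have := mul_lt_mul_of_pos_right hx hsV
    have e : Real.sqrt 12 / Real.sqrt V * x * Real.sqrt V = Real.sqrt 12 * x := by
      field_simp
    rwa [e] at this
  have hx0 : 0 < x := by
    by_contra hneg
    push Not at hneg
    have : Real.sqrt 12 * x ≤ 0 := mul_nonpos_of_nonneg_of_nonpos (Real.sqrt_nonneg _) hneg
    have : 0 < Real.log 2 * Real.sqrt V := by positivity
    linarith
  have h4 : Real.sqrt 12 * x ≤ 4 * x := by gcongr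
  have h5 : 0.69 * Real.sqrt V ≤ Real.log 2 * Real.sqrt V := by
    apply mul_le_mul_of_nonneg_right _ hsV.le
    linarith
  linarith

/-- The block lemma. -/
theorem block (A : ℝ) (hA : 1 ≤ A) (n : ℕ) : ∃ B : ℕ, ∀ b ≥ B, n ≤ NN b ∧ 2 ≤ b ∧
    ∀ m : ℕ, 2 ≤ m → ∀ a < b * m, ∃ h : ℕ → UnitAddCircle → ℝ, (∀ k, Continuous (h k)) ∧
      (∀ k t, 0 < h k t) ∧
      4 ≤ ∏ k ∈ Finset.Ico n (NN b), ∫ t, pk (al (b * m) a k) t * h k t ∂mu ∧
      ∏ k ∈ Finset.Ico n (NN b), ∫ t, pk (al (b * m) a k) t * (h k t) ^ 2 ∂mu ≤ Real.exp 48 ∧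
      ∀ z : ℕ → UnitAddCircle, A ≤ MM (b * m) (NN b) z ∨
        ∏ k ∈ Finset.Ico n (NN b), h k (z k) ≤ 2 := by
  classical
  set V0 : ℝ := max 768 ((6 * (48 + 4 * n + Real.log (4 * A))) ^ 2) with hV0
  obtain ⟨B, hB⟩ := tail_large n (48 * V0)
  refine ⟨max B 2, fun b hb => ⟨(hB b (le_trans (le_max_left _ _) hb)).1,
    le_trans (le_max_right _ _) hb, fun m hm a ha => ?_⟩⟩
  have hnN := (hB b (le_trans (le_max_left _ _) hb)).1
  have htail := (hB b (le_trans (le_max_left _ _) hb)).2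
  have hb2 : 2 ≤ b := le_trans (le_max_right _ _) hb
  set J := b * m with hJ
  set N := NN b with hN
  have hJ2 : 2 * b ≤ J := by rw [hJ]; nlinarith
  have hm1 : 1 ≤ m := by omega
  have hb0 : (0 : ℝ) < b := by
    have : 0 < b := by omega
    exact_mod_cast this
  have hm0 : (0 : ℝ) < m := by exact_mod_cast hm1
  have hJr : (J : ℝ) = b * m := by rw [hJ]; push_cast; rfl
  -- the coordinate facts
  have hcoord : ∀ k : ℕ, ∃ mk vk : ℝ, k < N → |mk| ≤ 2 ∧
      -Real.log (1 - qq J k) - 4 * qq J k * (Real.log (Nat.nth Nat.Prime k) / b) ^ 2 ≤ mk ∧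
      qq J k / 16 ≤ vk ∧ ∀ l : ℝ, 0 ≤ l → l ≤ 1 / 8 →
        1 + l ^ 2 * vk / 4 ≤ ∫ t, pk (al J a k) t *
          Real.exp (l * (gg (bl m a) (fun s => al J s k) t - mk)) ∂mu ∧
        ∫ t, pk (al J a k) t * Real.exp (2 * l * (gg (bl m a) (fun s => al J s k) t - mk)) ∂mu ≤
          1 + 4 * l ^ 2 * vk := by
    intro k
    by_cases hk : k < N
    · have hlog := log_p_le b k hk
      have h2 := two_le_p k
      have hlog0 : 0 ≤ Real.log (Nat.nth Nat.Prime k : ℝ) := Real.log_nonneg (by linarith)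
      obtain ⟨mk, vk, h⟩ := coord (qq_pos J k) (qq_le_half J k)
        (Φ := Real.log (Nat.nth Nat.Prime k) / b) (by rw [div_le_one hb0]; exact hlog)
        (norm_al_sq J a k) (bl m a) (bl_nonempty m a hm1) (fun s => al J s k)
        (fun s _ => norm_al_sq J s k)
        (fun s => ((s : ℝ) - a) / J * Real.log (Nat.nth Nat.Prime k))
        (fun s hs => by
          rw [abs_mul, abs_of_nonneg hlog0, abs_div, hJr,
            abs_of_pos (by positivity : (0 : ℝ) < b * m)]
          have h3 := abs_sub_bl m a s hm1 hs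
          have h4 : |(s : ℝ) - a| / (b * m) ≤ 1 / b := by
            rw [div_le_div_iff₀ (by positivity) hb0]
            nlinarith
          calc |(s : ℝ) - a| / (b * m) * Real.log (Nat.nth Nat.Prime k) ≤
              1 / b * Real.log (Nat.nth Nat.Prime k) := by gcongr
            _ = _ := by ring)
        (fun s _ => al_mul_conj J s a k)
      exact ⟨mk, vk, fun _ => h⟩
    · exact ⟨0, 0, fun h => absurd h hk⟩
  choose mk vk hmv using hcoord
  set V : ℝ := ∑ k ∈ Finset.Ico n N, vk k with hVdef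
  have hVV0 : V0 ≤ V := by
    have h1 : ∀ k ∈ Finset.Ico n N, (1 / 48) * (1 / (Nat.nth Nat.Prime k : ℝ)) ≤ vk k := by
      intro k hk
      rw [Finset.mem_Ico] at hk
      have h2 := (hmv k hk.2).2.2.1
      have h3 := qq_ge b J k (by omega) hJ2 hk.2
      linarith
    have h4 := Finset.sum_le_sum h1
    rw [← Finset.mul_sum] at h4
    linarith
  have hV768 : 768 ≤ V := le_trans (le_max_left _ _) hVV0
  have hVpos : 0 < V := by linarith
  have hVbig : (6 * (48 + 4 * n + Real.log (4 * A))) ^ 2 ≤ V := le_trans (le_max_right _ _) hVV0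
  have hsqrtV : 48 + 4 * n + Real.log (4 * A) ≤ Real.sqrt V / 6 := by
    have h1 := Real.le_sqrt_of_sq_le hVbig
    linarith
  set l : ℝ := Real.sqrt (12 / V) with hl
  have hl0 : 0 ≤ l := Real.sqrt_nonneg _
  have hl2 : l ^ 2 = 12 / V := Real.sq_sqrt (by positivity)
  have hl8 : l ≤ 1 / 8 := by
    rw [hl, Real.sqrt_le_left (by norm_num), div_le_iff₀ hVpos]
    linarith
  have hvk0 : ∀ k ∈ Finset.Ico n N, 0 ≤ vk k := by
    intro k hk
    rw [Finset.mem_Ico] at hk
    have h2 := (hmv k hk.2).2.2.1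
    have h3 := qq_pos J k
    linarith
  have hlV : l ^ 2 * V = 12 := by rw [hl2]; field_simp
  have hcg : ∀ k, Continuous (gg (bl m a) (fun s => al J s k)) := fun k =>
    continuous_gg _ _ fun s _ => norm_al_sq_le J s k
  refine ⟨fun k t => Real.exp (l * (gg (bl m a) (fun s => al J s k) t - mk k)),
    fun k => Real.continuous_exp.comp (continuous_const.mul ((hcg k).sub continuous_const)),
    fun k t => Real.exp_pos _, ?_, ?_, ?_⟩
  · -- first moment
    have h1 : ∏ k ∈ Finset.Ico n N, (1 + l ^ 2 * vk k / 4) ≤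
        ∏ k ∈ Finset.Ico n N, ∫ t, pk (al J a k) t *
          Real.exp (l * (gg (bl m a) (fun s => al J s k) t - mk k)) ∂mu := by
      refine Finset.prod_le_prod (fun k hk => ?_) fun k hk => ?_
      · have := hvk0 k hk; positivity
      · rw [Finset.mem_Ico] at hk
        exact ((hmv k hk.2).2.2.2 l hl0 hl8).1
    refine le_trans ?_ h1
    refine le_trans ?_ (one_add_sum_le_prod _ _ fun k hk => by
      have := hvk0 k hk; positivity)
    have h2 : ∑ k ∈ Finset.Ico n N, l ^ 2 * vk k / 4 = l ^ 2 * V / 4 := by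
      rw [hVdef, Finset.mul_sum, Finset.sum_div]
    rw [h2, hlV]; norm_num
  · -- second moment
    have h1 : ∏ k ∈ Finset.Ico n N, ∫ t, pk (al J a k) t *
          (Real.exp (l * (gg (bl m a) (fun s => al J s k) t - mk k))) ^ 2 ∂mu ≤
        ∏ k ∈ Finset.Ico n N, Real.exp (4 * l ^ 2 * vk k) := by
      refine Finset.prod_le_prod (fun k hk => ?_) fun k hk => ?_
      · refine integral_nonneg fun t => ?_
        have := pk_pos (norm_al_lt J a k) t
        positivity
      · rw [Finset.mem_Ico] at hk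
        have h2 := ((hmv k hk.2).2.2.2 l hl0 hl8).2
        have h3 := Real.add_one_le_exp (4 * l ^ 2 * vk k)
        have h4 : ∀ t, (Real.exp (l * (gg (bl m a) (fun s => al J s k) t - mk k))) ^ 2 =
            Real.exp (2 * l * (gg (bl m a) (fun s => al J s k) t - mk k)) := by
          intro t
          rw [← Real.exp_nat_mul]; congr 1; push_cast; ring
        simp_rw [h4]
        linarith
    refine h1.trans (le_of_eq ?_)
    rw [← Real.exp_sum]
    congr 1
    rw [← Finset.mul_sum, ← hVdef, mul_assoc, hlV]; norm_num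
  · -- dichotomy
    intro z
    by_cases hz : ∏ k ∈ Finset.Ico n N, Real.exp (l * (gg (bl m a) (fun s => al J s k) (z k) -
        mk k)) ≤ 2
    · exact Or.inr hz
    · left
      push Not at hz
      rw [← Real.exp_sum] at hz
      have h1 : Real.log 2 < l * ∑ k ∈ Finset.Ico n N,
          (gg (bl m a) (fun s => al J s k) (z k) - mk k) := by
        rw [Finset.mul_sum]
        rw [Real.log_lt_iff_lt_exp (by norm_num)]
        exact hz
      have h2 := inv_sqrt_bound V hVpos _ h1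
      have h3 := MM_ge b m N a hm1 (by omega) ha z
      refine le_trans ?_ h3
      have h4 := sum_means b J hb2 hJ2 mk (fun k hk => (hmv k hk).2.1)
      rw [← hN] at h4
      have h5 : ∑ k ∈ Finset.range N, gg (bl m a) (fun s => al J s k) (z k) =
          ∑ k ∈ Finset.range N, mk k + ∑ k ∈ Finset.range N,
            (gg (bl m a) (fun s => al J s k) (z k) - mk k) := by
        rw [← Finset.sum_add_distrib]
        refine Finset.sum_congr rfl fun k _ => by ring
      have h6 : ∑ k ∈ Finset.range N, (gg (bl m a) (fun s => al J s k) (z k) - mk k) =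
          ∑ k ∈ Finset.range n, (gg (bl m a) (fun s => al J s k) (z k) - mk k) +
          ∑ k ∈ Finset.Ico n N, (gg (bl m a) (fun s => al J s k) (z k) - mk k) := by
        rw [Finset.sum_range_add_sum_Ico _ hnN]
      have h7 : -(4 * (n : ℝ)) ≤
          ∑ k ∈ Finset.range n, (gg (bl m a) (fun s => al J s k) (z k) - mk k) := by
        have h8 : ∀ k ∈ Finset.range n, (-4 : ℝ) ≤
            gg (bl m a) (fun s => al J s k) (z k) - mk k := by
          intro k hk
          rw [Finset.mem_range] at hk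
          have h9 := abs_gg_le (bl m a) (fun s => al J s k) (fun s _ => norm_al_sq_le J s k) (z k)
          have h10 := (hmv k (by omega)).1
          rw [abs_le] at h9 h10
          linarith [h9.1, h10.2]
        have := Finset.card_nsmul_le_sum _ _ _ h8
        rw [Finset.card_range, nsmul_eq_mul] at this
        linarith
      have h11 : Real.log (b * A) ≤
          ∑ k ∈ Finset.range N, gg (bl m a) (fun s => al J s k) (z k) := by
        rw [h5, h6]
        have h12 : Real.log (b * A) = Real.log (b / 4) + Real.log (4 * A) := by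
          rw [← Real.log_mul (by positivity) (by positivity)]
          congr 1; ring
        rw [h12]
        linarith
      rw [Real.log_le_iff_le_exp (by positivity)] at h11
      rw [one_div, ← div_eq_inv_mul, le_div_iff₀ hb0]
      linarith

end Pool.Agent.Helper873.Block
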