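import Mathlib

set_option autoImplicit false
open MeasureTheory
open scoped ENNReal

namespace Pool.Agent.Helper873.Carleson

/-- Abstract Carleson embedding by weighted Cauchy-Schwarz. -/
theorem carleson {T Z : Type*} [MeasurableSpace T] [MeasurableSpace Z] (τ : Measure T)
    (μ : Measure Z) [SFinite τ] [SFinite μ] (K : T → Z → ℝ≥0∞)
    (hK : Measurable (Function.uncurry K))
    (hS0 : ∀ z, ∫⁻ t, K t z ∂τ ≠ 0) (hSt : ∀ z, ∫⁻ t, K t z ∂τ ≠ ⊤)
    (φ : Z → ℝ≥0∞) (hφ : Measurable φ) (a : T → ℝ≥0∞)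
    (ha : ∀ᵐ t ∂τ, a t ≤ ∫⁻ z, φ z * K t z ∂μ) (C : ℝ≥0∞)
    (hC : ∀ᵐ t ∂τ, ∫⁻ s, ∫⁻ z, K t z * K s z ∂μ ∂τ ≤ C) :
    ∫⁻ t, a t ^ 2 ∂τ ≤ C * ∫⁻ z, φ z ^ 2 ∂μ := by
  set S : Z → ℝ≥0∞ := fun z => ∫⁻ t, K t z ∂τ with hS
  have hSm : Measurable S := Measurable.lintegral_prod_left' hK
  have hKm : ∀ t, Measurable (K t) := fun t => hK.comp measurable_prodMk_left
  have key : ∀ᵐ t ∂τ, a t ^ 2 ≤ C * ∫⁻ z, φ z ^ 2 * K t z / S z ∂μ := by
    filter_upwards [ha, hC] with t hat hCt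
    have h1 : ∫⁻ z, φ z * K t z ∂μ ≤
        (∫⁻ z, (φ z * (K t z / S z) ^ (1 / 2 : ℝ)) ^ (2 : ℝ) ∂μ) ^ (1 / 2 : ℝ) *
        (∫⁻ z, ((K t z * S z) ^ (1 / 2 : ℝ)) ^ (2 : ℝ) ∂μ) ^ (1 / 2 : ℝ) := by
      have hh := ENNReal.lintegral_mul_le_Lp_mul_Lq μ (Real.HolderConjugate.two_two)
        (f := fun z => φ z * (K t z / S z) ^ (1 / 2 : ℝ)) (g := fun z => (K t z * S z) ^ (1 / 2 : ℝ))
        (by
          refine (hφ.mul ?_).aemeasurable
          exact ((hKm t).div hSm).pow_const _)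
        (by
          refine Measurable.aemeasurable ?_
          exact ((hKm t).mul hSm).pow_const _)
      refine le_trans (le_of_eq ?_) hh
      refine lintegral_congr fun z => ?_
      simp only [Pi.mul_apply]
      rw [mul_assoc, ← ENNReal.mul_rpow_of_nonneg _ _ (by norm_num)]
      have e : K t z / S z * (K t z * S z) = K t z ^ (2 : ℝ) := by
        rw [ENNReal.div_eq_inv_mul]
        calc (S z)⁻¹ * K t z * (K t z * S z) = (S z)⁻¹ * S z * (K t z * K t z) := by ring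
          _ = K t z ^ (2 : ℝ) := by
            rw [ENNReal.inv_mul_cancel (hS0 z) (hSt z), one_mul]
            norm_cast
            ring
      rw [e, ← ENNReal.rpow_mul]
      norm_num
    have e1 : ∫⁻ z, (φ z * (K t z / S z) ^ (1 / 2 : ℝ)) ^ (2 : ℝ) ∂μ =
        ∫⁻ z, φ z ^ 2 * K t z / S z ∂μ := by
      refine lintegral_congr fun z => ?_
      rw [ENNReal.mul_rpow_of_nonneg _ _ (by norm_num), ← ENNReal.rpow_mul]
      norm_num
      rw [mul_div_assoc]
    have e2 : ∫⁻ z, ((K t z * S z) ^ (1 / 2 : ℝ)) ^ (2 : ℝ) ∂μ ≤ C := by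
      refine le_trans (le_of_eq ?_) hCt
      have e3 : ∫⁻ s, ∫⁻ z, K t z * K s z ∂μ ∂τ = ∫⁻ z, ∫⁻ s, K t z * K s z ∂τ ∂μ := by
        refine lintegral_lintegral_swap ?_
        refine Measurable.aemeasurable ?_
        exact ((hKm t).comp measurable_snd).mul hK
      rw [e3]
      refine lintegral_congr fun z => ?_
      rw [← ENNReal.rpow_mul]
      norm_num
      rw [lintegral_const_mul]
      exact hK.comp measurable_prodMk_right
    have h2 : a t ^ 2 ≤ ((∫⁻ z, φ z ^ 2 * K t z / S z ∂μ) ^ (1 / 2 : ℝ) * C ^ (1 / 2 : ℝ)) ^ 2 := by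
      refine pow_le_pow_left' ?_ 2
      refine hat.trans (h1.trans ?_)
      rw [e1]
      refine mul_le_mul_right ?_ _
      exact ENNReal.rpow_le_rpow e2 (by norm_num)
    refine h2.trans (le_of_eq ?_)
    rw [mul_pow, ← ENNReal.rpow_natCast, ← ENNReal.rpow_natCast, ← ENNReal.rpow_mul,
      ← ENNReal.rpow_mul]
    norm_num
    rw [mul_comm]
  calc ∫⁻ t, a t ^ 2 ∂τ ≤ ∫⁻ t, C * ∫⁻ z, φ z ^ 2 * K t z / S z ∂μ ∂τ := lintegral_mono_ae key
    _ = C * ∫⁻ t, ∫⁻ z, φ z ^ 2 * K t z / S z ∂μ ∂τ := by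
      rw [lintegral_const_mul]
      refine Measurable.lintegral_prod_right' (f := fun p : T × Z => φ p.2 ^ 2 * K p.1 p.2 / S p.2) ?_
      exact (((hφ.comp measurable_snd).pow_const 2).mul hK).div (hSm.comp measurable_snd)
    _ = C * ∫⁻ z, ∫⁻ t, φ z ^ 2 * K t z / S z ∂τ ∂μ := by
      congr 1
      refine lintegral_lintegral_swap ?_
      refine Measurable.aemeasurable ?_
      exact (((hφ.comp measurable_snd).pow_const 2).mul hK).div (hSm.comp measurable_snd)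
    _ = C * ∫⁻ z, φ z ^ 2 ∂μ := by
      congr 1
      refine lintegral_congr fun z => ?_
      have e4 : ∀ t, φ z ^ 2 * K t z / S z = φ z ^ 2 * (S z)⁻¹ * K t z := by
        intro t
        rw [ENNReal.div_eq_inv_mul]
        ring
      simp_rw [e4]
      have hKz : Measurable fun t => K t z := hK.comp measurable_prodMk_right
      rw [lintegral_const_mul _ hKz, mul_assoc]
      change φ z ^ 2 * ((S z)⁻¹ * S z) = φ z ^ 2
      rw [ENNReal.inv_mul_cancel (hS0 z) (hSt z), mul_one]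

end Pool.Agent.Helper873.Carleson
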