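import Pool.Agent.Helper873.Block

set_option autoImplicit false
open MeasureTheory Metric Filter
open scoped ComplexConjugate ENNReal Topology

namespace Pool.Agent.Helper873.Cartan

open Pool.Agent.Helper873.OneVar Pool.Agent.Helper873.Product Pool.Agent.Helper873.Pk
  Pool.Agent.Helper873.Block

/-- Cartan's identity, one-sided form -/
lemma cartan_circle (A B : ℂ) (hB : B ≠ 0) (ρ : ℝ) (hρ : 0 < ρ) :
    Real.log ‖B‖ ≤ Real.circleAverage (fun z => Real.log (max ‖A + z * B‖ ρ)) 0 1 := by
  classical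
  set u : ℂ := -A / B with hu
  have hnB : 0 < ‖B‖ := norm_pos_iff.2 hB
  let f2 : ℂ → ℝ := fun z => Real.log (max ‖A + z * B‖ ρ)
  let f1 : ℂ → ℝ := fun z => Real.log ‖B‖ + Real.log ‖z - u‖
  let f1' : ℂ → ℝ := fun z => if z = u then f2 z else f1 z
  have hf2c : Continuous f2 := by
    refine Continuous.log ?_ fun z => (lt_of_lt_of_le hρ (le_max_right _ _)).ne'
    exact ((continuous_const.add (continuous_id.mul continuous_const)).norm).max continuous_const
  have hf2i : CircleIntegrable f2 0 1 := hf2c.continuousOn.circleIntegrable'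
  have hf1i : CircleIntegrable f1 0 1 :=
    (circleIntegrable_const _ _ _).add (circleIntegrable_log_norm_sub_const 1)
  have hcod : f1 =ᶠ[codiscreteWithin (sphere (0 : ℂ) |1|)] f1' := by
    filter_upwards [compl_singleton_mem_codiscreteWithin u] with z hz
    have hz' : z ≠ u := hz
    simp only [f1']
    rw [if_neg hz']
  have hf1i' : CircleIntegrable f1' 0 1 := hf1i.congr_codiscreteWithin hcod
  have hle : ∀ z ∈ sphere (0 : ℂ) |1|, f1' z ≤ f2 z := by
    intro z _
    simp only [f1']
    by_cases hz : z = u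
    · rw [if_pos hz]
    · rw [if_neg hz]
      simp only [f1, f2]
      have h1 : ‖A + z * B‖ = ‖B‖ * ‖z - u‖ := by
        rw [← norm_mul]
        congr 1
        rw [hu]; field_simp; ring
      have h2 : 0 < ‖z - u‖ := norm_pos_iff.2 (sub_ne_zero.2 hz)
      rw [← Real.log_mul hnB.ne' h2.ne', ← h1]
      refine Real.log_le_log ?_ (le_max_left _ _)
      rw [h1]; positivity
  have h1 := Real.circleAverage_mono hf1i' hf2i hle
  have h2 := Real.circleAverage_congr_codiscreteWithin (c := (0 : ℂ)) (R := 1) hcod one_ne_zero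
  rw [← h2] at h1
  refine le_trans ?_ h1
  have h3 : Real.circleAverage f1 0 1 = Real.log ‖B‖ + Real.posLog ‖u‖ := by
    have h4 := Real.circleAverage_fun_add (circleIntegrable_const (Real.log ‖B‖) 0 1)
      (circleIntegrable_log_norm_sub_const (a := u) (c := 0) 1)
    have h5 := circleAverage_log_norm_sub_const_eq_posLog (a := u)
    rw [Real.circleAverage_const, h5] at h4
    exact h4
  rw [h3]
  have := Real.posLog_nonneg (x := ‖u‖)
  linarith

lemma cartan_one (A B : ℂ) (hB : B ≠ 0) (ρ : ℝ) (hρ : 0 < ρ) :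
    Real.log ‖B‖ ≤ ∫ w, Real.log (max ‖A + zet w * B‖ ρ) ∂mu := by
  have h := cartan_circle A B hB ρ hρ
  rw [← integral_zet] at h
  exact h

lemma integral_zet_mul (c : ℂ) : ∫ t, c * zet t ∂mu = 0 := by
  have h4 := integral_zet (fun z : ℂ => c * z)
  rw [h4]
  have h5 : Differentiable ℂ (fun z : ℂ => c * z) := by fun_prop
  rw [DiffContOnCl.circleAverage (f := fun z : ℂ => c * z) (c := 0) (R := 1)
    h5.diffContOnCl]
  simp

lemma integral_re_zet_mul (c : ℂ) : ∫ t, (c * zet t).re ∂mu = 0 := by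
  have h5 := integral_re (μ := mu) (f := fun t => c * zet t)
    (integrable_cont (continuous_const.mul continuous_zet))
  simp only [RCLike.re_eq_complex_re] at h5
  rw [h5, integral_zet_mul]
  simp

lemma integral_sq_one (A B : ℂ) : ∫ w, ‖A + zet w * B‖ ^ 2 ∂mu = ‖A‖ ^ 2 + ‖B‖ ^ 2 := by
  have e : ∀ w, ‖A + zet w * B‖ ^ 2 = (‖A‖ ^ 2 + ‖B‖ ^ 2) + 2 * ((conj A * B) * zet w).re := by
    intro w
    rw [← Complex.normSq_eq_norm_sq, Complex.normSq_add, Complex.normSq_eq_norm_sq,
      Complex.normSq_eq_norm_sq, norm_mul, norm_zet, one_mul]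
    congr 2
    have : (A * conj (zet w * B)).re = (conj (A * conj (zet w * B))).re := by
      rw [Complex.conj_re]
    rw [this]
    simp only [map_mul, Complex.conj_conj]
    ring_nf
  simp_rw [e]
  rw [integral_add (integrable_const _), integral_const_mul, integral_re_zet_mul]
  · simp
  · exact (integrable_cont (Complex.continuous_re.comp
      (continuous_const.mul continuous_zet))).const_mul _

/-- random sum -/
noncomputable def rs (J : ℕ) (x : ℕ → ℂ) (θ : ℕ → UnitAddCircle) : ℂ :=
  ∑ a ∈ Finset.range J, zet (θ a) * x a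

lemma continuous_rs (J : ℕ) (x : ℕ → ℂ) : Continuous (rs J x) :=
  continuous_finsetSum _ fun a _ => (continuous_zet.comp (continuous_apply a)).mul
    continuous_const

lemma rs_update (J : ℕ) (x : ℕ → ℂ) (θ : ℕ → UnitAddCircle) (a : ℕ) (ha : a < J)
    (w : UnitAddCircle) : rs J x (Function.update θ a w) =
      (∑ b ∈ (Finset.range J).erase a, zet (θ b) * x b) + zet w * x a := by
  unfold rs
  rw [← Finset.sum_erase_add _ _ (Finset.mem_range.2 ha), Function.update_self]
  congr 1
  refine Finset.sum_congr rfl fun b hb => ?_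
  rw [Function.update_of_ne (Finset.ne_of_mem_erase hb)]

lemma cartan (J : ℕ) (x : ℕ → ℂ) (a : ℕ) (ha : a < J) (hx : x a ≠ 0) (ρ : ℝ) (hρ : 0 < ρ) :
    Real.log ‖x a‖ ≤ ∫ θ, Real.log (max ‖rs J x θ‖ ρ) ∂tor := by
  have hc : Continuous fun θ => Real.log (max ‖rs J x θ‖ ρ) := by
    refine Continuous.log ?_ fun z => (lt_of_lt_of_le hρ (le_max_right _ _)).ne'
    exact ((continuous_rs J x).norm).max continuous_const
  rw [integral_resampleR a _ hc]
  have h1 : ∀ θ : ℕ → UnitAddCircle, Real.log ‖x a‖ ≤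
      ∫ w, Real.log (max ‖rs J x (Function.update θ a w)‖ ρ) ∂mu := by
    intro θ
    simp_rw [rs_update J x θ a ha]
    exact cartan_one _ _ hx ρ hρ
  have hint : Integrable (fun θ : ℕ → UnitAddCircle =>
      ∫ w, Real.log (max ‖rs J x (Function.update θ a w)‖ ρ) ∂mu) tor := by
    have h2 : Integrable (fun p : (ℕ → UnitAddCircle) × UnitAddCircle =>
        Real.log (max ‖rs J x (Function.update p.1 a p.2)‖ ρ)) (tor.prod mu) :=
      (resample a).integrable_comp_of_integrable (integrable_torR hc)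
    exact h2.integral_prod_left
  have h3 := integral_mono (integrable_const (Real.log ‖x a‖)) hint h1
  simpa using h3

lemma integral_sq (J : ℕ) (x : ℕ → ℂ) :
    ∫ θ, ‖rs J x θ‖ ^ 2 ∂tor = ∑ a ∈ Finset.range J, ‖x a‖ ^ 2 := by
  induction J with
  | zero => simp [rs]
  | succ J ih =>
    rw [integral_resampleR J (fun θ => ‖rs (J + 1) x θ‖ ^ 2) ((continuous_rs (J + 1) x).norm.pow 2)]
    have e : ∀ θ : ℕ → UnitAddCircle, ∀ w, rs (J + 1) x (Function.update θ J w) =
        rs J x θ + zet w * x J := by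
      intro θ w
      rw [rs_update (J + 1) x θ J (Nat.lt_succ_self J)]
      congr 1
      unfold rs
      refine Finset.sum_congr ?_ fun _ _ => rfl
      ext b
      simp only [Finset.mem_erase, Finset.mem_range]
      omega
    simp_rw [e, integral_sq_one]
    have hi : Integrable (fun θ => ‖rs J x θ‖ ^ 2) tor :=
      integrable_torR ((continuous_rs J x).norm.pow 2)
    rw [integral_add hi (integrable_const _), ih, Finset.sum_range_succ]
    simp

lemma integral_norm_le (J : ℕ) (x : ℕ → ℂ) (M : ℝ) (hM : 0 < M)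
    (h : ∑ a ∈ Finset.range J, ‖x a‖ ^ 2 ≤ M) : ∫ θ, ‖rs J x θ‖ ∂tor ≤ Real.sqrt M := by
  have hs : 0 < Real.sqrt M := Real.sqrt_pos.2 hM
  have h1 : ∀ θ, ‖rs J x θ‖ ≤ Real.sqrt M / 2 + 1 / (2 * Real.sqrt M) * ‖rs J x θ‖ ^ 2 := by
    intro θ
    have h2 : Real.sqrt M / 2 + 1 / (2 * Real.sqrt M) * ‖rs J x θ‖ ^ 2 - ‖rs J x θ‖ =
        1 / (2 * Real.sqrt M) * (Real.sqrt M - ‖rs J x θ‖) ^ 2 := by
      field_simp; ring
    have h3 : 0 ≤ 1 / (2 * Real.sqrt M) * (Real.sqrt M - ‖rs J x θ‖) ^ 2 := by positivity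
    linarith
  have hi : Integrable (fun θ => ‖rs J x θ‖ ^ 2) tor :=
    integrable_torR ((continuous_rs J x).norm.pow 2)
  have h4 := integral_mono (integrable_torR (continuous_rs J x).norm)
    ((integrable_const (Real.sqrt M / 2)).add (hi.const_mul (1 / (2 * Real.sqrt M)))) h1
  refine h4.trans ?_
  simp only [Pi.add_apply]
  have hc0 : ∫ _ : ℕ → UnitAddCircle, Real.sqrt M / 2 ∂tor = Real.sqrt M / 2 := by simp
  rw [integral_add (integrable_const _) (hi.const_mul _), integral_const_mul, integral_sq, hc0]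
  have h5 : 1 / (2 * Real.sqrt M) * ∑ a ∈ Finset.range J, ‖x a‖ ^ 2 ≤
      1 / (2 * Real.sqrt M) * M := by gcongr
  have h6 : 1 / (2 * Real.sqrt M) * M = Real.sqrt M / 2 := by
    have := Real.mul_self_sqrt hM.le
    field_simp
    linarith
  linarith

end Pool.Agent.Helper873.Cartan
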