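import Mathlib

set_option autoImplicit false
open MeasureTheory
open scoped ENNReal ComplexConjugate

namespace Pool.Agent.Helper873.Dual

/-- Hahn-Banach for a functional given through a linear parametrisation. -/
lemma exists_clm {V L : Type*} [AddCommGroup V] [Module ℂ V] [NormedAddCommGroup L]
    [NormedSpace ℂ L] (T : V →ₗ[ℂ] L) (l : V →ₗ[ℂ] ℂ) (C : ℝ)
    (h : ∀ v, ‖l v‖ ≤ C * ‖T v‖) :
    ∃ g : L →L[ℂ] ℂ, ∀ v, g (T v) = l v := by
  classical
  obtain ⟨s, hs⟩ := T.rangeRestrict.exists_rightInverse_of_surjective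
    (LinearMap.range_rangeRestrict T)
  have hTs : ∀ w : LinearMap.range T, T (s w) = w := by
    intro w
    have := congrArg (fun φ : LinearMap.range T →ₗ[ℂ] LinearMap.range T => φ w) hs
    simp only [LinearMap.comp_apply, LinearMap.id_apply] at this
    have h2 := congrArg (Subtype.val) this
    simpa using h2
  let l0 : LinearMap.range T →ₗ[ℂ] ℂ := l.comp s
  have hl0 : ∀ w, ‖l0 w‖ ≤ C * ‖w‖ := by
    intro w
    have := h (s w)
    rw [hTs w] at this
    exact this
  let l1 : LinearMap.range T →L[ℂ] ℂ := l0.mkContinuous C hl0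
  obtain ⟨g, hg, -⟩ := exists_extension_norm_eq (LinearMap.range T) l1
  refine ⟨g, fun v => ?_⟩
  have h1 := hg ⟨T v, LinearMap.mem_range_self T v⟩
  simp only at h1
  rw [h1]
  change l (s ⟨T v, _⟩) = l v
  have h2 : ‖l (s ⟨T v, LinearMap.mem_range_self T v⟩ - v)‖ ≤ 0 := by
    refine (h _).trans ?_
    rw [map_sub, hTs]
    simp
  have h3 : l (s ⟨T v, LinearMap.mem_range_self T v⟩ - v) = 0 := by
    simpa using h2
  rw [map_sub, sub_eq_zero] at h3
  exact h3

/-- Bounded functionals on `L¹` of a probability space are given by bounded functions. -/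
lemma exists_bounded_of_clm {Ω : Type*} [MeasurableSpace Ω] (P : Measure Ω)
    [IsProbabilityMeasure P] (g : Lp ℂ 1 P →L[ℂ] ℂ) :
    ∃ f : Ω → ℂ, MemLp f ⊤ P ∧
      ∀ (φ : Ω → ℂ) (_ : MemLp φ 2 P) (h1 : MemLp φ 1 P), ∫ x, φ x * f x ∂P = g (h1.toLp φ) := by
  classical
  -- inclusion
  let incl : Lp ℂ 2 P →ₗ[ℂ] Lp ℂ 1 P :=
    { toFun := fun φ => ((Lp.memLp φ).mono_exponent (by norm_num : (1 : ℝ≥0∞) ≤ 2)).toLp φ
      map_add' := by
        intro a b
        rw [← MemLp.toLp_add, MemLp.toLp_eq_toLp_iff]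
        exact Lp.coeFn_add a b
      map_smul' := by
        intro c a
        rw [RingHom.id_apply, ← MemLp.toLp_const_smul, MemLp.toLp_eq_toLp_iff]
        exact Lp.coeFn_smul c a }
  have hincl : ∀ φ, ‖incl φ‖ ≤ 1 * ‖φ‖ := by
    intro φ
    rw [one_mul]
    change ‖MemLp.toLp (φ : Ω → ℂ)
      ((Lp.memLp φ).mono_exponent (by norm_num : (1 : ℝ≥0∞) ≤ 2))‖ ≤ _
    rw [Lp.norm_toLp, Lp.norm_def]
    refine ENNReal.toReal_mono (Lp.eLpNorm_ne_top φ) ?_
    exact eLpNorm_le_eLpNorm_of_exponent_le (by norm_num) (Lp.aestronglyMeasurable φ)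
  let inclC : Lp ℂ 2 P →L[ℂ] Lp ℂ 1 P := incl.mkContinuous 1 hincl
  let G : StrongDual ℂ (Lp ℂ 2 P) := g.comp inclC
  let h : Lp ℂ 2 P := (InnerProductSpace.toDual ℂ (Lp ℂ 2 P)).symm G
  have hG : ∀ φ : Lp ℂ 2 P, inner ℂ h φ = g (incl φ) := by
    intro φ
    have : inner ℂ h φ = G φ := InnerProductSpace.toDual_symm_apply
    rw [this]
    rfl
  let f : Ω → ℂ := fun x => conj (h x)
  have hf2 : MemLp f 2 P := by
    have := (Lp.memLp h).star
    exact this
  -- the pairing
  have hpair : ∀ (φ : Ω → ℂ) (h2 : MemLp φ 2 P) (h1 : MemLp φ 1 P),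
      ∫ x, φ x * f x ∂P = g (h1.toLp φ) := by
    intro φ h2 h1
    have e1 : incl (h2.toLp φ) = h1.toLp φ := by
      change MemLp.toLp (h2.toLp φ : Ω → ℂ)
        ((Lp.memLp (h2.toLp φ)).mono_exponent (by norm_num : (1 : ℝ≥0∞) ≤ 2)) = _
      rw [MemLp.toLp_eq_toLp_iff]
      exact h2.coeFn_toLp
    rw [← e1, ← hG, L2.inner_def]
    refine integral_congr_ae ?_
    filter_upwards [h2.coeFn_toLp] with x hx
    rw [hx]
    simp [f, RCLike.inner_apply]
  have hfint : Integrable f P := memLp_one_iff_integrable.1 (hf2.mono_exponent (by norm_num))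
  -- the bound
  have hbd : ∀ᵐ x ∂P, ‖f x‖ ≤ ‖g‖ := by
    have key : (fun x => ‖f x‖) ≤ᵐ[P] fun _ => ‖g‖ := by
      refine ae_le_of_forall_setIntegral_le hfint.norm (integrable_const _) ?_
      intro s hs _
      -- test function
      let φ : Ω → ℂ := s.indicator (fun x => conj (f x) / (‖f x‖ : ℂ))
      have hφm : AEStronglyMeasurable φ P := by
        refine AEStronglyMeasurable.indicator ?_ hs
        have hm : AEMeasurable f P := hf2.1.aemeasurable
        exact ((Complex.continuous_conj.measurable.comp_aemeasurable hm).div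
          (Complex.measurable_ofReal.comp_aemeasurable hm.norm)).aestronglyMeasurable
      have hφb : ∀ x, ‖φ x‖ ≤ s.indicator (fun _ => (1 : ℝ)) x := by
        intro x
        by_cases hx : x ∈ s
        · simp only [φ, Set.indicator_of_mem hx]
          rw [norm_div, RCLike.norm_conj, Complex.norm_real, norm_norm]
          exact div_self_le_one _
        · simp [φ, Set.indicator_of_notMem hx]
      have hφb1 : ∀ x, ‖φ x‖ ≤ 1 := by
        intro x
        refine (hφb x).trans ?_
        by_cases hx : x ∈ s <;> simp [hx]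
      have hφtop : MemLp φ ⊤ P := memLp_top_of_bound hφm 1 (Filter.Eventually.of_forall hφb1)
      have hφ2 : MemLp φ 2 P := hφtop.mono_exponent le_top
      have hφ1 : MemLp φ 1 P := hφtop.mono_exponent le_top
      have e1 := hpair φ hφ2 hφ1
      have e2 : ∫ x, φ x * f x ∂P = ((∫ x in s, ‖f x‖ ∂P : ℝ) : ℂ) := by
        rw [← integral_indicator hs, ← integral_complex_ofReal]
        refine integral_congr_ae (Filter.Eventually.of_forall fun x => ?_)
        by_cases hx : x ∈ s
        · simp only [φ, Set.indicator_of_mem hx]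
          by_cases h0 : f x = 0
          · simp [h0]
          · have hn : (‖f x‖ : ℂ) ≠ 0 := by
              exact_mod_cast (norm_ne_zero_iff.2 h0)
            rw [div_mul_eq_mul_div, Complex.conj_mul', sq]
            field_simp
        · simp [φ, Set.indicator_of_notMem hx]
      have e3 : ‖g (hφ1.toLp φ)‖ ≤ ‖g‖ * ‖hφ1.toLp φ‖ := g.le_opNorm _
      have e4 : ‖hφ1.toLp φ‖ ≤ (P s).toReal := by
        rw [Lp.norm_toLp]
        refine ENNReal.toReal_mono (measure_ne_top _ _) ?_
        rw [eLpNorm_one_eq_lintegral_enorm]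
        calc ∫⁻ x, ‖φ x‖ₑ ∂P ≤ ∫⁻ x, s.indicator (fun _ => (1 : ℝ≥0∞)) x ∂P := by
              refine lintegral_mono fun x => ?_
              by_cases hx : x ∈ s
              · simp only [Set.indicator_of_mem hx]
                have := hφb1 x
                rw [← ofReal_norm]
                exact ENNReal.ofReal_le_one.2 this
              · simp [φ, Set.indicator_of_notMem hx]
          _ = P s := by rw [lintegral_indicator hs]; simp
      have e5 : ∫ x in s, ‖f x‖ ∂P = ‖g (hφ1.toLp φ)‖ := by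
        rw [← e1, e2, Complex.norm_real, Real.norm_of_nonneg]
        exact integral_nonneg fun x => norm_nonneg _
      rw [e5]
      refine e3.trans ?_
      rw [setIntegral_const, smul_eq_mul, mul_comm]
      exact mul_le_mul_of_nonneg_right e4 (norm_nonneg g)
    exact key
  exact ⟨f, memLp_top_of_bound hf2.1 ‖g‖ hbd, hpair⟩

/-- Moment problem in `L^∞`: a sequence of bounded functions `e n` and numbers `α n` with
`|∑ c_n α_n| ≤ C ‖∑ c_n e_n‖₁` admits a bounded `f` with `∫ e_n f = α_n`. -/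
theorem exists_bounded {Ω : Type*} [MeasurableSpace Ω] (P : Measure Ω)
    [IsProbabilityMeasure P] (e : ℕ → Ω → ℂ) (he : ∀ n, MemLp (e n) ⊤ P) (α : ℕ → ℂ) (C : ℝ)
    (h : ∀ c : ℕ →₀ ℂ, ‖c.sum fun n a => a * α n‖ ≤ C * ∫ x, ‖c.sum fun n a => a * e n x‖ ∂P) :
    ∃ f : Ω → ℂ, MemLp f ⊤ P ∧ ∀ n, ∫ x, e n x * f x ∂P = α n := by
  classical
  have he1 : ∀ n, MemLp (e n) 1 P := fun n => (he n).mono_exponent le_top
  have he2 : ∀ n, MemLp (e n) 2 P := fun n => (he n).mono_exponent le_top
  let E : ℕ → Lp ℂ 1 P := fun n => (he1 n).toLp (e n)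
  let T : (ℕ →₀ ℂ) →ₗ[ℂ] Lp ℂ 1 P := Finsupp.linearCombination ℂ E
  let l : (ℕ →₀ ℂ) →ₗ[ℂ] ℂ := Finsupp.linearCombination ℂ α
  have hT : ∀ c : ℕ →₀ ℂ, ‖T c‖ = ∫ x, ‖c.sum fun n a => a * e n x‖ ∂P := by
    intro c
    have hae : ∀ᵐ x ∂P, (T c : Ω → ℂ) x = c.sum fun n a => a * e n x := by
      have h1 : T c = ∑ n ∈ c.support, c n • E n := by
        simp [T, Finsupp.linearCombination_apply, Finsupp.sum]
      rw [h1]
      have h2 : ∀ s : Finset ℕ, ∀ᵐ x ∂P,
          ((∑ n ∈ s, c n • E n : Lp ℂ 1 P) : Ω → ℂ) x = ∑ n ∈ s, c n * e n x := by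
        intro s
        induction s using Finset.induction_on with
        | empty =>
          simp only [Finset.sum_empty]
          exact Lp.coeFn_zero ℂ 1 P
        | insert a s ha ih =>
          rw [Finset.sum_insert ha]
          filter_upwards [ih, Lp.coeFn_add (c a • E a) (∑ n ∈ s, c n • E n),
            Lp.coeFn_smul (c a) (E a), (he1 a).coeFn_toLp] with x h1 h2 h3 h4
          rw [h2, Pi.add_apply, h1, h3, Pi.smul_apply, h4, Finset.sum_insert ha, smul_eq_mul]
      exact h2 c.support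
    rw [L1.norm_eq_integral_norm]
    refine integral_congr_ae ?_
    filter_upwards [hae] with x hx
    rw [hx]
  obtain ⟨g, hg⟩ := exists_clm T l C (by
    intro c
    rw [hT c]
    have : l c = c.sum fun n a => a * α n := by
      simp [l, Finsupp.linearCombination_apply]
    rw [this]
    exact h c)
  obtain ⟨f, hf, hpair⟩ := exists_bounded_of_clm P g
  refine ⟨f, hf, fun n => ?_⟩
  rw [hpair (e n) (he2 n) (he1 n)]
  have h1 := hg (Finsupp.single n 1)
  simpa [T, l, E] using h1

end Pool.Agent.Helper873.Dual
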