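import Mathlib

set_option autoImplicit false
open Finset

namespace Pool.Agent.Helper873.Zeta

/-- tangent inequality for the convex function `a ↦ a ^ (-s)` -/
lemma tangent (s a b : ℝ) (hs : 0 < s) (ha : 0 < a) (hb : 0 < b) :
    a ^ (-s) - s * (b - a) * a ^ (-(1 + s)) ≤ b ^ (-s) := by
  have h1 : b ^ (-s) = a ^ (-s) * (b / a) ^ (-s) := by
    rw [← Real.mul_rpow ha.le (by positivity), mul_div_cancel₀ _ ha.ne']
  have h2 : 1 - s * (b / a - 1) ≤ (b / a) ^ (-s) := by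
    rw [Real.rpow_def_of_pos (by positivity)]
    have h3 := Real.add_one_le_exp (Real.log (b / a) * -s)
    have h4 := Real.log_le_sub_one_of_pos (show 0 < b / a by positivity)
    nlinarith
  have h5 : a ^ (-(1 + s)) = a ^ (-s) / a := by
    rw [neg_add, add_comm, Real.rpow_add ha, Real.rpow_neg_one, div_eq_mul_inv]
  rw [h1, h5]
  have h6 : 0 < a ^ (-s) := Real.rpow_pos_of_pos ha _
  have h7 : a ^ (-s) - s * (b - a) * (a ^ (-s) / a) = a ^ (-s) * (1 - s * (b / a - 1)) := by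
    field_simp
  rw [h7]
  exact mul_le_mul_of_nonneg_left h2 h6.le

/-- `n ↦ n ^ (-(1+s))` as a monoid hom. -/
noncomputable def pw (s : ℝ) : ℕ →* ℝ where
  toFun n := (n : ℝ) ^ (-(1 + s))
  map_one' := by simp
  map_mul' m n := by
    push_cast
    rw [Real.mul_rpow (by positivity) (by positivity)]

lemma pw_apply (s : ℝ) (n : ℕ) : pw s n = (n : ℝ) ^ (-(1 + s)) := rfl

lemma pw_nonneg (s : ℝ) (n : ℕ) : 0 ≤ pw s n := by
  rw [pw_apply]; positivity

lemma summable_pw (s : ℝ) (hs : 0 < s) : Summable (pw s) := by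
  have : Summable fun n : ℕ => (n : ℝ) ^ (-(1 + s)) := by
    rw [Real.summable_nat_rpow]; linarith
  exact this

lemma sum_upper (s : ℝ) (hs : 0 < s) (K : ℕ) :
    ∑ n ∈ range (K + 2), pw s n ≤ 1 + (1 - ((K + 1 : ℕ) : ℝ) ^ (-s)) / s := by
  induction K with
  | zero =>
    have : (0 : ℝ) ^ (-s + -1) = 0 := Real.zero_rpow (by linarith)
    simp [Finset.sum_range_succ, pw_apply, this]
  | succ K ih =>
    rw [Finset.sum_range_succ]
    have ht := tangent s ((K + 2 : ℕ) : ℝ) ((K + 1 : ℕ) : ℝ) hs (by positivity) (by positivity)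
    have e : (((K + 1 : ℕ) : ℝ) - ((K + 2 : ℕ) : ℝ)) = -1 := by push_cast; ring
    rw [e] at ht
    have h2 : pw s (K + 2) ≤ (((K + 1 : ℕ) : ℝ) ^ (-s) - ((K + 2 : ℕ) : ℝ) ^ (-s)) / s := by
      rw [le_div_iff₀ hs, pw_apply]
      linarith
    have e2 : (K + 1 + 1 : ℕ) = K + 2 := rfl
    rw [e2]
    have e3 : (1 + (1 - ((K + 2 : ℕ) : ℝ) ^ (-s)) / s) = 1 + (1 - ((K + 1 : ℕ) : ℝ) ^ (-s)) / s +
      (((K + 1 : ℕ) : ℝ) ^ (-s) - ((K + 2 : ℕ) : ℝ) ^ (-s)) / s := by ring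
    rw [e3]
    exact add_le_add ih h2

lemma tsum_upper (s : ℝ) (hs : 0 < s) : ∑' n, pw s n ≤ 1 + 1 / s := by
  refine (summable_pw s hs).tsum_le_of_sum_range_le fun K => ?_
  have h1 : ∑ n ∈ range K, pw s n ≤ ∑ n ∈ range (K + 2), pw s n :=
    Finset.sum_le_sum_of_subset_of_nonneg (Finset.range_mono (by omega))
      fun n _ _ => pw_nonneg s n
  refine h1.trans ((sum_upper s hs K).trans ?_)
  have : 0 ≤ ((K + 1 : ℕ) : ℝ) ^ (-s) := by positivity
  have h3 : (1 - ((K + 1 : ℕ) : ℝ) ^ (-s)) / s ≤ 1 / s := by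
    apply div_le_div_of_nonneg_right _ hs.le
    linarith
  linarith

lemma sum_lower (s : ℝ) (hs : 0 < s) (K : ℕ) :
    (1 - ((K + 1 : ℕ) : ℝ) ^ (-s)) / s ≤ ∑ n ∈ Finset.Icc 1 K, pw s n := by
  induction K with
  | zero => simp
  | succ K ih =>
    rw [Finset.sum_Icc_succ_top (by omega)]
    have ht := tangent s ((K + 1 : ℕ) : ℝ) ((K + 2 : ℕ) : ℝ) hs (by positivity) (by positivity)
    have e : (((K + 2 : ℕ) : ℝ) - ((K + 1 : ℕ) : ℝ)) = 1 := by push_cast; ring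
    rw [e] at ht
    have h2 : (((K + 1 : ℕ) : ℝ) ^ (-s) - ((K + 2 : ℕ) : ℝ) ^ (-s)) / s ≤ pw s (K + 1) := by
      rw [div_le_iff₀ hs, pw_apply]
      linarith
    have e2 : (K + 1 + 1 : ℕ) = K + 2 := rfl
    rw [e2]
    have e3 : ((1 - ((K + 2 : ℕ) : ℝ) ^ (-s)) / s) = (1 - ((K + 1 : ℕ) : ℝ) ^ (-s)) / s +
      (((K + 1 : ℕ) : ℝ) ^ (-s) - ((K + 2 : ℕ) : ℝ) ^ (-s)) / s := by ring
    rw [e3]
    exact add_le_add ih h2

/-- partial Euler product -/
noncomputable def Z (M : ℕ) (s : ℝ) : ℝ := ∏ p ∈ Nat.primesBelow M, (1 - (p : ℝ) ^ (-(1 + s)))⁻¹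

lemma Z_eq (M : ℕ) (s : ℝ) (hs : 0 < s) : Z M s = ∑' m : M.smoothNumbers, pw s m := by
  unfold Z
  exact EulerProduct.prod_primesBelow_geometric_eq_tsum_smoothNumbers (summable_pw s hs) M

lemma Z_upper (M : ℕ) (s : ℝ) (hs : 0 < s) : Z M s ≤ 1 + 1 / s := by
  rw [Z_eq M s hs]
  refine le_trans ?_ (tsum_upper s hs)
  exact (summable_pw s hs).tsum_subtype_le (pw s) _ (pw_nonneg s)

lemma Z_lower (M : ℕ) (hM : 1 ≤ M) (s : ℝ) (hs : 0 < s) : (1 - (M : ℝ) ^ (-s)) / s ≤ Z M s := by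
  obtain ⟨K, rfl⟩ : ∃ K, M = K + 1 := ⟨M - 1, by omega⟩
  refine (sum_lower s hs K).trans ?_
  rw [Z_eq _ s hs]
  have hsub : ∀ n ∈ Finset.Icc 1 K, n ∈ (K + 1).smoothNumbers := by
    intro n hn
    rw [Finset.mem_Icc] at hn
    exact Nat.mem_smoothNumbers_of_lt (by omega) (by omega)
  have hsum : Summable fun m : (K + 1).smoothNumbers => pw s m := (summable_pw s hs).subtype _
  let e : (Finset.Icc 1 K) → (K + 1).smoothNumbers := fun n => ⟨n.1, hsub n.1 n.2⟩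
  have he : Function.Injective e := by
    intro a b hab
    have : (e a).1 = (e b).1 := by rw [hab]
    exact Subtype.ext this
  have h1 : ∑ n ∈ Finset.Icc 1 K, pw s n = ∑ m ∈ (Finset.univ.image e), pw s (m : ℕ) := by
    rw [Finset.sum_image (fun a _ b _ h => he h)]
    exact (Finset.sum_coe_sort (Finset.Icc 1 K) (fun n => pw s n)).symm
  rw [h1]
  exact hsum.sum_le_tsum _ (fun m _ => pw_nonneg s m)

lemma Z_pos (M : ℕ) (s : ℝ) (hs : 0 < s) : 0 < Z M s := by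
  unfold Z
  refine Finset.prod_pos fun p hp => ?_
  have hp2 := (Nat.prime_of_mem_primesBelow hp).one_lt
  have : (p : ℝ) ^ (-(1 + s)) < 1 :=
    Real.rpow_lt_one_of_one_lt_of_neg (by exact_mod_cast hp2) (by linarith)
  have : 0 < 1 - (p : ℝ) ^ (-(1 + s)) := by linarith
  positivity

end Pool.Agent.Helper873.Zeta
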