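import Pool.Agent.Helper873.Product
import Pool.Agent.Helper873.Carleson
import Pool.Agent.Helper873.Zeta

set_option autoImplicit false
open MeasureTheory Metric
open scoped ComplexConjugate ENNReal

namespace Pool.Agent.Helper873.Embed

open Pool.Agent.Helper873.OneVar Pool.Agent.Helper873.Product Pool.Agent.Helper873.Zeta

/-- the point `p_j^{-(1/2+δ)}` -/
noncomputable def xs (δ : ℝ) (j : ℕ) : ℝ := (Nat.nth Nat.Prime j : ℝ) ^ (-(1 / 2 + δ))

lemma two_le_p (j : ℕ) : (2 : ℝ) ≤ (Nat.nth Nat.Prime j : ℝ) := by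
  exact_mod_cast (Nat.prime_nth_prime j).two_le

lemma xs_nonneg (δ : ℝ) (j : ℕ) : 0 ≤ xs δ j := by
  unfold xs; positivity

lemma xs_mul (δ ε : ℝ) (j : ℕ) :
    xs δ j * xs ε j = (Nat.nth Nat.Prime j : ℝ) ^ (-(1 + (δ + ε))) := by
  unfold xs
  rw [← Real.rpow_add (by have := two_le_p j; linarith)]
  congr 1; ring

lemma xs_sq (δ : ℝ) (j : ℕ) : xs δ j ^ 2 = (Nat.nth Nat.Prime j : ℝ) ^ (-(1 + 2 * δ)) := by
  rw [sq, xs_mul]; congr 2; ring

lemma xs_sq_le (δ : ℝ) (hδ : 0 ≤ δ) (j : ℕ) : xs δ j ^ 2 ≤ 1 / 2 := by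
  rw [xs_sq]
  have h2 := two_le_p j
  calc (Nat.nth Nat.Prime j : ℝ) ^ (-(1 + 2 * δ)) ≤ (Nat.nth Nat.Prime j : ℝ) ^ (-1 : ℝ) :=
        Real.rpow_le_rpow_of_exponent_le (by linarith) (by linarith)
    _ = (Nat.nth Nat.Prime j : ℝ)⁻¹ := Real.rpow_neg_one _
    _ ≤ 1 / 2 := by
      rw [one_div]
      exact inv_anti₀ (by norm_num) h2

lemma xs_lt_one (δ : ℝ) (hδ : 0 ≤ δ) (j : ℕ) : xs δ j < 1 := by
  have := xs_sq_le δ hδ j
  nlinarith [xs_nonneg δ j]

lemma prod_primes (g : ℕ → ℝ) (M : ℕ) :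
    ∏ j ∈ Finset.range (Nat.primeCounting' M), g (Nat.nth Nat.Prime j) =
      ∏ p ∈ Nat.primesBelow M, g p := by
  refine Finset.prod_nbij' (fun j => Nat.nth Nat.Prime j) (fun p => Nat.count Nat.Prime p)
    ?_ ?_ ?_ ?_ ?_
  · intro j hj
    rw [Nat.mem_primesBelow]
    exact ⟨Nat.nth_lt_of_lt_count (Finset.mem_range.1 hj), Nat.prime_nth_prime j⟩
  · intro p hp
    rw [Nat.mem_primesBelow] at hp
    rw [Finset.mem_range]
    exact Nat.count_strict_mono hp.2 hp.1
  · intro j _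
    exact Nat.primeCounting'_nth_eq j
  · intro p hp
    exact Nat.nth_count (Nat.prime_of_mem_primesBelow hp)
  · intro j _
    rfl

lemma prod_Z (M : ℕ) (s : ℝ) :
    ∏ j ∈ Finset.range (Nat.primeCounting' M), (1 - (Nat.nth Nat.Prime j : ℝ) ^ (-(1 + s))) =
      (Z M s)⁻¹ := by
  rw [prod_primes (fun p => 1 - (p : ℝ) ^ (-(1 + s))) M, Z, Finset.prod_inv_distrib, inv_inv]

/-- affinity of two points -/
noncomputable def aff (δ ε : ℝ) (j : ℕ) : ℝ :=
  ∫ t : UnitAddCircle, ker (xs δ j) t * ker (xs ε j) t ∂AddCircle.haarAddCircle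

lemma aff_nonneg (δ ε : ℝ) (hδ : 0 ≤ δ) (hε : 0 ≤ ε) (j : ℕ) : 0 ≤ aff δ ε j :=
  integral_nonneg fun t => mul_nonneg
    (ker_pos _ (xs_nonneg δ j) (xs_lt_one δ hδ j) t).le
    (ker_pos _ (xs_nonneg ε j) (xs_lt_one ε hε j) t).le

lemma prod_aff (M : ℕ) (δ ε : ℝ) (hδ : 0 ≤ δ) (hε : 0 ≤ ε) :
    (∏ j ∈ Finset.range (Nat.primeCounting' M), aff δ ε j) ^ 8 ≤
      (Z M (2 * δ))⁻¹ * (Z M (2 * ε))⁻¹ * (Z M (δ + ε)) ^ 2 := by
  rw [← Finset.prod_pow]
  calc ∏ j ∈ Finset.range (Nat.primeCounting' M), aff δ ε j ^ 8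
      ≤ ∏ j ∈ Finset.range (Nat.primeCounting' M),
        ((1 - xs δ j ^ 2) * (1 - xs ε j ^ 2) / (1 - xs δ j * xs ε j) ^ 2) := by
        refine Finset.prod_le_prod (fun j _ => by positivity [aff_nonneg δ ε hδ hε j]) fun j _ => ?_
        exact aff_bound _ _ (xs_nonneg δ j) (xs_sq_le δ hδ j) (xs_nonneg ε j) (xs_sq_le ε hε j)
    _ = (Z M (2 * δ))⁻¹ * (Z M (2 * ε))⁻¹ * (Z M (δ + ε)) ^ 2 := by
        simp_rw [xs_sq, xs_mul]
        rw [Finset.prod_div_distrib, Finset.prod_mul_distrib, Finset.prod_pow, prod_Z, prod_Z,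
          prod_Z, inv_pow, div_inv_eq_mul]

/-- choice of `M` -/
lemma exists_M (U : ℝ) (N₀ : ℕ) : ∃ M : ℕ, 1 ≤ M ∧ N₀ ≤ Nat.primeCounting' M ∧
    ∀ s : ℝ, 2 * Real.exp (-U) ≤ s → (M : ℝ) ^ (-s) ≤ 1 / 2 := by
  obtain ⟨M1, hM1⟩ := exists_nat_ge ((2 : ℝ) ^ (1 / (2 * Real.exp (-U))))
  have hpos : 0 < 2 * Real.exp (-U) := by positivity
  refine ⟨max (M1 + 1) (Nat.nth Nat.Prime N₀), ?_, ?_, ?_⟩
  · exact le_trans (by omega) (le_max_left _ _)
  · calc N₀ = Nat.primeCounting' (Nat.nth Nat.Prime N₀) := (Nat.primeCounting'_nth_eq N₀).symm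
      _ ≤ _ := Nat.monotone_primeCounting' (le_max_right _ _)
  · intro s hs
    set M := max (M1 + 1) (Nat.nth Nat.Prime N₀)
    have hM : (2 : ℝ) ^ (1 / (2 * Real.exp (-U))) ≤ (M : ℝ) := by
      refine hM1.trans ?_
      have : M1 ≤ M := le_trans (by omega) (le_max_left _ _)
      exact_mod_cast this
    have h1 : (1 : ℝ) ≤ M := by
      refine le_trans ?_ hM
      exact Real.one_le_rpow (by norm_num) (by positivity)
    have h2 : (2 : ℝ) ≤ (M : ℝ) ^ s := by
      calc (2 : ℝ) = ((2 : ℝ) ^ (1 / (2 * Real.exp (-U)))) ^ (2 * Real.exp (-U)) := by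
            rw [← Real.rpow_mul (by norm_num), one_div, inv_mul_cancel₀ hpos.ne', Real.rpow_one]
        _ ≤ (M : ℝ) ^ (2 * Real.exp (-U)) := Real.rpow_le_rpow (by positivity) hM hpos.le
        _ ≤ (M : ℝ) ^ s := Real.rpow_le_rpow_of_exponent_le h1 hs
    rw [Real.rpow_neg (by positivity), one_div]
    exact inv_anti₀ (by norm_num) h2

/-- exponential decay of the affinities -/
lemma aff_decay (U : ℝ) (M : ℕ) (hM1 : 1 ≤ M)
    (hM : ∀ s : ℝ, 2 * Real.exp (-U) ≤ s → (M : ℝ) ^ (-s) ≤ 1 / 2)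
    (t s : ℝ) (ht0 : 0 ≤ t) (htU : t ≤ U) (hs0 : 0 ≤ s) (hsU : s ≤ U) :
    ∏ j ∈ Finset.range (Nat.primeCounting' M), aff (Real.exp (-t)) (Real.exp (-s)) j ≤
      256 / (1 + (t - s) ^ 2) := by
  set δ := Real.exp (-t) with hδ
  set ε := Real.exp (-s) with hε
  have δp : 0 < δ := Real.exp_pos _
  have εp : 0 < ε := Real.exp_pos _
  have δ1 : δ ≤ 1 := Real.exp_le_one_iff.2 (by linarith)
  have ε1 : ε ≤ 1 := Real.exp_le_one_iff.2 (by linarith)
  have δU : Real.exp (-U) ≤ δ := Real.exp_le_exp.2 (by linarith)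
  have εU : Real.exp (-U) ≤ ε := Real.exp_le_exp.2 (by linarith)
  have low : ∀ r : ℝ, 0 < r → 2 * Real.exp (-U) ≤ r → 1 / (2 * r) ≤ Z M r := by
    intro r hr hr2
    refine le_trans ?_ (Z_lower M hM1 r hr)
    have := hM r hr2
    rw [div_le_div_iff₀ (by positivity) hr]
    nlinarith
  have h1 := low (2 * δ) (by positivity) (by linarith)
  have h2 := low (2 * ε) (by positivity) (by linarith)
  have h3 := Z_upper M (δ + ε) (by positivity)
  have h3' : Z M (δ + ε) ≤ 3 / (δ + ε) := by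
    refine h3.trans ?_
    rw [le_div_iff₀ (by positivity)]
    have : (1 + 1 / (δ + ε)) * (δ + ε) = (δ + ε) + 1 := by field_simp
    rw [this]; linarith
  have hp := prod_aff M δ ε δp.le εp.le
  set P := ∏ j ∈ Finset.range (Nat.primeCounting' M), aff δ ε j with hP
  have P0 : 0 ≤ P := Finset.prod_nonneg fun j _ => aff_nonneg δ ε δp.le εp.le j
  have h4 : P ^ 8 ≤ 144 * (δ * ε) / (δ + ε) ^ 2 := by
    refine hp.trans ?_
    have z1 := Z_pos M (2 * δ) (by positivity)
    have z2 := Z_pos M (2 * ε) (by positivity)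
    have z3 := Z_pos M (δ + ε) (by positivity)
    have i1 : (Z M (2 * δ))⁻¹ ≤ 4 * δ := by
      rw [inv_le_comm₀ z1 (by positivity)]
      refine le_trans (le_of_eq ?_) h1
      rw [one_div]; congr 1; ring
    have i2 : (Z M (2 * ε))⁻¹ ≤ 4 * ε := by
      rw [inv_le_comm₀ z2 (by positivity)]
      refine le_trans (le_of_eq ?_) h2
      rw [one_div]; congr 1; ring
    calc (Z M (2 * δ))⁻¹ * (Z M (2 * ε))⁻¹ * (Z M (δ + ε)) ^ 2
        ≤ (4 * δ) * (4 * ε) * (3 / (δ + ε)) ^ 2 := by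
          gcongr
      _ = 144 * (δ * ε) / (δ + ε) ^ 2 := by
          field_simp; ring
  have h5 : δ * ε / (δ + ε) ^ 2 ≤ Real.exp (-|t - s|) := by
    rw [div_le_iff₀ (by positivity)]
    rcases le_total t s with hts | hts
    · have e1 : ε = Real.exp (-|t - s|) * δ := by
        rw [abs_of_nonpos (by linarith), hδ, ← Real.exp_add, hε]; congr 1; ring
      have hq : 0 < Real.exp (-|t - s|) := Real.exp_pos _
      set q := Real.exp (-|t - s|)
      rw [e1]
      have : 0 ≤ q * (q * δ) * (2 * δ + q * δ) := by positivity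
      nlinarith
    · have e1 : δ = Real.exp (-|t - s|) * ε := by
        rw [abs_of_nonneg (by linarith), hδ, ← Real.exp_add]; congr 1; ring
      have hq : 0 < Real.exp (-|t - s|) := Real.exp_pos _
      set q := Real.exp (-|t - s|)
      rw [e1]
      have : 0 ≤ q * (q * ε) * (2 * ε + q * ε) := by positivity
      nlinarith
  have h6 : P ^ 8 ≤ (2 * Real.exp (-|t - s| / 8)) ^ 8 := by
    have e2 : (2 * Real.exp (-|t - s| / 8)) ^ 8 = 256 * Real.exp (-|t - s|) := by
      rw [mul_pow, ← Real.exp_nat_mul]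
      norm_num
      ring
    rw [e2]
    refine h4.trans ?_
    rw [mul_div_assoc]
    have := Real.exp_pos (-|t - s|)
    linarith
  have h7 : P ≤ 2 * Real.exp (-|t - s| / 8) :=
    le_of_pow_le_pow_left₀ (by norm_num) (by positivity) h6
  refine h7.trans ?_
  have h8 : Real.exp (-|t - s| / 8) ≤ 128 / (1 + (t - s) ^ 2) := by
    have h9 := Real.quadratic_le_exp_of_nonneg (show 0 ≤ |t - s| / 8 by positivity)
    have e3 : Real.exp (-|t - s| / 8) = (Real.exp (|t - s| / 8))⁻¹ := by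
      rw [← Real.exp_neg]; congr 1; ring
    rw [e3, inv_le_comm₀ (Real.exp_pos _) (by positivity)]
    refine le_trans ?_ h9
    have h10 : |t - s| ^ 2 = (t - s) ^ 2 := sq_abs _
    have h11 : (128 / (1 + (t - s) ^ 2))⁻¹ = (1 + (t - s) ^ 2) / 128 := by
      rw [inv_div]
    rw [h11]
    have : 0 ≤ |t - s| := abs_nonneg _
    nlinarith
  calc 2 * Real.exp (-|t - s| / 8) ≤ 2 * (128 / (1 + (t - s) ^ 2)) := by linarith
    _ = 256 / (1 + (t - s) ^ 2) := by ring

lemma continuous_xs (j : ℕ) : Continuous fun u : ℝ => xs (Real.exp (-u)) j := by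
  unfold xs
  have h2 := two_le_p j
  refine Continuous.rpow continuous_const (by fun_prop) fun u => Or.inl (by linarith)

lemma continuous_ker_joint (j : ℕ) :
    Continuous fun p : ℝ × (ℕ → UnitAddCircle) => ker (xs (Real.exp (-p.1)) j) (p.2 j) := by
  unfold ker
  have h1 : Continuous fun p : ℝ × (ℕ → UnitAddCircle) => xs (Real.exp (-p.1)) j :=
    (continuous_xs j).comp continuous_fst
  have h2 : Continuous fun p : ℝ × (ℕ → UnitAddCircle) => zet (p.2 j) :=
    continuous_zet.comp ((continuous_apply j).comp continuous_snd)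
  refine Continuous.div (by fun_prop) ?_ ?_
  · exact (continuous_const.sub ((Complex.continuous_ofReal.comp h1).mul h2)).norm
  · intro p
    exact (one_sub_zet_ne _ (xs_nonneg _ j) (xs_lt_one _ (Real.exp_pos _).le j) _).ne'

/-- The embedding: `∫₀^U e^{-u} |F(x(u))| du ≤ C ‖F‖₁`. -/
theorem embed (F : (ℕ → ℂ) → ℂ) (hFc : Continuous F)
    (hFp : ∀ (w : ℕ → ℂ) (i : ℕ), ∃ g : Polynomial ℂ, ∀ u, F (Function.update w i u) = g.eval u)
    (N₀ : ℕ) (hFN : ∀ w w' : ℕ → ℂ, (∀ j < N₀, w j = w' j) → F w = F w') (U : ℝ) (hU : 0 < U) :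
    ∫ u in (0 : ℝ)..U, Real.exp (-u) * ‖F (fun j => (xs (Real.exp (-u)) j : ℂ))‖ ≤
      384 * Real.pi * ∫ z, ‖F (fun j => zet (z j))‖ ∂tor := by
  obtain ⟨M, hM1, hMN, hMs⟩ := exists_M U N₀
  set N := Nat.primeCounting' M with hN
  have hFN' : ∀ w w' : ℕ → ℂ, (∀ j < N, w j = w' j) → F w = F w' :=
    fun w w' h => hFN w w' fun j hj => h j (lt_of_lt_of_le hj hMN)
  set τ : Measure ℝ := volume.restrict (Set.Icc 0 U) with hτ
  let KR : ℝ → (ℕ → UnitAddCircle) → ℝ := fun u z =>
    ∏ j ∈ Finset.range N, ker (xs (Real.exp (-u)) j) (z j)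
  have hKRc : Continuous (Function.uncurry KR) := by
    refine continuous_finsetProd _ fun j _ => ?_
    exact continuous_ker_joint j
  have hKRp : ∀ u z, 0 < KR u z := fun u z => Finset.prod_pos fun j _ =>
    ker_pos _ (xs_nonneg _ j) (xs_lt_one _ (Real.exp_pos _).le j) _
  let K : ℝ → (ℕ → UnitAddCircle) → ℝ≥0∞ := fun u z => ENNReal.ofReal (KR u z)
  have hK : Measurable (Function.uncurry K) :=
    ENNReal.measurable_ofReal.comp hKRc.measurable
  have hτne : τ Set.univ ≠ 0 := by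
    rw [hτ, Measure.restrict_apply_univ, Real.volume_Icc]
    simpa using hU
  have hS0 : ∀ z, ∫⁻ t, K t z ∂τ ≠ 0 := by
    intro z h
    have hKz0 : Measurable (Function.uncurry K ∘ fun t : ℝ => (t, z)) :=
      hK.comp measurable_prodMk_right
    have hKz : Measurable fun t => K t z := hKz0
    rw [lintegral_eq_zero_iff hKz] at h
    have : ∀ᵐ t ∂τ, False := by
      filter_upwards [h] with t ht
      have : K t z = 0 := ht
      rw [ENNReal.ofReal_eq_zero] at this
      exact absurd (hKRp t z) (not_lt.2 this)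
    rw [ae_iff] at this
    simp only [not_false_eq_true, Set.ofPred_true] at this
    exact hτne this
  have hSt : ∀ z, ∫⁻ t, K t z ∂τ ≠ ⊤ := by
    intro z
    have hc0 : Continuous (Function.uncurry KR ∘ fun u : ℝ => (u, z)) :=
      hKRc.comp (continuous_id.prodMk continuous_const)
    have hc : Continuous fun u => KR u z := hc0
    have : Integrable (fun u => KR u z) τ := hc.integrableOn_Icc
    exact this.lintegral_lt_top.ne
  let φ : (ℕ → UnitAddCircle) → ℝ≥0∞ := fun z =>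
    ENNReal.ofReal (Real.sqrt ‖F (fun j => zet (z j))‖)
  have hzc : Continuous fun z : ℕ → UnitAddCircle => (fun j => zet (z j) : ℕ → ℂ) :=
    continuous_pi fun j => continuous_zet.comp (continuous_apply j)
  have hφc : Continuous fun z : ℕ → UnitAddCircle => ‖F (fun j => zet (z j))‖ :=
    (hFc.comp hzc).norm
  have hφ : Measurable φ :=
    ENNReal.measurable_ofReal.comp (Real.continuous_sqrt.comp hφc).measurable
  let a : ℝ → ℝ≥0∞ := fun u => ENNReal.ofReal
    (Real.sqrt ‖F (fun j => (xs (Real.exp (-u)) j : ℂ))‖ *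
        ∏ j ∈ Finset.range N, Real.sqrt (1 - xs (Real.exp (-u)) j ^ 2))
  have ha : ∀ᵐ t ∂τ, a t ≤ ∫⁻ z, φ z * K t z ∂tor := by
    refine Filter.Eventually.of_forall fun t => ?_
    refine (tensor F hFc hFp N hFN' (xs (Real.exp (-t))) (xs_nonneg _)
      (xs_lt_one _ (Real.exp_pos _).le)).trans (le_of_eq ?_)
    refine lintegral_congr fun z => ?_
    rw [ENNReal.ofReal_mul (Real.sqrt_nonneg _)]
  have hC : ∀ᵐ t ∂τ, ∫⁻ s, ∫⁻ z, K t z * K s z ∂tor ∂τ ≤ ENNReal.ofReal (256 * Real.pi) := by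
    rw [hτ]
    refine (ae_restrict_iff' measurableSet_Icc).2 (Filter.Eventually.of_forall fun t ht => ?_)
    have inner : ∀ s, ∫⁻ z, K t z * K s z ∂tor = ENNReal.ofReal
        (∏ j ∈ Finset.range N, aff (Real.exp (-t)) (Real.exp (-s)) j) := by
      intro s
      have e1 : ∀ z, K t z * K s z = ∏ j ∈ Finset.range N, ENNReal.ofReal
          (ker (xs (Real.exp (-t)) j) (z j) * ker (xs (Real.exp (-s)) j) (z j)) := by
        intro z
        simp only [K, KR]
        rw [← ENNReal.ofReal_mul (hKRp t z).le, ← Finset.prod_mul_distrib,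
          ENNReal.ofReal_prod_of_nonneg]
        intro j _
        exact mul_nonneg (ker_pos _ (xs_nonneg _ j) (xs_lt_one _ (Real.exp_pos _).le j) _).le
          (ker_pos _ (xs_nonneg _ j) (xs_lt_one _ (Real.exp_pos _).le j) _).le
      simp_rw [e1]
      have hc : ∀ j, Continuous fun w : UnitAddCircle =>
          ker (xs (Real.exp (-t)) j) w * ker (xs (Real.exp (-s)) j) w := fun j =>
        (continuous_ker _ (xs_nonneg _ j) (xs_lt_one _ (Real.exp_pos _).le j)).mul
          (continuous_ker _ (xs_nonneg _ j) (xs_lt_one _ (Real.exp_pos _).le j))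
      rw [lintegral_prod_range (fun j w => ENNReal.ofReal
        (ker (xs (Real.exp (-t)) j) w * ker (xs (Real.exp (-s)) j) w))
        (fun j => ENNReal.measurable_ofReal.comp (hc j).measurable) N,
        ENNReal.ofReal_prod_of_nonneg (fun j _ => aff_nonneg _ _ (Real.exp_pos _).le
          (Real.exp_pos _).le j)]
      refine Finset.prod_congr rfl fun j _ => ?_
      rw [aff, ofReal_integral_eq_lintegral_ofReal (integrable_cont (hc j))]
      refine Filter.Eventually.of_forall fun w => ?_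
      exact mul_nonneg (ker_pos _ (xs_nonneg _ j) (xs_lt_one _ (Real.exp_pos _).le j) _).le
          (ker_pos _ (xs_nonneg _ j) (xs_lt_one _ (Real.exp_pos _).le j) _).le
    simp_rw [inner]
    calc ∫⁻ s in Set.Icc 0 U, ENNReal.ofReal
          (∏ j ∈ Finset.range N, aff (Real.exp (-t)) (Real.exp (-s)) j)
        ≤ ∫⁻ s in Set.Icc 0 U, ENNReal.ofReal (256 / (1 + (t - s) ^ 2)) := by
          refine setLIntegral_mono' measurableSet_Icc fun s hs => ?_
          exact ENNReal.ofReal_le_ofReal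
            (aff_decay U M hM1 hMs t s ht.1 ht.2 hs.1 hs.2)
      _ ≤ ∫⁻ s, ENNReal.ofReal (256 / (1 + (t - s) ^ 2)) := setLIntegral_le_lintegral _ _
      _ = ENNReal.ofReal (∫ s, 256 / (1 + (t - s) ^ 2)) := by
          rw [ofReal_integral_eq_lintegral_ofReal]
          · have h1 := (integrable_inv_one_add_sq.comp_sub_left t).const_mul 256
            refine h1.congr (Filter.Eventually.of_forall fun s => ?_)
            simp only
            rw [div_eq_mul_inv]
          · exact Filter.Eventually.of_forall fun s => by positivity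
      _ = ENNReal.ofReal (256 * Real.pi) := by
          congr 1
          rw [← integral_univ_inv_one_add_sq, ← integral_const_mul,
            ← integral_sub_left_eq_self (fun s => 256 * (1 + s ^ 2)⁻¹) volume t]
          refine integral_congr_ae (Filter.Eventually.of_forall fun s => ?_)
          simp only
          rw [div_eq_mul_inv]
  have main := Carleson.carleson τ tor K hK hS0 hSt φ hφ a ha _ hC
  -- lower bound for `a ^ 2`
  have hlow : ∫⁻ u in Set.Icc 0 U, ENNReal.ofReal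
      (2 / 3 * (Real.exp (-u) * ‖F (fun j => (xs (Real.exp (-u)) j : ℂ))‖)) ≤
      ∫⁻ t, a t ^ 2 ∂τ := by
    refine setLIntegral_mono' measurableSet_Icc fun u hu => ?_
    simp only [a]
    rw [← ENNReal.ofReal_pow (mul_nonneg (Real.sqrt_nonneg _)
      (Finset.prod_nonneg fun j _ => Real.sqrt_nonneg _))]
    refine ENNReal.ofReal_le_ofReal ?_
    rw [mul_pow, Real.sq_sqrt (norm_nonneg _), ← Finset.prod_pow]
    have e1 : ∏ j ∈ Finset.range N, Real.sqrt (1 - xs (Real.exp (-u)) j ^ 2) ^ 2 =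
        (Z M (2 * Real.exp (-u)))⁻¹ := by
      rw [← prod_Z]
      refine Finset.prod_congr rfl fun j _ => ?_
      rw [Real.sq_sqrt, xs_sq]
      have := xs_sq_le (Real.exp (-u)) (Real.exp_pos _).le j
      linarith
    rw [e1]
    set δ := Real.exp (-u) with hδ
    have δp : 0 < δ := Real.exp_pos _
    have δ1 : δ ≤ 1 := Real.exp_le_one_iff.2 (by linarith [hu.1])
    have hz := Z_upper M (2 * δ) (by positivity)
    have zp := Z_pos M (2 * δ) (by positivity)
    have h2 : 2 / 3 * δ ≤ (Z M (2 * δ))⁻¹ := by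
      rw [le_inv_comm₀ (by positivity) zp]
      refine hz.trans ?_
      have : (2 / 3 * δ)⁻¹ = 3 / (2 * δ) := by
        field_simp
      rw [this, le_div_iff₀ (by positivity)]
      have : (1 + 1 / (2 * δ)) * (2 * δ) = 2 * δ + 1 := by field_simp
      rw [this]; linarith
    have h3 := mul_le_mul_of_nonneg_left h2 (norm_nonneg (F fun j => (xs δ j : ℂ)))
    linarith
  have hφ2 : ∫⁻ z, φ z ^ 2 ∂tor = ENNReal.ofReal (∫ z, ‖F (fun j => zet (z j))‖ ∂tor) := by
    have hb : Integrable (fun z : ℕ → UnitAddCircle => ‖F (fun j => zet (z j))‖) tor := by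
      exact hφc.integrable_of_hasCompactSupport (HasCompactSupport.of_compactSpace _)
    rw [ofReal_integral_eq_lintegral_ofReal hb (Filter.Eventually.of_forall fun z => norm_nonneg _)]
    refine lintegral_congr fun z => ?_
    simp only [φ]
    rw [← ENNReal.ofReal_pow (Real.sqrt_nonneg _), Real.sq_sqrt (norm_nonneg _)]
  rw [hφ2, ← ENNReal.ofReal_mul (by positivity)] at main
  have hfin := hlow.trans main
  have hcx : Continuous fun u : ℝ => (fun j => (xs (Real.exp (-u)) j : ℂ) : ℕ → ℂ) :=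
    continuous_pi fun j => Complex.continuous_ofReal.comp (continuous_xs j)
  have hcu : Continuous fun u : ℝ =>
      2 / 3 * (Real.exp (-u) * ‖F (fun j => (xs (Real.exp (-u)) j : ℂ))‖) := by
    have := (hFc.comp hcx).norm
    exact continuous_const.mul ((by fun_prop : Continuous fun u : ℝ => Real.exp (-u)).mul this)
  rw [← ofReal_integral_eq_lintegral_ofReal (hcu.integrableOn_Icc)
    (Filter.Eventually.of_forall fun u => by positivity)] at hfin
  have hI0 : 0 ≤ ∫ z, ‖F (fun j => zet (z j))‖ ∂tor := integral_nonneg fun z => norm_nonneg _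
  rw [ENNReal.ofReal_le_ofReal_iff (by positivity)] at hfin
  rw [integral_const_mul, integral_Icc_eq_integral_Ioc, ← intervalIntegral.integral_of_le hU.le]
    at hfin
  linarith

end Pool.Agent.Helper873.Embed
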