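import Mathlib

open MeasureTheory Filter Topology Complex

noncomputable section

namespace Pool.Agent.Helper873.Ep

/-- The Dirichlet sum. -/
def D (M : ℕ) (w : ℂ) : ℂ := ∑ i ∈ Finset.range M, w ^ i

/-- The Fejer-type kernel. -/
def eta (M : ℕ) (w : ℂ) : ℝ := ‖D M w‖ ^ 2 / M

lemma eta_nonneg (M : ℕ) (w : ℂ) : 0 ≤ eta M w := by
  unfold eta; positivity

lemma continuous_eta (M : ℕ) : Continuous (eta M) := by
  unfold eta D
  fun_prop

lemma normSq_D (M : ℕ) (w : ℂ) (hw : ‖w‖ = 1) :
    Complex.normSq (D M w) = M + 2 * (∑ i ∈ Finset.range M, ∑ l ∈ Finset.range i,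
      w ^ (i - l)).re := by
  have hww : w * (starRingEnd ℂ) w = 1 := by
    rw [Complex.mul_conj, Complex.normSq_eq_norm_sq, hw]; simp
  induction M with
  | zero => simp [D]
  | succ M ih =>
    have h1 : D (M + 1) w = D M w + w ^ M := by
      simp [D, Finset.sum_range_succ]
    rw [h1, Complex.normSq_add, ih, Finset.sum_range_succ]
    have h2 : Complex.normSq (w ^ M) = 1 := by
      rw [Complex.normSq_eq_norm_sq, norm_pow, hw]; simp
    have h3 : (D M w * (starRingEnd ℂ) (w ^ M)).re
        = (∑ l ∈ Finset.range M, w ^ (M - l)).re := by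
      have : D M w * (starRingEnd ℂ) (w ^ M)
          = (starRingEnd ℂ) (∑ l ∈ Finset.range M, w ^ (M - l)) := by
        rw [D, Finset.sum_mul, map_sum]
        refine Finset.sum_congr rfl fun l hl => ?_
        have hl' : l ≤ M := (Finset.mem_range.mp hl).le
        have h4 : w ^ M = w ^ (M - l) * w ^ l := by
          rw [← pow_add]; congr 1; omega
        rw [h4, map_mul, map_pow, map_pow]
        calc w ^ l * ((starRingEnd ℂ) w ^ (M - l) * (starRingEnd ℂ) w ^ l)
            = (w * (starRingEnd ℂ) w) ^ l * (starRingEnd ℂ) w ^ (M - l) := by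
              rw [mul_pow]; ring
          _ = (starRingEnd ℂ) w ^ (M - l) := by rw [hww]; simp
      rw [this, Complex.conj_re]
    rw [h2, h3]
    push_cast
    rw [Complex.add_re]
    ring

lemma eta_bound (M : ℕ) (hM : 0 < M) (w : ℂ) (hw : ‖w‖ = 1) (hw1 : w ≠ 1) :
    eta M w ≤ 4 / ‖w - 1‖ ^ 2 / M := by
  have h1 : D M w * (w - 1) = w ^ M - 1 := geom_sum_mul w M
  have h2 : ‖D M w‖ * ‖w - 1‖ ≤ 2 := by
    rw [← norm_mul, h1]
    calc ‖w ^ M - 1‖ ≤ ‖w ^ M‖ + ‖(1 : ℂ)‖ := norm_sub_le _ _
      _ = 2 := by rw [norm_pow, hw]; norm_num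
  have h3 : 0 < ‖w - 1‖ := norm_pos_iff.mpr (sub_ne_zero.mpr hw1)
  have hM' : (0 : ℝ) < M := by exact_mod_cast hM
  unfold eta
  apply div_le_div_of_nonneg_right _ hM'.le
  rw [le_div_iff₀ (by positivity)]
  have : (‖D M w‖ * ‖w - 1‖) ^ 2 ≤ 2 ^ 2 := by
    apply pow_le_pow_left₀ (by positivity) h2
  nlinarith [this]

lemma tendsto_eta (w : ℂ) (hw : ‖w‖ = 1) (hw1 : w ≠ 1) :
    Tendsto (fun M : ℕ => eta M w) atTop (𝓝 0) := by
  have h : Tendsto (fun M : ℕ => 4 / ‖w - 1‖ ^ 2 / (M : ℝ)) atTop (𝓝 0) :=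
    tendsto_const_div_atTop_nhds_zero_nat _
  refine squeeze_zero' (Eventually.of_forall fun M => eta_nonneg M w) ?_ h
  filter_upwards [eventually_gt_atTop 0] with M hM
  exact eta_bound M hM w hw hw1

lemma norm_circleMap01 (θ : ℝ) : ‖circleMap 0 1 θ‖ = 1 := by
  simp [circleMap]

lemma tendsto_avg_eta (K : ℝ) (hK : 0 ≤ K) :
    Tendsto (fun M : ℕ => Real.circleAverage (fun w => 1 - Real.exp (-(K * eta M w))) 0 1)
      atTop (𝓝 0) := by
  have hcm : Continuous (circleMap 0 1) := continuous_circleMap 0 1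
  have h : Tendsto (fun M : ℕ => ∫ θ in (0 : ℝ)..(2 * Real.pi),
      (1 - Real.exp (-(K * eta M (circleMap 0 1 θ))))) atTop
      (𝓝 (∫ θ in (0 : ℝ)..(2 * Real.pi), (0 : ℝ))) := by
    apply intervalIntegral.tendsto_integral_filter_of_dominated_convergence (fun _ => (1 : ℝ))
    · refine Eventually.of_forall fun M => ?_
      apply Continuous.aestronglyMeasurable
      have := (continuous_eta M).comp hcm
      fun_prop
    · refine Eventually.of_forall fun M => Eventually.of_forall fun θ _ => ?_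
      have h1 : 0 ≤ K * eta M (circleMap 0 1 θ) := mul_nonneg hK (eta_nonneg _ _)
      have h2 : Real.exp (-(K * eta M (circleMap 0 1 θ))) ≤ 1 := by
        rw [Real.exp_le_one_iff]; linarith
      have h3 := Real.exp_pos (-(K * eta M (circleMap 0 1 θ)))
      rw [Real.norm_eq_abs, abs_le]
      constructor <;> linarith
    · exact intervalIntegrable_const
    · have hne : ∀ᵐ θ : ℝ, θ ≠ 2 * Real.pi := by
        rw [ae_iff]; simp
      filter_upwards [hne] with θ hθ hθ2
      have hpi := Real.pi_pos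
      rw [Set.uIoc_of_le (by positivity)] at hθ2
      have hw1 : circleMap 0 1 θ ≠ 1 := by
        intro h
        have h0 : circleMap 0 1 θ = Complex.exp (θ * I) := by simp [circleMap]
        rw [h0, Complex.exp_eq_one_iff] at h
        obtain ⟨n, hn⟩ := h
        have h5 : (θ : ℂ) = n * (2 * Real.pi) := by
          have : (θ : ℂ) * I = (n * (2 * Real.pi)) * I := by rw [hn]; ring
          exact mul_right_cancel₀ I_ne_zero this
        have h6 : θ = n * (2 * Real.pi) := by exact_mod_cast h5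
        have h7 : (0 : ℝ) < n := by
          by_contra hcon
          push Not at hcon
          have : (n : ℝ) * (2 * Real.pi) ≤ 0 :=
            mul_nonpos_of_nonpos_of_nonneg hcon (by positivity)
          linarith [hθ2.1]
        have h8 : (1 : ℝ) ≤ n := by exact_mod_cast (by exact_mod_cast h7 : (0 : ℤ) < n)
        have h9 : 2 * Real.pi ≤ (n : ℝ) * (2 * Real.pi) := by nlinarith
        exact hθ (le_antisymm hθ2.2 (h6 ▸ h9))
      have h10 := tendsto_eta _ (norm_circleMap01 θ) hw1
      have h11 : Tendsto (fun M : ℕ => 1 - Real.exp (-(K * eta M (circleMap 0 1 θ)))) atTop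
          (𝓝 (1 - Real.exp (-(K * 0)))) := by
        apply Tendsto.const_sub
        exact (Real.continuous_exp.tendsto _).comp ((h10.const_mul K).neg)
      simpa using h11
  have h12 := h.const_smul ((2 * Real.pi)⁻¹)
  simp only [intervalIntegral.integral_zero, smul_zero] at h12
  exact h12

lemma circleAverage_pow (k : ℂ → ℝ) (hk : Continuous k) (R : ℝ) (hR : 0 < R) (N : ℕ)
    (hN : 0 < N) :
    Real.circleAverage (fun z => k ((z / R) ^ N)) 0 R = Real.circleAverage k 0 1 := by
  unfold Real.circleAverage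
  congr 1
  have hR' : (R : ℂ) ≠ 0 := by exact_mod_cast hR.ne'
  have h1 : ∀ θ : ℝ, k ((circleMap 0 R θ / R) ^ N) = k (circleMap 0 1 ((N : ℝ) * θ)) := by
    intro θ
    congr 1
    have : circleMap 0 R θ / R = Complex.exp (θ * I) := by
      simp only [circleMap, zero_add]
      field_simp
    rw [this, ← Complex.exp_nat_mul]
    simp only [circleMap, zero_add, ofReal_one, one_mul]
    congr 1
    push_cast; ring
  simp only [h1]
  have hN' : (N : ℝ) ≠ 0 := by exact_mod_cast hN.ne'
  rw [intervalIntegral.integral_comp_mul_left (fun θ => k (circleMap 0 1 θ)) hN']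
  have hper : Function.Periodic (fun θ => k (circleMap 0 1 θ)) (2 * Real.pi) := by
    intro θ
    simp only [periodic_circleMap 0 1 θ]
  have hcont : Continuous fun θ => k (circleMap 0 1 θ) := hk.comp (continuous_circleMap 0 1)
  have h2 := hper.intervalIntegral_add_zsmul_eq (N : ℤ) 0
    (fun t₁ t₂ => hcont.intervalIntegrable t₁ t₂)
  simp only [zero_add, mul_zero] at h2 ⊢
  have h3 : (N : ℤ) • (2 * Real.pi) = (N : ℝ) * (2 * Real.pi) := by simp
  rw [h3] at h2
  rw [h2, smul_eq_mul]
  simp only [zsmul_eq_mul, Int.cast_natCast]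
  field_simp

end Pool.Agent.Helper873.Ep
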