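import Pool.Agent.Helper873.EpA

open MeasureTheory Filter Topology Complex

noncomputable section

namespace Pool.Agent.Helper873.Ep

/-- The basic two-term polynomial. -/
def T (R : ℝ) (e : ℂ) (j n : ℕ) : Polynomial ℂ :=
  Polynomial.C (1 / 2 : ℂ) * (Polynomial.C (e * (R : ℂ)⁻¹ ^ n) * Polynomial.X ^ (n + j)
    + Polynomial.C ((starRingEnd ℂ) e * (R : ℂ) ^ (2 * j) * (R : ℂ)⁻¹ ^ n)
      * Polynomial.X ^ (n - j))

lemma T_eval (R : ℝ) (e : ℂ) (j n : ℕ) (z : ℂ) :
    (T R e j n).eval z = 1 / 2 * (e * (R : ℂ)⁻¹ ^ n * z ^ (n + j)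
      + (starRingEnd ℂ) e * (R : ℂ) ^ (2 * j) * (R : ℂ)⁻¹ ^ n * z ^ (n - j)) := by
  simp [T]

lemma T_circle (R : ℝ) (hR : 0 < R) (e : ℂ) (j n : ℕ) (hj : j ≤ n) (z : ℂ) (hz : ‖z‖ = R) :
    (T R e j n).eval z = (z / R) ^ n * ((e * z ^ j).re : ℂ) := by
  rw [T_eval]
  have hR' : (R : ℂ) ≠ 0 := by exact_mod_cast hR.ne'
  have hzz : z * (starRingEnd ℂ) z = (R : ℂ) ^ 2 := by
    rw [Complex.mul_conj, Complex.normSq_eq_norm_sq, hz]; push_cast; ring
  have h1 : (R : ℂ) ^ (2 * j) * z ^ (n - j) = (starRingEnd ℂ) z ^ j * z ^ n := by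
    rw [pow_mul, ← hzz, mul_pow]
    have h4 : z ^ n = z ^ (n - j) * z ^ j := by
      rw [← pow_add]; congr 1; omega
    rw [h4]; ring
  have h2 : ((e * z ^ j).re : ℂ) = (e * z ^ j + (starRingEnd ℂ) (e * z ^ j)) / 2 :=
    Complex.re_eq_add_conj _
  rw [h2, map_mul, map_pow]
  have h3 : (starRingEnd ℂ) e * (R : ℂ) ^ (2 * j) * (R : ℂ)⁻¹ ^ n * z ^ (n - j)
      = (starRingEnd ℂ) e * (R : ℂ)⁻¹ ^ n * ((starRingEnd ℂ) z ^ j * z ^ n) := by
    rw [← h1]; ring
  rw [h3, div_pow, pow_add, inv_pow]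
  field_simp

lemma T_small (R : ℝ) (r : ℝ) (hr : 0 < r) (hrR : r < R) (e : ℂ) (j n N d : ℕ) (hj : j ≤ d)
    (hd : d ≤ N) (hn : N ≤ n) (z : ℂ) (hz : ‖z‖ ≤ r) :
    ‖(T R e j n).eval z‖ ≤ ‖e‖ * R ^ j * (r / R) ^ (N - d) := by
  have hR : 0 < R := hr.trans hrR
  have hq0 : 0 < r / R := by positivity
  have hq1 : r / R ≤ 1 := by rw [div_le_one hR]; exact hrR.le
  have hjn : j ≤ n := hj.trans (hd.trans hn)
  have key : ‖e‖ * R ^ j * (r / R) ^ (n - j) ≤ ‖e‖ * R ^ j * (r / R) ^ (N - d) := by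
    apply mul_le_mul_of_nonneg_left _ (by positivity)
    apply pow_le_pow_of_le_one hq0.le hq1
    omega
  refine le_trans ?_ key
  rw [T_eval]
  have hA : ‖e * (R : ℂ)⁻¹ ^ n * z ^ (n + j)‖ ≤ ‖e‖ * R ^ j * (r / R) ^ (n - j) := by
    rw [norm_mul, norm_mul, norm_pow, norm_pow, norm_inv, Complex.norm_real,
      Real.norm_of_nonneg hR.le]
    have h1 : ‖z‖ ^ (n + j) ≤ r ^ (n + j) := pow_le_pow_left₀ (norm_nonneg _) hz _
    calc ‖e‖ * R⁻¹ ^ n * ‖z‖ ^ (n + j) ≤ ‖e‖ * R⁻¹ ^ n * r ^ (n + j) := by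
          apply mul_le_mul_of_nonneg_left h1 (by positivity)
      _ = ‖e‖ * (r ^ j * (r / R) ^ n) := by
          rw [pow_add, div_pow, inv_pow]; field_simp
      _ ≤ ‖e‖ * (R ^ j * (r / R) ^ (n - j)) := by
          apply mul_le_mul_of_nonneg_left _ (norm_nonneg _)
          apply mul_le_mul (pow_le_pow_left₀ hr.le hrR.le _) _ (by positivity) (by positivity)
          apply pow_le_pow_of_le_one hq0.le hq1
          omega
      _ = ‖e‖ * R ^ j * (r / R) ^ (n - j) := by ring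
  have hB : ‖(starRingEnd ℂ) e * (R : ℂ) ^ (2 * j) * (R : ℂ)⁻¹ ^ n * z ^ (n - j)‖
      ≤ ‖e‖ * R ^ j * (r / R) ^ (n - j) := by
    rw [norm_mul, norm_mul, norm_mul, norm_pow, norm_pow, norm_pow, norm_inv, Complex.norm_real,
      Real.norm_of_nonneg hR.le, Complex.norm_conj]
    have h1 : ‖z‖ ^ (n - j) ≤ r ^ (n - j) := pow_le_pow_left₀ (norm_nonneg _) hz _
    calc ‖e‖ * R ^ (2 * j) * R⁻¹ ^ n * ‖z‖ ^ (n - j)
        ≤ ‖e‖ * R ^ (2 * j) * R⁻¹ ^ n * r ^ (n - j) := by
          apply mul_le_mul_of_nonneg_left h1 (by positivity)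
      _ = ‖e‖ * R ^ j * (r / R) ^ (n - j) := by
          have h5 : R ^ n = R ^ (n - j) * R ^ j := by
            rw [← pow_add]; congr 1; omega
          rw [div_pow, inv_pow, h5, two_mul, pow_add]
          field_simp
  calc ‖1 / 2 * (e * (R : ℂ)⁻¹ ^ n * z ^ (n + j)
      + (starRingEnd ℂ) e * (R : ℂ) ^ (2 * j) * (R : ℂ)⁻¹ ^ n * z ^ (n - j))‖
      = 1 / 2 * ‖e * (R : ℂ)⁻¹ ^ n * z ^ (n + j)
      + (starRingEnd ℂ) e * (R : ℂ) ^ (2 * j) * (R : ℂ)⁻¹ ^ n * z ^ (n - j)‖ := by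
        rw [norm_mul]; norm_num
    _ ≤ 1 / 2 * (‖e‖ * R ^ j * (r / R) ^ (n - j) + ‖e‖ * R ^ j * (r / R) ^ (n - j)) := by
        apply mul_le_mul_of_nonneg_left _ (by norm_num)
        exact (norm_add_le _ _).trans (add_le_add hA hB)
    _ = ‖e‖ * R ^ j * (r / R) ^ (n - j) := by ring

/-- The correction polynomial. -/
def Xc (R : ℝ) (E : Polynomial ℂ) (M N : ℕ) : Polynomial ℂ :=
  Polynomial.C (-(2 / (M : ℂ))) * ∑ i ∈ Finset.range M, ∑ l ∈ Finset.range i,
    ∑ j ∈ Finset.range (E.natDegree + 1), T R (E.coeff j) j (N * (i - l))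

lemma Xc_circle (R : ℝ) (hR : 0 < R) (E : Polynomial ℂ) (M N : ℕ) (hM : 0 < M)
    (hN : E.natDegree ≤ N) (z : ℂ) (hz : ‖z‖ = R) :
    ((Xc R E M N).eval z).re = (1 - eta M ((z / R) ^ N)) * (E.eval z).re := by
  have hR' : (R : ℂ) ≠ 0 := by exact_mod_cast hR.ne'
  have hM' : (M : ℝ) ≠ 0 := by exact_mod_cast hM.ne'
  set w : ℂ := (z / R) ^ N with hw
  have hwn : ‖w‖ = 1 := by
    rw [hw, norm_pow, norm_div, hz, Complex.norm_real, Real.norm_of_nonneg hR.le,
      div_self hR.ne', one_pow]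
  have h1 : (Xc R E M N).eval z = -(2 / (M : ℂ)) * ((∑ i ∈ Finset.range M,
      ∑ l ∈ Finset.range i, w ^ (i - l)) * ((E.eval z).re : ℂ)) := by
    unfold Xc
    rw [Polynomial.eval_mul, Polynomial.eval_C]
    congr 1
    rw [Polynomial.eval_finsetSum, Finset.sum_mul]
    refine Finset.sum_congr rfl fun i hi => ?_
    rw [Polynomial.eval_finsetSum, Finset.sum_mul]
    refine Finset.sum_congr rfl fun l hl => ?_
    have hl' : l < i := Finset.mem_range.mp hl
    have hil : 1 ≤ i - l := by omega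
    rw [Polynomial.eval_finsetSum]
    have h2 : ((E.eval z).re : ℂ) = ∑ j ∈ Finset.range (E.natDegree + 1),
        ((E.coeff j * z ^ j).re : ℂ) := by
      rw [Polynomial.eval_eq_sum_range, Complex.re_sum]
      push_cast
      rfl
    rw [h2, Finset.mul_sum]
    refine Finset.sum_congr rfl fun j hj => ?_
    have hj' : j ≤ E.natDegree := by
      have := Finset.mem_range.mp hj; omega
    rw [T_circle R hR _ j _ _ z hz]
    · rw [hw, ← pow_mul]
    · calc j ≤ E.natDegree := hj'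
        _ ≤ N := hN
        _ = N * 1 := by ring
        _ ≤ N * (i - l) := Nat.mul_le_mul_left _ hil
  have h3 := normSq_D M w hwn
  rw [Complex.normSq_eq_norm_sq] at h3
  rw [h1]
  set Sg : ℂ := ∑ i ∈ Finset.range M, ∑ l ∈ Finset.range i, w ^ (i - l) with hSg
  have h4 : (-(2 / (M : ℂ)) * (Sg * ((E.eval z).re : ℂ))).re
      = -(2 / (M : ℝ)) * (Sg.re * (E.eval z).re) := by
    have : (-(2 / (M : ℂ)) * (Sg * ((E.eval z).re : ℂ)))
      = ((-(2 / (M : ℝ)) : ℝ) : ℂ) * (((E.eval z).re : ℂ) * Sg) := by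
      push_cast; ring
    rw [this, Complex.re_ofReal_mul, Complex.re_ofReal_mul]
    ring
  rw [h4]
  unfold eta
  rw [h3]
  field_simp
  ring

lemma Xc_small (R : ℝ) (r : ℝ) (hr : 0 < r) (hrR : r < R) (E : Polynomial ℂ) (M N : ℕ)
    (hM : 0 < M) (hN : E.natDegree ≤ N) (z : ℂ) (hz : ‖z‖ ≤ r) :
    ‖(Xc R E M N).eval z‖ ≤ 2 * M * (∑ j ∈ Finset.range (E.natDegree + 1),
      ‖E.coeff j‖ * R ^ j) * (r / R) ^ (N - E.natDegree) := by
  have hR : 0 < R := hr.trans hrR
  have hM' : (0 : ℝ) < M := by exact_mod_cast hM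
  set Q : ℝ := (∑ j ∈ Finset.range (E.natDegree + 1),
      ‖E.coeff j‖ * R ^ j) * (r / R) ^ (N - E.natDegree) with hQ
  have hQ0 : 0 ≤ Q := by positivity
  have h1 : ∀ i ∈ Finset.range M, ‖∑ l ∈ Finset.range i,
    ∑ j ∈ Finset.range (E.natDegree + 1), (T R (E.coeff j) j (N * (i - l))).eval z‖ ≤ M * Q := by
    intro i hi
    have hi' : i < M := Finset.mem_range.mp hi
    have h2 : ∀ l ∈ Finset.range i, ‖∑ j ∈ Finset.range (E.natDegree + 1),
        (T R (E.coeff j) j (N * (i - l))).eval z‖ ≤ Q := by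
      intro l hl
      have hl' : l < i := Finset.mem_range.mp hl
      have hil : 1 ≤ i - l := by omega
      rw [hQ, Finset.sum_mul]
      refine (norm_sum_le _ _).trans (Finset.sum_le_sum fun j hj => ?_)
      apply T_small R r hr hrR _ j _ N E.natDegree _ hN _ z hz
      · have := Finset.mem_range.mp hj; omega
      · calc N = N * 1 := by ring
          _ ≤ N * (i - l) := Nat.mul_le_mul_left _ hil
    calc _ ≤ ∑ l ∈ Finset.range i, ‖∑ j ∈ Finset.range (E.natDegree + 1),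
        (T R (E.coeff j) j (N * (i - l))).eval z‖ := norm_sum_le _ _
      _ ≤ ∑ l ∈ Finset.range i, Q := Finset.sum_le_sum h2
      _ = i * Q := by simp
      _ ≤ M * Q := by
        apply mul_le_mul_of_nonneg_right _ hQ0
        exact_mod_cast hi'.le
  unfold Xc
  rw [Polynomial.eval_mul, Polynomial.eval_C, Polynomial.eval_finsetSum, norm_mul]
  have h3 : ‖∑ i ∈ Finset.range M, Polynomial.eval z (∑ l ∈ Finset.range i,
    ∑ j ∈ Finset.range (E.natDegree + 1), T R (E.coeff j) j (N * (i - l)))‖ ≤ M * (M * Q) := by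
    calc _ ≤ ∑ i ∈ Finset.range M, ‖Polynomial.eval z (∑ l ∈ Finset.range i,
        ∑ j ∈ Finset.range (E.natDegree + 1), T R (E.coeff j) j (N * (i - l)))‖ :=
          norm_sum_le _ _
      _ ≤ ∑ i ∈ Finset.range M, M * Q := by
          refine Finset.sum_le_sum fun i hi => ?_
          rw [Polynomial.eval_finsetSum]
          simp only [Polynomial.eval_finsetSum]
          exact h1 i hi
      _ = M * (M * Q) := by simp
  have h4 : ‖-(2 / (M : ℂ))‖ = 2 / M := by
    rw [norm_neg, norm_div]; simp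
  rw [h4]
  calc 2 / (M : ℝ) * _ ≤ 2 / (M : ℝ) * (M * (M * Q)) :=
        mul_le_mul_of_nonneg_left h3 (by positivity)
    _ = 2 * M * Q := by field_simp
    _ = _ := by rw [hQ]; ring

lemma continuous_re_eval (H : Polynomial ℂ) : Continuous fun z : ℂ => (H.eval z).re :=
  Complex.continuous_re.comp H.continuous

lemma ci {E : Type*} [NormedAddCommGroup E] {f : ℂ → E} (hf : Continuous f) (c : ℂ) (R : ℝ) :
    CircleIntegrable f c R := hf.continuousOn.circleIntegrable'

theorem step (H : Polynomial ℂ) (r R ε δ L : ℝ) (hr : 0 < r) (hrR : r < R) (hε : 0 < ε)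
    (hδ : 0 < δ) (hL : ∀ z : ℂ, ‖z‖ ≤ R → ‖H.eval z‖ ≤ L) :
    ∃ H' : Polynomial ℂ, (∀ z : ℂ, ‖z‖ ≤ r → ‖H'.eval z - H.eval z‖ ≤ ε) ∧
      (∀ z : ℂ, ‖z‖ ≤ R → (H'.eval z).re ≤ L) ∧
      Real.circleAverage (fun z => 1 - Real.exp ((H'.eval z).re - L)) 0 R ≤ δ := by
  have hR : 0 < R := hr.trans hrR
  have hL0 : 0 ≤ L := (norm_nonneg _).trans (hL 0 (by simpa using hR.le))
  set E : Polynomial ℂ := Polynomial.C (L : ℂ) - H with hE
  have hEre : ∀ z : ℂ, (E.eval z).re = L - (H.eval z).re := by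
    intro z; simp [hE]
  have hE0 : ∀ z : ℂ, ‖z‖ ≤ R → 0 ≤ (E.eval z).re := by
    intro z hz
    rw [hEre]
    have := Complex.re_le_norm (H.eval z)
    linarith [hL z hz]
  have hE2 : ∀ z : ℂ, ‖z‖ ≤ R → (E.eval z).re ≤ 2 * L := by
    intro z hz
    rw [hEre]
    have := Complex.abs_re_le_norm (H.eval z)
    have h2 := neg_abs_le (H.eval z).re
    linarith [hL z hz]
  -- choose M
  obtain ⟨M, hM0, hMδ⟩ : ∃ M : ℕ, 0 < M ∧
      Real.circleAverage (fun w => 1 - Real.exp (-(2 * L * eta M w))) 0 1 ≤ δ := by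
    have h1 := (tendsto_avg_eta (2 * L) (by positivity)).eventually_le_const hδ
    obtain ⟨M, hM1, hM2⟩ := (h1.and (eventually_gt_atTop 0)).exists
    exact ⟨M, hM2, hM1⟩
  -- choose N
  set A : ℝ := 2 * M * (∑ j ∈ Finset.range (E.natDegree + 1), ‖E.coeff j‖ * R ^ j) with hA
  have hA0 : 0 ≤ A := by positivity
  obtain ⟨m, hm⟩ : ∃ m : ℕ, A * (r / R) ^ m ≤ ε := by
    have h1 : Tendsto (fun m : ℕ => A * (r / R) ^ m) atTop (𝓝 (A * 0)) := by
      apply Tendsto.const_mul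
      apply tendsto_pow_atTop_nhds_zero_of_lt_one (by positivity)
      rw [div_lt_one hR]; exact hrR
    rw [mul_zero] at h1
    exact (h1.eventually_le_const hε).exists
  set N : ℕ := E.natDegree + m + 1 with hN
  have hNd : E.natDegree ≤ N := by omega
  have hN0 : 0 < N := by omega
  have hcirc : ∀ z : ℂ, ‖z‖ = R → ((H + Xc R E M N).eval z).re
      = L - eta M ((z / R) ^ N) * (E.eval z).re := by
    intro z hz
    rw [Polynomial.eval_add, Complex.add_re, Xc_circle R hR E M N hM0 hNd z hz, hEre]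
    ring
  refine ⟨H + Xc R E M N, ?_, ?_, ?_⟩
  · intro z hz
    have h1 := Xc_small R r hr hrR E M N hM0 hNd z hz
    rw [Polynomial.eval_add, add_sub_cancel_left]
    refine h1.trans (le_trans ?_ hm)
    rw [← hA]
    apply mul_le_mul_of_nonneg_left _ hA0
    apply pow_le_pow_of_le_one (by positivity)
    · rw [div_le_one hR]; exact hrR.le
    · omega
  · intro z hz
    have hb : Bornology.IsBounded (Metric.ball (0 : ℂ) R) := Metric.isBounded_ball
    have hd : DiffContOnCl ℂ (fun z => Complex.exp ((H + Xc R E M N).eval z))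
        (Metric.ball (0 : ℂ) R) := by
      apply Differentiable.diffContOnCl
      exact (H + Xc R E M N).differentiable.cexp
    have hfr : ∀ z ∈ frontier (Metric.ball (0 : ℂ) R),
        ‖(fun z => Complex.exp ((H + Xc R E M N).eval z)) z‖ ≤ Real.exp L := by
      intro z hz
      rw [frontier_ball _ hR.ne', mem_sphere_zero_iff_norm] at hz
      simp only [Complex.norm_exp]
      rw [hcirc z hz]
      apply Real.exp_le_exp.mpr
      have := mul_nonneg (eta_nonneg M ((z / R) ^ N)) (hE0 z hz.le)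
      linarith
    have hz' : z ∈ closure (Metric.ball (0 : ℂ) R) := by
      rw [closure_ball _ hR.ne', mem_closedBall_zero_iff]
      exact hz
    have h2 := Complex.norm_le_of_forall_mem_frontier_norm_le hb hd hfr hz'
    simp only [Complex.norm_exp] at h2
    exact Real.exp_le_exp.mp h2
  · have h3 := circleAverage_pow (fun w => 1 - Real.exp (-(2 * L * eta M w))) (by
      have := continuous_eta M
      fun_prop) R hR N hN0
    refine le_trans ?_ (h3.le.trans hMδ)
    apply Real.circleAverage_mono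
    · apply ci
      have := continuous_re_eval (H + Xc R E M N)
      fun_prop
    · apply ci
      have := continuous_eta M
      have h5 : Continuous fun z : ℂ => (z / R) ^ N := by fun_prop
      have h6 := this.comp h5
      simp only [Function.comp_def] at h6
      fun_prop
    · intro z hz
      rw [mem_sphere_zero_iff_norm, abs_of_pos hR] at hz
      rw [hcirc z hz]
      have h4 : -(2 * L * eta M ((z / R) ^ N))
          ≤ L - eta M ((z / R) ^ N) * (E.eval z).re - L := by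
        have := mul_le_mul_of_nonneg_left (hE2 z hz.le) (eta_nonneg M ((z / R) ^ N))
        linarith
      have := Real.exp_le_exp.mpr h4
      linarith

end Pool.Agent.Helper873.Ep
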