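import Pool.Agent.Helper873.EpB

open MeasureTheory Filter Topology Complex

noncomputable section

namespace Pool.Agent.Helper873.Ep

/-- The radii. -/
def rho (k : ℕ) : ℝ := 1 - (1 / 2) ^ (k + 1)

lemma rho_lt_one (k : ℕ) : rho k < 1 := by
  unfold rho
  have : (0 : ℝ) < (1 / 2) ^ (k + 1) := by positivity
  linarith

lemma rho_ge_half (k : ℕ) : 1 / 2 ≤ rho k := by
  unfold rho
  have : ((1 : ℝ) / 2) ^ (k + 1) ≤ (1 / 2) ^ 1 :=
    pow_le_pow_of_le_one (by norm_num) (by norm_num) (by omega)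
  norm_num at this ⊢
  linarith

lemma rho_pos (k : ℕ) : 0 < rho k := lt_of_lt_of_le (by norm_num) (rho_ge_half k)

lemma rho_succ_sub (k : ℕ) : rho (k + 1) - rho k = (1 / 2) ^ (k + 2) := by
  unfold rho
  rw [pow_succ (1 / 2 : ℝ) (k + 1)]
  ring

lemma rho_lt_succ (k : ℕ) : rho k < rho (k + 1) := by
  have := rho_succ_sub k
  have h2 : (0 : ℝ) < (1 / 2) ^ (k + 2) := by positivity
  linarith

lemma rho_mono : Monotone rho := monotone_nat_of_le_succ fun k => (rho_lt_succ k).le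

lemma rho_tendsto : Tendsto rho atTop (𝓝 1) := by
  unfold rho
  have h : Tendsto (fun k : ℕ => ((1 : ℝ) / 2) ^ (k + 1)) atTop (𝓝 0) :=
    (tendsto_add_atTop_iff_nat 1).mpr
      (tendsto_pow_atTop_nhds_zero_of_lt_one (by norm_num) (by norm_num))
  simpa using h.const_sub 1

lemma exists_rho_gt (x : ℝ) (hx : x < 1) : ∃ k, x < rho k :=
  (rho_tendsto.eventually_const_lt hx).exists

/-- Coefficient bound. -/
def Sb (H : Polynomial ℂ) : ℝ := ∑ j ∈ Finset.range (H.natDegree + 1), ‖H.coeff j‖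

lemma Sb_nonneg (H : Polynomial ℂ) : 0 ≤ Sb H := by unfold Sb; positivity

lemma Sb_bound (H : Polynomial ℂ) (z : ℂ) (hz : ‖z‖ ≤ 1) : ‖H.eval z‖ ≤ Sb H := by
  rw [Polynomial.eval_eq_sum_range]
  refine (norm_sum_le _ _).trans (Finset.sum_le_sum fun j _ => ?_)
  rw [norm_mul, norm_pow]
  calc ‖H.coeff j‖ * ‖z‖ ^ j ≤ ‖H.coeff j‖ * 1 :=
        mul_le_mul_of_nonneg_left (pow_le_one₀ (norm_nonneg _) hz) (norm_nonneg _)
    _ = ‖H.coeff j‖ := mul_one _

theorem exists_seq : ∃ (G : ℕ → Polynomial ℂ) (L : ℕ → ℝ),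
    G 0 = Polynomial.C (-10) ∧
    (∀ k, 0 ≤ L k) ∧
    (∀ n k : ℕ, n < k → (k : ℝ) * Sb (G n) ≤ L k) ∧
    (∀ k (z : ℂ), ‖z‖ ≤ rho k → ‖(G (k + 1)).eval z - (G k).eval z‖ ≤ (1 / 2) ^ (k + 2)) ∧
    (∀ k (z : ℂ), ‖z‖ ≤ rho k → ((G k).eval z).re ≤ L k) ∧
    (∀ k, Real.circleAverage (fun z => 1 - Real.exp (((G (k + 1)).eval z).re - L (k + 1))) 0
      (rho (k + 1)) ≤ (1 / 2) ^ (k + 6)) := by
  have h1 : ∀ (k : ℕ) (H : Polynomial ℂ) (B : ℝ), ∃ H' : Polynomial ℂ, Sb H ≤ B →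
      (∀ z : ℂ, ‖z‖ ≤ rho k → ‖H'.eval z - H.eval z‖ ≤ (1 / 2) ^ (k + 2)) ∧
      (∀ z : ℂ, ‖z‖ ≤ rho (k + 1) → (H'.eval z).re ≤ ((k + 1 : ℕ) : ℝ) * B) ∧
      Real.circleAverage (fun z => 1 - Real.exp ((H'.eval z).re - ((k + 1 : ℕ) : ℝ) * B)) 0
        (rho (k + 1)) ≤ (1 / 2) ^ (k + 6) := by
    intro k H B
    by_cases hB : Sb H ≤ B
    · obtain ⟨H', h⟩ := step H (rho k) (rho (k + 1)) ((1 / 2) ^ (k + 2)) ((1 / 2) ^ (k + 6))
        (((k + 1 : ℕ) : ℝ) * B) (rho_pos k) (rho_lt_succ k) (by positivity) (by positivity) (by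
          intro z hz
          have h2 := Sb_bound H z (hz.trans (rho_lt_one _).le)
          have h3 : 0 ≤ B := (Sb_nonneg H).trans hB
          have h4 : (1 : ℝ) ≤ ((k + 1 : ℕ) : ℝ) := by push_cast; linarith [k.cast_nonneg (α := ℝ)]
          nlinarith)
      exact ⟨H', fun _ => h⟩
    · exact ⟨0, fun h => absurd h hB⟩
  choose nxt hnxt using h1
  let st : ℕ → Polynomial ℂ × ℝ := fun n => Nat.rec (Polynomial.C (-10), Sb (Polynomial.C (-10)))
    (fun k s => (nxt k s.1 s.2, s.2 + Sb (nxt k s.1 s.2))) n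
  have hst0 : st 0 = (Polynomial.C (-10), Sb (Polynomial.C (-10))) := rfl
  have hst1 : ∀ k, (st (k + 1)).1 = nxt k (st k).1 (st k).2 := fun k => rfl
  have hst2 : ∀ k, (st (k + 1)).2 = (st k).2 + Sb (st (k + 1)).1 := fun k => rfl
  have hB : ∀ k, Sb (st k).1 ≤ (st k).2 := by
    intro k
    induction k with
    | zero => rw [hst0]
    | succ k ih =>
      rw [hst2]
      have := (Sb_nonneg _).trans ih
      linarith
  have hmono : Monotone fun k => (st k).2 := by
    apply monotone_nat_of_le_succ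
    intro k
    rw [hst2]
    linarith [Sb_nonneg (st (k + 1)).1]
  have hB0 : ∀ k, 0 ≤ (st k).2 := fun k => (Sb_nonneg _).trans (hB k)
  refine ⟨fun k => (st k).1, fun k => (k : ℝ) * (st (k - 1)).2, ?_, ?_, ?_, ?_, ?_, ?_⟩
  · rfl
  · intro k
    exact mul_nonneg k.cast_nonneg (hB0 _)
  · intro n k hnk
    apply mul_le_mul_of_nonneg_left _ k.cast_nonneg
    exact (hB n).trans (hmono (by omega))
  · intro k z hz
    have := (hnxt k (st k).1 (st k).2 (hB k)).1 z hz
    rw [← hst1] at this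
    exact this
  · intro k
    cases k with
    | zero =>
      intro z _
      show ((st 0).1.eval z).re ≤ _
      rw [hst0]
      simp
    | succ k =>
      intro z hz
      have := (hnxt k (st k).1 (st k).2 (hB k)).2.1 z hz
      rw [← hst1] at this
      simpa using this
  · intro k
    have := (hnxt k (st k).1 (st k).2 (hB k)).2.2
    rw [← hst1] at this
    simpa using this

/-- The data of the construction. -/
structure Data where
  G : ℕ → Polynomial ℂ
  L : ℕ → ℝ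
  F : ℂ → ℂ
  L_nonneg : ∀ k, 0 ≤ L k
  L_big : ∀ n k : ℕ, n < k → (k : ℝ) * Sb (G n) ≤ L k
  re_le : ∀ k (z : ℂ), ‖z‖ ≤ rho k → ((G k).eval z).re ≤ L k
  avg_le : ∀ k, Real.circleAverage
    (fun z => 1 - Real.exp (((G (k + 1)).eval z).re - L (k + 1))) 0
      (rho (k + 1)) ≤ (1 / 2) ^ (k + 6)
  F_diff : DifferentiableOn ℂ F (Metric.ball 0 1)
  F_near : ∀ k (z : ℂ), ‖z‖ ≤ rho k → ‖F z - (G k).eval z‖ ≤ (1 / 2) ^ (k + 1)
  F_zero : (F 0).re ≤ -9

theorem exists_data : Nonempty Data := by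
  obtain ⟨G, L, hG0, hL0, hLb, hstep, hre, havg⟩ := exists_seq
  have hdiff : ∀ k n (z : ℂ), k ≤ n → ‖z‖ ≤ rho k →
      ‖(G n).eval z - (G k).eval z‖ ≤ (1 / 2) ^ (k + 1) - (1 / 2) ^ (n + 1) := by
    intro k n z hkn hz
    induction n, hkn using Nat.le_induction with
    | base => simp
    | succ n hkn ih =>
      have h1 := hstep n z (hz.trans (rho_mono hkn))
      have h2 : (G (n + 1)).eval z - (G k).eval z
        = ((G (n + 1)).eval z - (G n).eval z) + ((G n).eval z - (G k).eval z) := by ring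
      rw [h2]
      refine (norm_add_le _ _).trans ?_
      have h3 : ((1 : ℝ) / 2) ^ (n + 1) = 2 * (1 / 2) ^ (n + 2) := by
        rw [pow_succ (1 / 2 : ℝ) (n + 1)]; ring
      have h4 : ((1 : ℝ) / 2) ^ (n + 1 + 1) = (1 / 2) ^ (n + 2) := by ring_nf
      rw [h4]
      linarith
  have hcauchy : ∀ z : ℂ, ‖z‖ < 1 → ∃ w, Tendsto (fun n => (G n).eval z) atTop (𝓝 w) := by
    intro z hz
    obtain ⟨K, hK⟩ := exists_rho_gt _ hz
    apply cauchySeq_tendsto_of_complete
    rw [Metric.cauchySeq_iff']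
    intro ε hε
    obtain ⟨N, hN⟩ := exists_pow_lt_of_lt_one hε (by norm_num : (1 / 2 : ℝ) < 1)
    refine ⟨max K N, fun n hn => ?_⟩
    rw [dist_eq_norm]
    refine lt_of_le_of_lt (hdiff (max K N) n z hn (hK.le.trans (rho_mono (le_max_left _ _)))) ?_
    have h1 : ((1 : ℝ) / 2) ^ (max K N + 1) ≤ (1 / 2) ^ N :=
      pow_le_pow_of_le_one (by norm_num) (by norm_num) (by
        have := le_max_right K N; omega)
    have h2 : (0 : ℝ) < (1 / 2) ^ (n + 1) := by positivity
    linarith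
  choose! F hF using hcauchy
  have hnear : ∀ k (z : ℂ), ‖z‖ ≤ rho k → ‖F z - (G k).eval z‖ ≤ (1 / 2) ^ (k + 1) := by
    intro k z hz
    have h1 : Tendsto (fun n => ‖(G n).eval z - (G k).eval z‖) atTop
        (𝓝 ‖F z - (G k).eval z‖) :=
      ((hF z (hz.trans_lt (rho_lt_one k))).sub_const _).norm
    apply le_of_tendsto h1
    filter_upwards [eventually_ge_atTop k] with n hn
    have h2 := hdiff k n z hn hz
    have h3 : (0 : ℝ) < (1 / 2) ^ (n + 1) := by positivity
    linarith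
  refine ⟨⟨G, L, F, hL0, hLb, hre, havg, ?_, hnear, ?_⟩⟩
  · have hloc : TendstoLocallyUniformlyOn (fun n z => (G n).eval z) F atTop
        (Metric.ball (0 : ℂ) 1) := by
      rw [Metric.tendstoLocallyUniformlyOn_iff]
      intro ε hε x hx
      rw [mem_ball_zero_iff] at hx
      obtain ⟨K, hK⟩ := exists_rho_gt _ hx
      refine ⟨Metric.ball 0 (rho K), ?_, ?_⟩
      · apply mem_nhdsWithin_of_mem_nhds
        apply Metric.isOpen_ball.mem_nhds
        rwa [mem_ball_zero_iff]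
      · obtain ⟨N, hN⟩ := exists_pow_lt_of_lt_one hε (by norm_num : (1 / 2 : ℝ) < 1)
        filter_upwards [eventually_ge_atTop (max K N)] with n hn y hy
        rw [mem_ball_zero_iff] at hy
        rw [dist_eq_norm]
        refine lt_of_le_of_lt (hnear n y (hy.le.trans
          (rho_mono ((le_max_left _ _).trans hn)))) (lt_of_le_of_lt ?_ hN)
        exact pow_le_pow_of_le_one (by norm_num) (by norm_num) (by
          have := (le_max_right K N).trans hn; omega)
    exact hloc.differentiableOn (Eventually.of_forall fun n =>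
      (G n).differentiable.differentiableOn) Metric.isOpen_ball
  · have h1 := hnear 0 0 (by simpa using (rho_pos 0).le)
    rw [hG0, Polynomial.eval_C] at h1
    have h2 := (Complex.abs_re_le_norm _).trans h1
    rw [abs_le] at h2
    have h3 := h2.2
    simp only [sub_neg_eq_add, Complex.add_re] at h3
    norm_num at h3
    linarith

end Pool.Agent.Helper873.Ep
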