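import Mathlib

open MeasureTheory Filter Topology

noncomputable section

namespace Pool.Agent.Helper873.Ep

/-- The measure on the closed unit disc given in polar coordinates by
`dμ(r e^{iθ}) = (2π)⁻¹ dν(r) dθ`: the image of `ν × (dθ / 2π)` on `ℝ × (0, 2π]` under
`(r, θ) ↦ r e^{iθ}`. -/
def polarMeasure (ν : Measure ℝ) : Measure ℂ :=
  Measure.map (fun x : ℝ × ℝ => (x.1 : ℂ) * Complex.exp (x.2 * Complex.I))
    (ν.prod ((ENNReal.ofReal (2 * Real.pi))⁻¹ •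
      (volume : Measure ℝ).restrict (Set.Ioc 0 (2 * Real.pi))))

/-- `μ` is a symmetric measure on the closed unit disc: `dμ(r e^{iθ}) = (2π)⁻¹ dν(r) dθ` for a
finite positive Borel measure `ν` on `[0, 1]` with `ν {0} = 0` and `ν [τ, 1] > 0` for every
`0 ≤ τ < 1`. -/
def IsSymmetric (μ : Measure ℂ) : Prop :=
  ∃ ν : Measure ℝ, ν Set.univ < ⊤ ∧ ν (Set.Icc 0 1)ᶜ = 0 ∧ ν {0} = 0 ∧
    (∀ τ : ℝ, 0 ≤ τ → τ < 1 → 0 < ν (Set.Icc τ 1)) ∧ μ = polarMeasure ν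

/-- `M_p(τ; f; μ) = (∫ |f(τ w)|^p dμ(w))^{1/p}`. -/
def Mp (μ : Measure ℂ) (p : ℝ) (f : ℂ → ℂ) (τ : ℝ) : ENNReal :=
  (∫⁻ w, ‖f (τ * w)‖ₑ ^ p ∂μ) ^ (1 / p)

/-- `‖f‖_{p, μ} = sup_{0 ≤ τ < 1} M_p(τ; f; μ)`, possibly infinite. -/
def normEp (μ : Measure ℂ) (p : ℝ) (f : ℂ → ℂ) : ENNReal :=
  ⨆ τ ∈ Set.Ico (0 : ℝ) 1, Mp μ p f τ

/-- `f` belongs to `E^p(μ)`: it is analytic in the open unit disc and `‖f‖_{p, μ} < ∞`. -/
def MemEp (μ : Measure ℂ) (p : ℝ) (f : ℂ → ℂ) : Prop :=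
  DifferentiableOn ℂ f (Metric.ball 0 1) ∧ normEp μ p f < ⊤

/-- `f` is weakly invertible in `E^p(μ)`: it belongs to `E^p(μ)` and there are polynomials `P n`
with `‖P n * f - 1‖_{p, μ} → 0`. -/
def WeaklyInvertible (μ : Measure ℂ) (p : ℝ) (f : ℂ → ℂ) : Prop :=
  MemEp μ p f ∧ ∃ P : ℕ → Polynomial ℂ,
    Tendsto (fun n => normEp μ p (fun z => (P n).eval z * f z - 1)) atTop (𝓝 0)

end Pool.Agent.Helper873.Ep
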