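import Pool.Agent.Helper873.EpC
import Pool.Agent.Helper873.EpDef

open MeasureTheory Filter Topology Complex
open scoped ENNReal

noncomputable section

namespace Pool.Agent.Helper873.Ep

/-- Normalised arc measure on `(0, 2π]`. -/
def lam : Measure ℝ := (ENNReal.ofReal (2 * Real.pi))⁻¹ •
      (volume : Measure ℝ).restrict (Set.Ioc 0 (2 * Real.pi))

lemma lam_univ : lam Set.univ = 1 := by
  unfold lam
  rw [Measure.smul_apply, Measure.restrict_apply MeasurableSet.univ, Set.univ_inter,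
    Real.volume_Ioc, sub_zero, smul_eq_mul]
  apply ENNReal.inv_mul_cancel
  · simp [Real.pi_pos]
  · exact ENNReal.ofReal_ne_top

instance : IsProbabilityMeasure lam := ⟨lam_univ⟩

/-- weights: `a k = 4 ^ k * exp (L k)` -/
def wa (L : ℕ → ℝ) (k : ℕ) : ℝ := 4 ^ k * Real.exp (L k)

lemma wa_pos (L : ℕ → ℝ) (k : ℕ) : 0 < wa L k := by unfold wa; positivity

lemma wa_ge_one (L : ℕ → ℝ) (hL : ∀ k, 0 ≤ L k) (k : ℕ) : 1 ≤ wa L k := by
  unfold wa
  have h1 : (1 : ℝ) ≤ 4 ^ k := one_le_pow₀ (by norm_num)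
  have h2 : 1 ≤ Real.exp (L k) := Real.one_le_exp (hL k)
  nlinarith

/-- the weights `c k`. -/
def wc (L : ℕ → ℝ) (p : ℝ) (k : ℕ) : ℝ := (wa L k) ^ (-p)

lemma wc_pos (L : ℕ → ℝ) (p : ℝ) (k : ℕ) : 0 < wc L p k := by
  unfold wc; exact Real.rpow_pos_of_pos (wa_pos L k) _

/-- radial measure. -/
def nu (L : ℕ → ℝ) (p : ℝ) : Measure ℝ :=
  Measure.sum fun k => ENNReal.ofReal (wc L p k) • Measure.dirac (rho k)

lemma lintegral_nu (L : ℕ → ℝ) (p : ℝ) (h : ℝ → ℝ≥0∞) :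
    ∫⁻ r, h r ∂(nu L p) = ∑' k, ENNReal.ofReal (wc L p k) * h (rho k) := by
  unfold nu
  rw [lintegral_sum_measure]
  congr 1
  ext k
  rw [lintegral_smul_measure, lintegral_dirac, smul_eq_mul]

lemma nu_apply (L : ℕ → ℝ) (p : ℝ) (s : Set ℝ) (hs : MeasurableSet s) :
    nu L p s = ∑' k, ENNReal.ofReal (wc L p k) * s.indicator 1 (rho k) := by
  rw [← lintegral_nu, ← lintegral_indicator_one hs]

lemma wc_le (L : ℕ → ℝ) (hL : ∀ k, 0 ≤ L k) (p : ℝ) (hp : 1 ≤ p) (k : ℕ) :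
    wc L p k ≤ (1 / 4) ^ k := by
  unfold wc
  have h1 := wa_ge_one L hL k
  calc wa L k ^ (-p) ≤ wa L k ^ (-1 : ℝ) := by
        apply Real.rpow_le_rpow_of_exponent_le h1; linarith
    _ = (wa L k)⁻¹ := Real.rpow_neg_one _
    _ ≤ (4 ^ k)⁻¹ := by
        apply inv_anti₀ (by positivity)
        unfold wa
        have h2 : 1 ≤ Real.exp (L k) := Real.one_le_exp (hL k)
        have h3 : (0 : ℝ) < 4 ^ k := by positivity
        nlinarith
    _ = (1 / 4) ^ k := by rw [one_div, inv_pow]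

lemma nu_univ (L : ℕ → ℝ) (hL : ∀ k, 0 ≤ L k) (p : ℝ) (hp : 1 ≤ p) :
    nu L p Set.univ < ⊤ := by
  rw [nu_apply L p _ MeasurableSet.univ]
  simp only [Set.indicator_univ, Pi.one_apply, mul_one]
  have hs : Summable (wc L p) := by
    apply Summable.of_nonneg_of_le (fun k => (wc_pos L p k).le) (fun k => wc_le L hL p hp k)
    exact summable_geometric_of_lt_one (by norm_num) (by norm_num)
  rw [← ENNReal.ofReal_tsum_of_nonneg (fun k => (wc_pos L p k).le) hs]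
  exact ENNReal.ofReal_lt_top

lemma nu_supp (L : ℕ → ℝ) (p : ℝ) : nu L p (Set.Icc 0 1)ᶜ = 0 := by
  rw [nu_apply L p _ measurableSet_Icc.compl]
  simp only [ENNReal.tsum_eq_zero]
  intro k
  rw [Set.indicator_of_notMem, mul_zero]
  simp only [Set.mem_compl_iff, not_not]
  exact ⟨(rho_pos k).le, (rho_lt_one k).le⟩

lemma nu_zero (L : ℕ → ℝ) (p : ℝ) : nu L p {0} = 0 := by
  rw [nu_apply L p _ (measurableSet_singleton 0)]
  simp only [ENNReal.tsum_eq_zero]
  intro k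
  rw [Set.indicator_of_notMem, mul_zero]
  simp only [Set.mem_singleton_iff]
  exact (rho_pos k).ne'

lemma nu_pos (L : ℕ → ℝ) (p : ℝ) (τ : ℝ) (hτ : τ < 1) : 0 < nu L p (Set.Icc τ 1) := by
  obtain ⟨k, hk⟩ := exists_rho_gt τ hτ
  rw [nu_apply L p _ measurableSet_Icc]
  have h1 : 0 < ENNReal.ofReal (wc L p k) * (Set.Icc τ 1).indicator (1 : ℝ → ℝ≥0∞) (rho k) := by
    rw [Set.indicator_of_mem]
    · simp [wc_pos]
    · exact ⟨hk.le, (rho_lt_one k).le⟩
  exact h1.trans_le (ENNReal.le_tsum k)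

lemma isSymmetric (L : ℕ → ℝ) (hL : ∀ k, 0 ≤ L k) (p : ℝ) (hp : 1 ≤ p) :
    IsSymmetric (polarMeasure (nu L p)) :=
  ⟨nu L p, nu_univ L hL p hp, nu_supp L p, nu_zero L p, fun τ _ hτ => nu_pos L p τ hτ, rfl⟩

lemma measurable_polar : Measurable fun x : ℝ × ℝ => (x.1 : ℂ) * Complex.exp (x.2 * Complex.I) := by
  fun_prop

lemma polar_eq (L : ℕ → ℝ) (p : ℝ) : polarMeasure (nu L p) = Measure.map
    (fun x : ℝ × ℝ => (x.1 : ℂ) * Complex.exp (x.2 * Complex.I)) ((nu L p).prod lam) := rfl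

lemma lint_formula (L : ℕ → ℝ) (p : ℝ) (h : ℂ → ℝ≥0∞)
    (hh : AEMeasurable h (polarMeasure (nu L p))) :
    ∫⁻ w, h w ∂(polarMeasure (nu L p)) = ∑' k, ENNReal.ofReal (wc L p k) *
      ∫⁻ θ, h ((rho k : ℂ) * Complex.exp (θ * Complex.I)) ∂lam := by
  rw [polar_eq] at hh ⊢
  rw [lintegral_map' hh measurable_polar.aemeasurable]
  have h1 := lintegral_prod _ (hh.comp_measurable measurable_polar)
  simp only [Function.comp_def] at h1
  rw [h1, lintegral_nu]

lemma polar_ae (L : ℕ → ℝ) (p : ℝ) :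
    ∀ᵐ w ∂(polarMeasure (nu L p)), w ∈ Metric.closedBall (0 : ℂ) 1 := by
  rw [polar_eq]
  have hm : MeasurableSet {w : ℂ | w ∈ Metric.closedBall (0 : ℂ) 1} :=
    Metric.isClosed_closedBall.measurableSet
  rw [ae_map_iff measurable_polar.aemeasurable hm]
  have h1 : ∀ᵐ x ∂((nu L p).prod lam), x.1 ∈ Set.Icc (0 : ℝ) 1 := by
    have h2 : ∀ᵐ r ∂(nu L p), r ∈ Set.Icc (0 : ℝ) 1 := by
      rw [ae_iff]
      exact nu_supp L p
    exact Measure.quasiMeasurePreserving_fst.ae h2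
  filter_upwards [h1] with x hx
  rw [mem_closedBall_zero_iff, norm_mul, Complex.norm_exp_ofReal_mul_I, mul_one,
    Complex.norm_real, Real.norm_of_nonneg hx.1]
  exact hx.2

lemma aemeas (L : ℕ → ℝ) (p q : ℝ) (g : ℂ → ℂ) (hg : ContinuousOn g (Metric.ball 0 1))
    (τ : ℝ) (hτ : τ ∈ Set.Ico (0 : ℝ) 1) :
    AEMeasurable (fun w : ℂ => ‖g (τ * w)‖ₑ ^ q) (polarMeasure (nu L p)) := by
  have h1 : ContinuousOn (fun w : ℂ => g (τ * w)) (Metric.closedBall 0 1) := by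
    apply hg.comp (by fun_prop)
    intro w hw
    rw [mem_closedBall_zero_iff] at hw
    rw [mem_ball_zero_iff, norm_mul, Complex.norm_real, Real.norm_of_nonneg hτ.1]
    nlinarith [hτ.1, hτ.2, norm_nonneg w]
  have h2 : AEMeasurable (fun w : ℂ => g (τ * w))
      ((polarMeasure (nu L p)).restrict (Metric.closedBall 0 1)) :=
    h1.aemeasurable Metric.isClosed_closedBall.measurableSet
  rw [Measure.restrict_eq_self_of_ae_mem (polar_ae L p)] at h2
  exact h2.enorm.pow_const q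

lemma Mp_eq (L : ℕ → ℝ) (p q : ℝ) (g : ℂ → ℂ) (hg : ContinuousOn g (Metric.ball 0 1))
    (τ : ℝ) (hτ : τ ∈ Set.Ico (0 : ℝ) 1) :
    Mp (polarMeasure (nu L p)) q g τ = (∑' k, ENNReal.ofReal (wc L p k) *
      ∫⁻ θ, ‖g (τ * ((rho k : ℂ) * Complex.exp (θ * Complex.I)))‖ₑ ^ q ∂lam) ^ (1 / q) := by
  unfold Mp
  rw [lint_formula L p _ (aemeas L p q g hg τ hτ)]

/-- Upper bound. -/
lemma upper (L : ℕ → ℝ) (p q : ℝ) (hq : 0 < q) (g : ℂ → ℂ)
    (hg : ContinuousOn g (Metric.ball 0 1)) (B : ℕ → ℝ)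
    (hB : ∀ k (z : ℂ), ‖z‖ ≤ rho k → ‖g z‖ ≤ B k) :
    normEp (polarMeasure (nu L p)) q g
      ≤ (∑' k, ENNReal.ofReal (wc L p k * B k ^ q)) ^ (1 / q) := by
  unfold normEp
  refine iSup₂_le fun τ hτ => ?_
  rw [Mp_eq L p q g hg τ hτ]
  apply ENNReal.rpow_le_rpow _ (by positivity)
  refine ENNReal.tsum_le_tsum fun k => ?_
  rw [ENNReal.ofReal_mul (wc_pos L p k).le]
  gcongr
  have hB0 : 0 ≤ B k := (norm_nonneg _).trans (hB k 0 (by simpa using (rho_pos k).le))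
  calc ∫⁻ θ, ‖g (τ * ((rho k : ℂ) * Complex.exp (θ * Complex.I)))‖ₑ ^ q ∂lam
      ≤ ∫⁻ θ, ENNReal.ofReal (B k ^ q) ∂lam := by
        apply lintegral_mono
        intro θ
        show ‖g (τ * ((rho k : ℂ) * Complex.exp (θ * Complex.I)))‖ₑ ^ q ≤ ENNReal.ofReal (B k ^ q)
        rw [← ENNReal.ofReal_rpow_of_nonneg hB0 hq.le]
        apply ENNReal.rpow_le_rpow _ hq.le
        rw [← ofReal_norm]
        apply ENNReal.ofReal_le_ofReal
        apply hB
        rw [norm_mul, norm_mul, Complex.norm_exp_ofReal_mul_I, mul_one, Complex.norm_real,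
          Complex.norm_real, Real.norm_of_nonneg hτ.1, Real.norm_of_nonneg (rho_pos k).le]
        nlinarith [hτ.1, hτ.2, rho_pos k]
    _ = ENNReal.ofReal (B k ^ q) := by
        rw [lintegral_const, lam_univ, mul_one]

lemma lintegral_lam_eq (h : ℂ → ℝ) (R : ℝ) (hR : 0 ≤ R)
    (hc : ContinuousOn h (Metric.sphere 0 R)) (h0 : ∀ z, 0 ≤ h z) :
    ∫⁻ θ, ENNReal.ofReal (h ((R : ℂ) * Complex.exp (θ * Complex.I))) ∂lam
      = ENNReal.ofReal (Real.circleAverage h 0 R) := by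
  have hcm : ∀ θ : ℝ, (R : ℂ) * Complex.exp (θ * Complex.I) = circleMap 0 R θ := by
    intro θ; simp [circleMap]
  simp only [hcm]
  have hcont : Continuous fun θ : ℝ => h (circleMap 0 R θ) := by
    apply hc.comp_continuous (continuous_circleMap 0 R)
    intro θ
    exact circleMap_mem_sphere 0 hR θ
  have hint : IntegrableOn (fun θ : ℝ => h (circleMap 0 R θ)) (Set.Ioc 0 (2 * Real.pi)) :=
    (hcont.integrableOn_Icc).mono_set Set.Ioc_subset_Icc_self
  unfold lam Real.circleAverage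
  have hpi : (0 : ℝ) < 2 * Real.pi := by positivity
  rw [lintegral_smul_measure, intervalIntegral.integral_of_le hpi.le,
    ← ofReal_integral_eq_lintegral_ofReal hint (Eventually.of_forall fun θ => h0 _), smul_eq_mul,
    smul_eq_mul, ENNReal.ofReal_mul (inv_pos.mpr hpi).le, ENNReal.ofReal_inv_of_pos hpi]

/-- Lower bound at a smaller radius. -/
lemma lower_aux (L : ℕ → ℝ) (p : ℝ) (hp : 1 ≤ p) (g : ℂ → ℂ)
    (hg : ContinuousOn g (Metric.ball 0 1)) (k : ℕ) (τ : ℝ) (hτ : τ ∈ Set.Ico (0 : ℝ) 1) :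
    ENNReal.ofReal (Real.circleAverage (fun z => ‖g z‖) 0 (τ * rho k))
      ≤ ENNReal.ofReal (wa L k) * normEp (polarMeasure (nu L p)) p g := by
  have hp0 : 0 < p := by linarith
  have hR0 : 0 ≤ τ * rho k := mul_nonneg hτ.1 (rho_pos k).le
  have hR1 : τ * rho k < 1 := by nlinarith [hτ.1, hτ.2, rho_pos k, rho_lt_one k]
  have hcs : ContinuousOn g (Metric.sphere 0 (τ * rho k)) := by
    apply hg.mono
    intro z hz
    rw [mem_sphere_zero_iff_norm] at hz
    rw [mem_ball_zero_iff, hz]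
    exact hR1
  rw [← lintegral_lam_eq _ _ hR0 hcs.norm (fun z => norm_nonneg _)]
  have harg : ∀ θ : ℝ, ((τ * rho k : ℝ) : ℂ) * Complex.exp (θ * Complex.I)
      = τ * ((rho k : ℂ) * Complex.exp (θ * Complex.I)) := by
    intro θ; push_cast; ring
  have hgc : Continuous fun θ : ℝ => g (τ * ((rho k : ℂ) * Complex.exp (θ * Complex.I))) := by
    have h1 : Continuous fun θ : ℝ => g (circleMap 0 (τ * rho k) θ) := by
      apply hcs.comp_continuous (continuous_circleMap 0 _)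
      intro θ
      exact circleMap_mem_sphere 0 hR0 θ
    have h2 : (fun θ : ℝ => g (τ * ((rho k : ℂ) * Complex.exp (θ * Complex.I))))
        = fun θ : ℝ => g (circleMap 0 (τ * rho k) θ) := by
      ext θ
      rw [← harg]
      simp [circleMap]
    rw [h2]; exact h1
  set φ : ℝ → ℂ := fun θ : ℝ => g (τ * ((rho k : ℂ) * Complex.exp (θ * Complex.I))) with hφ
  have h1 : ∫⁻ θ : ℝ, ENNReal.ofReal ‖g (((τ * rho k : ℝ) : ℂ) * Complex.exp (θ * Complex.I))‖ ∂lam
      = eLpNorm' φ 1 lam := by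
    unfold eLpNorm'
    simp only [ENNReal.rpow_one, div_one]
    apply lintegral_congr
    intro θ
    rw [harg, ofReal_norm]
  rw [h1]
  have h2 : eLpNorm' φ 1 lam ≤ eLpNorm' φ p lam :=
    eLpNorm'_le_eLpNorm'_of_exponent_le one_pos hp lam hgc.aestronglyMeasurable
  refine h2.trans ?_
  have h3 : eLpNorm' φ p lam = (∫⁻ θ, ‖φ θ‖ₑ ^ p ∂lam) ^ (1 / p) := rfl
  rw [h3]
  have h4 : ENNReal.ofReal (wc L p k) * ∫⁻ θ, ‖φ θ‖ₑ ^ p ∂lam
      ≤ ∑' k, ENNReal.ofReal (wc L p k) *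
      ∫⁻ θ, ‖g (τ * ((rho k : ℂ) * Complex.exp (θ * Complex.I)))‖ₑ ^ p ∂lam :=
    ENNReal.le_tsum k
  have h5 : Mp (polarMeasure (nu L p)) p g τ ≤ normEp (polarMeasure (nu L p)) p g := by
    unfold normEp
    exact le_iSup₂_of_le τ hτ le_rfl
  refine le_trans ?_ (mul_le_mul_right h5 _)
  rw [Mp_eq L p p g hg τ hτ]
  refine le_trans ?_ (mul_le_mul_right (ENNReal.rpow_le_rpow h4 (by positivity)) _)
  rw [ENNReal.mul_rpow_of_nonneg _ _ (by positivity), ← mul_assoc]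
  have h6 : ENNReal.ofReal (wa L k) * ENNReal.ofReal (wc L p k) ^ (1 / p) = 1 := by
    rw [ENNReal.ofReal_rpow_of_nonneg (wc_pos L p k).le (by positivity),
      ← ENNReal.ofReal_mul (wa_pos L k).le]
    have : wa L k * wc L p k ^ (1 / p) = 1 := by
      unfold wc
      rw [← Real.rpow_mul (wa_pos L k).le]
      have h7 : -p * (1 / p) = -1 := by field_simp
      rw [h7, Real.rpow_neg_one]
      exact mul_inv_cancel₀ (wa_pos L k).ne'
    rw [this, ENNReal.ofReal_one]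
  rw [h6, one_mul]

/-- Lower bound. -/
lemma lower (L : ℕ → ℝ) (p : ℝ) (hp : 1 ≤ p) (g : ℂ → ℂ)
    (hg : ContinuousOn g (Metric.ball 0 1)) (k : ℕ)
    (hfin : normEp (polarMeasure (nu L p)) p g < ⊤) :
    Real.circleAverage (fun z => ‖g z‖) 0 (rho k)
      ≤ wa L k * (normEp (polarMeasure (nu L p)) p g).toReal := by
  have h1 : ∀ n, Real.circleAverage (fun z => ‖g z‖) 0 (rho n * rho k)
      ≤ wa L k * (normEp (polarMeasure (nu L p)) p g).toReal := by
    intro n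
    have h2 := lower_aux L p hp g hg k (rho n) ⟨(rho_pos n).le, rho_lt_one n⟩
    rw [← ENNReal.ofReal_toReal hfin.ne, ← ENNReal.ofReal_mul (wa_pos L k).le] at h2
    exact (ENNReal.ofReal_le_ofReal_iff
      (mul_nonneg (wa_pos L k).le ENNReal.toReal_nonneg)).mp h2
  have h3 : ContinuousOn (Real.circleAverage (fun z => ‖g z‖) 0) (Set.Ico 0 1) := by
    apply _root_.Real.ContinuousOn.circleAverage
    · apply ContinuousOn.norm
      apply hg.mono
      intro z hz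
      simp only [sub_zero, Set.mem_ofPred_eq, Set.mem_Ico] at hz
      rw [mem_ball_zero_iff]
      exact hz.2
    · intro r hr
      exact hr.1
  have h4 : Tendsto (fun n => rho n * rho k) atTop (𝓝[Set.Ico 0 1] (rho k)) := by
    rw [tendsto_nhdsWithin_iff]
    refine ⟨?_, Eventually.of_forall fun n => ?_⟩
    · simpa using rho_tendsto.mul_const (rho k)
    · exact ⟨mul_nonneg (rho_pos n).le (rho_pos k).le, by
        nlinarith [rho_pos n, rho_pos k, rho_lt_one n, rho_lt_one k]⟩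
  have h5 := (h3 (rho k) ⟨(rho_pos k).le, rho_lt_one k⟩).tendsto.comp h4
  exact le_of_tendsto' h5 h1

end Pool.Agent.Helper873.Ep
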