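import Pool.Agent.Helper873.EpD

open MeasureTheory Filter Topology Complex
open scoped ENNReal

noncomputable section

namespace Pool.Agent.Helper873.Ep

lemma norm_cavg_le (f : ℂ → ℂ) (c : ℂ) (R : ℝ) :
    ‖Real.circleAverage f c R‖ ≤ Real.circleAverage (fun z => ‖f z‖) c R := by
  unfold Real.circleAverage
  rw [norm_smul, Real.norm_of_nonneg (by positivity), smul_eq_mul]
  apply mul_le_mul_of_nonneg_left _ (by positivity)
  exact intervalIntegral.norm_integral_le_integral_norm (by positivity)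

/-- circle averages of a polynomial. -/
def Av (P : Polynomial ℂ) (k : ℕ) : ℝ := Real.circleAverage (fun z => ‖P.eval z‖) 0 (rho k)

lemma Av_nonneg (P : Polynomial ℂ) (k : ℕ) : 0 ≤ Av P k :=
  Real.circleAverage_nonneg_of_nonneg fun _ _ => norm_nonneg _

lemma Av_le_Sb (P : Polynomial ℂ) (k : ℕ) : Av P k ≤ Sb P := by
  apply Real.circleAverage_mono_on_of_le_circle (ci P.continuous.norm 0 _)
  intro z hz
  rw [mem_sphere_zero_iff_norm, abs_of_pos (rho_pos k)] at hz
  exact Sb_bound P z (hz.le.trans (rho_lt_one k).le)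

lemma zero_le_Av (P : Polynomial ℂ) (k : ℕ) : ‖P.eval 0‖ ≤ Av P k := by
  have h1 : Real.circleAverage (fun z => P.eval z) 0 (rho k) = P.eval 0 :=
    DiffContOnCl.circleAverage P.differentiable.diffContOnCl
  rw [← h1]
  exact norm_cavg_le _ _ _

lemma sup_le_Av (P : Polynomial ℂ) (k : ℕ) (z : ℂ) (hz : ‖z‖ ≤ rho k) :
    ‖P.eval z‖ ≤ 2 ^ (k + 2) * Av P (k + 1) := by
  have hR := rho_pos (k + 1)
  have hzR : ‖z‖ < rho (k + 1) := hz.trans_lt (rho_lt_succ k)
  have h1 : Real.circleAverage (fun w => ((w - 0) / (w - z)) • P.eval w) 0 (rho (k + 1))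
      = P.eval z := by
    apply DiffContOnCl.circleAverage_smul_div P.differentiable.diffContOnCl
    rw [mem_ball_zero_iff, abs_of_pos hR]
    exact hzR
  rw [← h1]
  refine (norm_cavg_le _ _ _).trans ?_
  unfold Av
  have hsub : ∀ w ∈ Metric.sphere (0 : ℂ) |rho (k + 1)|, (1 / 2 : ℝ) ^ (k + 2) ≤ ‖w - z‖ := by
    intro w hw
    rw [mem_sphere_zero_iff_norm, abs_of_pos hR] at hw
    have h2 : ‖w‖ - ‖z‖ ≤ ‖w - z‖ := norm_sub_norm_le w z
    rw [← rho_succ_sub]
    linarith
  have h3 : (2 : ℝ) ^ (k + 2) * Real.circleAverage (fun z => ‖P.eval z‖) 0 (rho (k + 1))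
      = Real.circleAverage (fun z => 2 ^ (k + 2) * ‖P.eval z‖) 0 (rho (k + 1)) := by
    have := Real.circleAverage_fun_smul (a := (2 : ℝ) ^ (k + 2))
      (f := fun z => ‖P.eval z‖) (c := 0) (R := rho (k + 1))
    simp only [smul_eq_mul] at this
    exact this.symm
  rw [h3]
  apply Real.circleAverage_mono
  · apply ContinuousOn.circleIntegrable'
    apply ContinuousOn.norm
    refine ContinuousOn.fun_smul ?_ P.continuous.continuousOn
    apply ContinuousOn.div (by fun_prop) (by fun_prop)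
    intro w hw h0
    have := hsub w hw
    rw [h0, norm_zero] at this
    have h4 : (0 : ℝ) < (1 / 2) ^ (k + 2) := by positivity
    linarith
  · exact ci (by fun_prop) _ _
  · intro w hw
    have h4 := hsub w hw
    rw [mem_sphere_zero_iff_norm, abs_of_pos hR] at hw
    rw [norm_smul, norm_div, sub_zero, hw]
    apply mul_le_mul_of_nonneg_right _ (norm_nonneg _)
    have h5 : (0 : ℝ) < (1 / 2) ^ (k + 2) := by positivity
    rw [div_le_iff₀ (by linarith)]
    have h6 : (2 : ℝ) ^ (k + 2) * (1 / 2) ^ (k + 2) = 1 := by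
      rw [← mul_pow]; norm_num
    have h7 : (2 : ℝ) ^ (k + 2) * (1 / 2) ^ (k + 2) ≤ 2 ^ (k + 2) * ‖w - z‖ :=
      mul_le_mul_of_nonneg_left h4 (by positivity)
    linarith [(rho_lt_one (k + 1)).le]

lemma cont_expF (d : Data) (s : ℝ) :
    DifferentiableOn ℂ (fun z => Complex.exp (s * d.F z)) (Metric.ball 0 1) :=
  (d.F_diff.const_mul (s : ℂ)).cexp

lemma re_F_le (d : Data) (k : ℕ) (z : ℂ) (hz : ‖z‖ ≤ rho k) : (d.F z).re ≤ d.L k + 1 := by
  have h1 := d.F_near k z hz
  have h2 := (Complex.re_le_norm _).trans h1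
  rw [Complex.sub_re] at h2
  have h3 := d.re_le k z hz
  have h4 : ((1 : ℝ) / 2) ^ (k + 1) ≤ 1 := pow_le_one₀ (by norm_num) (by norm_num)
  linarith

lemma re_G_le_F (d : Data) (k : ℕ) (z : ℂ) (hz : ‖z‖ ≤ rho k) :
    ((d.G k).eval z).re ≤ (d.F z).re + 1 := by
  have h1 := d.F_near k z hz
  have h2 := (Complex.abs_re_le_norm _).trans h1
  rw [Complex.sub_re, abs_le] at h2
  have h4 : ((1 : ℝ) / 2) ^ (k + 1) ≤ 1 := pow_le_one₀ (by norm_num) (by norm_num)
  linarith

/-- The chain inequality. -/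
lemma chain (d : Data) (p : ℝ) (hp : 1 ≤ p) (P : Polynomial ℂ)
    (hP : normEp (polarMeasure (nu d.L p)) p
      (fun z => P.eval z * Complex.exp (d.F z) - 1) ≤ 1) (k : ℕ) :
    Av P (k + 1) ≤ 2 * Real.exp 1 * 4 ^ (k + 1) + Av P (k + 2) / 8 := by
  have hfin : normEp (polarMeasure (nu d.L p)) p
      (fun z => P.eval z * Complex.exp (d.F z) - 1) < ⊤ := hP.trans_lt ENNReal.one_lt_top
  have hcF : ContinuousOn (fun z => Complex.exp (d.F z)) (Metric.ball 0 1) :=
    d.F_diff.cexp.continuousOn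
  have hcg : ContinuousOn (fun z => P.eval z * Complex.exp (d.F z)) (Metric.ball 0 1) :=
    P.continuous.continuousOn.mul hcF
  have hcg1 : ContinuousOn (fun z => P.eval z * Complex.exp (d.F z) - 1) (Metric.ball 0 1) :=
    hcg.sub continuousOn_const
  have hlow := lower d.L p hp _ hcg1 (k + 1) hfin
  have hto : (normEp (polarMeasure (nu d.L p)) p
      (fun z => P.eval z * Complex.exp (d.F z) - 1)).toReal ≤ 1 := by
    have := ENNReal.toReal_mono ENNReal.one_ne_top hP
    simpa using this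
  have hwa := wa_pos d.L (k + 1)
  have hwa1 := wa_ge_one d.L d.L_nonneg (k + 1)
  have hR := rho_pos (k + 1)
  have hsph : Metric.sphere (0 : ℂ) |rho (k + 1)| ⊆ Metric.ball 0 1 := by
    intro z hz
    rw [mem_sphere_zero_iff_norm, abs_of_pos hR] at hz
    rw [mem_ball_zero_iff, hz]
    exact rho_lt_one _
  have hi1 : CircleIntegrable (fun z => ‖P.eval z * Complex.exp (d.F z)‖) 0 (rho (k + 1)) :=
    (hcg.norm.mono hsph).circleIntegrable'
  have hi2 : CircleIntegrable (fun z => ‖P.eval z * Complex.exp (d.F z) - 1‖) 0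
      (rho (k + 1)) := (hcg1.norm.mono hsph).circleIntegrable'
  have hB : Real.circleAverage (fun z => ‖P.eval z * Complex.exp (d.F z)‖) 0 (rho (k + 1))
      ≤ 2 * wa d.L (k + 1) := by
    have h1 : Real.circleAverage (fun z => ‖P.eval z * Complex.exp (d.F z)‖) 0 (rho (k + 1))
      ≤ Real.circleAverage (fun z => ‖P.eval z * Complex.exp (d.F z) - 1‖ + 1) 0
        (rho (k + 1)) := by
      apply Real.circleAverage_mono hi1 (hi2.add (circleIntegrable_const _ _ _))
      intro z _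
      have : P.eval z * Complex.exp (d.F z) = (P.eval z * Complex.exp (d.F z) - 1) + 1 := by
        ring
      calc ‖P.eval z * Complex.exp (d.F z)‖
          = ‖(P.eval z * Complex.exp (d.F z) - 1) + 1‖ := by rw [← this]
        _ ≤ ‖P.eval z * Complex.exp (d.F z) - 1‖ + ‖(1 : ℂ)‖ := norm_add_le _ _
        _ = _ := by rw [norm_one]; rfl
    rw [Real.circleAverage_fun_add hi2 (circleIntegrable_const _ _ _),
      Real.circleAverage_const] at h1
    have h2 := mul_le_mul_of_nonneg_left hto hwa.le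
    linarith
  -- pointwise bound
  set U : ℝ := 2 ^ (k + 3) * Av P (k + 2) with hU
  have hU0 : 0 ≤ U := by
    have := Av_nonneg P (k + 2)
    positivity
  have hpt : ∀ z ∈ Metric.sphere (0 : ℂ) |rho (k + 1)|, ‖P.eval z‖
      ≤ Real.exp (1 - d.L (k + 1)) * ‖P.eval z * Complex.exp (d.F z)‖
        + U * (1 - Real.exp (((d.G (k + 1)).eval z).re - d.L (k + 1))) := by
    intro z hz
    rw [mem_sphere_zero_iff_norm, abs_of_pos hR] at hz
    have h1 : ‖P.eval z‖ ≤ U := sup_le_Av P (k + 1) z hz.le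
    have h2 := re_G_le_F d (k + 1) z hz.le
    have h3 := d.re_le (k + 1) z hz.le
    have h4 : Real.exp (((d.G (k + 1)).eval z).re - d.L (k + 1)) ≤ 1 := by
      rw [Real.exp_le_one_iff]; linarith
    have h5 : Real.exp (((d.G (k + 1)).eval z).re - d.L (k + 1))
        ≤ Real.exp (1 - d.L (k + 1)) * Real.exp (d.F z).re := by
      rw [← Real.exp_add]
      apply Real.exp_le_exp.mpr
      linarith
    rw [norm_mul, Complex.norm_exp]
    have h6 : ‖P.eval z‖ * Real.exp (((d.G (k + 1)).eval z).re - d.L (k + 1))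
        ≤ ‖P.eval z‖ * (Real.exp (1 - d.L (k + 1)) * Real.exp (d.F z).re) :=
      mul_le_mul_of_nonneg_left h5 (norm_nonneg _)
    have h7 : ‖P.eval z‖ * (1 - Real.exp (((d.G (k + 1)).eval z).re - d.L (k + 1)))
        ≤ U * (1 - Real.exp (((d.G (k + 1)).eval z).re - d.L (k + 1))) :=
      mul_le_mul_of_nonneg_right h1 (by linarith)
    calc ‖P.eval z‖ = ‖P.eval z‖ * Real.exp (((d.G (k + 1)).eval z).re - d.L (k + 1))
          + ‖P.eval z‖ * (1 - Real.exp (((d.G (k + 1)).eval z).re - d.L (k + 1))) := by ring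
      _ ≤ ‖P.eval z‖ * (Real.exp (1 - d.L (k + 1)) * Real.exp (d.F z).re)
          + U * (1 - Real.exp (((d.G (k + 1)).eval z).re - d.L (k + 1))) := add_le_add h6 h7
      _ = _ := by ring
  have hi3 : CircleIntegrable (fun z => Real.exp (1 - d.L (k + 1)) *
      ‖P.eval z * Complex.exp (d.F z)‖) 0 (rho (k + 1)) :=
    ((continuousOn_const.mul hcg.norm).mono hsph).circleIntegrable'
  have hi4 : CircleIntegrable (fun z => U *
      (1 - Real.exp (((d.G (k + 1)).eval z).re - d.L (k + 1)))) 0 (rho (k + 1)) := by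
    apply ci
    have := continuous_re_eval (d.G (k + 1))
    fun_prop
  have h8 : Av P (k + 1) ≤ Real.circleAverage (fun z =>
      Real.exp (1 - d.L (k + 1)) * ‖P.eval z * Complex.exp (d.F z)‖
        + U * (1 - Real.exp (((d.G (k + 1)).eval z).re - d.L (k + 1)))) 0 (rho (k + 1)) :=
    Real.circleAverage_mono (ci P.continuous.norm _ _) (hi3.add hi4) hpt
  rw [Real.circleAverage_fun_add hi3 hi4] at h8
  have h9 := Real.circleAverage_fun_smul (a := Real.exp (1 - d.L (k + 1)))
      (f := fun z => ‖P.eval z * Complex.exp (d.F z)‖) (c := 0) (R := rho (k + 1))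
  have h10 := Real.circleAverage_fun_smul (a := U)
      (f := fun z => (1 - Real.exp (((d.G (k + 1)).eval z).re - d.L (k + 1)))) (c := 0)
      (R := rho (k + 1))
  simp only [smul_eq_mul] at h9 h10
  rw [h9, h10] at h8
  have h11 : Real.exp (1 - d.L (k + 1)) *
      Real.circleAverage (fun z => ‖P.eval z * Complex.exp (d.F z)‖) 0 (rho (k + 1))
      ≤ 2 * Real.exp 1 * 4 ^ (k + 1) := by
    calc _ ≤ Real.exp (1 - d.L (k + 1)) * (2 * wa d.L (k + 1)) :=
          mul_le_mul_of_nonneg_left hB (Real.exp_pos _).le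
      _ = 2 * (Real.exp (1 - d.L (k + 1)) * Real.exp (d.L (k + 1))) * 4 ^ (k + 1) := by
          unfold wa; ring
      _ = _ := by rw [← Real.exp_add]; congr 3; ring
  have h12 : U * Real.circleAverage (fun z =>
      (1 - Real.exp (((d.G (k + 1)).eval z).re - d.L (k + 1)))) 0 (rho (k + 1))
      ≤ Av P (k + 2) / 8 := by
    calc _ ≤ U * (1 / 2) ^ (k + 6) := mul_le_mul_of_nonneg_left (d.avg_le k) hU0
      _ = (2 ^ (k + 3) * (1 / 2) ^ (k + 3)) * Av P (k + 2) * (1 / 2) ^ 3 := by
          rw [hU, show k + 6 = (k + 3) + 3 by ring, pow_add (1 / 2 : ℝ)]; ring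
      _ = Av P (k + 2) / 8 := by
          rw [← mul_pow]; norm_num; ring
  linarith

lemma Av_one_le (d : Data) (p : ℝ) (hp : 1 ≤ p) (P : Polynomial ℂ)
    (hP : normEp (polarMeasure (nu d.L p)) p
      (fun z => P.eval z * Complex.exp (d.F z) - 1) ≤ 1) :
    ‖P.eval 0‖ ≤ 16 * Real.exp 1 := by
  have h1 : ∀ K k : ℕ, Av P (k + 1) ≤ 4 * Real.exp 1 * 4 ^ (k + 1) + Sb P * (1 / 8) ^ K := by
    intro K
    induction K with
    | zero =>
      intro k
      have := Av_le_Sb P (k + 1)
      have h2 : (0 : ℝ) ≤ 4 * Real.exp 1 * 4 ^ (k + 1) := by positivity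
      simp only [pow_zero, mul_one]
      linarith
    | succ K ih =>
      intro k
      have h2 := chain d p hp P hP k
      have h3 := ih (k + 1)
      have h4 : (4 : ℝ) ^ (k + 1 + 1) = 4 * 4 ^ (k + 1) := by ring
      have h5 : (1 / 8 : ℝ) ^ (K + 1) = (1 / 8) ^ K / 8 := by ring
      rw [h4] at h3
      rw [h5]
      have h6 : Av P (k + 1 + 1) = Av P (k + 2) := rfl
      rw [h6] at h3
      linarith
  have h2 : Tendsto (fun K : ℕ => 4 * Real.exp 1 * 4 ^ (0 + 1) + Sb P * (1 / 8 : ℝ) ^ K) atTop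
      (𝓝 (4 * Real.exp 1 * 4 ^ (0 + 1) + Sb P * 0)) := by
    apply Tendsto.const_add
    apply Tendsto.const_mul
    exact tendsto_pow_atTop_nhds_zero_of_lt_one (by norm_num) (by norm_num)
  have h3 := ge_of_tendsto' h2 fun K => h1 K 0
  refine (zero_le_Av P 1).trans ?_
  have h4 : Av P (0 + 1) = Av P 1 := rfl
  rw [h4] at h3
  norm_num at h3
  linarith

theorem not_wi (d : Data) (p : ℝ) (hp : 1 ≤ p) :
    ¬ ∃ P : ℕ → Polynomial ℂ, Tendsto (fun n => normEp (polarMeasure (nu d.L p)) p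
      (fun z => (P n).eval z * Complex.exp (d.F z) - 1)) atTop (𝓝 0) := by
  rintro ⟨P, hP⟩
  have hwa := wa_pos d.L 0
  -- choose n with small norm
  set η : ℝ := min 1 (1 / (4 * wa d.L 0)) with hη
  have hη0 : 0 < η := by
    rw [hη]; exact lt_min one_pos (by positivity)
  obtain ⟨n, hn⟩ := (hP.eventually_le_const (ENNReal.ofReal_pos.mpr hη0)).exists
  have hn1 : normEp (polarMeasure (nu d.L p)) p
      (fun z => (P n).eval z * Complex.exp (d.F z) - 1) ≤ 1 := by
    refine hn.trans ?_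
    rw [← ENNReal.ofReal_one]
    exact ENNReal.ofReal_le_ofReal (min_le_left _ _)
  have h1 := Av_one_le d p hp (P n) hn1
  have hcF : DifferentiableOn ℂ (fun z => (P n).eval z * Complex.exp (d.F z) - 1)
      (Metric.ball 0 1) :=
    ((P n).differentiable.differentiableOn.mul d.F_diff.cexp).sub_const 1
  have h2 := lower d.L p hp _ hcF.continuousOn 0 (hn1.trans_lt ENNReal.one_lt_top)
  have hto : (normEp (polarMeasure (nu d.L p)) p
      (fun z => (P n).eval z * Complex.exp (d.F z) - 1)).toReal ≤ 1 / (4 * wa d.L 0) := by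
    have := ENNReal.toReal_mono ENNReal.ofReal_ne_top hn
    rw [ENNReal.toReal_ofReal hη0.le] at this
    exact this.trans (min_le_right _ _)
  have h3 : Real.circleAverage (fun z => (P n).eval z * Complex.exp (d.F z) - 1) 0 (rho 0)
      = (P n).eval 0 * Complex.exp (d.F 0) - 1 := by
    apply DiffContOnCl.circleAverage
    apply DifferentiableOn.diffContOnCl
    rw [abs_of_pos (rho_pos 0), closure_ball _ (rho_pos 0).ne']
    apply hcF.mono
    exact Metric.closedBall_subset_ball (rho_lt_one 0)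
  have h4 : ‖(P n).eval 0 * Complex.exp (d.F 0) - 1‖ ≤ 1 / 4 := by
    rw [← h3]
    refine (norm_cavg_le _ _ _).trans (h2.trans ?_)
    calc _ ≤ wa d.L 0 * (1 / (4 * wa d.L 0)) := mul_le_mul_of_nonneg_left hto hwa.le
      _ = 1 / 4 := by field_simp
  have h5 : ‖(P n).eval 0 * Complex.exp (d.F 0)‖ ≤ 1 / 2 := by
    rw [norm_mul, Complex.norm_exp]
    have h6 : Real.exp (d.F 0).re ≤ Real.exp (-9) := Real.exp_le_exp.mpr d.F_zero
    calc ‖(P n).eval 0‖ * Real.exp (d.F 0).re ≤ 16 * Real.exp 1 * Real.exp (-9) :=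
          mul_le_mul h1 h6 (Real.exp_pos _).le (by positivity)
      _ = 16 * Real.exp (-8) := by rw [mul_assoc, ← Real.exp_add]; norm_num
      _ ≤ 1 / 2 := by
        have h7 : (2 : ℝ) ^ 8 ≤ Real.exp 8 := by
          have h8 : Real.exp 8 = Real.exp 1 ^ 8 := by
            rw [← Real.exp_nat_mul]; norm_num
          rw [h8]
          apply pow_le_pow_left₀ (by norm_num)
          linarith [Real.exp_one_gt_d9]
        rw [Real.exp_neg]
        have h9 : (Real.exp 8)⁻¹ ≤ (2 ^ 8)⁻¹ := inv_anti₀ (by positivity) h7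
        norm_num at h9 ⊢
        linarith
  have h6 : ‖(1 : ℂ)‖ ≤ ‖(P n).eval 0 * Complex.exp (d.F 0)‖
      + ‖(P n).eval 0 * Complex.exp (d.F 0) - 1‖ := by
    have : (1 : ℂ) = (P n).eval 0 * Complex.exp (d.F 0)
      - ((P n).eval 0 * Complex.exp (d.F 0) - 1) := by ring
    calc ‖(1 : ℂ)‖ = ‖(P n).eval 0 * Complex.exp (d.F 0)
      - ((P n).eval 0 * Complex.exp (d.F 0) - 1)‖ := by rw [← this]
      _ ≤ _ := norm_sub_le _ _
  rw [norm_one] at h6
  linarith

end Pool.Agent.Helper873.Ep
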