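import Pool.Agent.Helper873.EpE

open MeasureTheory Filter Topology Complex
open scoped ENNReal

noncomputable section

namespace Pool.Agent.Helper873.Ep

lemma exp_poly (H : Polynomial ℂ) (ε : ℝ) (hε : 0 < ε) :
    ∃ P : Polynomial ℂ, ∀ z : ℂ, ‖z‖ ≤ 1 → ‖P.eval z - Complex.exp (H.eval z)‖ ≤ ε := by
  have h1 : Tendsto (fun n : ℕ => Sb H ^ n / n.factorial * 2) atTop (𝓝 (0 * 2)) :=
    (FloorSemiring.tendsto_pow_div_factorial_atTop (Sb H)).mul_const 2
  rw [zero_mul] at h1
  obtain ⟨n, hn1, hn2⟩ := ((h1.eventually_le_const hε).and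
    (eventually_ge_atTop ⌈2 * Sb H⌉₊)).exists
  refine ⟨∑ m ∈ Finset.range n, Polynomial.C ((m.factorial : ℂ)⁻¹) * H ^ m, fun z hz => ?_⟩
  have hb := Sb_bound H z hz
  have h2 : Polynomial.eval z (∑ m ∈ Finset.range n, Polynomial.C ((m.factorial : ℂ)⁻¹) * H ^ m)
      = ∑ m ∈ Finset.range n, (H.eval z) ^ m / m.factorial := by
    rw [Polynomial.eval_finsetSum]
    refine Finset.sum_congr rfl fun m _ => ?_
    rw [Polynomial.eval_mul, Polynomial.eval_C, Polynomial.eval_pow]
    ring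
  rw [h2, norm_sub_rev]
  have h3 : ‖H.eval z‖ / (n.succ : ℝ) ≤ 1 / 2 := by
    have h4 : 2 * Sb H ≤ n := (Nat.le_ceil _).trans (by exact_mod_cast hn2)
    rw [div_le_iff₀ (by positivity)]
    push_cast
    linarith
  refine (Complex.exp_bound' h3).trans (le_trans ?_ hn1)
  have h5 : ‖H.eval z‖ ^ n ≤ Sb H ^ n := pow_le_pow_left₀ (norm_nonneg _) hb n
  gcongr

lemma wc_mul_le (L : ℕ → ℝ) (p : ℝ) (hp : 1 ≤ p) (q : ℝ) (C x E : ℝ)
    (hC : 0 ≤ C) (k : ℕ) (hx : x * q ≤ p * L k + E) :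
    wc L p k * (C * Real.exp x) ^ q ≤ C ^ q * Real.exp E * (1 / 4) ^ k := by
  have h1 : wc L p k ≤ (1 / 4) ^ k * Real.exp (-(p * L k)) := by
    unfold wc wa
    rw [Real.mul_rpow (by positivity) (Real.exp_pos _).le, ← Real.exp_mul]
    have h2 : ((4 : ℝ) ^ k) ^ (-p) ≤ (1 / 4) ^ k := by
      calc ((4 : ℝ) ^ k) ^ (-p) ≤ ((4 : ℝ) ^ k) ^ (-1 : ℝ) := by
            apply Real.rpow_le_rpow_of_exponent_le (one_le_pow₀ (by norm_num))
            linarith
        _ = (1 / 4) ^ k := by rw [Real.rpow_neg_one, one_div, inv_pow]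
    have h3 : L k * -p = -(p * L k) := by ring
    rw [h3]
    exact mul_le_mul_of_nonneg_right h2 (Real.exp_pos _).le
  rw [Real.mul_rpow hC (Real.exp_pos _).le, ← Real.exp_mul]
  have hCq : 0 ≤ C ^ q := Real.rpow_nonneg hC q
  calc wc L p k * (C ^ q * Real.exp (x * q))
      ≤ ((1 / 4) ^ k * Real.exp (-(p * L k))) * (C ^ q * Real.exp (x * q)) :=
        mul_le_mul_of_nonneg_right h1 (mul_nonneg hCq (Real.exp_pos _).le)
    _ = C ^ q * (Real.exp (-(p * L k)) * Real.exp (x * q)) * (1 / 4) ^ k := by ring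
    _ ≤ C ^ q * Real.exp E * (1 / 4) ^ k := by
        apply mul_le_mul_of_nonneg_right _ (by positivity)
        apply mul_le_mul_of_nonneg_left _ hCq
        rw [← Real.exp_add]
        apply Real.exp_le_exp.mpr
        linarith

lemma norm_fs_le (d : Data) (s : ℝ) (hs : 0 < s) (k : ℕ) (z : ℂ) (hz : ‖z‖ ≤ rho k) :
    ‖Complex.exp (s * d.F z)‖ ≤ Real.exp (s * (1 + d.L k)) := by
  rw [Complex.norm_exp, Complex.re_ofReal_mul]
  apply Real.exp_le_exp.mpr
  apply mul_le_mul_of_nonneg_left _ hs.le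
  linarith [re_F_le d k z hz]

lemma mem (d : Data) (p : ℝ) (hp : 1 ≤ p) (s q : ℝ) (hs : 0 < s) (hq : 0 < q)
    (hsq : s * q ≤ p) :
    MemEp (polarMeasure (nu d.L p)) q (fun z => Complex.exp (s * d.F z)) := by
  refine ⟨cont_expF d s, ?_⟩
  have h1 := upper d.L p q hq (fun z => Complex.exp (s * d.F z)) (cont_expF d s).continuousOn
    (fun k => Real.exp (s * (1 + d.L k))) (fun k z hz => norm_fs_le d s hs k z hz)
  refine h1.trans_lt ?_
  apply ENNReal.rpow_lt_top_of_nonneg (by positivity)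
  have h2 : ∀ k, wc d.L p k * Real.exp (s * (1 + d.L k)) ^ q
      ≤ Real.exp (s * q) * (1 / 4) ^ k := by
    intro k
    have := wc_mul_le d.L p hp q 1 (s * (1 + d.L k)) (s * q) zero_le_one k (by
      have := mul_le_mul_of_nonneg_right hsq (d.L_nonneg k)
      nlinarith)
    simpa using this
  have h0 : ∀ k, 0 ≤ wc d.L p k * Real.exp (s * (1 + d.L k)) ^ q := fun k =>
    mul_nonneg (wc_pos _ _ _).le (Real.rpow_nonneg (Real.exp_pos _).le _)
  have hs' : Summable fun k => wc d.L p k * Real.exp (s * (1 + d.L k)) ^ q := by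
    apply Summable.of_nonneg_of_le h0 h2
    exact (summable_geometric_of_lt_one (by norm_num) (by norm_num)).mul_left _
  rw [← ENNReal.ofReal_tsum_of_nonneg h0 hs']
  exact ENNReal.ofReal_ne_top

/-- the pointwise bound. -/
def Bd (d : Data) (s : ℝ) (n k : ℕ) : ℝ := (1 / 2) ^ n * Real.exp (s * (1 + d.L k)) +
  (if k ≤ n then Real.exp (s * (1 / 2) ^ n) - 1 else
    2 * Real.exp (s * (1 + d.L k + Sb (d.G n))))

lemma Bd_spec (d : Data) (s : ℝ) (hs : 0 < s) (n : ℕ) (P : Polynomial ℂ)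
    (hP : ∀ z : ℂ, ‖z‖ ≤ 1 → ‖P.eval z - Complex.exp (-(s * (d.G n).eval z))‖ ≤ (1 / 2) ^ n)
    (k : ℕ) (z : ℂ) (hz : ‖z‖ ≤ rho k) :
    ‖P.eval z * Complex.exp (s * d.F z) - 1‖ ≤ Bd d s n k := by
  have hz1 : ‖z‖ ≤ 1 := hz.trans (rho_lt_one k).le
  have h1 : P.eval z * Complex.exp (s * d.F z) - 1
      = (P.eval z - Complex.exp (-(s * (d.G n).eval z))) * Complex.exp (s * d.F z)
        + (Complex.exp (s * (d.F z - (d.G n).eval z)) - 1) := by
    have : Complex.exp (-(s * (d.G n).eval z)) * Complex.exp (s * d.F z)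
        = Complex.exp (s * (d.F z - (d.G n).eval z)) := by
      rw [← Complex.exp_add]; congr 1; ring
    rw [sub_mul, this]; ring
  rw [h1]
  refine (norm_add_le _ _).trans ?_
  unfold Bd
  apply add_le_add
  · rw [norm_mul]
    exact mul_le_mul (hP z hz1) (norm_fs_le d s hs k z hz) (norm_nonneg _) (by positivity)
  · split_ifs with hkn
    · have h2 : ‖(s : ℂ) * (d.F z - (d.G n).eval z)‖ ≤ s * (1 / 2) ^ n := by
        rw [norm_mul, Complex.norm_real, Real.norm_of_nonneg hs.le]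
        apply mul_le_mul_of_nonneg_left _ hs.le
        refine (d.F_near n z (hz.trans (rho_mono hkn))).trans ?_
        exact pow_le_pow_of_le_one (by norm_num) (by norm_num) (by omega)
      have h3 := Complex.norm_exp_sub_sum_le_exp_norm_sub_sum
        ((s : ℂ) * (d.F z - (d.G n).eval z)) 1
      simp only [Finset.range_one, Finset.sum_singleton, pow_zero, Nat.factorial_zero,
        Nat.cast_one, div_one] at h3
      refine h3.trans ?_
      have := Real.exp_le_exp.mpr h2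
      linarith
    · refine (norm_sub_le _ _).trans ?_
      rw [norm_one, Complex.norm_exp, Complex.re_ofReal_mul, Complex.sub_re]
      have h4 := Sb_bound (d.G n) z hz1
      have h5 := (Complex.abs_re_le_norm ((d.G n).eval z)).trans h4
      rw [abs_le] at h5
      have h6 : Real.exp (s * ((d.F z).re - ((d.G n).eval z).re))
          ≤ Real.exp (s * (1 + d.L k + Sb (d.G n))) := by
        apply Real.exp_le_exp.mpr
        apply mul_le_mul_of_nonneg_left _ hs.le
        linarith [re_F_le d k z hz]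
      have h7 : 1 ≤ Real.exp (s * (1 + d.L k + Sb (d.G n))) := by
        apply Real.one_le_exp
        have := d.L_nonneg k
        have := Sb_nonneg (d.G n)
        positivity
      linarith

lemma Bd_nonneg (d : Data) (s : ℝ) (hs : 0 < s) (n k : ℕ) : 0 ≤ Bd d s n k := by
  unfold Bd
  apply add_nonneg (by positivity)
  split_ifs
  · have : 1 ≤ Real.exp (s * (1 / 2) ^ n) := Real.one_le_exp (by positivity)
    linarith
  · positivity

lemma Bd_tendsto (d : Data) (s : ℝ) (k : ℕ) : Tendsto (fun n => Bd d s n k) atTop (𝓝 0) := by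
  have hh : Tendsto (fun n : ℕ => (1 / 2 : ℝ) ^ n) atTop (𝓝 0) :=
    tendsto_pow_atTop_nhds_zero_of_lt_one (by norm_num) (by norm_num)
  have h1 : Tendsto (fun n : ℕ => (1 / 2 : ℝ) ^ n * Real.exp (s * (1 + d.L k)) +
      (Real.exp (s * (1 / 2) ^ n) - 1)) atTop
      (𝓝 (0 * Real.exp (s * (1 + d.L k)) + (Real.exp (s * 0) - 1))) := by
    apply Tendsto.add (hh.mul_const _)
    apply Tendsto.sub_const
    exact (Real.continuous_exp.tendsto _).comp (hh.const_mul s)
  simp only [zero_mul, mul_zero, Real.exp_zero, sub_self, add_zero] at h1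
  refine h1.congr' ?_
  filter_upwards [eventually_ge_atTop k] with n hn
  unfold Bd
  rw [if_pos hn]

lemma Bd_dom (d : Data) (p : ℝ) (hp : 1 ≤ p) (s q : ℝ) (hs : 0 < s) (hq : 0 < q)
    (n0 : ℕ) (hn0 : 1 ≤ n0) (hsq : s * q * (1 + 1 / n0) ≤ p) (n : ℕ) (hn : n0 ≤ n) (k : ℕ) :
    wc d.L p k * Bd d s n k ^ q ≤ 3 ^ q * Real.exp (s * q) * (1 / 4) ^ k := by
  have hL := d.L_nonneg k
  have hS := Sb_nonneg (d.G n)
  have hsq0 : 0 < s * q := mul_pos hs hq
  have hn0' : (0 : ℝ) < n0 := by exact_mod_cast hn0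
  have hp1 : ((1 : ℝ) / 2) ^ n ≤ 1 := pow_le_one₀ (by norm_num) (by norm_num)
  have hp0 : (0 : ℝ) < (1 / 2) ^ n := by positivity
  by_cases hkn : k ≤ n
  · have h1 : Bd d s n k ≤ 3 * Real.exp (s * (1 + d.L k)) := by
      unfold Bd
      rw [if_pos hkn]
      have h2 : Real.exp (s * (1 / 2) ^ n) ≤ Real.exp (s * (1 + d.L k)) := by
        apply Real.exp_le_exp.mpr
        apply mul_le_mul_of_nonneg_left _ hs.le
        linarith
      have h3 := Real.exp_pos (s * (1 + d.L k))
      nlinarith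
    have h4 : Bd d s n k ^ q ≤ (3 * Real.exp (s * (1 + d.L k))) ^ q :=
      Real.rpow_le_rpow (Bd_nonneg d s hs n k) h1 hq.le
    refine (mul_le_mul_of_nonneg_left h4 (wc_pos _ _ _).le).trans ?_
    apply wc_mul_le d.L p hp q 3 _ _ (by norm_num) k
    have h5 : s * q ≤ p := by
      have : s * q * 1 ≤ s * q * (1 + 1 / n0) := by
        apply mul_le_mul_of_nonneg_left _ hsq0.le
        have : (0 : ℝ) < 1 / n0 := by positivity
        linarith
      linarith
    have := mul_le_mul_of_nonneg_right h5 hL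
    nlinarith
  · have hkn' : n < k := by omega
    have h1 : Bd d s n k ≤ 3 * Real.exp (s * (1 + d.L k + Sb (d.G n))) := by
      unfold Bd
      rw [if_neg hkn]
      have h2 : Real.exp (s * (1 + d.L k)) ≤ Real.exp (s * (1 + d.L k + Sb (d.G n))) := by
        apply Real.exp_le_exp.mpr
        apply mul_le_mul_of_nonneg_left _ hs.le
        linarith
      have h3 := Real.exp_pos (s * (1 + d.L k))
      nlinarith
    have h4 : Bd d s n k ^ q ≤ (3 * Real.exp (s * (1 + d.L k + Sb (d.G n)))) ^ q :=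
      Real.rpow_le_rpow (Bd_nonneg d s hs n k) h1 hq.le
    refine (mul_le_mul_of_nonneg_left h4 (wc_pos _ _ _).le).trans ?_
    apply wc_mul_le d.L p hp q 3 _ _ (by norm_num) k
    have h5 := d.L_big n k hkn'
    have h6 : (n0 : ℝ) * Sb (d.G n) ≤ d.L k := by
      refine le_trans ?_ h5
      apply mul_le_mul_of_nonneg_right _ hS
      exact_mod_cast (hn.trans hkn'.le)
    have h7 : Sb (d.G n) ≤ d.L k * (1 / n0) := by
      rw [mul_one_div, le_div_iff₀ hn0']
      linarith
    have h8 : s * q * (d.L k + Sb (d.G n)) ≤ s * q * (1 + 1 / n0) * d.L k := by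
      calc s * q * (d.L k + Sb (d.G n)) ≤ s * q * (d.L k + d.L k * (1 / n0)) := by
            apply mul_le_mul_of_nonneg_left _ hsq0.le
            linarith
        _ = _ := by ring
    have h9 := mul_le_mul_of_nonneg_right hsq hL
    calc s * (1 + d.L k + Sb (d.G n)) * q = s * q * (d.L k + Sb (d.G n)) + s * q := by ring
      _ ≤ p * d.L k + s * q := by linarith

theorem wi (d : Data) (p : ℝ) (hp : 1 ≤ p) (s q : ℝ) (hs : 0 < s) (hq : 0 < q)
    (hsq : s * q < p) :
    WeaklyInvertible (polarMeasure (nu d.L p)) q (fun z => Complex.exp (s * d.F z)) := by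
  refine ⟨mem d p hp s q hs hq hsq.le, ?_⟩
  have hP : ∀ n : ℕ, ∃ P : Polynomial ℂ, ∀ z : ℂ, ‖z‖ ≤ 1 →
      ‖P.eval z - Complex.exp (-(s * (d.G n).eval z))‖ ≤ (1 / 2) ^ n := by
    intro n
    obtain ⟨P, hP⟩ := exp_poly (Polynomial.C (-(s : ℂ)) * d.G n) ((1 / 2) ^ n) (by positivity)
    refine ⟨P, fun z hz => ?_⟩
    have := hP z hz
    rw [Polynomial.eval_mul, Polynomial.eval_C, neg_mul] at this
    exact this
  choose P hP using hP
  refine ⟨P, ?_⟩
  -- choose n0
  obtain ⟨n0, hn0, hn0'⟩ : ∃ n0 : ℕ, 1 ≤ n0 ∧ s * q * (1 + 1 / n0) ≤ p := by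
    have h1 : Tendsto (fun n : ℕ => s * q * (1 + 1 / (n : ℝ))) atTop
        (𝓝 (s * q * (1 + 0))) := by
      apply Tendsto.const_mul
      apply Tendsto.const_add
      exact tendsto_one_div_atTop_nhds_zero_nat
    have h2 : s * q * (1 + 0) < p := by linarith
    obtain ⟨n0, h3, h4⟩ := ((h1.eventually_lt_const h2).and (eventually_ge_atTop 1)).exists
    exact ⟨n0, h4, h3.le⟩
  have hsum : Summable fun k : ℕ => 3 ^ q * Real.exp (s * q) * (1 / 4 : ℝ) ^ k :=
    (summable_geometric_of_lt_one (by norm_num) (by norm_num)).mul_left _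
  have h0 : ∀ n k, 0 ≤ wc d.L p k * Bd d s n k ^ q := fun n k =>
    mul_nonneg (wc_pos _ _ _).le (Real.rpow_nonneg (Bd_nonneg d s hs n k) _)
  have hlim : Tendsto (fun n => ∑' k, wc d.L p k * Bd d s n k ^ q) atTop
      (𝓝 (∑' k : ℕ, (0 : ℝ))) := by
    apply tendsto_tsum_of_dominated_convergence hsum
    · intro k
      have h1 : Tendsto (fun n => wc d.L p k * Bd d s n k ^ q) atTop
          (𝓝 (wc d.L p k * (0 : ℝ) ^ q)) := by
        apply Tendsto.const_mul
        exact (Bd_tendsto d s k).rpow_const (Or.inr hq.le)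
      rw [Real.zero_rpow hq.ne', mul_zero] at h1
      exact h1
    · filter_upwards [eventually_ge_atTop n0] with n hn k
      rw [Real.norm_of_nonneg (h0 n k)]
      exact Bd_dom d p hp s q hs hq n0 hn0 hn0' n hn k
  rw [tsum_zero] at hlim
  have hlim2 : Tendsto (fun n => (ENNReal.ofReal (∑' k, wc d.L p k * Bd d s n k ^ q))
      ^ (1 / q)) atTop (𝓝 0) := by
    have h1 := ENNReal.tendsto_ofReal hlim
    rw [ENNReal.ofReal_zero] at h1
    have h2 := (ENNReal.continuous_rpow_const (y := 1 / q)).tendsto (0 : ℝ≥0∞)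
    rw [ENNReal.zero_rpow_of_pos (by positivity)] at h2
    exact h2.comp h1
  refine tendsto_of_tendsto_of_tendsto_of_le_of_le' tendsto_const_nhds hlim2
    (Eventually.of_forall fun n => bot_le) ?_
  filter_upwards [eventually_ge_atTop n0] with n hn
  have hcont : ContinuousOn (fun z => (P n).eval z * Complex.exp (s * d.F z) - 1)
      (Metric.ball 0 1) :=
    ((P n).continuous.continuousOn.mul (cont_expF d s).continuousOn).sub continuousOn_const
  have h1 := upper d.L p q hq _ hcont (fun k => Bd d s n k)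
    (fun k z hz => Bd_spec d s hs n (P n) (hP n) k z hz)
  refine h1.trans ?_
  rw [ENNReal.ofReal_tsum_of_nonneg (h0 n)]
  exact Summable.of_nonneg_of_le (h0 n)
    (fun k => Bd_dom d p hp s q hs hq n0 hn0 hn0' n hn k) hsum

/-- `e^F` and its square root. -/
theorem main (p : ℝ) (hp : 1 ≤ p) : ∃ (μ : Measure ℂ) (F : ℂ → ℂ), IsSymmetric μ ∧
    DifferentiableOn ℂ F (Metric.ball 0 1) ∧
    (∀ s q : ℝ, 0 < s → 0 < q → s * q ≤ p → MemEp μ q (fun z => Complex.exp (s * F z))) ∧
    (∀ s q : ℝ, 0 < s → 0 < q → s * q < p →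
      WeaklyInvertible μ q (fun z => Complex.exp (s * F z))) ∧
    ¬ WeaklyInvertible μ p (fun z => Complex.exp (F z)) := by
  obtain ⟨d⟩ := exists_data
  refine ⟨polarMeasure (nu d.L p), d.F, isSymmetric d.L d.L_nonneg p hp, d.F_diff,
    fun s q hs hq h => mem d p hp s q hs hq h, fun s q hs hq h => wi d p hp s q hs hq h, ?_⟩
  rintro ⟨_, h⟩
  exact not_wi d p hp h

end Pool.Agent.Helper873.Ep
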