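import Pool.Agent.Helper873.Mean
import Pool.Agent.Helper873.Block

set_option autoImplicit false
open MeasureTheory Metric
open scoped ComplexConjugate ENNReal Topology

namespace Pool.Agent.Helper873.EvalB

open Pool.Agent.Helper873.OneVar Pool.Agent.Helper873.Product Pool.Agent.Helper873.Alg
  Pool.Agent.Helper873.Monomial Pool.Agent.Helper873.Embed Pool.Agent.Helper873.Mean
  Pool.Agent.Helper873.Block Pool.Agent.Helper873.Pk Pool.Agent.Helper873.Zeta

/-- rotations preserve the measure of the torus -/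
lemma rotate (θ : ℕ → UnitAddCircle) :
    MeasurePreserving (fun z : ℕ → UnitAddCircle => z + θ) tor tor := by
  have hm : Measurable (fun z : ℕ → UnitAddCircle => z + θ) := by
    rw [measurable_pi_iff]
    intro j
    exact (measurable_pi_apply j).add_const _
  refine ⟨hm, ?_⟩
  refine Measure.eq_infinitePi _ ?_
  intro s t ht
  rw [Measure.map_apply hm (MeasurableSet.pi s.countable_toSet fun _ _ => ht _)]
  have e : (fun z : ℕ → UnitAddCircle => z + θ) ⁻¹' (Set.pi (s : Set ℕ) t) =
      Set.pi (s : Set ℕ) fun j => (fun x => x + θ j) ⁻¹' (t j) := by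
    ext z
    simp [Set.mem_pi]
  rw [e, Measure.infinitePi_pi _ (fun j _ => (measurable_add_const (θ j)) (ht j))]
  refine Finset.prod_congr rfl fun j _ => ?_
  exact measure_preimage_add_right _ _ _

lemma zet_add (s t : UnitAddCircle) : zet (s + t) = zet s * zet t := by
  unfold zet
  rw [fourier_apply, fourier_apply, fourier_apply, smul_add, AddCircle.toCircle_add]
  push_cast; rfl

/-- rotation of the argument does not change the norm -/
lemma integral_rotate (c : ℕ →₀ ℂ) (t : ℝ) :
    ∫ z, ‖poly c (fun k => zet (z k) * vs (t * Complex.I) k)‖ ∂tor =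
      ∫ z, ‖poly c (fun k => zet (z k))‖ ∂tor := by
  have hzc : Continuous fun z : ℕ → UnitAddCircle => (fun j => zet (z j) : ℕ → ℂ) :=
    continuous_pi fun j => continuous_zet.comp (continuous_apply j)
  have h1 := integral_map (μ := tor) (φ := fun z : ℕ → UnitAddCircle => z + zt t)
    (rotate (zt t)).measurable.aemeasurable (f := fun z => ‖poly c (fun k => zet (z k))‖)
    (((continuous_poly c).comp hzc).norm.aestronglyMeasurable)
  rw [(rotate (zt t)).map_eq] at h1
  rw [h1]
  refine integral_congr_ae (Filter.Eventually.of_forall fun z => ?_)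
  simp only [Pi.add_apply, zet_add, zet_zt]

lemma ker_sq (x : ℝ) (hx0 : 0 ≤ x) (hx : x < 1) (t : UnitAddCircle) :
    (ker x t) ^ 2 = pk (x : ℂ) t := by
  unfold ker pk
  rw [div_pow, Real.sq_sqrt (by nlinarith), Complex.norm_real, Real.norm_of_nonneg hx0]

/-- **Evaluation bound.** -/
theorem eval_bound (c : ℕ →₀ ℂ) (s : ℂ) (hs : 1 / 2 < s.re) :
    ‖poly c (vs s)‖ ≤ (1 + 1 / (2 * s.re - 1)) * ∫ z, ‖poly c (fun k => zet (z k))‖ ∂tor := by
  set δ : ℝ := s.re - 1 / 2 with hδ
  have hδ0 : 0 < δ := by rw [hδ]; linarith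
  set u : ℕ → ℂ := vs (s.im * Complex.I) with hu
  set F : (ℕ → ℂ) → ℂ := fun w => poly c (fun k => w k * u k) with hF
  have hFc : Continuous F := (continuous_poly c).comp
    (continuous_pi fun k => (continuous_apply k).mul continuous_const)
  have hFp : ∀ (w : ℕ → ℂ) (i : ℕ), ∃ g : Polynomial ℂ, ∀ y, F (Function.update w i y) =
      g.eval y := by
    intro w i
    obtain ⟨g, hg⟩ := poly_var c (fun k => w k * u k) i
    refine ⟨g.comp (Polynomial.C (u i) * Polynomial.X), fun y => ?_⟩
    rw [Polynomial.eval_comp, Polynomial.eval_mul, Polynomial.eval_C, Polynomial.eval_X, ← hg]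
    simp only [hF]
    congr 1
    funext k
    by_cases hk : k = i
    · subst hk; simp [mul_comm]
    · simp [hk]
  obtain ⟨N, hN⟩ := exists_bound c
  have hFN : ∀ w w' : ℕ → ℂ, (∀ j < N, w j = w' j) → F w = F w' := by
    intro w w' h
    refine poly_dep c N hN _ _ fun j hj => ?_
    rw [h j hj]
  have hx0 : ∀ j, 0 ≤ xs δ j := xs_nonneg δ
  have hx1 : ∀ j, xs δ j < 1 := xs_lt_one δ hδ0.le
  have ht := tensor F hFc hFp N hFN (xs δ) hx0 hx1
  have hFv : F (fun j => (xs δ j : ℂ)) = poly c (vs s) := by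
    simp only [hF]
    congr 1
    funext k
    have h2 := two_le_p k
    have hp0 : (0 : ℝ) < (Nat.nth Nat.Prime k : ℝ) := by linarith
    have hpc : (Nat.nth Nat.Prime k : ℂ) ≠ 0 := by
      have : (Nat.nth Nat.Prime k : ℝ) ≠ 0 := hp0.ne'
      exact_mod_cast this
    simp only [hu]
    unfold xs vs
    rw [Complex.ofReal_cpow hp0.le, Complex.ofReal_natCast, ← Complex.cpow_add _ _ hpc]
    congr 1
    rw [hδ]
    push_cast
    have : s = (s.re : ℂ) + (s.im : ℂ) * Complex.I := (Complex.re_add_im s).symm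
    conv_rhs => rw [this]
    ring
  set I := ∫ z, ‖poly c (fun k => zet (z k))‖ ∂tor with hI
  have hI0 : 0 ≤ I := integral_nonneg fun _ => norm_nonneg _
  have hIrot : ∫ z, ‖F (fun k => zet (z k))‖ ∂tor = I := integral_rotate c s.im
  set X : ℝ := Real.sqrt ‖F (fun j => (xs δ j : ℂ))‖ *
    ∏ j ∈ Finset.range N, Real.sqrt (1 - xs δ j ^ 2) with hX
  have hX0 : 0 ≤ X := mul_nonneg (Real.sqrt_nonneg _)
    (Finset.prod_nonneg fun _ _ => Real.sqrt_nonneg _)
  have hzc : Continuous fun z : ℕ → UnitAddCircle => (fun j => zet (z j) : ℕ → ℂ) :=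
    continuous_pi fun j => continuous_zet.comp (continuous_apply j)
  have hFz : Continuous fun z : ℕ → UnitAddCircle => ‖F (fun j => zet (z j))‖ :=
    (hFc.comp hzc).norm
  have hkc : Continuous fun z : ℕ → UnitAddCircle =>
      ∏ j ∈ Finset.range N, ker (xs δ j) (z j) :=
    continuous_finsetProd _ fun j _ => (continuous_ker _ (hx0 j) (hx1 j)).comp (continuous_apply j)
  have hGc : Continuous fun z : ℕ → UnitAddCircle => Real.sqrt ‖F (fun j => zet (z j))‖ *
      ∏ j ∈ Finset.range N, ker (xs δ j) (z j) := (Real.continuous_sqrt.comp hFz).mul hkc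
  have hXI : X ≤ ∫ z, Real.sqrt ‖F (fun j => zet (z j))‖ *
      ∏ j ∈ Finset.range N, ker (xs δ j) (z j) ∂tor := by
    have hnn : ∀ z : ℕ → UnitAddCircle, 0 ≤ Real.sqrt ‖F (fun j => zet (z j))‖ *
        ∏ j ∈ Finset.range N, ker (xs δ j) (z j) := fun z =>
      mul_nonneg (Real.sqrt_nonneg _) (Finset.prod_nonneg fun j _ =>
        (ker_pos _ (hx0 j) (hx1 j) _).le)
    rw [← ofReal_integral_eq_lintegral_ofReal (integrable_torR hGc)
      (Filter.Eventually.of_forall hnn)] at ht
    exact (ENNReal.ofReal_le_ofReal_iff (integral_nonneg hnn)).1 ht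
  -- X ^ 2 ≤ I
  have hX2 : X ^ 2 ≤ I := by
    by_cases hXz : X = 0
    · rw [hXz]; simpa using hI0
    have hXp : 0 < X := lt_of_le_of_ne hX0 (Ne.symm hXz)
    have hkk : ∫ z, ∏ j ∈ Finset.range N, pk (xs δ j : ℂ) (z j) ∂tor = 1 := by
      have hn : ∀ j, ‖((xs δ j : ℝ) : ℂ)‖ < 1 := fun j => by
        rw [Complex.norm_real, Real.norm_of_nonneg (hx0 j)]; exact hx1 j
      have h1 := indep (fun _ => 1) continuous_const 0 (fun _ _ _ => rfl)
        (fun j => pk (xs δ j : ℂ)) (fun j => continuous_pk (hn j)) N (Nat.zero_le _)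
      simp only [one_mul, ← Finset.range_eq_Ico] at h1
      rw [h1]
      have h2 : ∏ j ∈ Finset.range N, ∫ w, pk (xs δ j : ℂ) w ∂mu = 1 :=
        Finset.prod_eq_one fun j _ => integral_pk (hn j)
      rw [h2]; simp
    have hpt : ∀ z : ℕ → UnitAddCircle, Real.sqrt ‖F (fun j => zet (z j))‖ *
        ∏ j ∈ Finset.range N, ker (xs δ j) (z j) ≤
        (1 / (2 * X)) * ‖F (fun j => zet (z j))‖ +
          (X / 2) * ∏ j ∈ Finset.range N, pk (xs δ j : ℂ) (z j) := by
      intro z
      set P := ∏ j ∈ Finset.range N, ker (xs δ j) (z j) with hP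
      have h1 : ∏ j ∈ Finset.range N, pk (xs δ j : ℂ) (z j) = P ^ 2 := by
        rw [hP, ← Finset.prod_pow]
        refine Finset.prod_congr rfl fun j _ => ?_
        rw [ker_sq _ (hx0 j) (hx1 j)]
      rw [h1]
      have h2 := Real.sq_sqrt (norm_nonneg (F (fun j => zet (z j))))
      set S := Real.sqrt ‖F (fun j => zet (z j))‖ with hS
      rw [← h2]
      have h3 : (1 / (2 * X)) * S ^ 2 + (X / 2) * P ^ 2 - S * P =
          (1 / (2 * X)) * (S - X * P) ^ 2 := by
        field_simp; ring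
      have h4 : 0 ≤ (1 / (2 * X)) * (S - X * P) ^ 2 := by positivity
      linarith
    have hi1 : Integrable (fun z : ℕ → UnitAddCircle => ‖F (fun j => zet (z j))‖) tor :=
      integrable_torR hFz
    have hi2 : Integrable (fun z : ℕ → UnitAddCircle =>
        ∏ j ∈ Finset.range N, pk (xs δ j : ℂ) (z j)) tor := by
      refine integrable_torR (continuous_finsetProd _ fun j _ => ?_)
      refine (continuous_pk ?_).comp (continuous_apply j)
      rw [Complex.norm_real, Real.norm_of_nonneg (hx0 j)]; exact hx1 j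
    have h5 := integral_mono (integrable_torR hGc)
      ((hi1.const_mul (1 / (2 * X))).add (hi2.const_mul (X / 2))) hpt
    simp only [Pi.add_apply] at h5
    rw [integral_add (hi1.const_mul _) (hi2.const_mul _), integral_const_mul,
      integral_const_mul, hkk, hIrot] at h5
    have h6 : X ≤ 1 / (2 * X) * I + X / 2 * 1 := hXI.trans h5
    have h7 : X * X ≤ X * (1 / (2 * X) * I + X / 2 * 1) := mul_le_mul_of_nonneg_left h6 hX0
    have h8 : X * (1 / (2 * X) * I + X / 2 * 1) = I / 2 + X * X / 2 := by field_simp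
    nlinarith
  have hX3 : X ^ 2 = ‖poly c (vs s)‖ * ∏ j ∈ Finset.range N, (1 - xs δ j ^ 2) := by
    rw [hX, mul_pow, Real.sq_sqrt (norm_nonneg _), ← Finset.prod_pow, hFv]
    congr 1
    refine Finset.prod_congr rfl fun j _ => ?_
    rw [Real.sq_sqrt]
    have := hx1 j
    have := hx0 j
    nlinarith
  have hprod : ∏ j ∈ Finset.range N, (1 - xs δ j ^ 2) =
      (Z (Nat.nth Nat.Prime N) (2 * δ))⁻¹ := by
    rw [← prod_Z, Nat.primeCounting'_nth_eq]
    refine Finset.prod_congr rfl fun j _ => ?_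
    rw [xs_sq]
  have hZp := Z_pos (Nat.nth Nat.Prime N) (2 * δ) (by positivity)
  have hZu := Z_upper (Nat.nth Nat.Prime N) (2 * δ) (by positivity)
  rw [hX3, hprod, ← div_eq_mul_inv, div_le_iff₀ hZp] at hX2
  have h2δ : 2 * δ = 2 * s.re - 1 := by rw [hδ]; ring
  rw [h2δ] at hX2 hZu
  calc ‖poly c (vs s)‖ ≤ I * Z (Nat.nth Nat.Prime N) (2 * s.re - 1) := hX2
    _ ≤ I * (1 + 1 / (2 * s.re - 1)) := by gcongr
    _ = _ := by ring

end Pool.Agent.Helper873.EvalB
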