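import Pool.Agent.Helper873.Monomial

set_option autoImplicit false
open MeasureTheory Metric Filter Topology
open scoped ComplexConjugate ENNReal

namespace Pool.Agent.Helper873.Final

open Pool.Agent.Helper873.OneVar Pool.Agent.Helper873.Product Pool.Agent.Helper873.Embed
  Pool.Agent.Helper873.Monomial

/-- truncated weights -/
noncomputable def bet (U : ℝ) (n : ℕ) : ℝ :=
  ∫ u in (0 : ℝ)..U, Real.exp (-u) * (n : ℝ) ^ (-(1 / 2 + Real.exp (-u)))

/-- limiting weights -/
noncomputable def betL (n : ℕ) : ℝ :=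
  if n = 1 then 1 else (n : ℝ) ^ (-(1 / 2 : ℝ)) * (1 - (n : ℝ)⁻¹) / Real.log n

lemma bet_one (U : ℝ) : bet U 1 = 1 - Real.exp (-U) := by
  unfold bet
  have h : ∀ x ∈ Set.uIcc 0 U, HasDerivAt (fun u : ℝ => -Real.exp (-u))
      (Real.exp (-x) * ((1 : ℕ) : ℝ) ^ (-(1 / 2 + Real.exp (-x)))) x := by
    intro x _
    exact (((hasDerivAt_neg x).exp).neg).congr_deriv (by simp)
  rw [intervalIntegral.integral_eq_sub_of_hasDerivAt h]
  · simp; ring
  · refine Continuous.intervalIntegrable ?_ _ _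
    simp only [Nat.cast_one, Real.one_rpow]
    fun_prop

lemma continuous_rp (n : ℕ) (hn : n ≠ 0) :
    Continuous fun u : ℝ => (n : ℝ) ^ (-(1 / 2 + Real.exp (-u))) := by
  have : (0 : ℝ) < n := by exact_mod_cast Nat.pos_of_ne_zero hn
  exact Continuous.rpow continuous_const (by fun_prop) fun u => Or.inl this.ne'

lemma bet_two (U : ℝ) (n : ℕ) (hn : 2 ≤ n) : bet U n =
    (n : ℝ) ^ (-(1 / 2 : ℝ)) * ((n : ℝ) ^ (-Real.exp (-U)) - (n : ℝ)⁻¹) / Real.log n := by
  unfold bet
  have hn0 : (0 : ℝ) < n := by positivity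
  have hn1 : (1 : ℝ) < n := by exact_mod_cast (by omega : 1 < n)
  have hlog : 0 < Real.log n := Real.log_pos hn1
  have h : ∀ x ∈ Set.uIcc 0 U, HasDerivAt
      (fun u : ℝ => (n : ℝ) ^ (-(1 / 2 : ℝ)) * (n : ℝ) ^ (-Real.exp (-u)) / Real.log n)
      (Real.exp (-x) * (n : ℝ) ^ (-(1 / 2 + Real.exp (-x)))) x := by
    intro x _
    have h1 : HasDerivAt (fun u : ℝ => -Real.exp (-u)) (Real.exp (-x)) x :=
      (((hasDerivAt_neg x).exp).neg).congr_deriv (by simp)
    have h2 := (h1.const_rpow hn0)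
    have h3 := (h2.const_mul ((n : ℝ) ^ (-(1 / 2 : ℝ)))).div_const (Real.log n)
    refine h3.congr_deriv ?_
    rw [neg_add, Real.rpow_add hn0]
    field_simp
  rw [intervalIntegral.integral_eq_sub_of_hasDerivAt h]
  · simp only [neg_zero, Real.exp_zero, Real.rpow_neg_one]
    ring
  · refine Continuous.intervalIntegrable ?_ _ _
    exact (by fun_prop : Continuous fun u : ℝ => Real.exp (-u)).mul (continuous_rp n (by omega))

lemma bet_tendsto (n : ℕ) (hn : n ≠ 0) : Tendsto (fun U => bet U n) atTop (𝓝 (betL n)) := by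
  have hexp : Tendsto (fun U : ℝ => Real.exp (-U)) atTop (𝓝 0) :=
    Real.tendsto_exp_atBot.comp tendsto_neg_atTop_atBot
  by_cases h1 : n = 1
  · subst h1
    simp_rw [bet_one]
    have : betL 1 = 1 - 0 := by simp [betL]
    rw [this]
    exact tendsto_const_nhds.sub hexp
  · have hn2 : 2 ≤ n := by omega
    simp_rw [bet_two _ n hn2]
    unfold betL
    rw [if_neg h1]
    have hn0 : (0 : ℝ) < n := by positivity
    have h2 : Tendsto (fun U : ℝ => (n : ℝ) ^ (-Real.exp (-U))) atTop (𝓝 1) := by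
      have h3 : Tendsto (fun U : ℝ => -Real.exp (-U)) atTop (𝓝 0) := by
        simpa using hexp.neg
      have h4 := (Real.continuous_const_rpow hn0.ne').tendsto 0
      rw [Real.rpow_zero] at h4
      exact h4.comp h3
    exact ((h2.sub tendsto_const_nhds).const_mul _).div_const _

/-- bound of the truncated functional -/
lemma trunc_bound (c : ℕ →₀ ℂ) (U : ℝ) (hU : 0 < U) :
    ‖c.sum fun m a => a * (bet U (m + 1) : ℂ)‖ ≤
      384 * Real.pi * ∫ z, ‖poly c (fun j => zet (z j))‖ ∂tor := by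
  obtain ⟨N₀, hN₀⟩ := exists_bound c
  have hemb := embed (poly c) (continuous_poly c) (poly_var c) N₀ (poly_dep c N₀ hN₀) U hU
  refine le_trans ?_ hemb
  have h1 : (c.sum fun m a => a * (bet U (m + 1) : ℂ)) =
      ∫ u in (0 : ℝ)..U, (Real.exp (-u) : ℂ) * poly c (fun j => (xs (Real.exp (-u)) j : ℂ)) := by
    have e1 : ∀ u : ℝ, (Real.exp (-u) : ℂ) * poly c (fun j => (xs (Real.exp (-u)) j : ℂ)) =
        ∑ m ∈ c.support, c m * ((Real.exp (-u) *
          ((m + 1 : ℕ) : ℝ) ^ (-(1 / 2 + Real.exp (-u))) : ℝ) : ℂ) := by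
      intro u
      unfold poly Finsupp.sum
      rw [Finset.mul_sum]
      refine Finset.sum_congr rfl fun m _ => ?_
      beta_reduce
      rw [mon_xs (m + 1) (by omega)]
      push_cast
      ring
    simp_rw [e1]
    rw [intervalIntegral.integral_finsetSum]
    · unfold Finsupp.sum
      refine Finset.sum_congr rfl fun m _ => ?_
      rw [intervalIntegral.integral_const_mul, intervalIntegral.integral_ofReal]
      rfl
    · intro m _
      refine Continuous.intervalIntegrable ?_ _ _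
      refine continuous_const.mul (Complex.continuous_ofReal.comp ?_)
      exact (by fun_prop : Continuous fun u : ℝ => Real.exp (-u)).mul
        (continuous_rp (m + 1) (by omega))
  rw [h1]
  refine (intervalIntegral.norm_integral_le_integral_norm hU.le).trans (le_of_eq ?_)
  refine intervalIntegral.integral_congr fun u _ => ?_
  rw [norm_mul, Complex.norm_real, Real.norm_of_nonneg (Real.exp_pos _).le]

lemma limit_bound (c : ℕ →₀ ℂ) :
    ‖c.sum fun m a => a * (betL (m + 1) : ℂ)‖ ≤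
      384 * Real.pi * ∫ z, ‖poly c (fun j => zet (z j))‖ ∂tor := by
  have ht : Tendsto (fun U : ℝ => ‖c.sum fun m a => a * (bet U (m + 1) : ℂ)‖) atTop
      (𝓝 ‖c.sum fun m a => a * (betL (m + 1) : ℂ)‖) := by
    refine Tendsto.norm ?_
    unfold Finsupp.sum
    refine tendsto_finsetSum _ fun m _ => ?_
    refine Tendsto.const_mul _ ?_
    exact (Complex.continuous_ofReal.tendsto _).comp (bet_tendsto (m + 1) (by omega))
  refine le_of_tendsto ht ?_
  filter_upwards [eventually_gt_atTop 0] with U hU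
  exact trunc_bound c U hU

/-- target coefficients -/
noncomputable def alp (n : ℕ) : ℝ := if n = 1 then 1 else (Real.sqrt n * Real.log n)⁻¹

/-- the difference of the weights -/
lemma alp_sub (n : ℕ) (hn : n ≠ 0) :
    0 ≤ alp n - betL n ∧ alp n - betL n ≤ 2 * (n : ℝ) ^ (-(3 / 2 : ℝ)) := by
  unfold alp betL
  by_cases h1 : n = 1
  · subst h1
    simp
  · rw [if_neg h1, if_neg h1]
    have hn2 : 2 ≤ n := by omega
    have hn0 : (0 : ℝ) < n := by positivity
    have hn1 : (1 : ℝ) < n := by exact_mod_cast (by omega : 1 < n)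
    have hlog : 0 < Real.log n := Real.log_pos hn1
    have hlog2 : 1 / 2 ≤ Real.log n := by
      have h2 : Real.log 2 ≤ Real.log n :=
        Real.log_le_log (by norm_num) (by exact_mod_cast hn2)
      have h3 := Real.log_two_gt_d9
      linarith
    have e1 : (Real.sqrt n)⁻¹ = (n : ℝ) ^ (-(1 / 2 : ℝ)) := by
      rw [Real.sqrt_eq_rpow, Real.rpow_neg hn0.le]
    have e2 : (Real.sqrt n * Real.log n)⁻¹ -
        (n : ℝ) ^ (-(1 / 2 : ℝ)) * (1 - (n : ℝ)⁻¹) / Real.log n =
        (n : ℝ) ^ (-(3 / 2 : ℝ)) / Real.log n := by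
      rw [mul_inv, e1, show (-(3 / 2 : ℝ)) = -(1 / 2) + (-1) by norm_num, Real.rpow_add hn0,
        Real.rpow_neg_one]
      field_simp
      ring
    rw [e2]
    have hp : 0 < (n : ℝ) ^ (-(3 / 2 : ℝ)) := Real.rpow_pos_of_pos hn0 _
    refine ⟨by positivity, ?_⟩
    rw [div_le_iff₀ hlog]
    nlinarith

theorem full_bound : ∃ C : ℝ, ∀ c : ℕ →₀ ℂ,
    ‖c.sum fun m a => a * (alp (m + 1) : ℂ)‖ ≤ C * ∫ z, ‖c.sum fun m a => a * chi m z‖ ∂tor := by
  have hsum : Summable fun m : ℕ => 2 * ((m + 1 : ℕ) : ℝ) ^ (-(3 / 2 : ℝ)) := by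
    refine Summable.mul_left 2 ?_
    have h := (Real.summable_nat_rpow (p := -(3 / 2 : ℝ))).2 (by norm_num)
    exact (summable_nat_add_iff (f := fun n : ℕ => (n : ℝ) ^ (-(3 / 2 : ℝ))) 1).2 h
  refine ⟨384 * Real.pi + ∑' m : ℕ, 2 * ((m + 1 : ℕ) : ℝ) ^ (-(3 / 2 : ℝ)), fun c => ?_⟩
  set I := ∫ z, ‖c.sum fun m a => a * chi m z‖ ∂tor with hI
  have hI' : I = ∫ z, ‖poly c (fun j => zet (z j))‖ ∂tor := rfl
  have h1 := limit_bound c
  rw [← hI'] at h1
  have h2 : ‖c.sum fun m a => a * ((alp (m + 1) - betL (m + 1) : ℝ) : ℂ)‖ ≤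
      (∑' m : ℕ, 2 * ((m + 1 : ℕ) : ℝ) ^ (-(3 / 2 : ℝ))) * I := by
    unfold Finsupp.sum
    refine (norm_sum_le _ _).trans ?_
    calc ∑ m ∈ c.support, ‖c m * ((alp (m + 1) - betL (m + 1) : ℝ) : ℂ)‖
        ≤ ∑ m ∈ c.support, (2 * ((m + 1 : ℕ) : ℝ) ^ (-(3 / 2 : ℝ))) * I := by
          refine Finset.sum_le_sum fun m _ => ?_
          rw [norm_mul, Complex.norm_real]
          obtain ⟨g0, g1⟩ := alp_sub (m + 1) (by omega)
          rw [Real.norm_of_nonneg g0]
          have hc := coeff_bound c m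
          rw [← hI'] at hc
          calc ‖c m‖ * (alp (m + 1) - betL (m + 1))
              ≤ I * (2 * ((m + 1 : ℕ) : ℝ) ^ (-(3 / 2 : ℝ))) :=
                mul_le_mul hc g1 g0 ((norm_nonneg _).trans hc)
            _ = _ := by ring
      _ = (∑ m ∈ c.support, 2 * ((m + 1 : ℕ) : ℝ) ^ (-(3 / 2 : ℝ))) * I := by
          rw [Finset.sum_mul]
      _ ≤ _ := by
          refine mul_le_mul_of_nonneg_right ?_ (integral_nonneg fun z => norm_nonneg _)
          exact hsum.sum_le_tsum _ fun m _ => by positivity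
  have e : (c.sum fun m a => a * (alp (m + 1) : ℂ)) =
      (c.sum fun m a => a * (betL (m + 1) : ℂ)) +
      (c.sum fun m a => a * ((alp (m + 1) - betL (m + 1) : ℝ) : ℂ)) := by
    unfold Finsupp.sum
    rw [← Finset.sum_add_distrib]
    refine Finset.sum_congr rfl fun m _ => ?_
    push_cast
    ring
  rw [e, add_mul]
  exact (norm_add_le _ _).trans (add_le_add h1 h2)

theorem main :
    ∃ f : (ℕ → UnitAddCircle) → ℂ,
      MemLp f ⊤ (Measure.infinitePi (fun _ : ℕ => AddCircle.haarAddCircle (T := 1))) ∧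
      (∫ x, f x ∂(Measure.infinitePi (fun _ : ℕ => AddCircle.haarAddCircle (T := 1)))) = 1 ∧
      ∀ n : ℕ, 2 ≤ n →
        (∫ x, (∏ k ∈ Finset.range n,
            fourier (-((n.factorization (Nat.nth Nat.Prime k) : ℕ) : ℤ)) (x k)) * f x
          ∂(Measure.infinitePi (fun _ : ℕ => AddCircle.haarAddCircle (T := 1))))
          = (((Real.sqrt n * Real.log n)⁻¹ : ℝ) : ℂ) := by
  obtain ⟨C, hC⟩ := full_bound
  obtain ⟨f, hf, hfe⟩ := Dual.exists_bounded tor chi
    (fun n => memLp_top_of_bound (continuous_chi n).aestronglyMeasurable 1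
      (Eventually.of_forall fun z => (norm_chi n z).le)) (fun m => (alp (m + 1) : ℂ)) C hC
  refine ⟨f, hf, ?_, ?_⟩
  · have h0 := hfe 0
    have e : ∀ z, chi 0 z = 1 := by
      intro z
      simp [chi, mon, ex]
    simp_rw [e, one_mul] at h0
    rw [h0]
    simp [alp]
  · intro n hn
    obtain ⟨m, rfl⟩ : ∃ m, n = m + 1 := ⟨n - 1, by omega⟩
    have h1 := hfe m
    have e : ∀ x : ℕ → UnitAddCircle, (∏ k ∈ Finset.range (m + 1),
        fourier (-(((m + 1).factorization (Nat.nth Nat.Prime k) : ℕ) : ℤ)) (x k)) = chi m x := by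
      intro x
      unfold chi mon ex
      refine Finset.prod_congr rfl fun k _ => ?_
      rw [zet_pow]
    simp_rw [e]
    rw [h1, alp, if_neg (by omega)]

end Pool.Agent.Helper873.Final
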