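import Pool.Agent.Helper873.HumpTwo

set_option autoImplicit false
open MeasureTheory Metric Filter
open scoped ComplexConjugate ENNReal Topology

namespace Pool.Agent.Helper873.FinalTwo

open Pool.Agent.Helper873.Alg Pool.Agent.Helper873.Monomial Pool.Agent.Helper873.Hump
  Pool.Agent.Helper873.Geo Pool.Agent.Helper873.Jen Pool.Agent.Helper873.Limit
  Pool.Agent.Helper873.HumpTwo

/-- states: coefficients, guard abscissa, tolerance -/
abbrev St2 := {p : (ℕ →₀ ℂ) × ℝ × ℝ // 1 / 2 < p.2.1 ∧ p.2.1 ≤ 3 / 2 ∧ 0 < p.2.2 ∧ DD p.1 0 ≠ 0}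

theorem exists_seq2 : ∃ (c : ℕ → (ℕ →₀ ℂ)) (σ η : ℕ → ℝ),
    (∀ k, 1 / 2 < σ k) ∧ (∀ k, σ k ≤ 3 / 2) ∧ (∀ k, 0 < η k) ∧ Antitone σ ∧
    (∀ k, η (k + 1) ≤ η k / 2) ∧ (∀ k, 2 * η (k + 1) ≤ ‖DD (c (k + 1)) 0‖) ∧
    (∀ k, nrm (c (k + 1) - c k) ≤ (1 / 2) ^ k) ∧
    (∀ k, ∀ s : ℂ, σ k ≤ s.re → ‖poly (c (k + 1) - c k) (vs s)‖ ≤ η k / 2) ∧
    ∀ k, ∃ r : ℝ, 0 < r ∧ r < 1 ∧ (∀ w : ℂ, ‖w‖ ≤ r → σ (k + 1) ≤ (phi w).re) ∧
        (∀ w : ℂ, ‖w‖ = r → 2 * η (k + 1) ≤ ‖DD (c (k + 1)) w‖) ∧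
        (k : ℝ) + 1 ≤ JJ (DD (c (k + 1))) r := by
  have hstart : DD (Finsupp.single 0 1) 0 ≠ 0 := by
    unfold DD
    rw [poly_single, mon_one]
    norm_num
  choose C S E h1 h2 h3 h4 h5 h6 h7 h8 h9 using step2
  let seq : ℕ → St2 := fun n => Nat.rec
    ⟨(Finsupp.single 0 1, 3 / 2, 1), by norm_num, le_rfl, one_pos, hstart⟩
    (fun k p => ⟨(C k p.1.1 p.1.2.1 p.1.2.2 p.2.1 p.2.2.1 p.2.2.2.1 p.2.2.2.2,
      S k p.1.1 p.1.2.1 p.1.2.2 p.2.1 p.2.2.1 p.2.2.2.1 p.2.2.2.2,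
      E k p.1.1 p.1.2.1 p.1.2.2 p.2.1 p.2.2.1 p.2.2.2.1 p.2.2.2.2),
      h1 k p.1.1 p.1.2.1 p.1.2.2 p.2.1 p.2.2.1 p.2.2.2.1 p.2.2.2.2,
      (h2 k p.1.1 p.1.2.1 p.1.2.2 p.2.1 p.2.2.1 p.2.2.2.1 p.2.2.2.2).trans p.2.2.1,
      h3 k p.1.1 p.1.2.1 p.1.2.2 p.2.1 p.2.2.1 p.2.2.2.1 p.2.2.2.2,
      h5 k p.1.1 p.1.2.1 p.1.2.2 p.2.1 p.2.2.1 p.2.2.2.1 p.2.2.2.2⟩) n
  refine ⟨fun k => (seq k).1.1, fun k => (seq k).1.2.1, fun k => (seq k).1.2.2,
    fun k => (seq k).2.1, fun k => (seq k).2.2.1, fun k => (seq k).2.2.2.1, ?_, ?_, ?_, ?_, ?_, ?_⟩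
  · exact antitone_nat_of_succ_le fun k =>
      h2 k (seq k).1.1 (seq k).1.2.1 (seq k).1.2.2 (seq k).2.1 (seq k).2.2.1 (seq k).2.2.2.1
        (seq k).2.2.2.2
  · exact fun k => h4 k (seq k).1.1 (seq k).1.2.1 (seq k).1.2.2 (seq k).2.1 (seq k).2.2.1
      (seq k).2.2.2.1 (seq k).2.2.2.2
  · exact fun k => h6 k (seq k).1.1 (seq k).1.2.1 (seq k).1.2.2 (seq k).2.1 (seq k).2.2.1
      (seq k).2.2.2.1 (seq k).2.2.2.2
  · exact fun k => h7 k (seq k).1.1 (seq k).1.2.1 (seq k).1.2.2 (seq k).2.1 (seq k).2.2.1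
      (seq k).2.2.2.1 (seq k).2.2.2.2
  · exact fun k => h8 k (seq k).1.1 (seq k).1.2.1 (seq k).1.2.2 (seq k).2.1 (seq k).2.2.1
      (seq k).2.2.2.1 (seq k).2.2.2.2
  · exact fun k => h9 k (seq k).1.1 (seq k).1.2.1 (seq k).1.2.2 (seq k).2.1 (seq k).2.2.1
      (seq k).2.2.2.1 (seq k).2.2.2.2

lemma eta_geom (η : ℕ → ℝ) (h : ∀ k, η (k + 1) ≤ η k / 2) (k j : ℕ) :
    η (k + j) ≤ η k * (1 / 2) ^ j := by
  induction j with
  | zero => simp
  | succ j ih =>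
    have h1 := h (k + j)
    rw [show k + (j + 1) = k + j + 1 by ring, pow_succ]
    linarith

/-- analyticity of the limit -/
lemma differentiableAt_lim (c : ℕ → (ℕ →₀ ℂ)) (h : ∀ k, nrm (c (k + 1) - c k) ≤ (1 / 2) ^ k)
    (s : ℂ) (hs : 1 / 2 < s.re) : AnalyticAt ℂ (lim c) s := by
  set σ : ℝ := (1 / 2 + s.re) / 2 with hσ
  have hσ1 : 1 / 2 < σ := by rw [hσ]; linarith
  have hσ2 : σ < s.re := by rw [hσ]; linarith
  set U : Set ℂ := {s : ℂ | σ < s.re} with hU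
  have hUo : IsOpen U := isOpen_lt continuous_const Complex.continuous_re
  have h1 : TendstoLocallyUniformlyOn (fun k s => poly (c k) (vs s)) (lim c) atTop U :=
    ((unif c h σ hσ1).mono fun z (hz : σ < z.re) => hz.le).tendstoLocallyUniformlyOn
  have h2 : DifferentiableOn ℂ (lim c) U :=
    h1.differentiableOn (Eventually.of_forall fun k => (differentiable_D (c k)).differentiableOn)
      hUo
  exact h2.analyticAt (hUo.mem_nhds hσ2)

lemma deriv_phi_ne {w : ℂ} (hw : ‖w‖ < 1) : deriv phi w ≠ 0 := by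
  have h1 := one_sub_ne hw
  have h2 : HasDerivAt phi (2 / (1 - w) ^ 2) w := by
    unfold phi
    have h3 : HasDerivAt (fun w : ℂ => (1 + w) / (1 - w))
        ((1 * (1 - w) - (1 + w) * (-1)) / (1 - w) ^ 2) w := by
      have h4 : HasDerivAt (fun w : ℂ => 1 + w) 1 w := by
        simpa using (hasDerivAt_id w).const_add 1
      have h5 : HasDerivAt (fun w : ℂ => 1 - w) (-1) w := by
        simpa using (hasDerivAt_id w).const_sub 1
      exact h4.div h5 h1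
    have h6 := h3.const_add (1 / 2 : ℂ)
    refine h6.congr_deriv ?_
    congr 1
    ring
  rw [h2.deriv]
  exact div_ne_zero two_ne_zero (pow_ne_zero 2 h1)

/-- Blaschke bound gives an upper bound for Jensen averages -/
theorem blaschke_bound (f : ℂ → ℂ) (hf : ∀ s : ℂ, 1 / 2 < s.re → AnalyticAt ℂ f s)
    (hf0 : f (3 / 2) ≠ 0) (C : ℝ)
    (hC : ∀ S : Finset ℂ, (∀ ρ ∈ S, 1 / 2 < ρ.re ∧ f ρ = 0) →
      ∑ ρ ∈ S, (analyticOrderNatAt f ρ : ℝ) * (ρ.re - 1 / 2) / (1 + ‖ρ‖ ^ 2) ≤ C) :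
    ∃ M : ℝ, ∀ r : ℝ, 0 < r → r < 1 → JJ (fun w => f (phi w)) r ≤ M := by
  classical
  set g : ℂ → ℂ := fun w => f (phi w) with hg
  have hga : AnalyticOnNhd ℂ g (ball 0 1) := by
    intro w hw
    rw [mem_ball_zero_iff] at hw
    have h1 : AnalyticAt ℂ phi w := by
      have h2 : DifferentiableOn ℂ phi (ball 0 1) := fun z hz =>
        (differentiableAt_phi (mem_ball_zero_iff.1 hz)).differentiableWithinAt
      exact h2.analyticAt (isOpen_ball.mem_nhds (mem_ball_zero_iff.2 hw))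
    exact (hf _ (phi_re_gt hw)).comp h1
  have hg0 : g 0 ≠ 0 := by
    simp only [hg]
    rw [phi_zero]; exact hf0
  -- no zeros near the origin
  obtain ⟨u0, hu0, hu0z⟩ : ∃ u0 > 0, ∀ w : ℂ, ‖w‖ < u0 → g w ≠ 0 := by
    have hcont : ContinuousAt g 0 := (hga 0 (mem_ball_self one_pos)).continuousAt
    have h1 : ∀ᶠ w in 𝓝 (0 : ℂ), g w ≠ 0 := hcont.eventually_ne hg0
    obtain ⟨u0, hu0, h2⟩ := Metric.eventually_nhds_iff.1 h1
    refine ⟨u0, hu0, fun w hw => h2 ?_⟩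
    rwa [dist_zero_right]
  have hC0 : 0 ≤ C := by
    have := hC ∅ (by simp)
    simpa using this
  refine ⟨16 / (3 * u0) * C + Real.log ‖g 0‖, fun r hr0 hr1 => ?_⟩
  obtain ⟨S, hS, hJ⟩ := jensen g r hr0 (hga.mono (closedBall_subset_ball hr1)) hg0
  rw [hJ]
  have hSz : ∀ u ∈ S, ‖u‖ < 1 ∧ g u = 0 ∧ u0 ≤ ‖u‖ := by
    intro u hu
    obtain ⟨h1, h2⟩ := (hS u).1 hu
    have h3 : ‖u‖ < 1 := by linarith
    have h4 : g u = 0 := order_zero_iff g u (hga u (mem_ball_zero_iff.2 h3)) h2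
    refine ⟨h3, h4, ?_⟩
    by_contra h5
    push Not at h5
    exact hu0z u h5 h4
  have hterm : ∀ u ∈ S, (analyticOrderNatAt g u : ℝ) * Real.log (r / ‖u‖) ≤
      16 / (3 * u0) * ((analyticOrderNatAt f (phi u) : ℝ) * ((phi u).re - 1 / 2) /
        (1 + ‖phi u‖ ^ 2)) := by
    intro u hu
    obtain ⟨h1, h2, h3⟩ := hSz u hu
    have hup : 0 < ‖u‖ := by linarith
    have hord : analyticOrderNatAt g u = analyticOrderNatAt f (phi u) := by
      unfold analyticOrderNatAt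
      have h4 : AnalyticAt ℂ phi u := by
        have h2 : DifferentiableOn ℂ phi (ball 0 1) := fun z hz =>
          (differentiableAt_phi (mem_ball_zero_iff.1 hz)).differentiableWithinAt
        exact h2.analyticAt (isOpen_ball.mem_nhds (mem_ball_zero_iff.2 h1))
      have h5 := analyticOrderAt_comp_of_deriv_ne_zero (f := f) h4 (deriv_phi_ne h1)
      have h6 : g = f ∘ phi := rfl
      rw [h6, h5]
    rw [hord]
    set ρ := phi u with hρ
    have hρre : 1 / 2 < ρ.re := phi_re_gt h1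
    have hpsi : psi ρ = u := psi_phi h1
    have hn := one_sub_norm_psi hρre
    rw [hpsi] at hn
    have hden : 3 / 4 * (1 + ‖ρ‖ ^ 2) ≤ ‖ρ + 1 / 2‖ ^ 2 := by
      rw [← Complex.normSq_eq_norm_sq, ← Complex.normSq_eq_norm_sq, Complex.normSq_apply,
        Complex.normSq_apply]
      have h5 : (1 / 2 : ℂ).re = 1 / 2 := by norm_num
      have h6 : (1 / 2 : ℂ).im = 0 := by norm_num
      simp only [Complex.add_re, Complex.add_im, h5, h6]
      nlinarith [sq_nonneg ρ.re, sq_nonneg ρ.im]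
    have hden0 : 0 < 1 + ‖ρ‖ ^ 2 := by positivity
    have hre0 : 0 < ρ.re - 1 / 2 := by linarith
    have h7 : 1 - ‖u‖ ^ 2 ≤ 16 / 3 * ((ρ.re - 1 / 2) / (1 + ‖ρ‖ ^ 2)) := by
      rw [hn]
      rw [← mul_div_assoc, div_le_div_iff₀ (by linarith) hden0]
      nlinarith
    have h8 : Real.log (r / ‖u‖) ≤ (1 - ‖u‖ ^ 2) / u0 := by
      have h9 : Real.log (r / ‖u‖) ≤ Real.log (1 / ‖u‖) :=
        Real.log_le_log (by positivity) (by gcongr)
      have h10 : Real.log (1 / ‖u‖) ≤ 1 / ‖u‖ - 1 := Real.log_le_sub_one_of_pos (by positivity)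
      have h11 : 1 / ‖u‖ - 1 = (1 - ‖u‖) / ‖u‖ := by field_simp
      have h12 : (1 - ‖u‖) / ‖u‖ ≤ (1 - ‖u‖ ^ 2) / u0 := by
        have h13 : 1 - ‖u‖ ≤ 1 - ‖u‖ ^ 2 := by nlinarith
        have h14 : 0 ≤ 1 - ‖u‖ ^ 2 := by nlinarith
        calc (1 - ‖u‖) / ‖u‖ ≤ (1 - ‖u‖ ^ 2) / ‖u‖ := by gcongr
          _ ≤ (1 - ‖u‖ ^ 2) / u0 := by gcongr
      linarith
    calc (analyticOrderNatAt f ρ : ℝ) * Real.log (r / ‖u‖)
        ≤ (analyticOrderNatAt f ρ : ℝ) * ((16 / 3 * ((ρ.re - 1 / 2) / (1 + ‖ρ‖ ^ 2))) / u0) := by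
          refine mul_le_mul_of_nonneg_left (h8.trans ?_) (Nat.cast_nonneg _)
          gcongr
      _ = _ := by field_simp
  have hsum := Finset.sum_le_sum hterm
  rw [← Finset.mul_sum] at hsum
  have hinj : Set.InjOn phi (S : Set ℂ) := by
    intro u hu v hv huv
    have h1 := (hSz u hu).1
    have h2 := (hSz v hv).1
    rw [← psi_phi h1, ← psi_phi h2, huv]
  have hSC := hC (S.image phi) (by
    intro ρ hρ
    obtain ⟨u, hu, rfl⟩ := Finset.mem_image.1 hρ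
    obtain ⟨h1, h2, _⟩ := hSz u hu
    exact ⟨phi_re_gt h1, h2⟩)
  rw [Finset.sum_image hinj] at hSC
  have : 16 / (3 * u0) * ∑ u ∈ S, ((analyticOrderNatAt f (phi u) : ℝ) * ((phi u).re - 1 / 2) /
        (1 + ‖phi u‖ ^ 2)) ≤ 16 / (3 * u0) * C := by gcongr
  linarith

/-- **Main result for S03474.** -/
theorem main74 : ∃ (P : ℕ → (ℕ →₀ ℂ)) (f : ℂ → ℂ),
    (∀ ε : ℝ, 0 < ε → ∃ N : ℕ, ∀ k ≥ N, ∀ m ≥ N, nrm (P k - P m) < ε) ∧
    (∀ s : ℂ, 1 / 2 < s.re → Tendsto (fun k => poly (P k) (vs s)) atTop (𝓝 (f s))) ∧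
    f (3 / 2) ≠ 0 ∧
    ¬ ∃ C : ℝ, ∀ S : Finset ℂ, (∀ ρ ∈ S, 1 / 2 < ρ.re ∧ f ρ = 0) →
        ∑ ρ ∈ S, (analyticOrderNatAt f ρ : ℝ) * (ρ.re - 1 / 2) / (1 + ‖ρ‖ ^ 2) ≤ C := by
  obtain ⟨c, σ, η, h1, h1', h2, h3, h4, h5, h6, h7, h8⟩ := exists_seq2
  have hdist : ∀ k, ∀ s : ℂ, σ (k + 1) ≤ s.re →
      dist (poly (c (k + 1)) (vs s)) (lim c s) ≤ η (k + 1) := by
    intro k s hs
    have hd := dist_lim c h6 s (lt_of_lt_of_le (h1 _) hs) (η (k + 1) * 2 ^ (k + 1) / 2) (k + 1)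
      (fun j hj => by
        have h9 := h7 j s ((h3 hj).trans hs)
        refine h9.trans ?_
        obtain ⟨i, rfl⟩ := Nat.exists_eq_add_of_le hj
        have h10 := eta_geom η h4 (k + 1) i
        rw [pow_add (1 / 2 : ℝ) (k + 1) i]
        have h11 : (2 : ℝ) ^ (k + 1) * (1 / 2) ^ (k + 1) = 1 := by
          rw [← mul_pow]; norm_num
        calc η (k + 1 + i) / 2 ≤ η (k + 1) * (1 / 2) ^ i / 2 := by linarith
          _ = η (k + 1) * 2 ^ (k + 1) / 2 * ((1 / 2) ^ (k + 1) * (1 / 2) ^ i) := by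
              linear_combination (-(η (k + 1) * (1 / 2) ^ i / 2)) * h11)
    refine hd.trans (le_of_eq ?_)
    have h11 : (2 : ℝ) ^ (k + 1) * (1 / 2) ^ (k + 1) = 1 := by
      rw [← mul_pow]; norm_num
    linear_combination (η (k + 1)) * h11
  have hf0 : lim c (3 / 2) ≠ 0 := by
    have h9 := hdist 0 (3 / 2) (by norm_num; exact h1' 1)
    have h10 := h5 0
    unfold DD at h10
    rw [phi_zero] at h10
    intro h0
    rw [h0, dist_zero_right] at h9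
    have := h2 1
    simp only [zero_add] at h9 h10
    linarith
  refine ⟨c, lim c, nrm_cauchy c h6, tendsto_lim c h6, hf0, ?_⟩
  rintro ⟨C, hC⟩
  obtain ⟨M, hM⟩ := blaschke_bound (lim c) (differentiableAt_lim c h6) hf0 C hC
  obtain ⟨k, hk⟩ := exists_nat_gt M
  obtain ⟨r, hr0, hr1, hrσ, hrη, hrJ⟩ := h8 k
  have hMr := hM r hr0 hr1
  -- compare the averages
  have h2pi : (0 : ℝ) < 2 * Real.pi := Real.two_pi_pos
  have hDc := continuous_DD_circle (c (k + 1)) hr0 hr1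
  have hfc : Continuous fun β : ℝ => lim c (phi (circleMap 0 r β)) := by
    have hc1 : ContinuousOn (lim c) {s : ℂ | σ (k + 1) ≤ s.re} :=
      continuousOn_lim c h6 (σ (k + 1)) (h1 (k + 1))
    have hc2 : Continuous fun β : ℝ => phi (circleMap 0 r β) := by
      have hc3 : ContinuousOn phi (ball 0 1) := fun z hz =>
        (differentiableAt_phi (mem_ball_zero_iff.1 hz)).continuousAt.continuousWithinAt
      exact hc3.comp_continuous (continuous_circleMap 0 r) fun β => by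
        rw [mem_ball_zero_iff]; exact norm_circleMap_lt hr0 hr1 β
    exact hc1.comp_continuous hc2 fun β => hrσ _ (by
      rw [norm_circleMap_zero, abs_of_pos hr0])
  have hpt : ∀ β : ℝ, Real.log ‖DD (c (k + 1)) (circleMap 0 r β)‖ - Real.log 2 ≤
      Real.log ‖lim c (phi (circleMap 0 r β))‖ ∧ 0 < ‖lim c (phi (circleMap 0 r β))‖ ∧
      0 < ‖DD (c (k + 1)) (circleMap 0 r β)‖ := by
    intro β
    have hnw : ‖circleMap 0 r β‖ = r := by rw [norm_circleMap_zero, abs_of_pos hr0]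
    have h9 := hdist k (phi (circleMap 0 r β)) (hrσ _ hnw.le)
    have h10 := hrη _ hnw
    have h11 := h2 (k + 1)
    have h12 : poly (c (k + 1)) (vs (phi (circleMap 0 r β))) = DD (c (k + 1)) (circleMap 0 r β) :=
      rfl
    rw [h12, dist_eq_norm] at h9
    set D := DD (c (k + 1)) (circleMap 0 r β) with hD
    set L := lim c (phi (circleMap 0 r β)) with hL
    have h13 : ‖D‖ / 2 ≤ ‖L‖ := by
      have h14 : ‖D‖ ≤ ‖D - L‖ + ‖L‖ := by
        have : D = (D - L) + L := by ring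
        calc ‖D‖ = ‖(D - L) + L‖ := by rw [← this]
          _ ≤ _ := norm_add_le _ _
      linarith
    have hDp : 0 < ‖D‖ := by linarith
    refine ⟨?_, by linarith, hDp⟩
    rw [← Real.log_div hDp.ne' (by norm_num)]
    exact Real.log_le_log (by positivity) h13
  have hlogD : Continuous fun β : ℝ => Real.log ‖DD (c (k + 1)) (circleMap 0 r β)‖ :=
    Continuous.log hDc.norm fun β => (hpt β).2.2.ne'
  have hlogL : Continuous fun β : ℝ => Real.log ‖lim c (phi (circleMap 0 r β))‖ :=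
    Continuous.log hfc.norm fun β => (hpt β).2.1.ne'
  have hI : ∫ β in (0 : ℝ)..(2 * Real.pi), (Real.log ‖DD (c (k + 1)) (circleMap 0 r β)‖ -
      Real.log 2) ≤ ∫ β in (0 : ℝ)..(2 * Real.pi), Real.log ‖lim c (phi (circleMap 0 r β))‖ :=
    intervalIntegral.integral_mono_on h2pi.le
      ((hlogD.sub continuous_const).intervalIntegrable _ _)
      (hlogL.intervalIntegrable _ _) fun β _ => (hpt β).1
  rw [intervalIntegral.integral_sub (hlogD.intervalIntegrable _ _)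
    (continuous_const.intervalIntegrable _ _), intervalIntegral.integral_const, sub_zero,
    smul_eq_mul] at hI
  have hav1 : ∫ β in (0 : ℝ)..(2 * Real.pi), Real.log ‖DD (c (k + 1)) (circleMap 0 r β)‖ =
      2 * Real.pi * JJ (DD (c (k + 1))) r := by
    unfold JJ
    rw [Real.circleAverage_def, smul_eq_mul, ← mul_assoc, mul_inv_cancel₀ h2pi.ne', one_mul]
  have hav2 : ∫ β in (0 : ℝ)..(2 * Real.pi), Real.log ‖lim c (phi (circleMap 0 r β))‖ =
      2 * Real.pi * JJ (fun w => lim c (phi w)) r := by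
    unfold JJ
    rw [Real.circleAverage_def, smul_eq_mul, ← mul_assoc, mul_inv_cancel₀ h2pi.ne', one_mul]
  rw [hav1, hav2] at hI
  have h9 : 2 * Real.pi * (JJ (DD (c (k + 1))) r - Real.log 2) ≤
      2 * Real.pi * JJ (fun w => lim c (phi w)) r := by linarith
  have h10 := le_of_mul_le_mul_left h9 h2pi
  have h11 := Real.log_two_lt_d9
  linarith

end Pool.Agent.Helper873.FinalTwo
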