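import Mathlib

set_option autoImplicit false

namespace Pool.Agent.Helper873.FitA

open Subgroup

/-- A class of finite soluble groups with the closure properties of the problem. -/
structure Cls (F : (G : Type) → [Group G] → Prop) : Prop where
  fin : ∀ (G : Type) [Group G], F G → Finite G ∧ IsSolvable G
  unit : F Unit
  iso : ∀ (G H : Type) [Group G] [Group H], (G ≃* H) → F G → F H
  normal : ∀ (G : Type) [Group G] (N : Subgroup G), N.Normal → F G → F ↥N
  join : ∀ (G : Type) [Group G] [Finite G] (N M : Subgroup G),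
        N.Normal → M.Normal → F ↥N → F ↥M → F ↥(N ⊔ M)
  factor : ∀ (G : Type) [Group G] [Finite G], IsSolvable G →
      ∀ A B : Subgroup G, (∀ g : G, ∃ a ∈ A, ∃ b ∈ B, g = a * b) →
        (sSup {N : Subgroup ↥A | N.Normal ∧ F ↥N}).map A.subtype ⊓
          (sSup {N : Subgroup ↥B | N.Normal ∧ F ↥N}).map B.subtype ≤
          sSup {N : Subgroup G | N.Normal ∧ F ↥N}

/-- The radical. -/
def rad (F : (G : Type) → [Group G] → Prop) (G : Type) [Group G] : Subgroup G :=
  sSup {N : Subgroup G | N.Normal ∧ F ↥N}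

variable {F : (G : Type) → [Group G] → Prop}

lemma le_rad {G : Type} [Group G] {N : Subgroup G} (hn : N.Normal) (h : F N) : N ≤ rad F G :=
  le_sSup ⟨hn, h⟩

variable (hF : Cls F)

include hF

lemma F_bot (G : Type) [Group G] : F (⊥ : Subgroup G) := by
  have : Unique (⊥ : Subgroup G) := inferInstance
  exact hF.iso Unit _ (MulEquiv.ofUnique) hF.unit

lemma rad_spec (G : Type) [Group G] [Finite G] : (rad F G).Normal ∧ F (rad F G) := by
  set S : Set (Subgroup G) := {N | N.Normal ∧ F N} with hS
  have hne : S.Nonempty := ⟨⊥, inferInstance, F_bot hF G⟩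
  obtain ⟨N, hN⟩ := (Set.toFinite S).exists_maximal hne
  have h1 : rad F G = N := by
    apply le_antisymm
    · apply sSup_le
      intro M hM
      have h2 : N ⊔ M ∈ S := by
        refine ⟨?_, hF.join G N M hN.1.1 hM.1 hN.1.2 hM.2⟩
        have := hN.1.1
        have := hM.1
        exact Subgroup.sup_normal N M
      exact le_sup_right.trans (hN.2 h2 le_sup_left)
    · exact le_sSup hN.1
  rw [h1]
  exact hN.1

lemma rad_normal (G : Type) [Group G] [Finite G] : (rad F G).Normal := (rad_spec hF G).1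

lemma F_rad (G : Type) [Group G] [Finite G] : F (rad F G) := (rad_spec hF G).2

lemma F_top {G : Type} [Group G] : F (⊤ : Subgroup G) ↔ F G :=
  ⟨fun h => hF.iso _ _ Subgroup.topEquiv h, fun h => hF.iso _ _ Subgroup.topEquiv.symm h⟩

lemma F_of_rad {G : Type} [Group G] [Finite G] (h : rad F G = ⊤) : F G := by
  have h1 := F_rad hF G
  rw [h] at h1
  exact (F_top hF).1 h1

lemma F_of_forall {G : Type} [Group G] [Finite G] (h : ∀ x : G, x ∈ rad F G) : F G :=
  F_of_rad hF (by rw [eq_top_iff]; intro x _; exact h x)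

lemma rad_of_F {G : Type} [Group G] (h : F G) (x : G) : x ∈ rad F G := by
  have : (⊤ : Subgroup G) ≤ rad F G := le_rad inferInstance ((F_top hF).2 h)
  exact this (Subgroup.mem_top x)

lemma mem_rad_equiv {G H : Type} [Group G] [Group H] [Finite G] (e : G ≃* H) {x : G}
    (hx : x ∈ rad F G) : e x ∈ rad F H := by
  have h1 : ((rad F G).map e.toMonoidHom).Normal :=
    (rad_normal hF G).map _ e.surjective
  have h2 : F ((rad F G).map e.toMonoidHom) :=
    hF.iso _ _ (e.subgroupMap (rad F G)) (F_rad hF G)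
  exact le_rad h1 h2 (Subgroup.mem_map_of_mem _ hx)

lemma rad_of_normal {G : Type} [Group G] [Finite G] {N : Subgroup G} (hN : N.Normal) {x : N}
    (hx : x ∈ rad F N) : (x : G) ∈ rad F G := by
  have h1 : ((rad F N).map N.subtype).Normal := by
    constructor
    rintro _ ⟨n, hn, rfl⟩ g
    refine ⟨MulAut.conjNormal g n, mem_rad_equiv hF _ hn, ?_⟩
    simp
  have h2 : F ((rad F N).map N.subtype) :=
    hF.iso _ _ ((rad F N).equivMapOfInjective N.subtype N.subtype_injective) (F_rad hF N)
  exact le_rad h1 h2 (Subgroup.mem_map_of_mem N.subtype hx)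

lemma rad_to_normal {G : Type} [Group G] [Finite G] {N : Subgroup G} (hN : N.Normal) {x : N}
    (hx : (x : G) ∈ rad F G) : x ∈ rad F N := by
  have hR := rad_normal hF G
  have h1 : ((rad F G).subgroupOf N).Normal := inferInstance
  have h2 : F (N.subgroupOf (rad F G)) := hF.normal _ _ inferInstance (F_rad hF G)
  have e1 : ((rad F G).subgroupOf N) ≃* (rad F G ⊓ N : Subgroup G) := by
    rw [← Subgroup.inf_subgroupOf_right]
    exact Subgroup.subgroupOfEquivOfLe inf_le_right
  have e2 : (N.subgroupOf (rad F G)) ≃* (rad F G ⊓ N : Subgroup G) := by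
    rw [inf_comm, ← Subgroup.inf_subgroupOf_right]
    exact Subgroup.subgroupOfEquivOfLe inf_le_right
  have h3 : F ((rad F G).subgroupOf N) := hF.iso _ _ (e2.trans e1.symm) h2
  exact le_rad h1 h3 (by rw [Subgroup.mem_subgroupOf]; exact hx)

lemma map_mem_rad_normal {A G : Type} [Group A] [Group G] [Finite A] [Finite G] (f : A →* G)
    (hf : Function.Injective f) (hn : f.range.Normal) {a : A} (ha : a ∈ rad F A) :
    f a ∈ rad F G := by
  have h1 := mem_rad_equiv hF (MonoidHom.ofInjective hf) ha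
  exact rad_of_normal hF hn h1

lemma mem_rad_of_map {A G : Type} [Group A] [Group G] [Finite A] [Finite G] (f : A →* G)
    (hf : Function.Injective f) (hn : f.range.Normal) {a : A} (ha : f a ∈ rad F G) :
    a ∈ rad F A := by
  have h1 : (MonoidHom.ofInjective hf a) ∈ rad F f.range := rad_to_normal hF hn ha
  have h2 := mem_rad_equiv hF (MonoidHom.ofInjective hf).symm h1
  simpa using h2

lemma F_of_normal_range {A G : Type} [Group A] [Group G] (f : A →* G)
    (hf : Function.Injective f) (hn : f.range.Normal) (h : F G) : F A :=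
  hF.iso _ _ (MonoidHom.ofInjective hf).symm (hF.normal _ _ hn h)

lemma F_prod {A B : Type} [Group A] [Group B] (hA : F A) (hB : F B) : F (A × B) := by
  have := (hF.fin A hA).1
  have := (hF.fin B hB).1
  apply F_of_forall hF
  rintro ⟨a, b⟩
  have h1 : ((MonoidHom.inl A B) a) ∈ rad F (A × B) := by
    apply map_mem_rad_normal hF _ (fun x y h => by simpa using h) _ (rad_of_F hF hA a)
    constructor
    rintro _ ⟨x, rfl⟩ ⟨g1, g2⟩
    exact ⟨g1 * x * g1⁻¹, by simp⟩
  have h2 : ((MonoidHom.inr A B) b) ∈ rad F (A × B) := by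
    apply map_mem_rad_normal hF _ (fun x y h => by simpa using h) _ (rad_of_F hF hB b)
    constructor
    rintro _ ⟨x, rfl⟩ ⟨g1, g2⟩
    exact ⟨g2 * x * g2⁻¹, by simp⟩
  have := mul_mem h1 h2
  simpa using this

omit hF in
lemma snd_normal (A B : Type) [Group A] [Group B] : (MonoidHom.inr A B).range.Normal := by
  constructor
  rintro _ ⟨x, rfl⟩ ⟨g1, g2⟩
  exact ⟨g2 * x * g2⁻¹, by simp⟩

omit hF in
lemma fst_normal (A B : Type) [Group A] [Group B] : (MonoidHom.inl A B).range.Normal := by
  constructor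
  rintro _ ⟨x, rfl⟩ ⟨g1, g2⟩
  exact ⟨g1 * x * g1⁻¹, by simp⟩

lemma F_pi {ι X : Type} [Finite ι] [Group X] (hX : F X) : F (ι → X) := by
  classical
  have := (hF.fin X hX).1
  apply F_of_forall hF
  intro f
  apply Subgroup.pi_mem_of_mulSingle_mem
  intro i
  have h := map_mem_rad_normal hF (MonoidHom.mulSingle (fun _ : ι => X) i)
    (fun x y h => Pi.mulSingle_injective (M := fun _ : ι => X) i h) ?_ (rad_of_F hF hX (f i))
  · exact h
  constructor
  rintro _ ⟨x, rfl⟩ g
  refine ⟨g i * x * (g i)⁻¹, ?_⟩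
  ext j
  by_cases hj : j = i
  · subst hj; simp
  · simp [hj]

lemma factor' {G A B : Type} [Group G] [Group A] [Group B] [Finite G] (hs : IsSolvable G)
    (f : A →* G) (hf : Function.Injective f) (g : B →* G) (hg : Function.Injective g)
    (h : ∀ x : G, ∃ a b, x = f a * g b) {a : A} {b : B} (ha : a ∈ rad F A) (hb : b ∈ rad F B)
    (hab : f a = g b) : f a ∈ rad F G := by
  have : Finite A := Finite.of_injective f hf
  have : Finite B := Finite.of_injective g hg
  have h1 := hF.factor G hs f.range g.range (by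
    intro x
    obtain ⟨a, b, rfl⟩ := h x
    exact ⟨f a, ⟨a, rfl⟩, g b, ⟨b, rfl⟩, rfl⟩)
  apply h1
  refine ⟨⟨MonoidHom.ofInjective hf a, mem_rad_equiv hF _ ha, rfl⟩,
    ⟨MonoidHom.ofInjective hg b, mem_rad_equiv hF _ hb, ?_⟩⟩
  rw [hab]
  rfl

omit hF in
lemma eq_top_of_pelements {G : Type} [Group G] [Finite G] (S : Subgroup G)
    (h : ∀ x : G, ∀ p k : ℕ, p.Prime → x ^ p ^ k = 1 → x ∈ S) : S = ⊤ := by
  apply Subgroup.eq_top_of_card_eq
  apply Nat.dvd_antisymm (Subgroup.card_subgroup_dvd_card S)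
  rw [Nat.dvd_iff_prime_pow_dvd_dvd]
  intro p k hp hk
  have : Fact p.Prime := ⟨hp⟩
  obtain ⟨K, hK⟩ := Sylow.exists_subgroup_card_pow_prime p hk
  rw [← hK]
  apply Subgroup.card_dvd_of_le
  intro x hx
  apply h x p k hp
  have h1 : orderOf (⟨x, hx⟩ : K) ∣ p ^ k := by rw [← hK]; exact orderOf_dvd_natCard _
  rw [Subgroup.orderOf_mk] at h1
  exact orderOf_dvd_iff_pow_eq_one.1 h1

lemma F_of_surj_comm {G A : Type} [Group G] [CommGroup A] (f : G →* A)
    (hf : Function.Surjective f) (h : F G) : F A := by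
  have := (hF.fin G h).1
  have : Finite A := Finite.of_surjective f hf
  have h1 : F (G × A) := by
    apply F_of_forall hF
    rintro ⟨g, a⟩
    obtain ⟨g', rfl⟩ := hf a
    have h2 : ((MonoidHom.id G).prod f) g' ∈ rad F (G × A) := by
      apply map_mem_rad_normal hF _ (fun x y h => by simpa using (congrArg Prod.fst h)) _
        (rad_of_F hF h g')
      constructor
      rintro _ ⟨x, rfl⟩ ⟨g1, g2⟩
      refine ⟨g1 * x * g1⁻¹, ?_⟩
      ext
      · simp
      · simp
    have h3 : (MonoidHom.inl G A) (g'⁻¹ * g) ∈ rad F (G × A) :=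
      map_mem_rad_normal hF _ (fun x y h => by simpa using h) (fst_normal G A)
        (rad_of_F hF h _)
    have := mul_mem h2 h3
    simpa using this
  exact F_of_normal_range hF (MonoidHom.inr G A) (fun x y h => by simpa using h)
    (snd_normal G A) h1

end Pool.Agent.Helper873.FitA
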