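import Pool.Agent.Helper873.FitA

set_option autoImplicit false

namespace Pool.Agent.Helper873.FitB

open Subgroup Pool.Agent.Helper873.FitA

/-- The cyclic group of order `n`. -/
abbrev C (n : ℕ) : Type := Multiplicative (ZMod n)

variable {F : (G : Type) → [Group G] → Prop} (hF : Cls F)

lemma card_C (n : ℕ) : Nat.card (C n) = n :=
  (Nat.card_congr Multiplicative.toAdd).trans (Nat.card_zmod n)

lemma normal_of_comm {A : Type} [CommGroup A] (S : Subgroup A) : S.Normal := inferInstance

include hF

lemma F_of_card_prime {G H : Type} [Group G] [Group H] {p : ℕ} (hp : p.Prime)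
    (hG : Nat.card G = p) (hH : Nat.card H = p) (h : F G) : F H := by
  have : Fact p.Prime := ⟨hp⟩
  exact hF.iso _ _ (mulEquivOfPrimeCardEq hG hH) h

lemma F_C (p : ℕ) (hp : p.Prime) : ∀ (n : ℕ) (G : Type) [Group G], Nat.card G = n → F G →
    p ∣ Nat.card G → F (C p) := by
  intro n
  induction n using Nat.strong_induction_on with
  | _ n ih =>
    intro G _ hn hG hpd
    have hfin := (hF.fin G hG).1
    have hsol : Group.IsSolvable G := (hF.fin G hG).2
    have : Fact p.Prime := ⟨hp⟩
    by_cases htriv : Subsingleton G
    · rw [Nat.card_of_subsingleton (1 : G)] at hpd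
      exact absurd (Nat.dvd_one.1 hpd) hp.one_lt.ne'
    · have : Nontrivial G := not_subsingleton_iff_nontrivial.1 htriv
      have hlt := Group.IsSolvable.commutator_lt_top_of_nontrivial (G := G)
      have hA : F (Abelianization G) :=
        F_of_surj_comm hF Abelianization.of (QuotientGroup.mk'_surjective _) hG
      have hAfin := (hF.fin _ hA).1
      have hcard : Nat.card G = Nat.card (Abelianization G) * Nat.card (commutator G) :=
        Subgroup.card_eq_card_quotient_mul_card_subgroup _
      rw [hcard] at hpd
      rcases (Nat.Prime.dvd_mul hp).1 hpd with h | h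
      · obtain ⟨x, hx⟩ := exists_prime_orderOf_dvd_card' p h
        have h1 : F (zpowers x) := hF.normal _ _ inferInstance hA
        exact F_of_card_prime hF hp (by rw [Nat.card_zpowers, hx]) (card_C p) h1
      · refine ih (Nat.card (commutator G)) ?_ (commutator G) rfl
          (hF.normal _ _ inferInstance hG) h
        rw [← hn, hcard]
        have h0 : 0 < Nat.card (commutator G) := Nat.card_pos
        have h2 : 1 < Nat.card (Abelianization G) := by
          have : (commutator G).index ≠ 1 := by
            rw [Ne, Subgroup.index_eq_one]; exact hlt.ne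
          have h3 : 0 < Nat.card (Abelianization G) := Nat.card_pos
          have h4 : Nat.card (Abelianization G) ≠ 1 := this
          omega
        nlinarith

omit hF in
lemma coatom_normal {p : ℕ} (hp : p.Prime) {P : Type} [Group P] [Finite P] (hP : IsPGroup p P)
    {M : Subgroup P} (hM : IsCoatom M) : M.Normal := by
  have : Fact p.Prime := ⟨hp⟩
  have := hP.isNilpotent
  exact NormalizerCondition.normal_of_coatom M Group.normalizerCondition_of_isNilpotent hM

lemma pgroup_le_rad {p : ℕ} (hp : p.Prime) : ∀ (n : ℕ) (P : Type) [Group P] [Finite P],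
    Nat.card P = n → IsPGroup p P → ∀ S : Subgroup P, F S → S ≤ rad F P := by
  intro n
  induction n using Nat.strong_induction_on with
  | _ n ih =>
    intro P _ _ hn hP S hS
    rcases eq_top_or_exists_le_coatom S with h | ⟨M, hM, hSM⟩
    · exact le_rad (by rw [h]; infer_instance) hS
    · have hMn := coatom_normal hp hP hM
      have hlt : Nat.card M < n := by
        rw [← hn]
        have h1 := Subgroup.card_subgroup_dvd_card M
        have h2 : Nat.card M ≠ Nat.card P := fun h =>
          hM.1 (Subgroup.eq_top_of_card_eq M h)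
        exact lt_of_le_of_ne (Nat.le_of_dvd Nat.card_pos h1) h2
      have h3 := ih _ hlt M rfl (hP.to_subgroup M) (S.subgroupOf M)
        (hF.iso _ _ (Subgroup.subgroupOfEquivOfLe hSM).symm hS)
      intro x hx
      exact rad_of_normal hF hMn (x := ⟨x, hSM hx⟩)
        (h3 (by rw [Subgroup.mem_subgroupOf]; exact hx))

lemma F_exp {p : ℕ} (hp : p.Prime) (hC : F (C p)) (H : Type) [Group H] [Finite H]
    (hH : IsPGroup p H) (K : Subgroup H) (hK : K ≠ ⊤) (hexp : ∀ h, h ∉ K → h ^ p = 1) : F H := by
  have key : ∀ h, h ∉ K → h ∈ rad F H := by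
    intro h hh
    have h1 : orderOf h = p := by
      have : Fact p.Prime := ⟨hp⟩
      apply orderOf_eq_prime (hexp h hh)
      rintro rfl
      exact hh K.one_mem
    have h2 : F (zpowers h) :=
      F_of_card_prime hF hp (card_C p) (by rw [Nat.card_zpowers, h1]) hC
    exact pgroup_le_rad hF hp _ H rfl hH _ h2 (mem_zpowers h)
  apply F_of_forall hF
  intro x
  by_cases hx : x ∈ K
  · obtain ⟨c, hc⟩ : ∃ c, c ∉ K := by
      by_contra hcon
      push Not at hcon
      exact hK (by rw [eq_top_iff]; intro y _; exact hcon y)
    have h1 : x * c ∉ K := fun h => hc ((K.mul_mem_cancel_left hx).1 h)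
    have := mul_mem (key _ h1) (inv_mem (key _ hc))
    simpa using this
  · exact key x hx

end Pool.Agent.Helper873.FitB
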