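import Pool.Agent.Helper873.FitB

set_option autoImplicit false

namespace Pool.Agent.Helper873.FitC

open Subgroup Pool.Agent.Helper873.FitA Pool.Agent.Helper873.FitB

lemma pow_right {D Q : Type} [Group D] [Group Q] (x : D ≀ᵣ Q) (n : ℕ) :
    (x ^ n).right = x.right ^ n := by
  induction n with
  | zero => simp
  | succ n ih => rw [pow_succ, RegularWreathProduct.mul_right, ih, pow_succ]

lemma pow_left {B Q : Type} [CommGroup B] [Group Q] (x : B ≀ᵣ Q) (n : ℕ) (j : Q) :
    (x ^ n).left j = ∏ i ∈ Finset.range n, x.left ((x.right ^ i)⁻¹ * j) := by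
  induction n with
  | zero => simp
  | succ n ih =>
    rw [pow_succ, RegularWreathProduct.mul_left, Finset.prod_range_succ, Pi.mul_apply, ih,
      pow_right]

/-- The product of all coordinates. -/
def sumHom (B Q : Type) [CommGroup B] [Group Q] [Fintype Q] : B ≀ᵣ Q →* B where
  toFun x := ∏ j, x.left j
  map_one' := by simp
  map_mul' x y := by
    simp only [RegularWreathProduct.mul_left, Pi.mul_apply, Finset.prod_mul_distrib]
    congr 1
    exact Equiv.prod_comp (Equiv.mulLeft (x.right⁻¹)) y.left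

/-- elements of product one -/
abbrev E (B Q : Type) [CommGroup B] [Group Q] [Fintype Q] : Type := ↥(sumHom B Q).ker

/-- projection to the top group -/
def proj (B Q : Type) [CommGroup B] [Group Q] [Fintype Q] : E B Q →* Q :=
  RegularWreathProduct.rightHom.comp (sumHom B Q).ker.subtype

lemma exp_E (B Q : Type) [CommGroup B] [Group Q] [Fintype Q] {p : ℕ} (hp : p.Prime)
    (hQ : Nat.card Q = p) (e : E B Q) (he : e ∉ (proj B Q).ker) : e ^ p = 1 := by
  classical
  obtain ⟨x, hx⟩ := e
  have hr : x.right ≠ 1 := he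
  have ho : orderOf x.right = p := by
    have h1 : orderOf x.right ∣ p := by rw [← hQ]; exact orderOf_dvd_natCard _
    rcases (Nat.dvd_prime hp).1 h1 with h | h
    · exact absurd (orderOf_eq_one_iff.1 h) hr
    · exact h
  apply Subtype.ext
  change x ^ p = 1
  have hpos := hp.pos
  ext j
  · rw [pow_left]
    have hinj : Set.InjOn (fun i : ℕ => (x.right ^ i)⁻¹ * j) (Finset.range p : Set ℕ) := by
      intro a ha b hb hab
      have h2 : x.right ^ a = x.right ^ b := by
        have := mul_right_cancel hab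
        exact inv_injective this
      have ha' : a < orderOf x.right := by rw [ho]; simpa using ha
      have hb' : b < orderOf x.right := by rw [ho]; simpa using hb
      exact pow_injOn_Iio_orderOf ha' hb' h2
    have himg : (Finset.range p).image (fun i : ℕ => (x.right ^ i)⁻¹ * j) = Finset.univ := by
      apply Finset.eq_univ_of_card
      rw [Finset.card_image_of_injOn hinj, Finset.card_range, ← Nat.card_eq_fintype_card, hQ]
    have h3 : ∏ z ∈ (Finset.range p).image (fun i : ℕ => (x.right ^ i)⁻¹ * j), x.left z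
        = ∏ i ∈ Finset.range p, x.left ((x.right ^ i)⁻¹ * j) := Finset.prod_image hinj
    rw [← h3, himg]
    exact hx
  · rw [pow_right, ← ho, pow_orderOf_eq_one]
    rfl

lemma pgroup_wreath {p : ℕ} (hp : p.Prime) {B Q : Type} [Group B] [Group Q] [Finite B] [Finite Q]
    (hB : IsPGroup p B) (hQ : IsPGroup p Q) : IsPGroup p (B ≀ᵣ Q) := by
  have : Fact p.Prime := ⟨hp⟩
  obtain ⟨a, ha⟩ := IsPGroup.iff_card.1 hB
  obtain ⟨b, hb⟩ := IsPGroup.iff_card.1 hQ
  apply IsPGroup.iff_card.2
  refine ⟨a * p ^ b + b, ?_⟩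
  rw [RegularWreathProduct.card, ha, hb, ← pow_mul, ← pow_add]

/-- evaluation on the kernel of the projection -/
def evK (B Q : Type) [CommGroup B] [Group Q] [Fintype Q] : (proj B Q).ker →* B where
  toFun x := x.1.1.left 1
  map_one' := by simp
  map_mul' x y := by
    have h1 : x.1.1.right = 1 := x.2
    simp [h1]

lemma evK_surj (B Q : Type) [CommGroup B] [Group Q] [Fintype Q] [Nontrivial Q] :
    Function.Surjective (evK B Q) := by
  classical
  intro b
  obtain ⟨c, hc⟩ := exists_ne (1 : Q)
  refine ⟨⟨⟨⟨Pi.mulSingle 1 b * Pi.mulSingle c b⁻¹, 1⟩, ?_⟩, rfl⟩, ?_⟩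
  · rw [MonoidHom.mem_ker]
    change ∏ j, (Pi.mulSingle 1 b * Pi.mulSingle c b⁻¹ : Q → B) j = 1
    simp [Finset.prod_mul_distrib]
  · change (Pi.mulSingle 1 b * Pi.mulSingle c b⁻¹ : Q → B) 1 = b
    rw [Pi.mul_apply, Pi.mulSingle_eq_same, Pi.mulSingle_eq_of_ne (Ne.symm hc), mul_one]

lemma ker_ne_top (B Q : Type) [CommGroup B] [Group Q] [Fintype Q] [Nontrivial Q] :
    (proj B Q).ker ≠ ⊤ := by
  obtain ⟨c, hc⟩ := exists_ne (1 : Q)
  intro h
  have h1 : (⟨⟨1, c⟩, by rw [MonoidHom.mem_ker]; change ∏ j, (1 : Q → B) j = 1; simp⟩ : E B Q)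
      ∈ (proj B Q).ker := by rw [h]; exact Subgroup.mem_top _
  exact hc h1

variable {F : (G : Type) → [Group G] → Prop} (hF : Cls F)

include hF

lemma F_comm_pgroup {p : ℕ} (hp : p.Prime) (hC : F (C p)) (B : Type) [CommGroup B] [Finite B]
    (hB : IsPGroup p B) : F B := by
  have : Fact p.Prime := ⟨hp⟩
  have hnt : Nontrivial (C p) := by
    rw [← Finite.one_lt_card_iff_nontrivial, card_C]
    exact hp.one_lt
  have hCp : IsPGroup p (C p) := IsPGroup.of_card (n := 1) (by rw [card_C, pow_one])
  have h1 : F (E B (C p)) :=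
    F_exp hF hp hC _ ((pgroup_wreath hp hB hCp).to_subgroup _) (proj B (C p)).ker
      (ker_ne_top B (C p)) (fun e he => exp_E B (C p) hp (card_C p) e he)
  have h2 : F (proj B (C p)).ker := hF.normal _ _ inferInstance h1
  exact F_of_surj_comm hF (evK B (C p)) (evK_surj B (C p)) h2

lemma F_pgroup {p : ℕ} (hp : p.Prime) (hC : F (C p)) (P : Type) [Group P] [Finite P]
    (hP : IsPGroup p P) : F P := by
  apply F_of_forall hF
  intro x
  have h1 : F (zpowers x) := by
    have hc : ∀ a b : zpowers x, a * b = b * a := fun a b => mul_comm' a b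
    let i : CommGroup (zpowers x) := { (inferInstance : Group (zpowers x)) with mul_comm := hc }
    exact F_comm_pgroup hF hp hC (zpowers x) (hP.to_subgroup _)
  exact pgroup_le_rad hF hp _ P rfl hP _ h1 (mem_zpowers x)

lemma F_of_surj {G Y : Type} [Group G] [Group Y] (f : G →* Y) (hf : Function.Surjective f)
    (hG : F G) : F Y := by
  have hfin := (hF.fin G hG).1
  have hsol : Group.IsSolvable G := (hF.fin G hG).2
  have hYfin : Finite Y := Finite.of_surjective f hf
  have hYsol : Group.IsSolvable Y := Group.isSolvable_of_surjective hf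
  have hprod : Group.IsSolvable (G × Y) := inferInstance
  apply F_of_rad hF
  apply eq_top_of_pelements
  intro x p k hp hx
  have : Fact p.Prime := ⟨hp⟩
  by_cases hx1 : x = 1
  · rw [hx1]; exact one_mem _
  have hpx : p ∣ orderOf x := by
    have h1 : orderOf x ∣ p ^ k := orderOf_dvd_of_pow_eq_one hx
    obtain ⟨j, _, hj⟩ := (Nat.dvd_prime_pow hp).1 h1
    rcases j with _ | j
    · rw [pow_zero, orderOf_eq_one_iff] at hj
      exact absurd hj hx1
    · rw [hj, pow_succ]; exact Dvd.intro_left _ rfl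
  have hpG : p ∣ Nat.card G :=
    (hpx.trans (orderOf_dvd_natCard x)).trans (Subgroup.card_dvd_of_surjective f hf)
  have hC := F_C hF p hp _ G rfl hG hpG
  have hZp : IsPGroup p (zpowers x) := by
    intro y
    refine ⟨k, ?_⟩
    obtain ⟨y, hy⟩ := y
    obtain ⟨m, rfl⟩ := mem_zpowers_iff.1 hy
    apply Subtype.ext
    change (x ^ m) ^ p ^ k = 1
    rw [← zpow_natCast, zpow_comm, zpow_natCast, hx, one_zpow]
  have hZ : F (zpowers x) := F_pgroup hF hp hC _ hZp
  obtain ⟨g0, hg0⟩ := hf x
  have key := factor' hF hprod ((MonoidHom.id G).prod f)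
    (fun a b h => by simpa using (congrArg Prod.fst h))
    ((MonoidHom.id G).prodMap (zpowers x).subtype)
    (fun a b h => by
      have h1 := congrArg Prod.fst h
      have h2 := congrArg Prod.snd h
      exact Prod.ext h1 (Subtype.ext h2))
    (by
      rintro ⟨a, y⟩
      obtain ⟨g, rfl⟩ := hf y
      exact ⟨g, (g⁻¹ * a, 1), by simp⟩)
    (a := g0) (b := (g0, ⟨x, mem_zpowers x⟩)) (rad_of_F hF hG g0)
    (rad_of_F hF (F_prod hF hG hZ) _)
    (by ext <;> simp [hg0])
  have h3 : (MonoidHom.inl G Y) g0⁻¹ ∈ rad F (G × Y) :=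
    map_mem_rad_normal hF _ (fun x y h => by simpa using h) (fst_normal G Y) (rad_of_F hF hG _)
  have h4 : (MonoidHom.inr G Y) x ∈ rad F (G × Y) := by
    have := mul_mem h3 key
    simpa [hg0] using this
  exact mem_rad_of_map hF (MonoidHom.inr G Y) (fun x y h => by simpa using h) (snd_normal G Y) h4

lemma map_mem_rad {G Y : Type} [Group G] [Group Y] [Finite G] (f : G →* Y)
    (hf : Function.Surjective f) {x : G} (hx : x ∈ rad F G) : f x ∈ rad F Y := by
  have h1 : ((rad F G).map f).Normal := (rad_normal hF G).map _ hf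
  have h2 : F ((rad F G).map f) :=
    F_of_surj hF (f.subgroupMap (rad F G)) (f.subgroupMap_surjective _) (F_rad hF G)
  exact le_rad h1 h2 (Subgroup.mem_map_of_mem _ hx)

end Pool.Agent.Helper873.FitC
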