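import Pool.Agent.Helper873.FitC

set_option autoImplicit false

namespace Pool.Agent.Helper873.FitD

open Subgroup Pool.Agent.Helper873.FitA Pool.Agent.Helper873.FitB Pool.Agent.Helper873.FitC

/-- The top group of the wreath product with the cyclic group of order `q` lies in the radical. -/
def W (F : (G : Type) → [Group G] → Prop) (q : ℕ) (H : Type) [Group H] : Prop :=
  ∀ c : C q, (RegularWreathProduct.inl c : H ≀ᵣ C q) ∈ rad F (H ≀ᵣ C q)

/-- functoriality of the wreath product -/
def wmap {H H' : Type} [Group H] [Group H'] (Q : Type) [Group Q] (f : H →* H') :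
    H ≀ᵣ Q →* H' ≀ᵣ Q where
  toFun x := ⟨fun i => f (x.left i), x.right⟩
  map_one' := by ext <;> simp
  map_mul' x y := by ext <;> simp

lemma wmap_inj {H H' : Type} [Group H] [Group H'] (Q : Type) [Group Q] (f : H →* H')
    (hf : Function.Injective f) : Function.Injective (wmap Q f) := by
  intro x y h
  have h1 := congrArg RegularWreathProduct.left h
  have h2 := congrArg RegularWreathProduct.right h
  ext i
  · exact hf (congrFun h1 i)
  · exact h2

lemma wmap_surj {H H' : Type} [Group H] [Group H'] (Q : Type) [Group Q] (f : H →* H')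
    (hf : Function.Surjective f) : Function.Surjective (wmap Q f) := by
  intro y
  choose g hg using hf
  refine ⟨⟨fun i => g (y.left i), y.right⟩, ?_⟩
  ext i
  · exact hg _
  · rfl

lemma solv_pi {ι X : Type} [Finite ι] [Group X] (hX : Group.IsSolvable X) :
    Group.IsSolvable (ι → X) := by
  classical
  have : Fintype ι := Fintype.ofFinite ι
  obtain ⟨n, hn⟩ := hX
  refine ⟨n, ?_⟩
  rw [eq_bot_iff]
  intro f hf
  rw [Subgroup.mem_bot]
  ext i
  have h1 := map_derivedSeries_le_derivedSeries (Pi.evalMonoidHom (fun _ : ι => X) i) n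
  have h2 := h1 (Subgroup.mem_map_of_mem _ hf)
  rw [hn, Subgroup.mem_bot] at h2
  exact h2

lemma solv_wreath {H Q : Type} [Group H] [Group Q] [Finite Q] (hH : Group.IsSolvable H)
    (hQ : Group.IsSolvable Q) : Group.IsSolvable (H ≀ᵣ Q) := by
  have h1 : Group.IsSolvable (RegularWreathProduct.rightHom : H ≀ᵣ Q →* Q).ker := by
    have := solv_pi (ι := Q) hH
    let f : (RegularWreathProduct.rightHom : H ≀ᵣ Q →* Q).ker →* (Q → H) :=
      { toFun := fun x => x.1.left
        map_one' := rfl
        map_mul' := fun x y => by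
          have h : x.1.right = 1 := x.2
          ext i
          simp [h] }
    have hf : Function.Injective f := by
      intro x y hxy
      have h1 : x.1.right = 1 := x.2
      have h2 : y.1.right = 1 := y.2
      apply Subtype.ext
      ext i
      · exact congrFun hxy i
      · rw [h1, h2]
    exact Group.isSolvable_of_isSolvable_injective hf
  exact Group.isSolvable_of_ker_le_range (RegularWreathProduct.rightHom : H ≀ᵣ Q →* Q).ker.subtype
    RegularWreathProduct.rightHom (by rw [Subgroup.range_subtype])

lemma solv_C (n : ℕ) : Group.IsSolvable (C n) := inferInstance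

variable {F : (G : Type) → [Group G] → Prop} (hF : Cls F) {q : ℕ} (hq : q.Prime)

lemma finite_C {n : ℕ} (hn : n.Prime) : Finite (C n) := by
  have : Fact n.Prime := ⟨hn⟩
  infer_instance

lemma nontrivial_C {n : ℕ} (hn : n.Prime) : Nontrivial (C n) := by
  have := finite_C hn
  rw [← Finite.one_lt_card_iff_nontrivial, card_C]
  exact hn.one_lt

include hF hq

lemma W_of_factor {H X Y : Type} [Group H] [Group X] [Group Y] [Finite H]
    (hs : Group.IsSolvable H) (f : X →* H) (hf : Function.Injective f) (g : Y →* H)
    (hg : Function.Injective g) (h : ∀ x : H, ∃ a b, x = f a * g b)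
    (hX : W F q X) (hY : W F q Y) : W F q H := by
  have := finite_C hq
  intro c
  have h1 := factor' hF (solv_wreath hs (solv_C q)) (wmap (C q) f) (wmap_inj _ f hf)
    (wmap (C q) g) (wmap_inj _ g hg) (by
      intro x
      choose a b hab using h
      refine ⟨⟨fun i => a (x.left i), 1⟩, ⟨fun i => b (x.left i), x.right⟩, ?_⟩
      ext i
      · simp [wmap, ← hab]
      · simp [wmap])
    (a := RegularWreathProduct.inl c) (b := RegularWreathProduct.inl c) (hX c) (hY c)
    (by ext <;> simp [wmap])
  have h2 : (wmap (C q) f) (RegularWreathProduct.inl c) = RegularWreathProduct.inl c := by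
    ext <;> simp [wmap]
  rwa [h2] at h1

lemma W_of_surj {H H' : Type} [Group H] [Group H'] [Finite H] (f : H →* H')
    (hf : Function.Surjective f) (hW : W F q H) : W F q H' := by
  have := finite_C hq
  intro c
  have h1 := map_mem_rad hF (wmap (C q) f) (wmap_surj _ f hf) (hW c)
  have h2 : (wmap (C q) f) (RegularWreathProduct.inl c) = RegularWreathProduct.inl c := by
    ext <;> simp [wmap]
  rwa [h2] at h1

lemma W_of_F {H : Type} [Group H] (h : F (H ≀ᵣ C q)) : W F q H :=
  fun _ => rad_of_F hF h _

lemma F_of_W {H : Type} [Group H] [Finite H] (hW : W F q H) : F H := by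
  classical
  have := finite_C hq
  have := nontrivial_C hq
  obtain ⟨c, hc⟩ := exists_ne (1 : C q)
  apply F_of_forall hF
  intro h
  let x : H ≀ᵣ C q := ⟨Pi.mulSingle 1 h, 1⟩
  let w : H ≀ᵣ C q := RegularWreathProduct.inl c
  have hR := rad_normal hF (H ≀ᵣ C q)
  have hz : w * (x * w⁻¹ * x⁻¹) ∈ rad F (H ≀ᵣ C q) :=
    mul_mem (hW c) (hR.conj_mem _ (inv_mem (hW c)) x)
  have hzr : (w * (x * w⁻¹ * x⁻¹)).right = 1 := by
    simp [w, x]
  have hzl : (w * (x * w⁻¹ * x⁻¹)).left c = h := by
    simp [w, x, hc]
  let N : Subgroup (H ≀ᵣ C q) := (RegularWreathProduct.rightHom : H ≀ᵣ C q →* C q).ker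
  have hN : N.Normal := inferInstance
  let z : N := ⟨w * (x * w⁻¹ * x⁻¹), hzr⟩
  have hz' : z ∈ rad F N := rad_to_normal hF hN hz
  let ev : N →* H :=
    { toFun := fun y => y.1.left c
      map_one' := rfl
      map_mul' := fun y y' => by
        have h : y.1.right = 1 := y.2
        simp [h] }
  have hev : Function.Surjective ev := by
    intro b
    exact ⟨⟨⟨fun _ => b, 1⟩, rfl⟩, rfl⟩
  have := map_mem_rad hF ev hev hz'
  exact hzl ▸ this

lemma W_qgroup (hC : F (C q)) {H : Type} [Group H] [Finite H] (hH : IsPGroup q H) :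
    W F q H := by
  have := finite_C hq
  have hCp : IsPGroup q (C q) := IsPGroup.of_card (n := 1) (by rw [card_C, pow_one])
  exact W_of_F hF hq (F_pgroup hF hq hC _ (pgroup_wreath hq hH hCp))

lemma W_card_prime {p : ℕ} (hp : p.Prime) (hW : W F q (C p)) {H : Type} [Group H]
    (hH : Nat.card H = p) : W F q H := by
  have : Fact p.Prime := ⟨hp⟩
  have := finite_C hp
  exact W_of_surj hF hq (mulEquivOfPrimeCardEq (card_C p) hH).toMonoidHom
    (mulEquivOfPrimeCardEq (card_C p) hH).surjective hW

lemma W_exp {p : ℕ} (hp : p.Prime) (hW : W F q (C p)) : ∀ (n : ℕ) (H : Type) [Group H]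
    [Finite H], Nat.card H = n → IsPGroup p H → ∀ K : Subgroup H, K ≠ ⊤ →
    (∀ h, h ∉ K → h ^ p = 1) → W F q H := by
  intro n
  induction n using Nat.strong_induction_on with
  | _ n ih =>
    intro H _ _ hn hH K hK hexp
    have : Fact p.Prime := ⟨hp⟩
    have hsol : Group.IsSolvable H := by
      have := hH.isNilpotent
      infer_instance
    have hord : ∀ h, h ∉ K → orderOf h = p := by
      intro h hh
      apply orderOf_eq_prime (hexp h hh)
      rintro rfl
      exact hh K.one_mem
    obtain ⟨c, hc⟩ : ∃ c, c ∉ K := by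
      by_contra hcon
      push Not at hcon
      exact hK (by rw [eq_top_iff]; intro y _; exact hcon y)
    rcases eq_top_or_exists_le_coatom (zpowers c) with h | ⟨X, hX, hcX⟩
    · apply W_card_prime hF hq hp hW
      rw [← hord c hc, ← Nat.card_zpowers, h, Subgroup.card_top]
    · have hXn := coatom_normal hp hH hX
      have hcX' : c ∈ X := hcX (mem_zpowers c)
      have hlt : Nat.card X < n := by
        rw [← hn]
        have h1 := Subgroup.card_subgroup_dvd_card X
        have h2 : Nat.card X ≠ Nat.card H := fun h =>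
          hX.1 (Subgroup.eq_top_of_card_eq X h)
        exact lt_of_le_of_ne (Nat.le_of_dvd Nat.card_pos h1) h2
      have hWX : W F q X := ih _ hlt X rfl (hH.to_subgroup X) (K.subgroupOf X)
        (by
          rw [Ne, Subgroup.subgroupOf_eq_top]
          intro hle
          exact hc (hle hcX'))
        (by
          intro x hx
          rw [Subgroup.mem_subgroupOf] at hx
          exact Subtype.ext (hexp _ hx))
      obtain ⟨y, hyX, hyK⟩ : ∃ y, y ∉ X ∧ y ∉ K := by
        obtain ⟨a, ha⟩ : ∃ a, a ∉ X := by
          by_contra hcon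
          push Not at hcon
          exact hX.1 (by rw [eq_top_iff]; intro y _; exact hcon y)
        by_cases haK : a ∈ K
        · exact ⟨a * c, fun h => ha ((X.mul_mem_cancel_right hcX').1 h),
            fun h => hc ((K.mul_mem_cancel_left haK).1 h)⟩
        · exact ⟨a, ha, haK⟩
      have hWy : W F q (zpowers y) :=
        W_card_prime hF hq hp hW (by rw [Nat.card_zpowers, hord y hyK])
      have htop : X ⊔ zpowers y = ⊤ := by
        apply hX.2
        rw [lt_iff_le_and_ne]
        refine ⟨le_sup_left, fun h => hyX ?_⟩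
        have : zpowers y ≤ X := by rw [h]; exact le_sup_right
        exact this (mem_zpowers y)
      refine W_of_factor hF hq hsol X.subtype X.subtype_injective (zpowers y).subtype
        (zpowers y).subtype_injective ?_ hWX hWy
      intro x
      have hx : x ∈ X ⊔ zpowers y := by rw [htop]; exact Subgroup.mem_top x
      obtain ⟨a, ha, b, hb, hab⟩ := Subgroup.mem_sup_of_normal_left.1 hx
      exact ⟨⟨a, ha⟩, ⟨b, hb⟩, hab.symm⟩

end Pool.Agent.Helper873.FitD
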