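import Pool.Agent.Helper873.FitD

set_option autoImplicit false

namespace Pool.Agent.Helper873.FitE

open Subgroup Pool.Agent.Helper873.FitA Pool.Agent.Helper873.FitB Pool.Agent.Helper873.FitC
  Pool.Agent.Helper873.FitD

/-- functions to `E` with constant image under `π` -/
def Dgp {E T : Type} [Group E] [Group T] (Q : Type) [Group Q] (π : E →* T) :
    Subgroup (Q → E) where
  carrier := {f | ∀ i, π (f i) = π (f 1)}
  one_mem' := by intro i; simp
  mul_mem' := by
    intro f g hf hg i
    simp only [Pi.mul_apply, map_mul]
    rw [hf i, hg i]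
  inv_mem' := by
    intro f hf i
    simp only [Pi.inv_apply, map_inv]
    rw [hf i]

/-- elements of the wreath product with constant image under `π` -/
def Tgp {E T : Type} [Group E] [Group T] (Q : Type) [Group Q] (π : E →* T) :
    Subgroup (E ≀ᵣ Q) where
  carrier := {x | ∀ i, π (x.left i) = π (x.left 1)}
  one_mem' := by intro i; simp
  mul_mem' := by
    intro f g hf hg i
    simp only [RegularWreathProduct.mul_left, Pi.mul_apply, map_mul]
    rw [hf i, hg (f.right⁻¹ * i), hg (f.right⁻¹ * 1)]
  inv_mem' := by
    intro f hf i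
    simp only [RegularWreathProduct.inv_left, Pi.inv_apply, map_inv]
    rw [hf (f.right * i), hf (f.right * 1)]

/-- the common image -/
def chi {E T : Type} [Group E] [Group T] (Q : Type) [Group Q] (π : E →* T) :
    Tgp Q π →* T where
  toFun x := π (x.1.left 1)
  map_one' := by simp
  map_mul' x y := by
    simp only [Subgroup.coe_mul, RegularWreathProduct.mul_left, Pi.mul_apply, map_mul]
    rw [y.2 (x.1.right⁻¹ * 1)]

variable {F : (G : Type) → [Group G] → Prop} (hF : Cls F) {q : ℕ} (hq : q.Prime)
  (hC : F (C q))

include hF hq hC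

lemma W_ker {p : ℕ} (hp : p.Prime) (hW : W F q (C p)) {E T : Type} [Group E] [Finite E] [Group T]
    (hE : IsPGroup p E) (π : E →* T) (hπ : π.ker ≠ ⊤) (hexp : ∀ e, e ∉ π.ker → e ^ p = 1) :
    W F q π.ker := by
  have : Fact p.Prime := ⟨hp⟩
  have := finite_C hq
  have hsolE : Group.IsSolvable E := by
    have := hE.isNilpotent
    infer_instance
  -- the group `D`
  have hDp : IsPGroup p (C q → E) := by
    obtain ⟨n, hn⟩ := IsPGroup.iff_card.1 hE
    apply IsPGroup.iff_card.2
    refine ⟨n * Nat.card (C q), ?_⟩
    rw [Nat.card_fun, hn, ← pow_mul]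
  let KD : Subgroup (Dgp (C q) π) :=
    (π.comp ((Pi.evalMonoidHom (fun _ : C q => E) 1).comp (Dgp (C q) π).subtype)).ker
  have hWD : W F q (Dgp (C q) π) := by
    refine W_exp hF hq hp hW _ (Dgp (C q) π) rfl (hDp.to_subgroup _) KD ?_ ?_
    · intro h
      apply hπ
      rw [eq_top_iff]
      intro e _
      have h1 : (⟨fun _ => e, fun _ => rfl⟩ : Dgp (C q) π) ∈ KD := by
        rw [h]; exact Subgroup.mem_top _
      exact h1
    · intro f hf
      apply Subtype.ext
      funext i
      have h1 : f.1 i ∉ π.ker := by
        intro h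
        apply hf
        change π (f.1 1) = 1
        rw [← f.2 i]
        exact h
      exact hexp _ h1
  have hWC : W F q (C q) := W_qgroup hF hq hC (IsPGroup.of_card (n := 1) (by rw [card_C, pow_one]))
  have hsolT : Group.IsSolvable (Tgp (C q) π) := by
    have := solv_wreath (Q := C q) hsolE (solv_C q)
    infer_instance
  let f : Dgp (C q) π →* Tgp (C q) π :=
    { toFun := fun d => ⟨⟨d.1, 1⟩, d.2⟩
      map_one' := rfl
      map_mul' := fun x y => by
        apply Subtype.ext
        ext i
        · simp
        · simp }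
  let g : C q →* Tgp (C q) π :=
    { toFun := fun c => ⟨RegularWreathProduct.inl c, fun i => by simp⟩
      map_one' := rfl
      map_mul' := fun x y => by
        apply Subtype.ext
        simp }
  have hWT : W F q (Tgp (C q) π) := by
    refine W_of_factor hF hq hsolT f ?_ g ?_ ?_ hWD hWC
    · intro x y h
      have h1 := congrArg (fun z : Tgp (C q) π => z.1.left) h
      exact Subtype.ext h1
    · intro x y h
      exact congrArg (fun z : Tgp (C q) π => z.1.right) h
    · intro x
      refine ⟨⟨x.1.left, x.2⟩, x.1.right, ?_⟩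
      apply Subtype.ext
      ext i
      · change x.1.left i = x.1.left i * 1
        rw [mul_one]
      · change x.1.right = 1 * x.1.right
        rw [one_mul]
  have hFT : F (Tgp (C q) π) := F_of_W hF hq hWT
  let θ : π.ker ≀ᵣ C q →* Tgp (C q) π :=
    { toFun := fun x => ⟨⟨fun i => (x.left i : E), x.right⟩, fun i => by
        have h1 : π (x.left i : E) = 1 := (x.left i).2
        have h2 : π (x.left 1 : E) = 1 := (x.left 1).2
        change π (x.left i : E) = π (x.left 1 : E)
        rw [h1, h2]⟩
      map_one' := rfl
      map_mul' := fun x y => by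
        apply Subtype.ext
        ext i
        · simp
        · simp }
  have hθ : Function.Injective θ := by
    intro x y h
    have h1 := congrArg (fun z : Tgp (C q) π => z.1.left) h
    have h2 := congrArg (fun z : Tgp (C q) π => z.1.right) h
    ext i
    · exact congrFun h1 i
    · exact h2
  have hrange : θ.range = (chi (C q) π).ker := by
    ext x
    constructor
    · rintro ⟨y, rfl⟩
      exact (y.left 1).2
    · intro hx
      have h1 : ∀ i, x.1.left i ∈ π.ker := by
        intro i
        rw [MonoidHom.mem_ker, x.2 i]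
        exact hx
      refine ⟨⟨fun i => ⟨x.1.left i, h1 i⟩, x.1.right⟩, ?_⟩
      apply Subtype.ext
      ext i
      · rfl
      · rfl
  apply W_of_F hF hq
  apply F_of_normal_range hF θ hθ _ hFT
  rw [hrange]
  infer_instance

lemma W_comm_pgroup {p : ℕ} (hp : p.Prime) (hW : W F q (C p)) (B : Type) [CommGroup B] [Finite B]
    (hB : IsPGroup p B) : W F q B := by
  have : Fact p.Prime := ⟨hp⟩
  have hnt : Nontrivial (C p) := nontrivial_C hp
  have hCp : IsPGroup p (C p) := IsPGroup.of_card (n := 1) (by rw [card_C, pow_one])
  have h1 : W F q (proj B (C p)).ker :=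
    W_ker hF hq hC hp hW ((pgroup_wreath hp hB hCp).to_subgroup _) (proj B (C p))
      (ker_ne_top B (C p)) (fun e he => exp_E B (C p) hp (card_C p) e he)
  exact W_of_surj hF hq (evK B (C p)) (evK_surj B (C p)) h1

lemma W_zpowers {p : ℕ} (hp : p.Prime) (hW : W F q (C p)) {H : Type} [Group H] [Finite H] (x : H)
    (k : ℕ) (hx : x ^ p ^ k = 1) : W F q (zpowers x) := by
  have hZp : IsPGroup p (zpowers x) := by
    intro y
    refine ⟨k, ?_⟩
    obtain ⟨y, hy⟩ := y
    obtain ⟨m, rfl⟩ := mem_zpowers_iff.1 hy
    apply Subtype.ext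
    change (x ^ m) ^ p ^ k = 1
    rw [← zpow_natCast, zpow_comm, zpow_natCast, hx, one_zpow]
  have hc : ∀ a b : zpowers x, a * b = b * a := fun a b => mul_comm' a b
  let i : CommGroup (zpowers x) := { (inferInstance : Group (zpowers x)) with mul_comm := hc }
  exact W_comm_pgroup hF hq hC hp hW (zpowers x) hZp

/-- Soluble groups all of whose primes are related to `q`. -/
lemma W_solvable : ∀ (n : ℕ) (H : Type) [Group H] [Finite H], Nat.card H = n →
    Group.IsSolvable H → (∀ p, p.Prime → p ∣ Nat.card H → W F q (C p)) → W F q H := by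
  intro n
  induction n using Nat.strong_induction_on with
  | _ n ih =>
    intro H _ _ hn hsol hall
    have := finite_C hq
    by_cases htriv : Subsingleton H
    · have : IsPGroup q H := by
        intro x
        exact ⟨0, by rw [pow_zero, pow_one]; exact Subsingleton.elim _ _⟩
      exact W_qgroup hF hq hC this
    · have : Nontrivial H := not_subsingleton_iff_nontrivial.1 htriv
      have hlt := Group.IsSolvable.commutator_lt_top_of_nontrivial (G := H)
      obtain ⟨M, hM, hcM⟩ : ∃ M : Subgroup H, IsCoatom M ∧ commutator H ≤ M := by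
        rcases eq_top_or_exists_le_coatom (commutator H) with h | h
        · exact absurd h hlt.ne
        · exact h
      have hMn : M.Normal := Subgroup.Normal.of_commutator_le H hcM
      have hlt : Nat.card M < n := by
        rw [← hn]
        have h1 := Subgroup.card_subgroup_dvd_card M
        have h2 : Nat.card M ≠ Nat.card H := fun h =>
          hM.1 (Subgroup.eq_top_of_card_eq M h)
        exact lt_of_le_of_ne (Nat.le_of_dvd Nat.card_pos h1) h2
      have hWM : W F q M := ih _ hlt M rfl inferInstance
        (fun p hp hpM => hall p hp (hpM.trans (Subgroup.card_subgroup_dvd_card M)))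
      obtain ⟨y, p, k, hp, hyk, hy⟩ : ∃ (y : H) (p k : ℕ), p.Prime ∧ y ^ p ^ k = 1 ∧ y ∉ M := by
        by_contra hcon
        push Not at hcon
        exact hM.1 (eq_top_of_pelements M (fun x p k hp hx => hcon x p k hp hx))
      have hpc : p ∣ Nat.card H := by
        have h1 : orderOf y ∣ p ^ k := orderOf_dvd_of_pow_eq_one hyk
        obtain ⟨j, _, hj⟩ := (Nat.dvd_prime_pow hp).1 h1
        rcases j with _ | j
        · rw [pow_zero, orderOf_eq_one_iff] at hj
          rw [hj] at hy
          exact absurd M.one_mem hy
        · refine Dvd.dvd.trans ?_ (orderOf_dvd_natCard y)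
          rw [hj, pow_succ]; exact Dvd.intro_left _ rfl
      have hWy : W F q (zpowers y) := W_zpowers hF hq hC hp (hall p hp hpc) y k hyk
      have htop : M ⊔ zpowers y = ⊤ := by
        apply hM.2
        rw [lt_iff_le_and_ne]
        refine ⟨le_sup_left, fun h => hy ?_⟩
        have : zpowers y ≤ M := by rw [h]; exact le_sup_right
        exact this (mem_zpowers y)
      refine W_of_factor hF hq hsol M.subtype M.subtype_injective (zpowers y).subtype
        (zpowers y).subtype_injective ?_ hWM hWy
      intro x
      have hx : x ∈ M ⊔ zpowers y := by rw [htop]; exact Subgroup.mem_top x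
      obtain ⟨a, ha, b, hb, hab⟩ := Subgroup.mem_sup_of_normal_left.1 hx
      exact ⟨⟨a, ha⟩, ⟨b, hb⟩, hab.symm⟩

omit hC in
/-- Transitivity. -/
lemma W_trans {t p : ℕ} (ht : t.Prime) (hCt : F (C t)) (hp : p.Prime) (h1 : W F t (C p))
    (h2 : W F t (C q)) : W F q (C p) := by
  have := finite_C hq
  have := finite_C hp
  have h3 : W F t (C p ≀ᵣ C q) := by
    apply W_solvable hF ht hCt _ _ rfl (solv_wreath (solv_C p) (solv_C q))
    intro r hr hrd
    rw [RegularWreathProduct.card, card_C, card_C] at hrd
    rcases (Nat.Prime.dvd_mul hr).1 hrd with h | h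
    · have : r = p := (Nat.prime_dvd_prime_iff_eq hr hp).1 (hr.dvd_of_dvd_pow h)
      rw [this]; exact h1
    · have : r = q := (Nat.prime_dvd_prime_iff_eq hr hq).1 h
      rw [this]; exact h2
  exact W_of_F hF hq (F_of_W hF ht h3)

end Pool.Agent.Helper873.FitE
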