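import Pool.Agent.Helper873.FitE

set_option autoImplicit false

namespace Pool.Agent.Helper873.FitG

open Subgroup Pool.Agent.Helper873.FitA Pool.Agent.Helper873.FitB Pool.Agent.Helper873.FitC
  Pool.Agent.Helper873.FitD Pool.Agent.Helper873.FitE

/-- multiplication of residues -/
def mm {t : ℕ} (i k : C t) : C t := Multiplicative.ofAdd (i.toAdd * k.toAdd)

lemma mm_mul_right {t : ℕ} (i k l : C t) : mm i (k * l) = mm i k * mm i l := by
  apply Multiplicative.toAdd.injective
  simp [mm, mul_add]

lemma mm_mul_left {t : ℕ} (i k l : C t) : mm (i * k) l = mm i l * mm k l := by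
  apply Multiplicative.toAdd.injective
  simp [mm, add_mul]

lemma mm_one_left {t : ℕ} (k : C t) : mm 1 k = 1 := by
  apply Multiplicative.toAdd.injective
  simp [mm]

lemma mm_one_right {t : ℕ} (k : C t) : mm k 1 = 1 := by
  apply Multiplicative.toAdd.injective
  simp [mm]

lemma mm_gen {t : ℕ} (k : C t) : mm (Multiplicative.ofAdd 1) k = k := by
  apply Multiplicative.toAdd.injective
  simp [mm]

lemma mm_inv_right {t : ℕ} (i k : C t) : mm i k⁻¹ = (mm i k)⁻¹ := by
  apply Multiplicative.toAdd.injective
  simp [mm]

lemma mm_bij {t : ℕ} (ht : t.Prime) {c : C t} (hc : c ≠ 1) :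
    Function.Bijective (fun i : C t => mm i c) := by
  have : Fact t.Prime := ⟨ht⟩
  have h0 : c.toAdd ≠ 0 := fun h => hc (Multiplicative.toAdd.injective h)
  have h1 : Function.Injective (fun i : C t => mm i c) := by
    intro i j h
    have h2 := congrArg Multiplicative.toAdd h
    simp only [mm, toAdd_ofAdd] at h2
    exact Multiplicative.toAdd.injective (mul_right_cancel₀ h0 h2)
  exact Finite.injective_iff_bijective.1 h1

variable {F : (G : Type) → [Group G] → Prop} (hF : Cls F)

include hF

theorem fourier {t : ℕ} (ht : t.Prime) {V X : Type} [CommGroup V] [Finite V] [Group X]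
    (ι : V →* X) (hι : Function.Injective ι) (Y : C t →* X)
    (a : C t →* Monoid.End V)
    (hrel : ∀ c v, Y c * ι v = ι (a c v) * Y c)
    (hgen : ∀ x, ∃ v c, x = ι v * Y c)
    (hdisj : ∀ v c, ι v * Y c = 1 → c = 1)
    (hnorm : ∀ (h : Fintype (C t)) (v : V), ∏ i : C t, a i v = 1)
    (htor : ∀ v : V, v ^ t = 1 → v = 1)
    (hX : F X) : F (V ≀ᵣ C t) := by
  classical
  have hfact : Fact t.Prime := ⟨ht⟩
  have hone : ∀ v, a 1 v = v := fun v => by rw [map_one]; rfl
  have hmul : ∀ c d v, a (c * d) v = a c (a d v) := fun c d v => by rw [map_mul]; rfl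
  -- the transform
  let T : (C t → V) → (C t → V) := fun n i => ∏ k : C t, a (mm i k) (n k)
  have Tmul : ∀ m n, T (m * n) = T m * T n := by
    intro m n
    funext i
    simp only [T, Pi.mul_apply, map_mul, Finset.prod_mul_distrib]
  have Tshift : ∀ (n : C t → V) (j i : C t), T (fun x => n (j⁻¹ * x)) i = a (mm i j) (T n i) := by
    intro n j i
    simp only [T]
    rw [map_prod, ← Equiv.prod_comp (Equiv.mulLeft j)]
    apply Finset.prod_congr rfl
    intro k _
    simp only [Equiv.coe_mulLeft, inv_mul_cancel_left]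
    rw [mm_mul_right, hmul]
  have Tinv : ∀ (n : C t → V) (k : C t), ∏ i : C t, a ((mm i k)⁻¹) (T n i) = n k ^ t := by
    intro n k
    have h1 : ∀ i, a ((mm i k)⁻¹) (T n i) = ∏ l : C t, a (mm i (k⁻¹ * l)) (n l) := by
      intro i
      simp only [T]
      rw [map_prod]
      apply Finset.prod_congr rfl
      intro l _
      rw [← hmul, ← mm_inv_right, ← mm_mul_right]
    simp only [h1]
    rw [Finset.prod_comm]
    rw [Finset.prod_eq_single k]
    · simp only [inv_mul_cancel, mm_one_right, hone]
      rw [Finset.prod_const, Finset.card_univ, ← Nat.card_eq_fintype_card, card_C]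
    · intro l _ hl
      have hc : k⁻¹ * l ≠ 1 := by
        intro h
        exact hl (inv_mul_eq_one.1 h).symm
      rw [← hnorm inferInstance (n l)]
      exact (mm_bij ht hc).prod_comp (fun i => a i (n l))
    · intro h; exact absurd (Finset.mem_univ k) h
  have Tinj : Function.Injective T := by
    intro m n h
    have h1 : T (m * n⁻¹) = 1 := by
      have h2 : T (m * n⁻¹) * T n = T n := by
        rw [← Tmul, inv_mul_cancel_right, h]
      exact mul_eq_right.1 h2
    funext k
    have h3 := Tinv (m * n⁻¹) k
    rw [h1] at h3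
    simp only [Pi.one_apply, map_one, Finset.prod_const_one] at h3
    have h4 := htor _ h3.symm
    simpa [mul_inv_eq_one] using h4
  have Tsurj : Function.Surjective T := Finite.surjective_of_injective Tinj
  -- the embedding
  let Ψ : V ≀ᵣ C t →* (C t → X) :=
    { toFun := fun x i => ι (T x.left i) * Y (mm i x.right)
      map_one' := by
        funext i
        have : T 1 = 1 := by
          have h2 : T (1 * 1) = T 1 * T 1 := Tmul 1 1
          rw [one_mul] at h2
          exact (mul_eq_left.1 h2.symm)
        simp only [RegularWreathProduct.one_left, RegularWreathProduct.one_right, this,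
          mm_one_right, Pi.one_apply, map_one, mul_one]
      map_mul' := by
        intro x y
        funext i
        simp only [RegularWreathProduct.mul_left, RegularWreathProduct.mul_right, Tmul,
          Pi.mul_apply, Tshift, mm_mul_right, map_mul]
        rw [mul_assoc, mul_assoc, ← mul_assoc (ι (a _ _)) (Y _) (Y _), ← hrel]
        simp only [mul_assoc] }
  have hΨ : Function.Injective Ψ := by
    rw [injective_iff_map_eq_one]
    intro x hx
    have h1 : ∀ i, ι (T x.left i) * Y (mm i x.right) = 1 := fun i => congrFun hx i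
    have h2 : x.right = 1 := by
      have := hdisj _ _ (h1 (Multiplicative.ofAdd 1))
      rwa [mm_gen] at this
    have h3 : T x.left = T 1 := by
      funext i
      have h4 := h1 i
      rw [h2, mm_one_right, map_one, mul_one] at h4
      have h5 : T x.left i = 1 := hι (by rw [h4, map_one])
      rw [h5]
      simp [T]
    ext i
    · exact congrFun (Tinj h3) i
    · exact h2
  have hrange : ∀ (f : C t → V) (c : C t),
      (fun i => ι (f i) * Y (mm i c)) ∈ Ψ.range := by
    intro f c
    obtain ⟨n, hn⟩ := Tsurj f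
    refine ⟨⟨n, c⟩, ?_⟩
    funext i
    change ι (T n i) * Y (mm i c) = _
    rw [hn]
  refine F_of_normal_range hF Ψ hΨ ?_ (F_pi hF hX)
  constructor
  rintro _ ⟨x, rfl⟩ g
  choose u c hg using fun i => hgen (g i)
  have key : g * Ψ x * g⁻¹ = fun i =>
      ι (u i * a (c i) (T x.left i) * a (mm i x.right) ((u i)⁻¹)) * Y (mm i x.right) := by
    funext i
    change g i * (ι (T x.left i) * Y (mm i x.right)) * (g i)⁻¹ = _
    rw [hg i, mul_inv_rev]
    have e1 : Y (mm i x.right) * (Y (c i))⁻¹ = (Y (c i))⁻¹ * Y (mm i x.right) := by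
      rw [← map_inv, ← map_mul, ← map_mul, mul_comm]
    have e2 : ι (a (mm i x.right) ((u i)⁻¹)) * Y (mm i x.right)
        = Y (mm i x.right) * (ι (u i))⁻¹ := by
      rw [← hrel, map_inv]
    rw [map_mul, map_mul, mul_assoc (ι (u i) * ι (a (c i) (T x.left i))), e2]
    have e3 : ι (a (c i) (T x.left i)) = Y (c i) * ι (T x.left i) * (Y (c i))⁻¹ := by
      rw [hrel, mul_inv_cancel_right]
    rw [e3]
    have e4 : (Y (c i))⁻¹ * (Y (mm i x.right) * (ι (u i))⁻¹)
        = Y (mm i x.right) * ((Y (c i))⁻¹ * (ι (u i))⁻¹) := by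
      rw [← mul_assoc, ← e1, mul_assoc]
    simp only [mul_assoc]
    rw [e4]
  rw [key]
  exact hrange _ _

end Pool.Agent.Helper873.FitG
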