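import Pool.Agent.Helper873.FitG

set_option autoImplicit false

namespace Pool.Agent.Helper873.FitH

open Subgroup Pool.Agent.Helper873.FitA Pool.Agent.Helper873.FitB Pool.Agent.Helper873.FitC
  Pool.Agent.Helper873.FitD Pool.Agent.Helper873.FitE Pool.Agent.Helper873.FitG

lemma exists_quot {p : ℕ} (hp : p.Prime) (V : Type) [CommGroup V] [Finite V] [Nontrivial V]
    (hV : IsPGroup p V) : ∃ M : Subgroup V, Nat.card (V ⧸ M) = p := by
  have : Fact p.Prime := ⟨hp⟩
  obtain ⟨n, hn⟩ := IsPGroup.iff_card.1 hV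
  have hn0 : n ≠ 0 := by
    rintro rfl
    rw [pow_zero] at hn
    have := Finite.one_lt_card_iff_nontrivial.2 (inferInstance : Nontrivial V)
    omega
  obtain ⟨m, rfl⟩ := Nat.exists_eq_succ_of_ne_zero hn0
  obtain ⟨M, hM⟩ := Sylow.exists_subgroup_card_pow_prime (G := V) p (n := m)
    (by rw [hn, pow_succ]; exact Dvd.intro _ rfl)
  refine ⟨M, ?_⟩
  have h1 := Subgroup.card_eq_card_quotient_mul_card_subgroup M
  rw [hn, hM, Nat.succ_eq_add_one, pow_succ, mul_comm] at h1
  exact (Nat.eq_of_mul_eq_mul_right (pow_pos hp.pos m) h1).symm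

variable {F : (G : Type) → [Group G] → Prop} (hF : Cls F)

include hF

theorem core {p t : ℕ} (hp : p.Prime) (ht : t.Prime) (hpt : p ≠ t) {V X : Type} [CommGroup V]
    [Finite V] (hV : IsPGroup p V) [Group X] (ι : V →* X) (hι : Function.Injective ι)
    (Y : C t →* X) (hY : Function.Injective Y) (a : C t →* Monoid.End V)
    (hrel : ∀ c v, Y c * ι v = ι (a c v) * Y c)
    (hgen : ∀ x, ∃ v c, x = ι v * Y c)
    (hnc : ∃ c v, a c v ≠ v)
    (hX : F X) : W F t (C p) := by
  classical
  have hfact : Fact t.Prime := ⟨ht⟩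
  have hfactp : Fact p.Prime := ⟨hp⟩
  have hXfin := (hF.fin X hX).1
  have hone : ∀ v, a 1 v = v := fun v => by rw [map_one]; rfl
  have hmul : ∀ c d v, a (c * d) v = a c (a d v) := fun c d v => by rw [map_mul]; rfl
  have hcop : ∀ v : V, v ^ t = 1 → v = 1 := by
    intro v hv
    obtain ⟨k, hk⟩ := hV v
    have h1 : orderOf v ∣ t := orderOf_dvd_of_pow_eq_one hv
    have h2 : orderOf v ∣ p ^ k := orderOf_dvd_of_pow_eq_one hk
    have h3 : Nat.Coprime t (p ^ k) := by
      apply Nat.Coprime.pow_right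
      exact (Nat.coprime_primes ht hp).2 (Ne.symm hpt)
    have h4 := Nat.eq_one_of_dvd_coprimes h3 h1 h2
    exact orderOf_eq_one_iff.1 h4
  have hct : ∀ c : C t, c ^ t = 1 := by
    intro c
    have := pow_card_eq_one' (G := C t) (x := c)
    rwa [card_C] at this
  let nrm : V →* V :=
    { toFun := fun v => ∏ i : C t, a i v
      map_one' := by simp
      map_mul' := fun v w => by simp [Finset.prod_mul_distrib] }
  have hnrm : ∀ v, nrm v = ∏ i : C t, a i v := fun _ => rfl
  have hinv : ∀ c v, nrm (a c v) = nrm v := by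
    intro c v
    calc nrm (a c v) = ∏ i : C t, a (i * c) v :=
          Finset.prod_congr rfl (fun i _ => (hmul i c v).symm)
      _ = ∏ i : C t, a i v := Equiv.prod_comp (Equiv.mulRight c) (fun i => a i v)
  let V0 : Subgroup V := nrm.ker
  have hV0 : ∀ v, v ∈ V0 ↔ nrm v = 1 := fun v => MonoidHom.mem_ker
  have hV0a : ∀ c v, v ∈ V0 → a c v ∈ V0 := by
    intro c v hv
    rw [hV0] at hv ⊢
    rw [hinv, hv]
  let X0 : Subgroup X :=
    { carrier := {x | ∃ v ∈ V0, ∃ c, x = ι v * Y c}
      one_mem' := ⟨1, one_mem _, 1, by simp⟩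
      mul_mem' := by
        rintro _ _ ⟨v, hv, c, rfl⟩ ⟨w, hw, d, rfl⟩
        refine ⟨v * a c w, mul_mem hv (hV0a c w hw), c * d, ?_⟩
        rw [map_mul, map_mul, mul_assoc, ← mul_assoc (Y c), hrel]
        simp only [mul_assoc]
      inv_mem' := by
        rintro _ ⟨v, hv, c, rfl⟩
        refine ⟨a c⁻¹ v⁻¹, hV0a _ _ (inv_mem hv), c⁻¹, ?_⟩
        rw [← hrel, mul_inv_rev, map_inv, map_inv] }
  have hX0 : ∀ x, x ∈ X0 ↔ ∃ v ∈ V0, ∃ c, x = ι v * Y c := fun _ => Iff.rfl
  have hX0n : X0.Normal := by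
    constructor
    rintro _ ⟨v, hv, c, rfl⟩ g
    obtain ⟨u, d, rfl⟩ := hgen g
    refine ⟨u * a c u⁻¹ * a d v, ?_, c, ?_⟩
    · apply mul_mem _ (hV0a d v hv)
      rw [hV0, map_mul, hinv, map_inv, mul_inv_cancel]
    · have e1 : Y c * (Y d)⁻¹ = (Y d)⁻¹ * Y c := by
        rw [← map_inv, ← map_mul, ← map_mul, mul_comm]
      have e2 : ι (a c u⁻¹) * Y c = Y c * (ι u)⁻¹ := by rw [← hrel, map_inv]
      have e3 : ι (a d v) = Y d * ι v * (Y d)⁻¹ := by rw [hrel, mul_inv_cancel_right]
      have e0 : u * a c u⁻¹ * a d v = u * a d v * a c u⁻¹ := mul_right_comm _ _ _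
      rw [e0, map_mul ι (u * a d v), map_mul ι u, mul_assoc (ι u * ι (a d v)), e2, e3,
        mul_inv_rev]
      have e4 : (Y d)⁻¹ * (Y c * (ι u)⁻¹) = Y c * ((Y d)⁻¹ * (ι u)⁻¹) := by
        rw [← mul_assoc, ← e1, mul_assoc]
      simp only [mul_assoc]
      rw [e4]
  have hFX0 : F X0 := hF.normal _ _ hX0n hX
  let ι0 : V0 →* X0 :=
    { toFun := fun v => ⟨ι v, v, v.2, 1, by simp⟩
      map_one' := by apply Subtype.ext; simp
      map_mul' := fun v w => by apply Subtype.ext; simp }
  let Y0 : C t →* X0 :=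
    { toFun := fun c => ⟨Y c, 1, one_mem _, c, by simp⟩
      map_one' := by apply Subtype.ext; simp
      map_mul' := fun v w => by apply Subtype.ext; simp }
  let a0 : C t →* Monoid.End V0 :=
    { toFun := fun c =>
        { toFun := fun v => ⟨a c v, hV0a c v v.2⟩
          map_one' := by apply Subtype.ext; simp
          map_mul' := fun v w => by apply Subtype.ext; simp }
      map_one' := by
        ext v
        exact hone v
      map_mul' := fun c d => by
        ext v
        exact hmul c d v }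
  have hw : F (V0 ≀ᵣ C t) := by
    refine fourier hF ht ι0 ?_ Y0 a0 ?_ ?_ ?_ ?_ ?_ hFX0
    · intro v w h
      exact Subtype.ext (hι (congrArg Subtype.val h))
    · intro c v
      apply Subtype.ext
      exact hrel c v
    · rintro ⟨x, v, hv, c, rfl⟩
      exact ⟨⟨v, hv⟩, c, Subtype.ext rfl⟩
    · intro v c h
      have h1 : ι v * Y c = 1 := congrArg Subtype.val h
      have h2 : ι v = Y c⁻¹ := by rw [map_inv]; exact eq_inv_of_mul_eq_one_left h1
      have h3 : (v : V) ^ t = 1 := by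
        apply hι
        rw [map_pow, h2, ← map_pow, hct, map_one, map_one]
      have h4 : (v : V) = 1 := hcop _ h3
      rw [h4, map_one, one_mul] at h1
      exact hY (by rw [h1, map_one])
    · intro hi v
      apply Subtype.ext
      have h1 : nrm v = 1 := v.2
      rw [hnrm] at h1
      have h2 : V0.subtype (@Finset.prod (C t) V0 _ (@Finset.univ _ hi) (fun i => a0 i v)) = 1 := by
        rw [map_prod]
        convert h1
        rfl
      exact h2
    · intro v hv
      exact Subtype.ext (hcop _ (congrArg Subtype.val hv))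
  have hW0 : W F t V0 := W_of_F hF ht hw
  have hnt : Nontrivial V0 := by
    obtain ⟨c, v, hcv⟩ := hnc
    refine ⟨⟨⟨a c v * v⁻¹, ?_⟩, 1, ?_⟩⟩
    · rw [hV0, map_mul, hinv, map_inv, mul_inv_cancel]
    · intro h
      exact hcv (mul_inv_eq_one.1 (congrArg Subtype.val h))
  obtain ⟨M, hM⟩ := exists_quot hp V0 (hV.to_subgroup V0)
  have hW1 : W F t (V0 ⧸ M) :=
    W_of_surj hF ht (QuotientGroup.mk' M) (QuotientGroup.mk'_surjective M) hW0
  exact W_of_surj hF ht (mulEquivOfPrimeCardEq hM (card_C p)).toMonoidHom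
    (mulEquivOfPrimeCardEq hM (card_C p)).surjective hW1

/-- internal form -/
theorem core_int {p t : ℕ} (hp : p.Prime) (ht : t.Prime) (hpt : p ≠ t) {X : Type} [Group X]
    (hX : F X) (N : Subgroup X) (hN : N.Normal) (hNc : ∀ a ∈ N, ∀ b ∈ N, a * b = b * a)
    (hNp : IsPGroup p N) (y : X) (hy : y ^ t = 1) (hgen : ∀ x, ∃ n ∈ N, ∃ k : ℤ, x = n * y ^ k)
    (hnc : ∃ n ∈ N, y * n ≠ n * y) : W F t (C p) := by
  have hXfin := (hF.fin X hX).1
  have hfact : Fact t.Prime := ⟨ht⟩
  have hy1 : y ≠ 1 := by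
    rintro rfl
    obtain ⟨n, _, hn⟩ := hnc
    simp at hn
  have ho : orderOf y = t := orderOf_eq_prime hy hy1
  let e : C t ≃* zpowers y := zmodMulEquivOfGenerator (g := (⟨y, mem_zpowers y⟩ : zpowers y))
    (by
      rintro ⟨x, hx⟩
      obtain ⟨k, rfl⟩ := mem_zpowers_iff.1 hx
      exact mem_zpowers_iff.2 ⟨k, Subtype.ext rfl⟩)
    (by rw [Nat.card_zpowers, ho])
  let Y : C t →* X := (zpowers y).subtype.comp e.toMonoidHom
  have hYinj : Function.Injective Y := (zpowers y).subtype_injective.comp e.injective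
  have hYk : ∀ k : ℤ, ∃ c, Y c = y ^ k := by
    intro k
    refine ⟨e.symm ⟨y ^ k, zpow_mem (mem_zpowers y) k⟩, ?_⟩
    simp [Y]
  let cN : CommGroup N :=
    { (inferInstance : Group N) with
      mul_comm := fun a b => Subtype.ext (hNc a a.2 b b.2) }
  let a : C t →* Monoid.End N :=
    { toFun := fun c => (MulAut.conjNormal (Y c) : N ≃* N).toMonoidHom
      map_one' := by
        apply MonoidHom.ext
        intro v
        apply Subtype.ext
        change ((MulAut.conjNormal (Y 1) v : N) : X) = v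
        rw [MulAut.conjNormal_apply]
        simp
      map_mul' := fun c d => by
        apply MonoidHom.ext
        intro v
        apply Subtype.ext
        change ((MulAut.conjNormal (Y (c * d)) v : N) : X) =
          ((MulAut.conjNormal (Y c) (MulAut.conjNormal (Y d) v) : N) : X)
        simp only [MulAut.conjNormal_apply, map_mul, MulAut.mul_apply, mul_inv_rev, mul_assoc] }
  have ha : ∀ c (v : N), (a c v : X) = Y c * v * (Y c)⁻¹ := by
    intro c v
    exact MulAut.conjNormal_apply _ _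
  refine core hF hp ht hpt (V := N) (X := X) hNp N.subtype N.subtype_injective Y hYinj a ?_ ?_ ?_
    hX
  · intro c v
    change Y c * (v : X) = (a c v : X) * Y c
    rw [ha, inv_mul_cancel_right]
  · intro x
    obtain ⟨n, hn, k, rfl⟩ := hgen x
    obtain ⟨c, hc⟩ := hYk k
    exact ⟨⟨n, hn⟩, c, by rw [hc]; rfl⟩
  · obtain ⟨n, hn, hyn⟩ := hnc
    obtain ⟨c, hc⟩ := hYk 1
    rw [zpow_one] at hc
    refine ⟨c, ⟨n, hn⟩, fun h => hyn ?_⟩
    have h1 := congrArg Subtype.val h
    rw [ha, hc] at h1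
    exact mul_inv_eq_iff_eq_mul.1 h1

end Pool.Agent.Helper873.FitH
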