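import Pool.Agent.Helper873.FitH

set_option autoImplicit false

namespace Pool.Agent.Helper873.FitI

open Subgroup Pool.Agent.Helper873.FitA Pool.Agent.Helper873.FitB Pool.Agent.Helper873.FitC
  Pool.Agent.Helper873.FitD Pool.Agent.Helper873.FitE Pool.Agent.Helper873.FitG
  Pool.Agent.Helper873.FitH

lemma exists_normal_pgroup (X : Type) [Group X] [Finite X] [Nontrivial X]
    (hs : Group.IsSolvable X) : ∃ (s : ℕ) (N : Subgroup X), s.Prime ∧ N.Normal ∧ N ≠ ⊥ ∧
      (∀ a ∈ N, ∀ b ∈ N, a * b = b * a) ∧ IsPGroup s N := by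
  classical
  have hex : ∃ n, derivedSeries X n = ⊥ := hs.1
  set n := Nat.find hex with hn
  have hn1 : derivedSeries X n = ⊥ := Nat.find_spec hex
  have hn0 : n ≠ 0 := by
    intro h
    rw [h, derivedSeries_zero] at hn1
    exact top_ne_bot hn1
  obtain ⟨m, hm⟩ := Nat.exists_eq_succ_of_ne_zero hn0
  set A := derivedSeries X m with hA
  have hAbot : A ≠ ⊥ := Nat.find_min hex (by rw [← hn, hm]; exact Nat.lt_succ_self m)
  have hAn : A.Normal := derivedSeries_normal X m
  have hAc : ∀ a ∈ A, ∀ b ∈ A, a * b = b * a := by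
    intro a ha b hb
    have h1 : ⁅A, A⁆ = ⊥ := by rw [← hn1, hm]; exact (derivedSeries_succ X m).symm
    rw [Subgroup.commutator_eq_bot_iff_le_centralizer] at h1
    exact (Subgroup.mem_centralizer_iff.1 (h1 ha) b hb).symm
  have hAnt : Nontrivial A := (Subgroup.nontrivial_iff_ne_bot A).2 hAbot
  have hAcard : Nat.card A ≠ 1 := (Finite.one_lt_card_iff_nontrivial.2 hAnt).ne'
  obtain ⟨s, hs, hsA⟩ := Nat.exists_prime_and_dvd hAcard
  have : Fact s.Prime := ⟨hs⟩
  obtain ⟨P⟩ : Nonempty (Sylow s A) := inferInstance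
  have hPn : (P : Subgroup A).Normal := by
    constructor
    intro x hx g
    have : g * x * g⁻¹ = x := by
      apply Subtype.ext
      have := hAc g g.2 x x.2
      simp [this]
    rw [this]
    exact hx
  have hPc : (P : Subgroup A).Characteristic := P.characteristic_of_normal hPn
  refine ⟨s, (P : Subgroup A).map A.subtype, hs, inferInstance, ?_, ?_, ?_⟩
  · rw [Ne, Subgroup.map_eq_bot_iff_of_injective _ A.subtype_injective]
    exact P.ne_bot_of_dvd_card hsA
  · rintro _ ⟨a, _, rfl⟩ _ ⟨b, _, rfl⟩
    exact hAc a a.2 b b.2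
  · exact P.2.map _

lemma head_quot {X : Type} [Group X] {M K0 : Subgroup X} (hM : M.Normal) [K0.Normal]
    (hK0 : K0 ≤ M) (hhead : ∀ K : Subgroup X, K.Normal → K ≠ ⊤ → K ≤ M) :
    (M.map (QuotientGroup.mk' K0)).Normal ∧ (M.map (QuotientGroup.mk' K0)).index = M.index ∧
      ∀ K : Subgroup (X ⧸ K0), K.Normal → K ≠ ⊤ → K ≤ M.map (QuotientGroup.mk' K0) := by
  have hsurj := QuotientGroup.mk'_surjective K0
  refine ⟨hM.map _ hsurj, ?_, ?_⟩
  · apply Subgroup.index_map_eq _ hsurj
    rw [QuotientGroup.ker_mk']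
    exact hK0
  · intro K hK hKtop
    have h1 := hhead (K.comap (QuotientGroup.mk' K0)) (hK.comap _) (by
      intro h
      apply hKtop
      have := Subgroup.map_comap_eq_self_of_surjective hsurj K
      rw [← this, h, Subgroup.map_top_of_surjective _ hsurj])
    have h2 := Subgroup.map_mono (f := QuotientGroup.mk' K0) h1
    rwa [Subgroup.map_comap_eq_self_of_surjective hsurj K] at h2

lemma card_quot_lt {X : Type} [Group X] [Finite X] {K : Subgroup X} (hK : K ≠ ⊥) :
    Nat.card (X ⧸ K) < Nat.card X := by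
  have h1 := Subgroup.card_eq_card_quotient_mul_card_subgroup K
  have h2 : 1 < Nat.card K :=
    Finite.one_lt_card_iff_nontrivial.2 ((Subgroup.nontrivial_iff_ne_bot K).2 hK)
  have h3 : 0 < Nat.card (X ⧸ K) := Nat.card_pos
  rw [h1]
  nlinarith

lemma card_lt_of_ne_top {X : Type} [Group X] [Finite X] {K : Subgroup X} (hK : K ≠ ⊤) :
    Nat.card K < Nat.card X := by
  have h1 := Subgroup.card_subgroup_dvd_card K
  have h2 : Nat.card K ≠ Nat.card X := fun h => hK (Subgroup.eq_top_of_card_eq K h)
  exact lt_of_le_of_ne (Nat.le_of_dvd Nat.card_pos h1) h2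

variable {F : (G : Type) → [Group G] → Prop} (hF : Cls F) {q : ℕ} (hq : q.Prime)
  (hC : F (C q))

include hF hq hC

theorem head : ∀ (n : ℕ) (X : Type) [Group X], Nat.card X = n → F X → ∀ M : Subgroup X,
    M.Normal → M.index = q → (∀ K : Subgroup X, K.Normal → K ≠ ⊤ → K ≤ M) →
    ∀ p, p.Prime → p ∣ Nat.card X → W F q (C p) := by
  intro n
  induction n using Nat.strong_induction_on with
  | _ n ih =>
    intro X _ hn hX M hM hMq hhead p hp hpX
    have hfin := (hF.fin X hX).1
    have hsol : Group.IsSolvable X := (hF.fin X hX).2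
    have hfp : Fact p.Prime := ⟨hp⟩
    have := finite_C hq
    have hqX : q ∣ Nat.card X := hMq ▸ M.index_dvd_card
    have hnt : Nontrivial X := by
      rw [← Finite.one_lt_card_iff_nontrivial]
      exact lt_of_lt_of_le hp.one_lt (Nat.le_of_dvd Nat.card_pos hpX)
    have hWq : W F q (C q) :=
      W_qgroup hF hq hC (IsPGroup.of_card (n := 1) (by rw [card_C, pow_one]))
    obtain ⟨s, N, hs, hNn, hNbot, hNc, hNp⟩ := exists_normal_pgroup X hsol
    have hfs : Fact s.Prime := ⟨hs⟩
    obtain ⟨e, he⟩ := IsPGroup.iff_card.1 hNp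
    have hprime : ∀ r, r.Prime → r ∣ Nat.card N → r = s := by
      intro r hr hrN
      rw [he] at hrN
      exact (Nat.prime_dvd_prime_iff_eq hr hs).1 (hr.dvd_of_dvd_pow hrN)
    by_cases hNtop : N = ⊤
    · have h1 : Nat.card N = Nat.card X := by rw [hNtop, Subgroup.card_top]
      have hps := hprime p hp (by rw [h1]; exact hpX)
      have hqs := hprime q hq (by rw [h1]; exact hqX)
      rw [hps, ← hqs]
      exact hWq
    have hNM : N ≤ M := hhead N hNn hNtop
    have hFQ : F (X ⧸ N) := F_of_surj hF (QuotientGroup.mk' N) (QuotientGroup.mk'_surjective N) hX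
    obtain ⟨hM1, hM2, hM3⟩ := head_quot hM hNM hhead
    have hIH := ih _ (by rw [← hn]; exact card_quot_lt hNbot) (X ⧸ N) rfl hFQ _ hM1
      (hM2.trans hMq) hM3
    by_cases hpQ : p ∣ Nat.card (X ⧸ N)
    · exact hIH p hp hpQ
    have hcard := Subgroup.card_eq_card_quotient_mul_card_subgroup N
    have hpN : p ∣ Nat.card N := by
      rw [hcard] at hpX
      exact (hp.dvd_mul.1 hpX).resolve_left hpQ
    have hps : p = s := hprime p hp hpN
    subst hps
    have hcop : Nat.Coprime (Nat.card N) N.index := by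
      rw [he]
      apply Nat.Coprime.pow_left
      exact (Nat.Prime.coprime_iff_not_dvd hp).2 hpQ
    obtain ⟨H, hH⟩ := Subgroup.exists_right_complement'_of_coprime hcop
    have hHcard : Nat.card H = N.index := hH.symm.index_eq_card.symm
    have hdec : ∀ x : X, ∃ a ∈ N, ∃ h ∈ H, x = a * h := by
      intro x
      obtain ⟨⟨a, h⟩, hx⟩ := hH.2 x
      exact ⟨a, a.2, h, h.2, hx.symm⟩
    have hdisj : ∀ x, x ∈ N → x ∈ H → x = 1 := by
      intro x h1 h2
      have := hH.disjoint
      exact Subgroup.disjoint_def.1 this h1 h2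
    set H0 : Subgroup X := H ⊓ Subgroup.centralizer (N : Set X) with hH0
    have hCn : (Subgroup.centralizer (N : Set X)).Normal := inferInstance
    have hH0n : H0.Normal := by
      constructor
      intro z hz g
      obtain ⟨a, ha, h, hh, rfl⟩ := hdec g
      have h1 : h * z * h⁻¹ ∈ H := mul_mem (mul_mem hh hz.1) (inv_mem hh)
      have h2 : h * z * h⁻¹ ∈ Subgroup.centralizer (N : Set X) := hCn.conj_mem z hz.2 h
      have h3 : a * (h * z * h⁻¹) = (h * z * h⁻¹) * a := Subgroup.mem_centralizer_iff.1 h2 a ha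
      have h4 : a * h * z * (a * h)⁻¹ = h * z * h⁻¹ := by
        calc a * h * z * (a * h)⁻¹ = (a * (h * z * h⁻¹)) * a⁻¹ := by group
          _ = h * z * h⁻¹ := by rw [h3, mul_inv_cancel_right]
      rw [h4]
      exact ⟨h1, h2⟩
    by_cases hH0bot : H0 = ⊥
    · -- faithful action
      have hHnt : Nontrivial H := by
        rw [Subgroup.nontrivial_iff_ne_bot]
        rintro rfl
        apply hNtop
        rw [eq_top_iff]
        intro x _
        obtain ⟨a, ha, h, hh, rfl⟩ := hdec x
        rw [Subgroup.mem_bot] at hh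
        rw [hh, mul_one]
        exact ha
      obtain ⟨t, A, ht, hAn, hAbot, hAc, hAt⟩ := exists_normal_pgroup H inferInstance
      have hft : Fact t.Prime := ⟨ht⟩
      have hAnt : Nontrivial A := (Subgroup.nontrivial_iff_ne_bot A).2 hAbot
      have htA : t ∣ Nat.card A := by
        obtain ⟨k, hk⟩ := IsPGroup.iff_card.1 hAt
        have hk0 : k ≠ 0 := by
          rintro rfl
          rw [pow_zero] at hk
          have := Finite.one_lt_card_iff_nontrivial.2 hAnt
          omega
        rw [hk]
        exact dvd_pow_self t hk0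
      obtain ⟨y0, hy0⟩ := exists_prime_orderOf_dvd_card' t htA
      set y : X := ((y0 : H) : X) with hy
      have hyH : y ∈ H := (y0 : H).2
      have hyt : y ^ t = 1 := by
        have h1 : y0 ^ t = 1 := by rw [← hy0]; exact pow_orderOf_eq_one y0
        have h2 := congrArg (fun z : A => ((z : H) : X)) h1
        simpa using h2
      have hy1 : y ≠ 1 := by
        intro h
        have h1 : y0 = 1 := Subtype.ext (Subtype.ext h)
        rw [h1, orderOf_one] at hy0
        exact ht.one_lt.ne hy0
      have htH : t ∣ Nat.card (X ⧸ N) := by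
        have h1 : t ∣ Nat.card H := htA.trans (Subgroup.card_subgroup_dvd_card A)
        rw [hHcard] at h1
        exact h1
      have hpt : p ≠ t := by
        rintro rfl
        exact hpQ htH
      have hWt : W F q (C t) := hIH t ht htH
      let φ : X →* X ⧸ N := QuotientGroup.mk' N
      have hφ : ∀ x, φ x = 1 ↔ x ∈ N := fun x => QuotientGroup.eq_one_iff x
      let ψ : H →* X ⧸ N := φ.comp H.subtype
      have hψ : Function.Surjective ψ := by
        intro z
        obtain ⟨x, rfl⟩ := QuotientGroup.mk'_surjective N z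
        obtain ⟨a, ha, h, hh, rfl⟩ := hdec x
        refine ⟨⟨h, hh⟩, ?_⟩
        change φ h = φ (a * h)
        rw [map_mul, (hφ a).2 ha, one_mul]
      have hA' : (A.map ψ).Normal := hAn.map _ hψ
      let NA : Subgroup X := (A.map ψ).comap φ
      have hNAn : NA.Normal := hA'.comap φ
      let B : Subgroup X := (zpowers (φ y)).comap φ
      have hyA : φ y ∈ A.map ψ := ⟨y0, y0.2, rfl⟩
      have hBNA : B ≤ NA := Subgroup.comap_mono ((Subgroup.zpowers_le).2 hyA)
      have hA'c : ∀ a ∈ A.map ψ, ∀ b ∈ A.map ψ, a * b = b * a := by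
        rintro _ ⟨a, ha, rfl⟩ _ ⟨b, hb, rfl⟩
        rw [← map_mul, ← map_mul, hAc a ha b hb]
      have hBn : (B.subgroupOf NA).Normal := by
        constructor
        rintro ⟨b, hb⟩ hb' ⟨g, hg⟩
        rw [Subgroup.mem_subgroupOf] at hb' ⊢
        change φ (g * b * g⁻¹) ∈ zpowers (φ y)
        have h1 : φ g * φ b = φ b * φ g := hA'c _ hg _ hb
        rw [map_mul, map_mul, h1, map_inv, mul_inv_cancel_right]
        exact hb'
      have hFB : F B :=
        hF.iso _ _ (Subgroup.subgroupOfEquivOfLe hBNA) (hF.normal _ _ hBn (hF.normal _ _ hNAn hX))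
      have hNB : N ≤ B := by
        intro x hx
        change φ x ∈ zpowers (φ y)
        rw [(hφ x).2 hx]
        exact one_mem _
      have hyB : y ∈ B := mem_zpowers (φ y)
      have hWtp : W F t (C p) := by
        refine core_int hF hp ht hpt hFB (N.subgroupOf B) inferInstance ?_ ?_ ⟨y, hyB⟩ ?_ ?_ ?_
        · intro a ha b hb
          rw [Subgroup.mem_subgroupOf] at ha hb
          exact Subtype.ext (hNc a ha b hb)
        · exact hNp.comap_of_injective B.subtype B.subtype_injective
        · exact Subtype.ext hyt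
        · rintro ⟨b, hb⟩
          obtain ⟨k, hk⟩ := mem_zpowers_iff.1 hb
          have h1 : b * (y ^ k)⁻¹ ∈ N := by
            rw [← hφ, map_mul, map_inv, map_zpow, hk, mul_inv_cancel]
          refine ⟨⟨b * (y ^ k)⁻¹, hNB h1⟩, ?_, k, ?_⟩
          · rw [Subgroup.mem_subgroupOf]; exact h1
          · apply Subtype.ext
            simp
        · by_contra hcon
          push Not at hcon
          apply hy1
          have h1 : y ∈ H0 := by
            have h3 : y ∈ Subgroup.centralizer (N : Set X) := by
              rw [Subgroup.mem_centralizer_iff]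
              intro m hm
              have h2 := hcon ⟨m, hNB hm⟩ (by rw [Subgroup.mem_subgroupOf]; exact hm)
              exact (congrArg Subtype.val h2).symm
            exact Subgroup.mem_inf.2 ⟨hyH, h3⟩
          rw [hH0bot, Subgroup.mem_bot] at h1
          exact h1
      have htX : t ∣ Nat.card X := htH.trans (by rw [hcard]; exact Dvd.intro _ rfl)
      have hCt : F (C t) := F_C hF t ht _ X rfl hX htX
      have hWtq : W F t (C q) := W_trans hF ht hq hC hq hWq hWt
      exact W_trans hF hq ht hCt hp hWtp hWtq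
    · have hH0top : H0 ≠ ⊤ := by
        intro h
        have h1 : H = ⊤ := by
          rw [eq_top_iff, ← h]
          exact inf_le_left
        apply hNbot
        rw [eq_bot_iff]
        intro x hx
        rw [Subgroup.mem_bot]
        exact hdisj x hx (by rw [h1]; exact Subgroup.mem_top x)
      have hH0M := hhead H0 hH0n hH0top
      obtain ⟨hL1, hL2, hL3⟩ := head_quot hM hH0M hhead
      have hFL : F (X ⧸ H0) :=
        F_of_surj hF (QuotientGroup.mk' H0) (QuotientGroup.mk'_surjective H0) hX
      refine ih _ (by rw [← hn]; exact card_quot_lt hH0bot) (X ⧸ H0) rfl hFL _ hL1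
        (hL2.trans hMq) hL3 p hp ?_
      have h1 := Subgroup.card_eq_card_quotient_mul_card_subgroup H0
      rw [h1] at hpX
      refine (hp.dvd_mul.1 hpX).resolve_right ?_
      intro h2
      apply hpQ
      have h3 : Nat.card H0 ∣ Nat.card H := Subgroup.card_dvd_of_le inf_le_left
      rw [hHcard] at h3
      exact h2.trans h3

end Pool.Agent.Helper873.FitI
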