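import Pool.Agent.Helper873.FitI

set_option autoImplicit false

namespace Pool.Agent.Helper873.FitJ

open Subgroup Pool.Agent.Helper873.FitA Pool.Agent.Helper873.FitB Pool.Agent.Helper873.FitC
  Pool.Agent.Helper873.FitD Pool.Agent.Helper873.FitE Pool.Agent.Helper873.FitI

variable {F : (G : Type) → [Group G] → Prop} (hF : Cls F)

include hF

theorem R0 : ∀ (n : ℕ) (G : Type) [Group G] [Finite G], Nat.card G = n →
    ∀ (A B : Type) [Group A] [Group B] (f : G →* A) (g : G →* B), Function.Surjective f →
    Function.Surjective g → (∀ x, f x = 1 → g x = 1 → x = 1) → F A → F B → F G := by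
  intro n
  induction n using Nat.strong_induction_on with
  | _ n ih =>
    intro G _ _ hn A B _ _ f g hf hg hfg hA hB
    have hAfin := (hF.fin _ hA).1
    have hBfin := (hF.fin _ hB).1
    have hsA : Group.IsSolvable A := (hF.fin _ hA).2
    have hsB : Group.IsSolvable B := (hF.fin _ hB).2
    have hδ : Function.Injective (f.prod g) := by
      rw [injective_iff_map_eq_one]
      intro x hx
      exact hfg x (congrArg Prod.fst hx) (congrArg Prod.snd hx)
    have hprod : Group.IsSolvable (A × B) := inferInstance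
    have hsol : Group.IsSolvable G := Group.isSolvable_of_isSolvable_injective hδ
    by_cases hN : f.ker = ⊥
    · exact hF.iso _ _ (MulEquiv.ofBijective f ⟨(MonoidHom.ker_eq_bot_iff f).1 hN, hf⟩).symm hA
    by_cases hL : g.ker = ⊥
    · exact hF.iso _ _ (MulEquiv.ofBijective g ⟨(MonoidHom.ker_eq_bot_iff g).1 hL, hg⟩).symm hB
    have hNtop : f.ker ≠ ⊤ := by
      intro h
      apply hL
      rw [eq_bot_iff]
      intro x hx
      have h1 : x ∈ f.ker := by rw [h]; exact Subgroup.mem_top x
      rw [Subgroup.mem_bot]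
      exact hfg x h1 hx
    have hLtop : g.ker ≠ ⊤ := by
      intro h
      apply hN
      rw [eq_bot_iff]
      intro x hx
      have h1 : x ∈ g.ker := by rw [h]; exact Subgroup.mem_top x
      rw [Subgroup.mem_bot]
      exact hfg x hx h1
    have hprop : ∀ K : Subgroup G, K.Normal → K ≠ ⊤ → F K := by
      intro K hK hKtop
      refine ih (Nat.card K) (by rw [← hn]; exact card_lt_of_ne_top hKtop) K rfl (K.map f)
        (K.map g) (f.subgroupMap K) (g.subgroupMap K) (f.subgroupMap_surjective K)
        (g.subgroupMap_surjective K) ?_ (hF.normal _ _ (hK.map f hf) hA)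
        (hF.normal _ _ (hK.map g hg) hB)
      intro x h1 h2
      exact Subtype.ext (hfg x (congrArg Subtype.val h1) (congrArg Subtype.val h2))
    by_contra hcon
    set M := rad F G with hM
    have hMn : M.Normal := rad_normal hF G
    have hMtop : M ≠ ⊤ := fun h => hcon (F_of_rad hF h)
    have hhead : ∀ K : Subgroup G, K.Normal → K ≠ ⊤ → K ≤ M :=
      fun K hK hKt => le_rad hK (hprop K hK hKt)
    have hnt : Nontrivial G := by
      by_contra hcon'
      rw [not_nontrivial_iff_subsingleton] at hcon'
      exact hMtop (Subsingleton.elim _ _)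
    have hcomm : commutator G ≤ M :=
      hhead _ inferInstance (Group.IsSolvable.commutator_lt_top_of_nontrivial (G := G)).ne
    obtain ⟨q, hq, hMq⟩ : ∃ q, q.Prime ∧ M.index = q := by
      have h1 : M.index ≠ 1 := by rwa [Ne, Subgroup.index_eq_one]
      obtain ⟨q, hq, hqM⟩ := Nat.exists_prime_and_dvd h1
      have : Fact q.Prime := ⟨hq⟩
      refine ⟨q, hq, ?_⟩
      obtain ⟨x, hx⟩ := exists_prime_orderOf_dvd_card' (G := G ⧸ M) q hqM
      have hsurj := QuotientGroup.mk'_surjective M
      have h2 : (zpowers x).comap (QuotientGroup.mk' M) = ⊤ := by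
        by_contra h3
        have hle : M ≤ (zpowers x).comap (QuotientGroup.mk' M) := by
          intro z hz
          have hz1 : QuotientGroup.mk' M z = 1 := (QuotientGroup.eq_one_iff z).2 hz
          rw [Subgroup.mem_comap, hz1]
          exact one_mem _
        have h4 : ((zpowers x).comap (QuotientGroup.mk' M)).Normal :=
          Subgroup.Normal.of_commutator_le G (hcomm.trans hle)
        have h5 := hhead _ h4 h3
        obtain ⟨y, rfl⟩ := hsurj x
        have h6 : y ∈ M := h5 (mem_zpowers _)
        have h7 : QuotientGroup.mk' M y = 1 := (QuotientGroup.eq_one_iff y).2 h6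
        rw [h7, orderOf_one] at hx
        exact hq.one_lt.ne hx
      have h3 : zpowers x = ⊤ := by
        rw [← Subgroup.map_comap_eq_self_of_surjective hsurj (zpowers x), h2,
          Subgroup.map_top_of_surjective _ hsurj]
      have h4 : Nat.card (zpowers x) = Nat.card (G ⧸ M) := by rw [h3, Subgroup.card_top]
      rw [Subgroup.index, ← h4, Nat.card_zpowers, hx]
    have hC : F (C q) := by
      have hkM : f.ker ≤ M := hhead _ inferInstance hNtop
      have h1 : M.index ∣ f.ker.index := Subgroup.index_dvd_of_le hkM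
      have h2 : f.ker.index = Nat.card A := by
        rw [Subgroup.index]
        exact Nat.card_congr (QuotientGroup.quotientKerEquivOfSurjective f hf).toEquiv
      rw [hMq, h2] at h1
      exact F_C hF q hq _ A rfl hA h1
    have hall : ∀ (D : Type) [Group D] (k : G →* D), Function.Surjective k → k.ker ≠ ⊤ → F D →
        ∀ p, p.Prime → p ∣ Nat.card D → W F q (C p) := by
      intro D _ k hk hkt hD p hp hpD
      obtain ⟨h1, h2, h3⟩ := head_quot hMn (hhead k.ker inferInstance hkt) hhead
      have e := QuotientGroup.quotientKerEquivOfSurjective k hk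
      refine head hF hq hC _ (G ⧸ k.ker) rfl (hF.iso _ _ e.symm hD) _ h1 (h2.trans hMq) h3 p hp ?_
      rw [Nat.card_congr e.toEquiv]
      exact hpD
    apply hcon
    apply F_of_W hF hq
    refine W_solvable hF hq hC _ G rfl hsol ?_
    intro p hp hpG
    have hpAB : p ∣ Nat.card (A × B) := hpG.trans (Subgroup.card_dvd_of_injective _ hδ)
    rw [Nat.card_prod] at hpAB
    rcases (Nat.Prime.dvd_mul hp).1 hpAB with h | h
    · exact hall A f hf hNtop hA p hp h
    · exact hall B g hg hLtop hB p hp h

theorem R0' (G : Type) [Group G] [Finite G] (N M : Subgroup G) [N.Normal] [M.Normal]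
    (hN : F (G ⧸ N)) (hM : F (G ⧸ M)) : F (G ⧸ (N ⊓ M)) := by
  refine R0 hF _ (G ⧸ (N ⊓ M)) rfl (G ⧸ N) (G ⧸ M)
    (QuotientGroup.map (N ⊓ M) N (MonoidHom.id G) inf_le_left)
    (QuotientGroup.map (N ⊓ M) M (MonoidHom.id G) inf_le_right) ?_ ?_ ?_ hN hM
  · intro z
    obtain ⟨y, rfl⟩ := QuotientGroup.mk'_surjective N z
    exact ⟨QuotientGroup.mk' _ y, rfl⟩
  · intro z
    obtain ⟨y, rfl⟩ := QuotientGroup.mk'_surjective M z
    exact ⟨QuotientGroup.mk' _ y, rfl⟩
  · intro z h1 h2
    obtain ⟨y, rfl⟩ := QuotientGroup.mk'_surjective (N ⊓ M) z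
    have h3 : y ∈ N := (QuotientGroup.eq_one_iff y).1 h1
    have h4 : y ∈ M := (QuotientGroup.eq_one_iff y).1 h2
    exact (QuotientGroup.eq_one_iff y).2 (Subgroup.mem_inf.2 ⟨h3, h4⟩)

end Pool.Agent.Helper873.FitJ
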