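import Pool.Agent.Helper873.Hump

set_option autoImplicit false
open MeasureTheory Metric Filter
open scoped ComplexConjugate ENNReal Topology

namespace Pool.Agent.Helper873.Limit

open Pool.Agent.Helper873.OneVar Pool.Agent.Helper873.Product Pool.Agent.Helper873.Alg
  Pool.Agent.Helper873.Monomial Pool.Agent.Helper873.Mean Pool.Agent.Helper873.Block
  Pool.Agent.Helper873.EvalB Pool.Agent.Helper873.PartTwo Pool.Agent.Helper873.KPoly
  Pool.Agent.Helper873.Hump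

/-- the limit function -/
noncomputable def lim (c : ℕ → (ℕ →₀ ℂ)) (s : ℂ) : ℂ :=
  limUnder atTop (fun k => poly (c k) (vs s))

lemma dist_succ (c : ℕ → (ℕ →₀ ℂ)) (k : ℕ) (w : ℕ → ℂ) :
    dist (poly (c k) w) (poly (c (k + 1)) w) = ‖poly (c (k + 1) - c k) w‖ := by
  rw [poly_sub, dist_comm, dist_eq_norm]

lemma tendsto_lim (c : ℕ → (ℕ →₀ ℂ)) (h : ∀ k, nrm (c (k + 1) - c k) ≤ (1 / 2) ^ k) (s : ℂ)
    (hs : 1 / 2 < s.re) : Tendsto (fun k => poly (c k) (vs s)) atTop (𝓝 (lim c s)) := by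
  refine CauchySeq.tendsto_limUnder ?_
  refine cauchySeq_of_le_geometric (1 / 2) (CE s.re) (by norm_num) fun n => ?_
  rw [dist_succ]
  refine (eval_le _ s.re hs s le_rfl).trans ?_
  have := CE_ge_one s.re hs
  exact mul_le_mul_of_nonneg_left (h n) (by linarith)

lemma dist_lim (c : ℕ → (ℕ →₀ ℂ)) (h : ∀ k, nrm (c (k + 1) - c k) ≤ (1 / 2) ^ k) (s : ℂ)
    (hs : 1 / 2 < s.re) (B : ℝ) (k : ℕ)
    (hB : ∀ j ≥ k, ‖poly (c (j + 1) - c j) (vs s)‖ ≤ B * (1 / 2) ^ j) :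
    dist (poly (c k) (vs s)) (lim c s) ≤ 2 * B * (1 / 2) ^ k := by
  have h1 : Tendsto (fun j => poly (c (k + j)) (vs s)) atTop (𝓝 (lim c s)) := by
    have := tendsto_lim c h s hs
    exact this.comp (tendsto_add_atTop_nat k |>.congr fun j => by ring)
  have h2 := dist_le_of_le_geometric_of_tendsto₀ (1 / 2) (B * (1 / 2) ^ k)
    (f := fun j => poly (c (k + j)) (vs s)) (by norm_num) (fun j => by
      have h3 := hB (k + j) (by omega)
      have h4 := dist_succ c (k + j) (vs s)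
      rw [show k + (j + 1) = k + j + 1 by ring]
      rw [h4]
      refine h3.trans (le_of_eq ?_)
      rw [pow_add]; ring) h1
  refine le_trans (le_of_eq ?_) (h2.trans (le_of_eq ?_))
  · simp
  · ring

lemma dist_lim' (c : ℕ → (ℕ →₀ ℂ)) (h : ∀ k, nrm (c (k + 1) - c k) ≤ (1 / 2) ^ k) (σ : ℝ)
    (hσ : 1 / 2 < σ) (s : ℂ) (hs : σ ≤ s.re) (k : ℕ) :
    dist (poly (c k) (vs s)) (lim c s) ≤ 2 * CE σ * (1 / 2) ^ k := by
  refine dist_lim c h s (by linarith) (CE σ) k fun j _ => ?_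
  refine (eval_le _ σ hσ s hs).trans ?_
  have := CE_ge_one σ hσ
  exact mul_le_mul_of_nonneg_left (h j) (by linarith)

lemma unif (c : ℕ → (ℕ →₀ ℂ)) (h : ∀ k, nrm (c (k + 1) - c k) ≤ (1 / 2) ^ k) (σ : ℝ)
    (hσ : 1 / 2 < σ) :
    TendstoUniformlyOn (fun k s => poly (c k) (vs s)) (lim c) atTop {s : ℂ | σ ≤ s.re} := by
  rw [Metric.tendstoUniformlyOn_iff]
  intro ε hε
  have h1 : Tendsto (fun k : ℕ => 2 * CE σ * (1 / 2 : ℝ) ^ k) atTop (𝓝 0) := by
    have := (tendsto_pow_atTop_nhds_zero_of_lt_one (r := (1 / 2 : ℝ)) (by norm_num)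
      (by norm_num)).const_mul (2 * CE σ)
    rwa [mul_zero] at this
  filter_upwards [(tendsto_order.1 h1).2 ε hε] with k hk s hs
  rw [dist_comm]
  exact (dist_lim' c h σ hσ s hs k).trans_lt hk

lemma continuousOn_lim (c : ℕ → (ℕ →₀ ℂ)) (h : ∀ k, nrm (c (k + 1) - c k) ≤ (1 / 2) ^ k) (σ : ℝ)
    (hσ : 1 / 2 < σ) : ContinuousOn (lim c) {s : ℂ | σ ≤ s.re} := by
  refine (unif c h σ hσ).continuousOn (Eventually.of_forall fun k => ?_).frequently
  exact ((continuous_poly _).comp continuous_vs).continuousOn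

lemma nrm_diff (c : ℕ → (ℕ →₀ ℂ)) (h : ∀ k, nrm (c (k + 1) - c k) ≤ (1 / 2) ^ k) (N k : ℕ)
    (hk : N ≤ k) : nrm (c k - c N) ≤ 2 * (1 / 2) ^ N - 2 * (1 / 2) ^ k := by
  induction k, hk using Nat.le_induction with
  | base => simp [nrm_zero]
  | succ k hk ih =>
    have h1 := nrm_tri (c (k + 1)) (c k) (c N)
    have h2 := h k
    have h3 : (1 / 2 : ℝ) ^ (k + 1) = (1 / 2) ^ k / 2 := by rw [pow_succ]; ring
    rw [h3]
    linarith

/-- the mean Cauchy condition -/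
lemma nrm_cauchy (c : ℕ → (ℕ →₀ ℂ)) (h : ∀ k, nrm (c (k + 1) - c k) ≤ (1 / 2) ^ k) (ε : ℝ)
    (hε : 0 < ε) : ∃ N : ℕ, ∀ k ≥ N, ∀ m ≥ N, nrm (c k - c m) < ε := by
  have h1 : Tendsto (fun k : ℕ => 4 * (1 / 2 : ℝ) ^ k) atTop (𝓝 0) := by
    have := (tendsto_pow_atTop_nhds_zero_of_lt_one (r := (1 / 2 : ℝ)) (by norm_num)
      (by norm_num)).const_mul 4
    rwa [mul_zero] at this
  obtain ⟨N, hN⟩ := ((tendsto_order.1 h1).2 ε hε).exists
  refine ⟨N, fun k hk m hm => ?_⟩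
  have h2 := nrm_tri (c k) (c N) (c m)
  have h3 := nrm_diff c h N k hk
  have h4 := nrm_diff c h N m hm
  have h5 : nrm (c N - c m) = nrm (c m - c N) := by
    rw [← nrm_neg, neg_sub]
  have h6 : (0 : ℝ) < (1 / 2) ^ k := by positivity
  have h7 : (0 : ℝ) < (1 / 2) ^ m := by positivity
  linarith

/-- **Main result for S04104** -/
theorem main04 : ∃ (P : ℕ → (ℕ →₀ ℂ)) (f : ℂ → ℂ),
    (∀ ε : ℝ, 0 < ε → ∃ N : ℕ, ∀ k ≥ N, ∀ m ≥ N, nrm (P k - P m) < ε) ∧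
    (∀ s : ℂ, 1 / 2 < s.re → Tendsto (fun k => poly (P k) (vs s)) atTop (𝓝 (f s))) ∧
    ∀ C : ℝ, ∃ τ : ℝ, 1 / 2 < τ ∧ τ < 1 ∧ C < LL f τ := by
  obtain ⟨c, σ, hσ, hanti, h1, h2, h3⟩ := exists_seq
  refine ⟨c, lim c, nrm_cauchy c h1, tendsto_lim c h1, fun C => ?_⟩
  obtain ⟨k, hk⟩ := exists_nat_gt (C + Real.log 3)
  obtain ⟨τ, hτ1, hτ2, hτ3⟩ := h3 k
  have hτ : 1 / 2 < τ := lt_of_lt_of_le (hσ (k + 1)) hτ1
  refine ⟨τ, hτ, hτ2, ?_⟩
  have hre : ∀ t : ℝ, ((τ : ℂ) + (t : ℂ) * Complex.I).re = τ := fun t => by simp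
  have hcl : Continuous fun t : ℝ => lim c ((τ : ℂ) + (t : ℂ) * Complex.I) := by
    refine (continuousOn_lim c h1 τ hτ).comp_continuous (by fun_prop) fun t => ?_
    exact (hre t).ge
  have hc1 : Continuous fun t : ℝ =>
      Real.log (max 1 ‖lim c ((τ : ℂ) + (t : ℂ) * Complex.I)‖) :=
    Continuous.log (continuous_const.max hcl.norm) fun p =>
      (lt_of_lt_of_le one_pos (le_max_left _ _)).ne'
  have hc2 : Continuous fun t : ℝ =>
      Real.log (max 1 ‖poly (c (k + 1)) (vs ((τ : ℂ) + (t : ℂ) * Complex.I))‖) :=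
    Continuous.log (continuous_const.max
      ((continuous_poly _).comp (continuous_vs.comp (by fun_prop))).norm) fun p =>
      (lt_of_lt_of_le one_pos (le_max_left _ _)).ne'
  have hineq : ∀ t : ℝ, Real.log (max 1 ‖poly (c (k + 1)) (vs ((τ : ℂ) + (t : ℂ) * Complex.I))‖) -
      Real.log 3 ≤ Real.log (max 1 ‖lim c ((τ : ℂ) + (t : ℂ) * Complex.I)‖) := by
    intro t
    set s : ℂ := (τ : ℂ) + (t : ℂ) * Complex.I with hs
    have hd := dist_lim c h1 s (by rw [hre t]; exact hτ) 1 (k + 1) (fun j hj => by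
      rw [one_mul]
      refine h2 j s ?_
      rw [hre t]
      exact (hanti hj).trans hτ1)
    have hp : (1 / 2 : ℝ) ^ (k + 1) ≤ 1 := pow_le_one₀ (by norm_num) (by norm_num)
    have hd2 : ‖poly (c (k + 1)) (vs s)‖ ≤ ‖lim c s‖ + 2 := by
      have h4 : poly (c (k + 1)) (vs s) = (poly (c (k + 1)) (vs s) - lim c s) + lim c s := by ring
      rw [h4]
      refine (norm_add_le _ _).trans ?_
      rw [dist_eq_norm] at hd
      linarith
    set m := max 1 ‖lim c s‖ with hm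
    have hm1 : 1 ≤ m := le_max_left _ _
    have hm2 : ‖lim c s‖ ≤ m := le_max_right _ _
    have h5 : max 1 ‖poly (c (k + 1)) (vs s)‖ ≤ 3 * m :=
      max_le (by linarith) (by linarith)
    have h6 := Real.log_le_log (lt_of_lt_of_le one_pos (le_max_left _ _)) h5
    rw [Real.log_mul (by norm_num) (by linarith)] at h6
    linarith
  have h4 : ∫ t in (0 : ℝ)..1, (Real.log (max 1 ‖poly (c (k + 1))
      (vs ((τ : ℂ) + (t : ℂ) * Complex.I))‖) - Real.log 3) ≤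
      LL (lim c) τ :=
    intervalIntegral.integral_mono_on zero_le_one
      ((hc2.sub continuous_const).intervalIntegrable _ _)
      (hc1.intervalIntegrable _ _) fun t _ => hineq t
  rw [intervalIntegral.integral_sub (hc2.intervalIntegrable _ _)
    (continuous_const.intervalIntegrable _ _)] at h4
  have h5 : ∫ _ in (0 : ℝ)..1, Real.log 3 = Real.log 3 := by simp
  rw [h5] at h4
  have h7 : (k : ℝ) ≤ ∫ t in (0 : ℝ)..1, Real.log (max 1 ‖poly (c (k + 1))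
      (vs ((τ : ℂ) + (t : ℂ) * Complex.I))‖) := hτ3
  linarith

end Pool.Agent.Helper873.Limit
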