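import Pool.Agent.Helper873.Trig
import Pool.Agent.Helper873.Limit

set_option autoImplicit false
open MeasureTheory Metric Filter
open scoped ComplexConjugate ENNReal Topology

namespace Pool.Agent.Helper873.Geo

open Pool.Agent.Helper873.OneVar Pool.Agent.Helper873.Pk Pool.Agent.Helper873.Trig
  Pool.Agent.Helper873.Alg Pool.Agent.Helper873.Monomial Pool.Agent.Helper873.Hump

/-- disc to half-plane -/
noncomputable def phi (w : ℂ) : ℂ := 1 / 2 + (1 + w) / (1 - w)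

/-- half-plane to disc -/
noncomputable def psi (s : ℂ) : ℂ := (s - 3 / 2) / (s + 1 / 2)

lemma one_sub_ne {w : ℂ} (hw : ‖w‖ < 1) : 1 - w ≠ 0 := by
  intro h
  have : w = 1 := by linear_combination -h
  rw [this] at hw
  simp at hw

lemma phi_re {w : ℂ} : (phi w).re - 1 / 2 = (1 - ‖w‖ ^ 2) / ‖1 - w‖ ^ 2 := by
  unfold phi
  have h1 : ((1 + w) / (1 - w)).re = (1 - ‖w‖ ^ 2) / ‖1 - w‖ ^ 2 := by
    rw [Complex.div_re, Complex.normSq_eq_norm_sq, ← add_div]
    congr 1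
    rw [← Complex.normSq_eq_norm_sq w, Complex.normSq_apply]
    simp only [Complex.add_re, Complex.sub_re, Complex.add_im, Complex.sub_im, Complex.one_re,
      Complex.one_im]
    ring
  rw [Complex.add_re, h1]
  norm_num

lemma phi_re_gt {w : ℂ} (hw : ‖w‖ < 1) : 1 / 2 < (phi w).re := by
  have h := phi_re (w := w)
  have h1 : 0 < 1 - ‖w‖ ^ 2 := by nlinarith [norm_nonneg w]
  have h2 : 0 < ‖1 - w‖ := norm_pos_iff.2 (one_sub_ne hw)
  have : 0 < (1 - ‖w‖ ^ 2) / ‖1 - w‖ ^ 2 := by positivity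
  linarith

lemma phi_re_ge {w : ℂ} {r : ℝ} (hr : r < 1) (hw : ‖w‖ ≤ r) :
    1 / 2 + (1 - r ^ 2) / 4 ≤ (phi w).re := by
  have hw1 : ‖w‖ < 1 := by linarith
  have h := phi_re (w := w)
  have hw0 := norm_nonneg w
  have h2 : 0 < ‖1 - w‖ := norm_pos_iff.2 (one_sub_ne hw1)
  have h3 : ‖1 - w‖ ≤ 2 := by
    have := norm_sub_le (1 : ℂ) w
    rw [norm_one] at this
    linarith
  have h4 : (1 - r ^ 2) / 4 ≤ (1 - ‖w‖ ^ 2) / ‖1 - w‖ ^ 2 := by
    rw [div_le_div_iff₀ (by norm_num) (by positivity)]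
    have h5 : 1 - r ^ 2 ≤ 1 - ‖w‖ ^ 2 := by nlinarith
    have h6 : ‖1 - w‖ ^ 2 ≤ 4 := by nlinarith
    have h7 : 0 ≤ 1 - r ^ 2 := by nlinarith
    have h8 : 0 ≤ ‖1 - w‖ ^ 2 := by positivity
    nlinarith
  linarith

lemma add_half_ne {s : ℂ} (hs : 1 / 2 < s.re) : s + 1 / 2 ≠ 0 := by
  intro h
  have := congrArg Complex.re h
  simp at this
  linarith

lemma psi_eq {s : ℂ} (hs : 1 / 2 < s.re) : psi s = 1 - 2 / (s + 1 / 2) := by
  have h1 := add_half_ne hs
  unfold psi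
  rw [show s - 3 / 2 = (s + 1 / 2) - 2 by ring, sub_div, div_self h1]

lemma phi_eq {w : ℂ} (hw : 1 - w ≠ 0) : phi w = 2 / (1 - w) - 1 / 2 := by
  unfold phi
  rw [show 1 + w = 2 - (1 - w) by ring, sub_div, div_self hw]
  ring

lemma phi_psi {s : ℂ} (hs : 1 / 2 < s.re) : phi (psi s) = s := by
  have h1 := add_half_ne hs
  have h2 := psi_eq hs
  have h3 : 1 - psi s = 2 / (s + 1 / 2) := by rw [h2]; ring
  have h4 : 1 - psi s ≠ 0 := by
    rw [h3]; exact div_ne_zero two_ne_zero h1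
  rw [phi_eq h4, h3, div_div_cancel₀ two_ne_zero]
  ring

lemma phi_add_half {w : ℂ} (hw : ‖w‖ < 1) : phi w + 1 / 2 = 2 / (1 - w) := by
  have h1 := one_sub_ne hw
  unfold phi
  field_simp
  ring

lemma psi_phi {w : ℂ} (hw : ‖w‖ < 1) : psi (phi w) = w := by
  have h1 := one_sub_ne hw
  have h2 := phi_add_half hw
  have h3 : phi w - 3 / 2 = 2 / (1 - w) - 2 := by rw [← h2]; ring
  unfold psi
  rw [h2, h3]
  field_simp
  ring

lemma one_sub_norm_psi {s : ℂ} (hs : 1 / 2 < s.re) :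
    1 - ‖psi s‖ ^ 2 = 4 * (s.re - 1 / 2) / ‖s + 1 / 2‖ ^ 2 := by
  have h1 := add_half_ne hs
  have h2 : 0 < ‖s + 1 / 2‖ := norm_pos_iff.2 h1
  unfold psi
  rw [norm_div, div_pow, eq_div_iff (by positivity), sub_mul, one_mul,
    div_mul_cancel₀ _ (by positivity)]
  rw [← Complex.normSq_eq_norm_sq, ← Complex.normSq_eq_norm_sq, Complex.normSq_apply,
    Complex.normSq_apply]
  have h3 : (3 / 2 : ℂ).re = 3 / 2 := by norm_num
  have h4 : (3 / 2 : ℂ).im = 0 := by norm_num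
  have h5 : (1 / 2 : ℂ).re = 1 / 2 := by norm_num
  have h6 : (1 / 2 : ℂ).im = 0 := by norm_num
  simp only [Complex.add_re, Complex.sub_re, Complex.add_im, Complex.sub_im, h3, h4, h5, h6]
  ring

lemma norm_psi_lt {s : ℂ} (hs : 1 / 2 < s.re) : ‖psi s‖ < 1 := by
  have h := one_sub_norm_psi hs
  have h1 := add_half_ne hs
  have h2 : 0 < ‖s + 1 / 2‖ := norm_pos_iff.2 h1
  have h3 : 0 < 4 * (s.re - 1 / 2) / ‖s + 1 / 2‖ ^ 2 := by
    have : 0 < s.re - 1 / 2 := by linarith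
    positivity
  nlinarith [norm_nonneg (psi s)]

lemma psi_sub {s s' : ℂ} (hs : 1 / 2 < s.re) (hs' : 1 / 2 < s'.re) :
    psi s - psi s' = 2 * (s - s') / ((s + 1 / 2) * (s' + 1 / 2)) := by
  have h1 := add_half_ne hs
  have h2 := add_half_ne hs'
  rw [psi_eq hs, psi_eq hs']
  generalize hu : s + 1 / 2 = u at *
  generalize hu' : s' + 1 / 2 = u' at *
  have h3 : s - s' = u - u' := by rw [← hu, ← hu']; ring
  rw [h3]
  field_simp
  ring

lemma differentiableAt_phi {w : ℂ} (hw : ‖w‖ < 1) : DifferentiableAt ℂ phi w := by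
  have h := one_sub_ne hw
  unfold phi
  fun_prop (disch := exact h)

/-- Dirichlet polynomial as a function of `s` -/
lemma differentiable_D (c : ℕ →₀ ℂ) : Differentiable ℂ fun s => poly c (vs s) := by
  simp_rw [poly_vs]
  refine Differentiable.fun_sum fun n _ => ?_
  refine Differentiable.const_mul ?_ _
  have hn : ((n : ℂ) + 1) ≠ 0 := by exact_mod_cast Nat.succ_ne_zero n
  intro s
  exact (differentiableAt_id.neg).const_cpow (Or.inl hn)

/-- the curve in the disc -/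
lemma curve_bounds {ε t : ℝ} (hε : 0 < ε) (hε1 : ε < 1 / 2) (ht : t ∈ Set.Icc (0 : ℝ) 1) :
    1 / 2 < (((1 / 2 + ε : ℝ) : ℂ) + (t : ℂ) * Complex.I).re ∧
    1 ≤ ‖(((1 / 2 + ε : ℝ) : ℂ) + (t : ℂ) * Complex.I) + 1 / 2‖ ^ 2 ∧
    ‖(((1 / 2 + ε : ℝ) : ℂ) + (t : ℂ) * Complex.I) + 1 / 2‖ ^ 2 ≤ 13 / 4 := by
  have hre : (((1 / 2 + ε : ℝ) : ℂ) + (t : ℂ) * Complex.I).re = 1 / 2 + ε := by simp
  have h0 : ‖(((1 / 2 + ε : ℝ) : ℂ) + (t : ℂ) * Complex.I) + 1 / 2‖ ^ 2 = (1 + ε) ^ 2 + t ^ 2 := by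
    rw [← Complex.normSq_eq_norm_sq, Complex.normSq_apply]
    have h5 : (1 / 2 : ℂ).re = 1 / 2 := by norm_num
    have h6 : (1 / 2 : ℂ).im = 0 := by norm_num
    simp only [Complex.add_re, Complex.add_im, h5, h6, Complex.ofReal_re, Complex.ofReal_im,
      Complex.mul_re, Complex.mul_im, Complex.I_re, Complex.I_im]
    ring
  obtain ⟨ht0, ht1⟩ := ht
  rw [hre, h0]
  refine ⟨by linarith, by nlinarith, by nlinarith⟩

lemma kernel_integral (ε t0 : ℝ) (hε : 0 < ε) :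
    ∫ t in (0 : ℝ)..1, ε / (ε ^ 2 + (t - t0) ^ 2) ≤ Real.pi := by
  have h1 : ∀ t ∈ Set.uIcc (0 : ℝ) 1, HasDerivAt (fun t => Real.arctan ((t - t0) / ε))
      (ε / (ε ^ 2 + (t - t0) ^ 2)) t := by
    intro t _
    have h2 : HasDerivAt (fun t : ℝ => (t - t0) / ε) (1 / ε) t :=
      ((hasDerivAt_id t).sub_const t0).div_const ε
    have h3 := h2.arctan
    refine h3.congr_deriv ?_
    field_simp
  have hc : Continuous fun t : ℝ => ε / (ε ^ 2 + (t - t0) ^ 2) := by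
    refine Continuous.div continuous_const (by fun_prop) fun t => ?_
    positivity
  rw [intervalIntegral.integral_eq_sub_of_hasDerivAt h1 (hc.intervalIntegrable _ _)]
  have h4 := Real.arctan_lt_pi_div_two ((1 - t0) / ε)
  have h5 := Real.neg_pi_div_two_lt_arctan ((0 - t0) / ε)
  linarith

/-- point of the curve -/
noncomputable def sp (ε t : ℝ) : ℂ := ((1 / 2 + ε : ℝ) : ℂ) + (t : ℂ) * Complex.I

lemma psi_sp_sq {ε t : ℝ} (hε : 0 < ε) (hε1 : ε < 1 / 2) (ht : t ∈ Set.Icc (0 : ℝ) 1) :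
    6 / 5 * ε ≤ 1 - ‖psi (sp ε t)‖ ^ 2 ∧ 1 - ‖psi (sp ε t)‖ ^ 2 ≤ 4 * ε := by
  obtain ⟨h1, h2, h3⟩ := curve_bounds hε hε1 ht
  have hre : (sp ε t).re - 1 / 2 = ε := by unfold sp; simp
  have h4 := one_sub_norm_psi (s := sp ε t) h1
  rw [hre] at h4
  rw [h4]
  have h5 : 0 < ‖sp ε t + 1 / 2‖ ^ 2 := lt_of_lt_of_le one_pos h2
  constructor
  · rw [le_div_iff₀ h5]
    have : ‖sp ε t + 1 / 2‖ ^ 2 ≤ 13 / 4 := h3
    nlinarith
  · rw [div_le_iff₀ h5]
    have : 1 ≤ ‖sp ε t + 1 / 2‖ ^ 2 := h2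
    nlinarith

lemma psi_sp_sub {ε t t0 : ℝ} (hε : 0 < ε) (hε1 : ε < 1 / 2) (ht : t ∈ Set.Icc (0 : ℝ) 1)
    (ht0 : t0 ∈ Set.Icc (0 : ℝ) 1) :
    3 / 5 * |t - t0| ≤ ‖psi (sp ε t) - psi (sp ε t0)‖ := by
  obtain ⟨h1, h2, h3⟩ := curve_bounds hε hε1 ht
  obtain ⟨h1', h2', h3'⟩ := curve_bounds hε hε1 ht0
  rw [psi_sub (s := sp ε t) (s' := sp ε t0) h1 h1', norm_div, norm_mul, norm_mul]
  have h4 : sp ε t - sp ε t0 = ((t - t0 : ℝ) : ℂ) * Complex.I := by
    unfold sp; push_cast; ring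
  rw [h4, norm_mul, Complex.norm_I, mul_one, Complex.norm_real, Real.norm_eq_abs]
  set x := ‖sp ε t + 1 / 2‖ with hx
  set y := ‖sp ε t0 + 1 / 2‖ with hy
  have hx1 : 1 ≤ x ^ 2 := h2
  have hx2 : x ^ 2 ≤ 13 / 4 := h3
  have hy1 : 1 ≤ y ^ 2 := h2'
  have hy2 : y ^ 2 ≤ 13 / 4 := h3'
  have hx0 : 0 ≤ x := norm_nonneg _
  have hy0 : 0 ≤ y := norm_nonneg _
  have hxp : 0 < x := by
    rcases hx0.lt_or_eq with h | h
    · exact h
    · rw [← h] at hx1; norm_num at hx1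
  have hyp : 0 < y := by
    rcases hy0.lt_or_eq with h | h
    · exact h
    · rw [← h] at hy1; norm_num at hy1
  have hxy : x * y ≤ 13 / 4 := by nlinarith [sq_nonneg (x - y)]
  have h2n : ‖(2 : ℂ)‖ = 2 := by norm_num
  rw [h2n, le_div_iff₀ (by positivity)]
  have := abs_nonneg (t - t0)
  nlinarith

lemma kernel_bound {ε r : ℝ} (hε : 0 < ε) (hε1 : ε < 1 / 2) (hr0 : 0 < r) (hr1 : r < 1)
    (hr : 1 - ε / 5 ≤ r ^ 2) (ζ : ℂ) (hζ : ‖ζ‖ = 1) :
    ∃ t0 : ℝ, ∀ t ∈ Set.Icc (0 : ℝ) 1,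
      (1 - ‖psi (sp ε t) / (r : ℂ)‖ ^ 2) / ‖ζ - psi (sp ε t) / (r : ℂ)‖ ^ 2 ≤
        100 * (ε / (ε ^ 2 + (t - t0) ^ 2)) := by
  have hcont : ContinuousOn (fun t : ℝ => ‖ζ - psi (sp ε t) / (r : ℂ)‖) (Set.Icc 0 1) := by
    refine ContinuousOn.norm (continuousOn_const.sub (ContinuousOn.div_const ?_ _))
    unfold psi
    have hs : Continuous fun t : ℝ => sp ε t := by unfold sp; fun_prop
    refine ContinuousOn.div (by fun_prop) (by fun_prop) fun t ht => ?_
    exact add_half_ne (curve_bounds hε hε1 ht).1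
  obtain ⟨t0, ht0, hmin⟩ := isCompact_Icc.exists_isMinOn (Set.nonempty_Icc.2 zero_le_one) hcont
  refine ⟨t0, fun t ht => ?_⟩
  have hrc : ‖(r : ℂ)‖ = r := by rw [Complex.norm_real, Real.norm_of_nonneg hr0.le]
  set w := psi (sp ε t) with hw
  set w0 := psi (sp ε t0) with hw0
  obtain ⟨h1, h2⟩ := psi_sp_sq hε hε1 ht
  have hwr : ‖w / (r : ℂ)‖ ^ 2 = ‖w‖ ^ 2 / r ^ 2 := by rw [norm_div, hrc, div_pow]
  have hr2 : 0 < r ^ 2 := by positivity
  have hr21 : r ^ 2 ≤ 1 := by nlinarith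
  have hnum_le : 1 - ‖w / (r : ℂ)‖ ^ 2 ≤ 4 * ε := by
    rw [hwr]
    have : ‖w‖ ^ 2 ≤ ‖w‖ ^ 2 / r ^ 2 := by
      rw [le_div_iff₀ hr2]
      nlinarith [sq_nonneg ‖w‖]
    linarith
  have hnum_ge : ε ≤ 1 - ‖w / (r : ℂ)‖ ^ 2 := by
    rw [hwr]
    have : ‖w‖ ^ 2 / r ^ 2 ≤ 1 - ε := by
      rw [div_le_iff₀ hr2]
      nlinarith
    linarith
  set D := ‖ζ - w / (r : ℂ)‖ with hD
  have hD1 : ε / 2 ≤ D := by
    have h3 := norm_sub_norm_le ζ (w / (r : ℂ))
    rw [hζ] at h3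
    have h4 := norm_nonneg (w / (r : ℂ))
    nlinarith
  have hD2 : 3 / 10 * |t - t0| ≤ D := by
    have h3 : ‖ζ - w0 / (r : ℂ)‖ ≤ D := hmin ht
    have h4 := psi_sp_sub hε hε1 ht ht0
    have h5 : ‖w - w0‖ ≤ ‖w / (r : ℂ) - w0 / (r : ℂ)‖ := by
      rw [← sub_div, norm_div, hrc, le_div_iff₀ hr0]
      nlinarith [norm_nonneg (w - w0)]
    have h6 : ‖w / (r : ℂ) - w0 / (r : ℂ)‖ ≤ ‖ζ - w / (r : ℂ)‖ + ‖ζ - w0 / (r : ℂ)‖ := by
      have : w / (r : ℂ) - w0 / (r : ℂ) = -(ζ - w / (r : ℂ)) + (ζ - w0 / (r : ℂ)) := by ring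
      rw [this]
      refine (norm_add_le _ _).trans ?_
      rw [norm_neg]
    linarith
  have hDp : 0 < D := by linarith
  have hD3 : 9 / 200 * (ε ^ 2 + (t - t0) ^ 2) ≤ D ^ 2 := by
    have h7 : (3 / 10 * |t - t0|) ^ 2 ≤ D ^ 2 :=
      pow_le_pow_left₀ (by positivity) hD2 2
    have h8 : (ε / 2) ^ 2 ≤ D ^ 2 := pow_le_pow_left₀ (by positivity) hD1 2
    rw [mul_pow, sq_abs] at h7
    nlinarith
  have hden : 0 < ε ^ 2 + (t - t0) ^ 2 := by positivity
  rw [← mul_div_assoc, div_le_div_iff₀ (by positivity) hden]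
  nlinarith [mul_le_mul_of_nonneg_left hD3 hε.le, mul_le_mul_of_nonneg_right hnum_le hden.le]

/-- **Transfer** of vertical logarithmic integrals to circles. -/
theorem transfer (c : ℕ →₀ ℂ) (τ : ℝ) (hτ : 1 / 2 < τ) (hτ1 : τ < 1) :
    ∃ r1 : ℝ, 0 < r1 ∧ r1 < 1 ∧ ∀ r : ℝ, r1 < r → r < 1 →
      LL (fun s => poly c (vs s)) τ ≤
        (100 * Real.pi) * ∫ θ, Real.log (max 1 ‖poly c (vs (phi (r * zet θ)))‖) ∂mu := by
  set ε : ℝ := τ - 1 / 2 with hε
  have hε0 : 0 < ε := by rw [hε]; linarith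
  have hε1 : ε < 1 / 2 := by rw [hε]; linarith
  refine ⟨Real.sqrt (1 - ε / 5), Real.sqrt_pos.2 (by linarith), ?_, fun r hr hr1 => ?_⟩
  · rw [Real.sqrt_lt' one_pos]; linarith
  have hr0 : 0 < r := lt_trans (Real.sqrt_pos.2 (by linarith)) hr
  have hr2 : 1 - ε / 5 ≤ r ^ 2 := by
    rw [Real.sqrt_lt' hr0] at hr
    exact hr.le
  have hrc : ‖(r : ℂ)‖ = r := by rw [Complex.norm_real, Real.norm_of_nonneg hr0.le]
  have hrne : (r : ℂ) ≠ 0 := by exact_mod_cast hr0.ne'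
  set g : ℂ → ℂ := fun z => poly c (vs (phi (r * z))) with hg
  have hgd : DiffContOnCl ℂ g (ball 0 1) := by
    refine DifferentiableOn.diffContOnCl ?_
    rw [closure_ball _ one_ne_zero]
    intro z hz
    rw [mem_closedBall_zero_iff] at hz
    have hrz : ‖(r : ℂ) * z‖ < 1 := by
      rw [norm_mul, hrc]; nlinarith [norm_nonneg z]
    have h1 : DifferentiableAt ℂ (fun z => phi ((r : ℂ) * z)) z :=
      (differentiableAt_phi hrz).comp z (by fun_prop)
    exact ((differentiable_D c _).comp z h1).differentiableWithinAt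
  have hgc : Continuous fun θ => g (zet θ) := by
    have := hgd.continuousOn
    rw [closure_ball _ one_ne_zero] at this
    exact this.comp_continuous continuous_zet fun t => by
      rw [mem_closedBall_zero_iff, norm_zet]
  set U : UnitAddCircle → ℝ := fun θ => Real.log (max 1 ‖g (zet θ)‖) with hU
  have hUc : Continuous U := Continuous.log (continuous_const.max hgc.norm) fun p =>
    (lt_of_lt_of_le one_pos (le_max_left _ _)).ne'
  have hU0 : ∀ θ, 0 ≤ U θ := fun θ => Real.log_nonneg (le_max_left _ _)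
  set W : ℝ → ℂ := fun t => psi (sp ε t) / (r : ℂ) with hW
  have hWn : ∀ t ∈ Set.Icc (0 : ℝ) 1, ‖W t‖ < 1 := by
    intro t ht
    obtain ⟨h1, h2⟩ := psi_sp_sq hε0 hε1 ht
    have h3 : ‖W t‖ ^ 2 < 1 := by
      rw [hW]
      simp only
      rw [norm_div, hrc, div_pow, div_lt_one (by positivity)]
      nlinarith
    nlinarith [norm_nonneg (W t)]
  have hWc : ContinuousOn W (Set.Icc 0 1) := by
    refine ContinuousOn.div_const ?_ _
    unfold psi
    have hs : Continuous fun t : ℝ => sp ε t := by unfold sp; fun_prop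
    refine ContinuousOn.div (by fun_prop) (by fun_prop) fun t ht => ?_
    exact add_half_ne (curve_bounds hε0 hε1 ht).1
  -- pointwise inequality
  have hpt : ∀ t ∈ Set.Icc (0 : ℝ) 1, Real.log (max 1 ‖poly c (vs ((τ : ℂ) + (t : ℂ) * Complex.I))‖)
      ≤ ∫ θ, pk (conj (W t)) θ * U θ ∂mu := by
    intro t ht
    have h1 := log_poisson g hgd (W t) (hWn t ht)
    have h2 : g (W t) = poly c (vs ((τ : ℂ) + (t : ℂ) * Complex.I)) := by
      simp only [hg, hW]
      rw [mul_div_cancel₀ _ hrne, phi_psi (s := sp ε t) (curve_bounds hε0 hε1 ht).1]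
      have : sp ε t = (τ : ℂ) + (t : ℂ) * Complex.I := by
        unfold sp
        congr 2
        rw [hε]; ring
      rw [this]
    rw [h2] at h1
    exact h1
  -- joint continuity
  have hjc : ContinuousOn (fun p : ℝ × UnitAddCircle => pk (conj (W p.1)) p.2 * U p.2)
      (Set.Icc (0 : ℝ) 1 ×ˢ Set.univ) := by
    refine ContinuousOn.mul ?_ (hUc.comp continuous_snd).continuousOn
    have hW1 : ContinuousOn (fun p : ℝ × UnitAddCircle => W p.1)
        (Set.Icc (0 : ℝ) 1 ×ˢ Set.univ) :=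
      hWc.comp continuous_fst.continuousOn fun p hp => hp.1
    have hW2 : ContinuousOn (fun p : ℝ × UnitAddCircle => conj (W p.1))
        (Set.Icc (0 : ℝ) 1 ×ˢ Set.univ) := Complex.continuous_conj.comp_continuousOn hW1
    unfold pk
    refine ContinuousOn.div ?_ ?_ ?_
    · exact continuousOn_const.sub (hW2.norm.pow 2)
    · exact ((continuousOn_const.sub (hW2.mul
        (continuous_zet.comp continuous_snd).continuousOn)).norm).pow 2
    · intro p hp
      have := den_pos (α := conj (W p.1)) (by rw [RCLike.norm_conj]; exact hWn p.1 hp.1) p.2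
      positivity
  set ν : Measure ℝ := volume.restrict (Set.Ioc (0 : ℝ) 1) with hν
  have hint : Integrable (fun p : ℝ × UnitAddCircle => pk (conj (W p.1)) p.2 * U p.2)
      (ν.prod mu) := by
    have h1 : ν.prod mu = ((volume : Measure ℝ).prod mu).restrict
        (Set.Ioc (0 : ℝ) 1 ×ˢ Set.univ) := by
      rw [hν, ← Measure.prod_restrict, Measure.restrict_univ]
    rw [h1]
    exact (hjc.integrableOn_compact (isCompact_Icc.prod isCompact_univ)).mono_set
      (Set.prod_mono Set.Ioc_subset_Icc_self le_rfl)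
  have hLL : LL (fun s => poly c (vs s)) τ ≤ ∫ t, ∫ θ, pk (conj (W t)) θ * U θ ∂mu ∂ν := by
    unfold LL
    rw [intervalIntegral.integral_of_le zero_le_one]
    have hc : Continuous fun t : ℝ =>
        Real.log (max 1 ‖poly c (vs ((τ : ℂ) + (t : ℂ) * Complex.I))‖) :=
      Continuous.log (continuous_const.max
        ((continuous_poly _).comp (continuous_vs.comp (by fun_prop))).norm) fun p =>
        (lt_of_lt_of_le one_pos (le_max_left _ _)).ne'
    refine integral_mono_ae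
      ((hc.continuousOn.integrableOn_compact isCompact_Icc).mono_set Set.Ioc_subset_Icc_self)
      hint.integral_prod_left ?_
    rw [Filter.EventuallyLE, ae_restrict_iff' measurableSet_Ioc]
    exact Filter.Eventually.of_forall fun t ht => hpt t (Set.Ioc_subset_Icc_self ht)
  refine hLL.trans ?_
  rw [integral_integral_swap hint, ← integral_const_mul]
  refine integral_mono hint.integral_prod_right ((integrable_cont hUc).const_mul _) fun θ => ?_
  simp only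
  rw [integral_mul_const]
  refine mul_le_mul_of_nonneg_right ?_ (hU0 θ)
  obtain ⟨t0, ht0⟩ := kernel_bound hε0 hε1 hr0 hr1 hr2 (zet θ) (norm_zet θ)
  have hk : ∫ t, pk (conj (W t)) θ ∂ν ≤ ∫ t, 100 * (ε / (ε ^ 2 + (t - t0) ^ 2)) ∂ν := by
    have hc2 : Continuous fun t : ℝ => 100 * (ε / (ε ^ 2 + (t - t0) ^ 2)) := by
      refine continuous_const.mul (Continuous.div continuous_const (by fun_prop) fun t => ?_)
      positivity
    have hc3 : ContinuousOn (fun t => pk (conj (W t)) θ) (Set.Icc 0 1) := by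
      have hW2 : ContinuousOn (fun t => conj (W t)) (Set.Icc (0 : ℝ) 1) :=
        Complex.continuous_conj.comp_continuousOn hWc
      unfold pk
      refine ContinuousOn.div ?_ ?_ ?_
      · exact continuousOn_const.sub (hW2.norm.pow 2)
      · exact ((continuousOn_const.sub (hW2.mul continuousOn_const)).norm).pow 2
      · intro t ht
        have := den_pos (α := conj (W t)) (by rw [RCLike.norm_conj]; exact hWn t ht) θ
        positivity
    refine integral_mono_ae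
      ((hc3.integrableOn_compact isCompact_Icc).mono_set Set.Ioc_subset_Icc_self)
      ((hc2.continuousOn.integrableOn_compact isCompact_Icc).mono_set Set.Ioc_subset_Icc_self) ?_
    rw [Filter.EventuallyLE, hν, ae_restrict_iff' measurableSet_Ioc]
    refine Filter.Eventually.of_forall fun t ht => ?_
    have h1 := ht0 t (Set.Ioc_subset_Icc_self ht)
    refine le_trans (le_of_eq ?_) h1
    unfold pk
    rw [RCLike.norm_conj, norm_sub_eq_of_circle (W t) (zet θ) (norm_zet θ)]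
  refine hk.trans ?_
  have h2 := kernel_integral ε t0 hε0
  rw [intervalIntegral.integral_of_le zero_le_one] at h2
  rw [integral_const_mul]
  have : (100 : ℝ) * ∫ t, ε / (ε ^ 2 + (t - t0) ^ 2) ∂ν ≤ 100 * Real.pi := by gcongr
  exact this

end Pool.Agent.Helper873.Geo
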