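import Pool.Agent.Helper873.KPoly

set_option autoImplicit false
open MeasureTheory Metric Filter
open scoped ComplexConjugate ENNReal Topology

namespace Pool.Agent.Helper873.PartTwo

open Pool.Agent.Helper873.OneVar Pool.Agent.Helper873.Product Pool.Agent.Helper873.Pk
  Pool.Agent.Helper873.Block Pool.Agent.Helper873.Alg Pool.Agent.Helper873.Monomial
  Pool.Agent.Helper873.Cartan Pool.Agent.Helper873.NT Pool.Agent.Helper873.Embed
  Pool.Agent.Helper873.Zeta Pool.Agent.Helper873.KPoly Pool.Agent.Helper873.Multi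

lemma log_bound2 (q φ : ℝ) (hq0 : 0 ≤ q) (hq : q ≤ 1 / 2) :
    -(2 * Real.log (1 - q)) - 4 * q * φ ^ 2 ≤
      -(2 * Real.log ‖1 - (q : ℂ) * Complex.exp (φ * Complex.I)‖) := by
  have h1 := norm_sq_circle q φ
  have h2 : 2 * Real.log ‖1 - (q : ℂ) * Complex.exp (φ * Complex.I)‖ =
      Real.log (1 - 2 * q * Real.cos φ + q ^ 2) := by
    rw [← h1, Real.log_pow]; norm_num
  have hcos := Real.one_sub_sq_div_two_le_cos (x := φ)
  have hcos1 := Real.cos_le_one φ
  have hq1 : 0 < (1 - q) ^ 2 := by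
    have : 0 < 1 - q := by linarith
    positivity
  have hpos : 0 < 1 - 2 * q * Real.cos φ + q ^ 2 := by nlinarith
  rw [h2]
  have h4 : 2 * Real.log (1 - q) = Real.log ((1 - q) ^ 2) := by
    rw [Real.log_pow]; norm_num
  rw [h4]
  have h5 : Real.log (1 - 2 * q * Real.cos φ + q ^ 2) - Real.log ((1 - q) ^ 2) ≤
      (1 - 2 * q * Real.cos φ + q ^ 2) / (1 - q) ^ 2 - 1 := by
    rw [← Real.log_div hpos.ne' hq1.ne']
    exact Real.log_le_sub_one_of_pos (div_pos hpos hq1)
  have h6 : (1 - 2 * q * Real.cos φ + q ^ 2) / (1 - q) ^ 2 - 1 ≤ 4 * q * φ ^ 2 := by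
    rw [sub_le_iff_le_add, div_le_iff₀ hq1]
    have h7 : 1 / 4 ≤ (1 - q) ^ 2 := by nlinarith
    have h8 : 2 * q * (1 - Real.cos φ) ≤ q * φ ^ 2 := by nlinarith
    have h9 : 0 ≤ q * φ ^ 2 := by positivity
    nlinarith
  linarith

lemma exists_N1 (J : ℕ) (hJ : 1 ≤ J) : ∃ N1 : ℕ, ∀ N ≥ N1,
    (J : ℝ) / 4 ≤ Z (Nat.nth Nat.Prime N) (2 / J) := by
  have hJ0 : (0 : ℝ) < J := by exact_mod_cast hJ
  have hs : (0 : ℝ) < 2 / J := by positivity
  obtain ⟨M', _, hM1, hM2⟩ := exists_large 1 (2 / (J : ℝ)) hs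
  refine ⟨M', fun N hN => ?_⟩
  have h1 : M' ≤ Nat.nth Nat.Prime N := by
    have := Nat.add_two_le_nth_prime N
    omega
  have h2 := Z_lower (Nat.nth Nat.Prime N) (by omega) (2 / (J : ℝ)) hs
  refine le_trans ?_ h2
  have hM'0 : (0 : ℝ) < M' := by exact_mod_cast hM1
  have h3 : (Nat.nth Nat.Prime N : ℝ) ^ (-(2 / (J : ℝ))) ≤ (M' : ℝ) ^ (-(2 / (J : ℝ))) :=
    Real.rpow_le_rpow_of_nonpos hM'0 (by exact_mod_cast h1) (by linarith)
  rw [le_div_iff₀ hs]
  have h4 : (J : ℝ) / 4 * (2 / J) = 1 / 2 := by field_simp; norm_num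
  linarith

/-- lower bound for the kernel on the line -/
lemma KA_lower (J N a : ℕ) (hJ : 1 ≤ J) (hN : (J : ℝ) / 4 ≤ Z (Nat.nth Nat.Prime N) (2 / J))
    (t : ℝ) (ht : |(a : ℝ) / J - t| ≤ 1 / J) :
    1 / 2 * Real.log (J / 4) - 8 ≤ Real.log (KA J N a (vs (pt J t))) := by
  have hJ0 : (0 : ℝ) < J := by exact_mod_cast hJ
  have hq0 : ∀ k, 0 < 1 - qq J k := fun k => by have := qq_le_half J k; linarith
  unfold KA
  have hne : ∀ k ∈ Finset.range N, Real.sqrt (1 - qq J k) *
      (1 / ‖1 - al J a k * vs (pt J t) k‖) ≠ 0 := by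
    intro k _
    have h1 := norm_al_mul_le J a k (vs (pt J t) k) (norm_vs_le (pt J t) (by
      unfold pt; simp; positivity) k)
    have h2 : 0 < ‖1 - al J a k * vs (pt J t) k‖ := by
      have := norm_sub_norm_le (1 : ℂ) (al J a k * vs (pt J t) k)
      rw [norm_one] at this
      linarith
    have := Real.sqrt_pos.2 (hq0 k)
    positivity
  rw [Real.log_prod hne]
  have hterm : ∀ k ∈ Finset.range N, -(1 / 2 * Real.log (1 - qq J k)) - 2 * (qq J k *
      (1 / J * Real.log (Nat.nth Nat.Prime k)) ^ 2) ≤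
      Real.log (Real.sqrt (1 - qq J k) * (1 / ‖1 - al J a k * vs (pt J t) k‖)) := by
    intro k hk
    have hs := Real.sqrt_pos.2 (hq0 k)
    rw [al_mul_vs]
    set φ : ℝ := ((a : ℝ) / J - t) * Real.log (Nat.nth Nat.Prime k) with hφ
    have h1 := log_bound2 (qq J k) φ (qq_pos J k).le (qq_le_half J k)
    have h2 : 0 < ‖1 - ((qq J k : ℝ) : ℂ) * Complex.exp ((φ : ℂ) * Complex.I)‖ := by
      have h3 := norm_sub_norm_le (1 : ℂ) (((qq J k : ℝ) : ℂ) * Complex.exp ((φ : ℂ) * Complex.I))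
      rw [norm_mul, Complex.norm_exp_ofReal_mul_I, mul_one, Complex.norm_real,
        Real.norm_of_nonneg (qq_pos J k).le, norm_one] at h3
      have := hq0 k
      linarith
    rw [Real.log_mul hs.ne' (one_div_pos.2 h2).ne', Real.log_div one_ne_zero h2.ne',
      Real.log_one, Real.log_sqrt (hq0 k).le]
    have h4 : φ ^ 2 ≤ (1 / J * Real.log (Nat.nth Nat.Prime k)) ^ 2 := by
      have hlog0 : 0 ≤ Real.log (Nat.nth Nat.Prime k : ℝ) :=
        Real.log_nonneg (by have := two_le_p k; linarith)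
      rw [← sq_abs φ, hφ, abs_mul, abs_of_nonneg hlog0]
      gcongr
    have h5 : qq J k * φ ^ 2 ≤ qq J k * (1 / J * Real.log (Nat.nth Nat.Prime k)) ^ 2 :=
      mul_le_mul_of_nonneg_left h4 (qq_pos J k).le
    linarith
  refine le_trans ?_ (Finset.sum_le_sum hterm)
  rw [Finset.sum_sub_distrib, Finset.sum_neg_distrib, ← Finset.mul_sum, ← Finset.mul_sum,
    ← Real.log_prod (fun k _ => (hq0 k).ne')]
  have h6 : ∏ k ∈ Finset.range N, (1 - qq J k) = (Z (Nat.nth Nat.Prime N) (2 / J))⁻¹ := by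
    rw [← prod_Z, Nat.primeCounting'_nth_eq]; rfl
  rw [h6, Real.log_inv]
  have h7 : Real.log (J / 4) ≤ Real.log (Z (Nat.nth Nat.Prime N) (2 / J)) :=
    Real.log_le_log (by positivity) hN
  have h8 : ∑ k ∈ Finset.range N, qq J k * (1 / J * Real.log (Nat.nth Nat.Prime k)) ^ 2 ≤ 4 := by
    have h9 := sum_log_sq' (Nat.nth Nat.Prime N) (1 / J) (by positivity) (by
      rw [div_le_one hJ0]; exact_mod_cast hJ)
    rw [← sum_primes_eq, Nat.primeCounting'_nth_eq] at h9
    refine le_trans (le_of_eq ?_) h9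
    refine Finset.sum_congr rfl fun k _ => ?_
    unfold qq
    rw [mul_comm]
    congr 2
    ring
  linarith

/-- the random function -/
noncomputable def FF (J N R : ℕ) (θ : ℕ → UnitAddCircle) (w : ℕ → ℂ) : ℂ :=
  rs J (fun a => KR J N R a w / (Real.sqrt J : ℂ)) θ

lemma continuous_KR (J N R a : ℕ) : Continuous (KR J N R a) := by
  unfold KR
  refine continuous_finsetProd _ fun k _ => continuous_const.mul
    (continuous_finsetSum _ fun r _ => ?_)
  exact (continuous_const.mul (continuous_apply k)).pow r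

lemma continuous_FF (J N R : ℕ) :
    Continuous fun p : (ℕ → UnitAddCircle) × (ℕ → ℂ) => FF J N R p.1 p.2 := by
  unfold FF rs
  refine continuous_finsetSum _ fun a _ => ?_
  refine (continuous_zet.comp ((continuous_apply a).comp continuous_fst)).mul ?_
  exact ((continuous_KR J N R a).comp continuous_snd).div_const _

lemma isP_FF (J N R : ℕ) (θ : ℕ → UnitAddCircle) (y : ℂ) :
    IsP (fun w => y * FF J N R θ w) := by
  refine IsP.smul _ ?_
  unfold FF rs
  refine isP_sum _ (fun a w => zet (θ a) * (KR J N R a w / (Real.sqrt J : ℂ))) fun a _ => ?_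
  have h := ((isP_KR J N R a).smul ((Real.sqrt J : ℂ)⁻¹)).smul (zet (θ a))
  have e : (fun w => zet (θ a) * (KR J N R a w / (Real.sqrt J : ℂ))) =
      fun w => zet (θ a) * ((Real.sqrt J : ℂ)⁻¹ * KR J N R a w) := by
    funext w; rw [div_eq_inv_mul]
  rwa [e]

lemma continuous_zz : Continuous fun z : ℕ → UnitAddCircle => (fun k => zet (z k) : ℕ → ℂ) :=
  continuous_pi fun j => continuous_zet.comp (continuous_apply j)

lemma continuous_vs_pt (J : ℕ) : Continuous fun t : ℝ => vs (pt J t) := by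
  refine continuous_pi fun k => ?_
  unfold vs pt
  have hpc : (Nat.nth Nat.Prime k : ℂ) ≠ 0 := by
    exact_mod_cast (Nat.prime_nth_prime k).ne_zero
  refine Continuous.const_cpow ?_ (Or.inl hpc)
  fun_prop

/-- upper bound for the random L1 norm -/
lemma upper_random (J N R : ℕ) (hJ : 1 ≤ J) (hR1 : (1 / 2 : ℝ) ≤ (1 - (3 / 4) ^ R) ^ N)
    (hR2 : (1 + (3 / 4) ^ R : ℝ) ^ N ≤ 2) :
    ∫ θ, ∫ z, ‖FF J N R θ (fun k => zet (z k))‖ ∂tor ∂tor ≤
      2 * ∫ z, Real.sqrt (MM J N z) ∂tor := by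
  have hJ0 : (0 : ℝ) < J := by exact_mod_cast hJ
  have hcont : Continuous fun p : (ℕ → UnitAddCircle) × (ℕ → UnitAddCircle) =>
      ‖FF J N R p.1 (fun k => zet (p.2 k))‖ :=
    ((continuous_FF J N R).comp (continuous_fst.prodMk (continuous_zz.comp continuous_snd))).norm
  have hint : Integrable (fun p : (ℕ → UnitAddCircle) × (ℕ → UnitAddCircle) =>
      ‖FF J N R p.1 (fun k => zet (p.2 k))‖) (tor.prod tor) :=
    hcont.integrable_of_hasCompactSupport (HasCompactSupport.of_compactSpace _)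
  rw [integral_integral_swap hint, ← integral_const_mul]
  refine integral_mono hint.integral_prod_right
    ((integrable_torR (Real.continuous_sqrt.comp (continuous_MM J N))).const_mul 2) fun z => ?_
  have h1 : ∑ a ∈ Finset.range J, ‖KR J N R a (fun k => zet (z k)) / (Real.sqrt J : ℂ)‖ ^ 2 ≤
      4 * MM J N z := by
    unfold MM
    rw [← mul_assoc, Finset.mul_sum]
    refine Finset.sum_le_sum fun a _ => ?_
    have h2 := (KR_bounds J N R a hR1 hR2 (fun k => zet (z k)) fun k => (norm_zet _).le).2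
    have h3 := KA_sq J N a z
    have h4 := (KA_pos J N a (fun k => zet (z k)) fun k => (norm_zet _).le).le
    rw [norm_div, Complex.norm_real, Real.norm_of_nonneg (Real.sqrt_nonneg _), div_pow,
      Real.sq_sqrt hJ0.le, ← h3, div_eq_inv_mul]
    have h5 : ‖KR J N R a (fun k => zet (z k))‖ ^ 2 ≤ (2 * KA J N a (fun k => zet (z k))) ^ 2 :=
      pow_le_pow_left₀ (norm_nonneg _) h2 2
    calc (J : ℝ)⁻¹ * ‖KR J N R a (fun k => zet (z k))‖ ^ 2
        ≤ (J : ℝ)⁻¹ * (2 * KA J N a (fun k => zet (z k))) ^ 2 := by gcongr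
      _ = _ := by ring
  have h6 := integral_norm_le J (fun a => KR J N R a (fun k => zet (z k)) / (Real.sqrt J : ℂ))
    (4 * MM J N z) (by have := MM_pos J N hJ z; positivity) h1
  refine h6.trans (le_of_eq ?_)
  rw [Real.sqrt_mul (by norm_num)]
  have : Real.sqrt 4 = 2 := by
    rw [show (4 : ℝ) = 2 ^ 2 by norm_num, Real.sqrt_sq (by norm_num)]
  rw [this]

/-- lower bound for the random logarithm -/
lemma lower_random (J N R : ℕ) (hJ : 1 ≤ J) (hN : (J : ℝ) / 4 ≤ Z (Nat.nth Nat.Prime N) (2 / J))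
    (hR1 : (1 / 2 : ℝ) ≤ (1 - (3 / 4) ^ R) ^ N)
    (hR2 : (1 + (3 / 4) ^ R : ℝ) ^ N ≤ 2) (ρ : ℝ) (hρ : 0 < ρ) (t : ℝ) (ht : t ∈ Set.Icc (0 : ℝ) 1) :
    -10 ≤ ∫ θ, Real.log (max ‖FF J N R θ (vs (pt J t))‖ ρ) ∂tor := by
  have hJ0 : (0 : ℝ) < J := by exact_mod_cast hJ
  obtain ⟨a, ha, hat⟩ : ∃ a < J, |(a : ℝ) / J - t| ≤ 1 / J := by
    by_cases h1 : t < 1
    · refine ⟨⌊t * J⌋₊, ?_, ?_⟩
      · rw [Nat.floor_lt (mul_nonneg ht.1 hJ0.le)]
        nlinarith
      · have h2 := Nat.floor_le (mul_nonneg ht.1 hJ0.le)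
        have h3 := Nat.lt_floor_add_one (t * J)
        have h4 : (⌊t * J⌋₊ : ℝ) / J - t = ((⌊t * J⌋₊ : ℝ) - t * J) / J := by field_simp
        rw [h4, abs_div, abs_of_pos hJ0]
        gcongr
        rw [abs_le]
        constructor <;> linarith
    · have h2 : t = 1 := le_antisymm ht.2 (not_lt.1 h1)
      refine ⟨J - 1, by omega, ?_⟩
      rw [h2, Nat.cast_sub hJ]
      have h4 : ((J : ℝ) - (1 : ℕ)) / J - 1 = -(1 / J) := by field_simp; push_cast; ring
      rw [h4, abs_neg, abs_of_pos (by positivity)]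
  have hre : 0 ≤ (pt J t).re := by unfold pt; simp; positivity
  have hKA := KA_pos J N a (vs (pt J t)) (norm_vs_le _ hre)
  have h1 := (KR_bounds J N R a hR1 hR2 (vs (pt J t)) (norm_vs_le _ hre)).1
  have h2 := KA_lower J N a hJ hN t hat
  have hsJ : 0 < Real.sqrt J := Real.sqrt_pos.2 hJ0
  have hx : KR J N R a (vs (pt J t)) / (Real.sqrt J : ℂ) ≠ 0 := by
    rw [← norm_pos_iff, norm_div, Complex.norm_real, Real.norm_of_nonneg hsJ.le]
    have : 0 < ‖KR J N R a (vs (pt J t))‖ := by linarith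
    positivity
  have h3 := cartan J (fun a => KR J N R a (vs (pt J t)) / (Real.sqrt J : ℂ)) a ha hx ρ hρ
  refine le_trans ?_ h3
  have h4 : Real.log ‖KR J N R a (vs (pt J t)) / (Real.sqrt J : ℂ)‖ =
      Real.log ‖KR J N R a (vs (pt J t))‖ - 1 / 2 * Real.log J := by
    rw [norm_div, Complex.norm_real, Real.norm_of_nonneg hsJ.le,
      Real.log_div (by linarith) hsJ.ne', Real.log_sqrt hJ0.le]
    ring
  simp only [h4]
  have h5 : Real.log (KA J N a (vs (pt J t)) / 2) ≤ Real.log ‖KR J N R a (vs (pt J t))‖ :=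
    Real.log_le_log (by positivity) h1
  rw [Real.log_div hKA.ne' (by norm_num)] at h5
  rw [Real.log_div hJ0.ne' (by norm_num)] at h2
  have h6 : Real.log 4 = 2 * Real.log 2 := by
    rw [show (4 : ℝ) = 2 ^ 2 by norm_num, Real.log_pow]; norm_num
  have h7 := Real.log_two_lt_d9
  linarith

/-- **Part 2.** Dirichlet polynomials with small `L¹` norm on the torus and large logarithmic
integrals near the critical line. -/
theorem partTwo (A : ℝ) : ∃ (c : ℕ →₀ ℂ) (J : ℕ), 3 ≤ J ∧
    ∫ z, ‖poly c (fun k => zet (z k))‖ ∂tor ≤ 1 ∧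
    A ≤ ∫ t in (0 : ℝ)..1, Real.log (max 1 ‖poly c (vs (pt J t))‖) := by
  classical
  set e : ℝ := Real.exp (-(A + 20)) with he
  have he0 : 0 < e := Real.exp_pos _
  obtain ⟨N0, b, hb, hsm⟩ := small_sqrt e he0
  set J := b * 3 with hJdef
  have hJ1 : 1 ≤ J := by omega
  obtain ⟨N1, hN1⟩ := exists_N1 J hJ1
  set N := max N0 N1 with hN
  have hsmall := hsm 3 (by norm_num) N (le_max_left _ _)
  rw [← hJdef] at hsmall
  have hZ := hN1 N (le_max_right _ _)
  obtain ⟨R, hR1, hR2⟩ := exists_R N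
  -- the two random quantities
  set Φ : (ℕ → UnitAddCircle) → ℝ := fun θ =>
    ∫ z, ‖FF J N R θ (fun k => zet (z k))‖ ∂tor with hΦ
  set ν : Measure ℝ := volume.restrict (Set.Ioc (0 : ℝ) 1) with hν
  have : IsProbabilityMeasure ν := ⟨by rw [hν, Measure.restrict_apply_univ]; simp⟩
  set Ψ : (ℕ → UnitAddCircle) → ℝ := fun θ =>
    ∫ t, Real.log (max ‖FF J N R θ (vs (pt J t))‖ e) ∂ν with hΨ
  have hc1 : Continuous fun p : (ℕ → UnitAddCircle) × (ℕ → UnitAddCircle) =>
      ‖FF J N R p.1 (fun k => zet (p.2 k))‖ :=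
    ((continuous_FF J N R).comp (continuous_fst.prodMk (continuous_zz.comp continuous_snd))).norm
  have hint1 : Integrable (fun p : (ℕ → UnitAddCircle) × (ℕ → UnitAddCircle) =>
      ‖FF J N R p.1 (fun k => zet (p.2 k))‖) (tor.prod tor) :=
    hc1.integrable_of_hasCompactSupport (HasCompactSupport.of_compactSpace _)
  have hc2 : Continuous fun p : (ℕ → UnitAddCircle) × ℝ =>
      Real.log (max ‖FF J N R p.1 (vs (pt J p.2))‖ e) := by
    refine Continuous.log ?_ fun p => (lt_of_lt_of_le he0 (le_max_right _ _)).ne'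
    exact (((continuous_FF J N R).comp (continuous_fst.prodMk
      ((continuous_vs_pt J).comp continuous_snd))).norm).max continuous_const
  have hint2 : Integrable (fun p : (ℕ → UnitAddCircle) × ℝ =>
      Real.log (max ‖FF J N R p.1 (vs (pt J p.2))‖ e)) (tor.prod ν) := by
    have h1 : tor.prod ν = (tor.prod volume).restrict (Set.univ ×ˢ Set.Ioc (0 : ℝ) 1) := by
      rw [hν, ← Measure.prod_restrict, Measure.restrict_univ]
    rw [h1]
    have h2 : IntegrableOn (fun p : (ℕ → UnitAddCircle) × ℝ =>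
        Real.log (max ‖FF J N R p.1 (vs (pt J p.2))‖ e)) (Set.univ ×ˢ Set.Icc (0 : ℝ) 1)
        (tor.prod volume) :=
      hc2.continuousOn.integrableOn_compact (isCompact_univ.prod isCompact_Icc)
    exact h2.mono_set (Set.prod_mono le_rfl Set.Ioc_subset_Icc_self)
  have hIΦ : ∫ θ, Φ θ ∂tor ≤ 2 * e := by
    have := upper_random J N R hJ1 hR1 hR2
    linarith
  have hIΨ : -10 ≤ ∫ θ, Ψ θ ∂tor := by
    rw [hΨ]
    simp only
    rw [integral_integral_swap hint2]
    have h1 : ∫ t, (-10 : ℝ) ∂ν ≤ ∫ t, ∫ θ, Real.log (max ‖FF J N R θ (vs (pt J t))‖ e) ∂tor ∂ν := by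
      refine integral_mono_ae (integrable_const _) hint2.integral_prod_right ?_
      rw [Filter.EventuallyLE, hν, ae_restrict_iff' measurableSet_Ioc]
      refine Filter.Eventually.of_forall fun t ht => ?_
      exact lower_random J N R hJ1 hZ hR1 hR2 e he0 t (Set.Ioc_subset_Icc_self ht)
    simpa using h1
  have hΦi : Integrable Φ tor := hint1.integral_prod_left
  have hΨi : Integrable Ψ tor := hint2.integral_prod_left
  -- choose the phases
  obtain ⟨θ, hθ⟩ : ∃ θ, -12 ≤ Ψ θ - 1 / e * Φ θ := by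
    have hi : Integrable (fun θ => Ψ θ - 1 / e * Φ θ) tor := hΨi.sub (hΦi.const_mul _)
    obtain ⟨θ, hθ⟩ := exists_integral_le hi
    refine ⟨θ, le_trans ?_ hθ⟩
    rw [integral_sub hΨi (hΦi.const_mul _), integral_const_mul]
    have h1 : 1 / e * ∫ θ, Φ θ ∂tor ≤ 1 / e * (2 * e) := by gcongr
    have h2 : 1 / e * (2 * e) = 2 := by field_simp
    linarith
  have hΦ0 : 0 ≤ Φ θ := integral_nonneg fun z => norm_nonneg _
  set M : ℝ := max (Φ θ) e with hM
  have hM0 : 0 < M := lt_of_lt_of_le he0 (le_max_right _ _)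
  obtain ⟨c, hc⟩ := isP_FF J N R θ ((M : ℂ)⁻¹)
  have hcn : ∀ w, ‖poly c w‖ = M⁻¹ * ‖FF J N R θ w‖ := by
    intro w
    rw [← hc w, norm_mul, norm_inv, Complex.norm_real, Real.norm_of_nonneg hM0.le]
  refine ⟨c, J, by omega, ?_, ?_⟩
  · simp_rw [hcn]
    rw [integral_const_mul]
    rw [inv_mul_le_iff₀ hM0, mul_one]
    exact le_max_left _ _
  · have h1 : ∫ t in (0 : ℝ)..1, Real.log (max 1 ‖poly c (vs (pt J t))‖) =
        ∫ t, Real.log (max 1 ‖poly c (vs (pt J t))‖) ∂ν := by
      rw [intervalIntegral.integral_of_le zero_le_one]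
    rw [h1]
    have hcc : Continuous fun t : ℝ => ‖FF J N R θ (vs (pt J t))‖ :=
      ((continuous_FF J N R).comp (continuous_const.prodMk (continuous_vs_pt J))).norm
    have hi2 : Integrable (fun t : ℝ => Real.log (max ‖FF J N R θ (vs (pt J t))‖ e)) ν := by
      have h2 : Continuous fun t : ℝ => Real.log (max ‖FF J N R θ (vs (pt J t))‖ e) := by
        refine Continuous.log (hcc.max continuous_const) fun p =>
          (lt_of_lt_of_le he0 (le_max_right _ _)).ne'
      exact (h2.continuousOn.integrableOn_compact isCompact_Icc).mono_set Set.Ioc_subset_Icc_self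
    have hi3 : Integrable (fun t : ℝ => Real.log (max 1 ‖poly c (vs (pt J t))‖)) ν := by
      have h2 : Continuous fun t : ℝ => Real.log (max 1 ‖poly c (vs (pt J t))‖) := by
        refine Continuous.log (continuous_const.max ?_) fun p =>
          (lt_of_lt_of_le one_pos (le_max_left _ _)).ne'
        exact ((continuous_poly c).comp (continuous_vs_pt J)).norm
      exact (h2.continuousOn.integrableOn_compact isCompact_Icc).mono_set Set.Ioc_subset_Icc_self
    have hpt : ∀ t, Real.log (max ‖FF J N R θ (vs (pt J t))‖ e) - Real.log M ≤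
        Real.log (max 1 ‖poly c (vs (pt J t))‖) := by
      intro t
      rw [hcn, ← Real.log_div (lt_of_lt_of_le he0 (le_max_right _ _)).ne' hM0.ne']
      refine Real.log_le_log (div_pos (lt_of_lt_of_le he0 (le_max_right _ _)) hM0) ?_
      rw [div_le_iff₀ hM0, max_mul_of_nonneg _ _ hM0.le]
      refine max_le ?_ ?_
      · refine le_trans (le_of_eq ?_) (le_max_right _ _)
        field_simp
      · refine le_trans ?_ (le_max_left _ _)
        rw [one_mul]; exact le_max_right _ _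
    have h2 := integral_mono (hi2.sub (integrable_const (Real.log M))) hi3 hpt
    refine le_trans ?_ h2
    simp only [Pi.sub_apply]
    rw [integral_sub hi2 (integrable_const _)]
    have h3 : ∫ _, Real.log M ∂ν = Real.log M := by simp
    rw [h3]
    have h4 : Ψ θ = ∫ t, Real.log (max ‖FF J N R θ (vs (pt J t))‖ e) ∂ν := rfl
    rw [← h4]
    have hloge : Real.log e = -(A + 20) := by rw [he, Real.log_exp]
    have h5 : Real.log M ≤ 1 / e * Φ θ - (A + 20) := by
      rcases le_total (Φ θ) e with h | h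
      · rw [hM, max_eq_right h, hloge]
        have : 0 ≤ 1 / e * Φ θ := by positivity
        linarith
      · have hΦp : 0 < Φ θ := lt_of_lt_of_le he0 h
        rw [hM, max_eq_left h]
        have h6 := Real.log_le_sub_one_of_pos (div_pos hΦp he0)
        rw [Real.log_div hΦp.ne' he0.ne', hloge] at h6
        have h7 : Φ θ / e = 1 / e * Φ θ := by ring
        linarith
    linarith

end Pool.Agent.Helper873.PartTwo
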