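import Pool.Agent.Helper873.EvalB
import Pool.Agent.Helper873.PartTwo

set_option autoImplicit false
open MeasureTheory Metric Filter
open scoped ComplexConjugate ENNReal Topology

namespace Pool.Agent.Helper873.Hump

open Pool.Agent.Helper873.OneVar Pool.Agent.Helper873.Product Pool.Agent.Helper873.Alg
  Pool.Agent.Helper873.Monomial Pool.Agent.Helper873.Mean Pool.Agent.Helper873.Block
  Pool.Agent.Helper873.EvalB Pool.Agent.Helper873.PartTwo Pool.Agent.Helper873.KPoly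

/-- the norm -/
noncomputable def nrm (c : ℕ →₀ ℂ) : ℝ := ∫ z, ‖poly c (fun k => zet (z k))‖ ∂tor

lemma cont_pz (c : ℕ →₀ ℂ) :
    Continuous fun z : ℕ → UnitAddCircle => ‖poly c (fun k => zet (z k))‖ :=
  ((continuous_poly c).comp continuous_zz).norm

lemma nrm_nonneg (c : ℕ →₀ ℂ) : 0 ≤ nrm c := integral_nonneg fun _ => norm_nonneg _

lemma nrm_zero : nrm 0 = 0 := by
  unfold nrm
  simp [poly_zero]

lemma nrm_add (c d : ℕ →₀ ℂ) : nrm (c + d) ≤ nrm c + nrm d := by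
  unfold nrm
  rw [← integral_add (integrable_torR (cont_pz c)) (integrable_torR (cont_pz d))]
  refine integral_mono (integrable_torR (cont_pz _))
    ((integrable_torR (cont_pz c)).add (integrable_torR (cont_pz d))) fun z => ?_
  simp only [Pi.add_apply, poly_add]
  exact norm_add_le _ _

lemma nrm_smul (a : ℂ) (c : ℕ →₀ ℂ) : nrm (a • c) = ‖a‖ * nrm c := by
  unfold nrm
  simp_rw [poly_smul, norm_mul]
  rw [integral_const_mul]

lemma nrm_neg (c : ℕ →₀ ℂ) : nrm (-c) = nrm c := by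
  have h := nrm_smul (-1) c
  rw [neg_one_smul, norm_neg, norm_one, one_mul] at h
  exact h

lemma nrm_tri (a b c : ℕ →₀ ℂ) : nrm (a - c) ≤ nrm (a - b) + nrm (b - c) := by
  have h := nrm_add (a - b) (b - c)
  rwa [sub_add_sub_cancel] at h

lemma norm_mon_le (n : ℕ) (w : ℕ → ℂ) (hw : ∀ k, ‖w k‖ ≤ 1) : ‖mon n w‖ ≤ 1 := by
  unfold mon
  rw [norm_prod]
  refine Finset.prod_le_one (fun k _ => norm_nonneg _) fun k _ => ?_
  rw [norm_pow]
  exact pow_le_one₀ (norm_nonneg _) (hw k)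

/-- a crude sup bound -/
noncomputable def sB (c : ℕ →₀ ℂ) : ℝ := ∑ n ∈ c.support, ‖c n‖

lemma sB_nonneg (c : ℕ →₀ ℂ) : 0 ≤ sB c := Finset.sum_nonneg fun _ _ => norm_nonneg _

lemma norm_poly_le (c : ℕ →₀ ℂ) (w : ℕ → ℂ) (hw : ∀ k, ‖w k‖ ≤ 1) : ‖poly c w‖ ≤ sB c := by
  unfold poly Finsupp.sum sB
  refine (norm_sum_le _ _).trans (Finset.sum_le_sum fun n _ => ?_)
  rw [norm_mul]
  have := norm_mon_le (n + 1) w hw
  have := norm_nonneg (c n)
  nlinarith

/-- the constant in the evaluation bound -/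
noncomputable def CE (σ : ℝ) : ℝ := 1 + 1 / (2 * σ - 1)

lemma CE_ge_one (σ : ℝ) (hσ : 1 / 2 < σ) : 1 ≤ CE σ := by
  unfold CE
  have : 0 < 2 * σ - 1 := by linarith
  have : 0 < 1 / (2 * σ - 1) := by positivity
  linarith

lemma CE_anti (σ τ : ℝ) (hσ : 1 / 2 < σ) (h : σ ≤ τ) : CE τ ≤ CE σ := by
  unfold CE
  have h1 : 0 < 2 * σ - 1 := by linarith
  have := one_div_le_one_div_of_le h1 (by linarith : 2 * σ - 1 ≤ 2 * τ - 1)
  linarith

lemma eval_le (c : ℕ →₀ ℂ) (σ : ℝ) (hσ : 1 / 2 < σ) (s : ℂ) (hs : σ ≤ s.re) :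
    ‖poly c (vs s)‖ ≤ CE σ * nrm c := by
  have h1 := eval_bound c s (by linarith)
  refine h1.trans ?_
  exact mul_le_mul_of_nonneg_right (CE_anti σ s.re hσ hs) (nrm_nonneg c)

lemma continuous_vs : Continuous vs := by
  refine continuous_pi fun k => ?_
  unfold vs
  have hpc : (Nat.nth Nat.Prime k : ℂ) ≠ 0 := by
    exact_mod_cast (Nat.prime_nth_prime k).ne_zero
  exact Continuous.const_cpow continuous_neg (Or.inl hpc)

/-- the logarithmic integral -/
noncomputable def LL (g : ℂ → ℂ) (τ : ℝ) : ℝ :=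
  ∫ t in (0 : ℝ)..1, Real.log (max 1 ‖g ((τ : ℂ) + (t : ℂ) * Complex.I)‖)

lemma step (k : ℕ) (c : ℕ →₀ ℂ) (σ : ℝ) (hσ : 1 / 2 < σ) : ∃ (c' : ℕ →₀ ℂ) (σ' : ℝ),
    1 / 2 < σ' ∧ σ' ≤ σ ∧ nrm (c' - c) ≤ (1 / 2) ^ k ∧
    (∀ s : ℂ, σ ≤ s.re → ‖poly (c' - c) (vs s)‖ ≤ (1 / 2) ^ k) ∧
    ∃ τ : ℝ, σ' ≤ τ ∧ τ < 1 ∧ (k : ℝ) ≤ LL (fun s => poly c' (vs s)) τ := by
  have hCE := CE_ge_one σ hσ
  have hCE0 : 0 < CE σ := by linarith
  set η : ℝ := (1 / 2) ^ k / CE σ with hη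
  have hη0 : 0 < η := by positivity
  have hη1 : η ≤ (1 / 2) ^ k := by
    rw [hη, div_le_iff₀ hCE0]
    have : (0 : ℝ) ≤ (1 / 2) ^ k := by positivity
    nlinarith
  have h12 : (1 / 2 : ℝ) ^ k ≤ 1 := pow_le_one₀ (by norm_num) (by norm_num)
  set B := sB c with hB
  have hB0 : 0 ≤ B := sB_nonneg c
  obtain ⟨g, J, hJ, hg1, hgA⟩ := partTwo ((k : ℝ) + Real.log ((1 + B) / η))
  have hJ0 : (0 : ℝ) < J := by
    have : 0 < J := by omega
    exact_mod_cast this
  set τ : ℝ := 1 / 2 + 1 / (J : ℝ) with hτ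
  have hτ1 : 1 / 2 < τ := by
    have : 0 < 1 / (J : ℝ) := by positivity
    linarith
  have hτ2 : τ < 1 := by
    have : (3 : ℝ) ≤ J := by exact_mod_cast hJ
    have : 1 / (J : ℝ) ≤ 1 / 3 := one_div_le_one_div_of_le (by norm_num) this
    linarith
  have hnd : c + (η : ℂ) • g - c = (η : ℂ) • g := by simp
  have hn : nrm (c + (η : ℂ) • g - c) ≤ η := by
    rw [hnd, nrm_smul, Complex.norm_real, Real.norm_of_nonneg hη0.le]
    have : nrm g ≤ 1 := hg1
    nlinarith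
  refine ⟨c + (η : ℂ) • g, min σ τ, lt_min hσ hτ1, min_le_left _ _, hn.trans hη1, ?_, τ,
    min_le_right _ _, hτ2, ?_⟩
  · intro s hs
    refine (eval_le _ σ hσ s hs).trans ?_
    calc CE σ * nrm (c + (η : ℂ) • g - c) ≤ CE σ * η := by gcongr
      _ = (1 / 2) ^ k := by rw [hη]; field_simp
  · unfold LL
    have hpt : ∀ t : ℝ, pt J t = (τ : ℂ) + (t : ℂ) * Complex.I := fun t => rfl
    have hcont : ∀ d : ℕ →₀ ℂ, Continuous fun t : ℝ =>
        Real.log (max 1 ‖poly d (vs ((τ : ℂ) + (t : ℂ) * Complex.I))‖) := by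
      intro d
      refine Continuous.log (continuous_const.max ?_) fun p =>
        (lt_of_lt_of_le one_pos (le_max_left _ _)).ne'
      exact ((continuous_poly d).comp (continuous_vs.comp (by fun_prop))).norm
    have hineq : ∀ t : ℝ, Real.log (max 1 ‖poly g (vs ((τ : ℂ) + (t : ℂ) * Complex.I))‖) -
        Real.log ((1 + B) / η) ≤
        Real.log (max 1 ‖poly (c + (η : ℂ) • g) (vs ((τ : ℂ) + (t : ℂ) * Complex.I))‖) := by
      intro t
      set s : ℂ := (τ : ℂ) + (t : ℂ) * Complex.I with hs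
      have hsre : 0 ≤ s.re := by
        rw [hs]; simp; linarith
      have h1 : ‖poly c (vs s)‖ ≤ B := norm_poly_le c _ (norm_vs_le s hsre)
      have h2 : poly (c + (η : ℂ) • g) (vs s) = poly c (vs s) + η * poly g (vs s) := by
        rw [poly_add, poly_smul]
      set m := max 1 ‖poly (c + (η : ℂ) • g) (vs s)‖ with hm
      have hm1 : 1 ≤ m := le_max_left _ _
      have hm2 : ‖poly (c + (η : ℂ) • g) (vs s)‖ ≤ m := le_max_right _ _
      have hq : 0 < (1 + B) / η := by positivity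
      have h3 : η * ‖poly g (vs s)‖ ≤ m + B := by
        have h4 : (η : ℂ) * poly g (vs s) = poly (c + (η : ℂ) • g) (vs s) - poly c (vs s) := by
          rw [h2]; ring
        calc η * ‖poly g (vs s)‖ = ‖(η : ℂ) * poly g (vs s)‖ := by
              rw [norm_mul, Complex.norm_real, Real.norm_of_nonneg hη0.le]
          _ ≤ ‖poly (c + (η : ℂ) • g) (vs s)‖ + ‖poly c (vs s)‖ := by
              rw [h4]; exact norm_sub_le _ _
          _ ≤ m + B := add_le_add hm2 h1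
      have h5 : max 1 ‖poly g (vs s)‖ ≤ (1 + B) / η * m := by
        refine max_le ?_ ?_
        · rw [div_mul_eq_mul_div, le_div_iff₀ hη0]
          nlinarith
        · rw [div_mul_eq_mul_div, le_div_iff₀ hη0]
          nlinarith
      have h6 := Real.log_le_log (lt_of_lt_of_le one_pos (le_max_left _ _)) h5
      rw [Real.log_mul hq.ne' (by linarith)] at h6
      linarith
    have h1 : ∫ t in (0 : ℝ)..1, (Real.log (max 1 ‖poly g (vs ((τ : ℂ) + (t : ℂ) * Complex.I))‖) -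
        Real.log ((1 + B) / η)) ≤ ∫ t in (0 : ℝ)..1,
        Real.log (max 1 ‖poly (c + (η : ℂ) • g) (vs ((τ : ℂ) + (t : ℂ) * Complex.I))‖) :=
      intervalIntegral.integral_mono_on zero_le_one
        (((hcont g).sub continuous_const).intervalIntegrable _ _)
        ((hcont _).intervalIntegrable _ _) fun t _ => hineq t
    rw [intervalIntegral.integral_sub ((hcont g).intervalIntegrable _ _)
      (continuous_const.intervalIntegrable _ _)] at h1
    have h2 : ∫ _ in (0 : ℝ)..1, Real.log ((1 + B) / η) = Real.log ((1 + B) / η) := by simp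
    rw [h2] at h1
    simp_rw [hpt] at hgA
    linarith

/-- states -/
abbrev St := {p : (ℕ →₀ ℂ) × ℝ // 1 / 2 < p.2}

theorem exists_seq : ∃ (c : ℕ → (ℕ →₀ ℂ)) (σ : ℕ → ℝ), (∀ k, 1 / 2 < σ k) ∧ Antitone σ ∧
    (∀ k, nrm (c (k + 1) - c k) ≤ (1 / 2) ^ k) ∧
    (∀ k, ∀ s : ℂ, σ k ≤ s.re → ‖poly (c (k + 1) - c k) (vs s)‖ ≤ (1 / 2) ^ k) ∧
    ∀ k, ∃ τ : ℝ, σ (k + 1) ≤ τ ∧ τ < 1 ∧ (k : ℝ) ≤ LL (fun s => poly (c (k + 1)) (vs s)) τ := by
  choose F G h1 h2 h3 h4 h5 using step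
  let seq : ℕ → St := fun n => Nat.rec ⟨(0, 1), by norm_num⟩
    (fun k p => ⟨(F k p.1.1 p.1.2 p.2, G k p.1.1 p.1.2 p.2), h1 k p.1.1 p.1.2 p.2⟩) n
  refine ⟨fun k => (seq k).1.1, fun k => (seq k).1.2, fun k => (seq k).2, ?_, ?_, ?_, ?_⟩
  · exact antitone_nat_of_succ_le fun k => h2 k (seq k).1.1 (seq k).1.2 (seq k).2
  · exact fun k => h3 k (seq k).1.1 (seq k).1.2 (seq k).2
  · exact fun k => h4 k (seq k).1.1 (seq k).1.2 (seq k).2
  · exact fun k => h5 k (seq k).1.1 (seq k).1.2 (seq k).2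

end Pool.Agent.Helper873.Hump
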