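import Pool.Agent.Helper873.Jen

set_option autoImplicit false
open MeasureTheory Metric Filter
open scoped ComplexConjugate ENNReal Topology

namespace Pool.Agent.Helper873.HumpTwo

open Pool.Agent.Helper873.OneVar Pool.Agent.Helper873.Pk Pool.Agent.Helper873.Trig
  Pool.Agent.Helper873.Alg Pool.Agent.Helper873.Monomial Pool.Agent.Helper873.Hump
  Pool.Agent.Helper873.Geo Pool.Agent.Helper873.Jen Pool.Agent.Helper873.Rot
  Pool.Agent.Helper873.PartTwo Pool.Agent.Helper873.KPoly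

/-- Dirichlet polynomial on the disc -/
noncomputable def DD (c : ℕ →₀ ℂ) (w : ℂ) : ℂ := poly c (vs (phi w))

lemma phi_zero : phi 0 = 3 / 2 := by unfold phi; norm_num

lemma analytic_DD (c : ℕ →₀ ℂ) : AnalyticOnNhd ℂ (DD c) (ball 0 1) := by
  refine DifferentiableOn.analyticOnNhd ?_ isOpen_ball
  intro w hw
  rw [mem_ball_zero_iff] at hw
  exact ((differentiable_D c _).comp w (differentiableAt_phi hw)).differentiableWithinAt

lemma norm_DD_le (c : ℕ →₀ ℂ) (w : ℂ) (hw : ‖w‖ < 1) : ‖DD c w‖ ≤ sB c := by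
  refine norm_poly_le c _ (norm_vs_le _ ?_)
  have := phi_re_gt hw
  linarith

lemma DD_comb (c g : ℕ →₀ ℂ) (a : ℂ) (w : ℂ) : DD (c + a • g) w = DD c w + a * DD g w := by
  unfold DD
  rw [poly_add, poly_smul]

lemma norm_circleMap_lt {r : ℝ} (hr0 : 0 < r) (hr : r < 1) (β : ℝ) : ‖circleMap 0 r β‖ < 1 := by
  rw [norm_circleMap_zero, abs_of_pos hr0]; exact hr

lemma continuous_DD_circle (c : ℕ →₀ ℂ) {r : ℝ} (hr0 : 0 < r) (hr : r < 1) :
    Continuous fun β : ℝ => DD c (circleMap 0 r β) := by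
  have h1 : ContinuousOn (DD c) (ball 0 1) := (analytic_DD c).continuousOn
  exact h1.comp_continuous (continuous_circleMap 0 r) fun β => by
    rw [mem_ball_zero_iff]; exact norm_circleMap_lt hr0 hr β

theorem step2 (k : ℕ) (c : ℕ →₀ ℂ) (σ η : ℝ) (hσ : 1 / 2 < σ) (hσ1 : σ ≤ 3 / 2) (hη : 0 < η)
    (hc0 : DD c 0 ≠ 0) : ∃ (c' : ℕ →₀ ℂ) (σ' η' : ℝ), 1 / 2 < σ' ∧ σ' ≤ σ ∧ 0 < η' ∧
      η' ≤ η / 2 ∧ DD c' 0 ≠ 0 ∧ 2 * η' ≤ ‖DD c' 0‖ ∧ nrm (c' - c) ≤ (1 / 2) ^ k ∧
      (∀ s : ℂ, σ ≤ s.re → ‖poly (c' - c) (vs s)‖ ≤ η / 2) ∧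
      ∃ r : ℝ, 0 < r ∧ r < 1 ∧ (∀ w : ℂ, ‖w‖ ≤ r → σ' ≤ (phi w).re) ∧
        (∀ w : ℂ, ‖w‖ = r → 2 * η' ≤ ‖DD c' w‖) ∧ (k : ℝ) + 1 ≤ JJ (DD c') r := by
  have hCE := CE_ge_one σ hσ
  have hCE0 : 0 < CE σ := by linarith
  have hc0n : 0 < ‖DD c 0‖ := norm_pos_iff.2 hc0
  set η2 : ℝ := min ((1 / 2) ^ k) (min (η / 2) (‖DD c 0‖ / 2)) with hη2
  have hη20 : 0 < η2 := by
    rw [hη2]
    refine lt_min (by positivity) (lt_min (by positivity) (by positivity))
  set η1 : ℝ := η2 / CE σ with hη1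
  have hη10 : 0 < η1 := by positivity
  have hη12 : η1 ≤ η2 := by
    rw [hη1, div_le_iff₀ hCE0]; nlinarith
  have hη2k : η2 ≤ (1 / 2) ^ k := min_le_left _ _
  have h12 : (1 / 2 : ℝ) ^ k ≤ 1 := pow_le_one₀ (by norm_num) (by norm_num)
  have hη11 : η1 ≤ 1 := by linarith
  set B := sB c with hB
  have hB0 : 0 ≤ B := sB_nonneg c
  set A : ℝ := (100 * Real.pi) * ((k : ℝ) + 1 + Real.log (1 / η1) + 2 * Real.log (1 + B) -
    Real.log ‖DD c 0‖) with hA
  obtain ⟨g, J, hJ, hg1, hgA⟩ := partTwo A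
  have hJ0 : (0 : ℝ) < J := by
    have : 0 < J := by omega
    exact_mod_cast this
  set τ : ℝ := 1 / 2 + 1 / (J : ℝ) with hτ
  have hτ1 : 1 / 2 < τ := by
    have : 0 < 1 / (J : ℝ) := by positivity
    linarith
  have hτ2 : τ < 1 := by
    have : (3 : ℝ) ≤ J := by exact_mod_cast hJ
    have : 1 / (J : ℝ) ≤ 1 / 3 := one_div_le_one_div_of_le (by norm_num) this
    linarith
  obtain ⟨r1, hr10, hr11, htr⟩ := transfer g τ hτ1 hτ2
  obtain ⟨r, hr1r, hr1, hrz⟩ := exists_radius (DD c) (analytic_DD c) hc0 r1 hr10 hr11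
  have hr0 : 0 < r := by linarith
  -- rotation
  obtain ⟨α, hα⟩ := exists_rotation (fun β => DD c (circleMap 0 r β))
    (fun β => (η1 : ℂ) * DD g (circleMap 0 r β)) (continuous_DD_circle c hr0 hr1)
    (continuous_const.mul (continuous_DD_circle g hr0 hr1)) (fun β => hrz _ (by
      rw [norm_circleMap_zero, abs_of_pos hr0]))
  set a : ℂ := circleMap 0 1 α * (η1 : ℂ) with ha
  have han : ‖a‖ = η1 := by
    rw [ha, norm_mul, norm_circleMap_zero, abs_one, one_mul, Complex.norm_real,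
      Real.norm_of_nonneg hη10.le]
  set c' : ℕ →₀ ℂ := c + a • g with hc'
  have hdiff : c' - c = a • g := by rw [hc']; simp
  have hnd : nrm (c' - c) ≤ η1 := by
    rw [hdiff, nrm_smul, han]
    have : nrm g ≤ 1 := hg1
    nlinarith
  have hsup : ∀ s : ℂ, σ ≤ s.re → ‖poly (c' - c) (vs s)‖ ≤ η2 := by
    intro s hs
    refine (eval_le _ σ hσ s hs).trans ?_
    calc CE σ * nrm (c' - c) ≤ CE σ * η1 := by gcongr
      _ = η2 := by rw [hη1]; field_simp
  have hDD' : ∀ w, DD c' w = DD c w + a * DD g w := fun w => DD_comb c g a w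
  have hc'0 : DD c' 0 ≠ 0 := by
    have h1 : ‖DD c' 0 - DD c 0‖ ≤ ‖DD c 0‖ / 2 := by
      have h2 := hsup (phi 0) (by rw [phi_zero]; norm_num; linarith)
      have h3 : poly (c' - c) (vs (phi 0)) = DD c' 0 - DD c 0 := by
        unfold DD; rw [poly_sub]
      rw [h3] at h2
      exact h2.trans ((min_le_right _ _).trans (min_le_right _ _))
    intro h4
    rw [h4, zero_sub, norm_neg] at h1
    linarith
  -- lower bound for the circle average at r
  have hJJr : (k : ℝ) + 1 ≤ JJ (DD c') r := by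
    have h2pi : (0 : ℝ) < 2 * Real.pi := Real.two_pi_pos
    have hac := continuous_DD_circle c hr0 hr1
    have hgc := continuous_DD_circle g hr0 hr1
    have hane : ∀ β : ℝ, ‖DD c (circleMap 0 r β)‖ ≠ 0 := fun β =>
      norm_ne_zero_iff.2 (hrz _ (by rw [norm_circleMap_zero, abs_of_pos hr0]))
    have hlogac : Continuous fun β : ℝ => Real.log ‖DD c (circleMap 0 r β)‖ :=
      Continuous.log hac.norm hane
    have hloggc : Continuous fun β : ℝ => Real.log (max 1 ‖DD g (circleMap 0 r β)‖) :=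
      Continuous.log (continuous_const.max hgc.norm) fun p =>
        (lt_of_lt_of_le one_pos (le_max_left _ _)).ne'
    have hlogmc : Continuous fun β : ℝ => Real.log (max ‖DD c (circleMap 0 r β)‖
        ‖(η1 : ℂ) * DD g (circleMap 0 r β)‖) :=
      Continuous.log (hac.norm.max (continuous_const.mul hgc).norm) fun β =>
        (lt_of_lt_of_le (lt_of_le_of_ne (norm_nonneg _) (Ne.symm (hane β)))
          (le_max_left _ _)).ne'
    have hpt : ∀ β : ℝ, Real.log (max 1 ‖DD g (circleMap 0 r β)‖) +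
        Real.log ‖DD c (circleMap 0 r β)‖ - (Real.log (1 / η1) + 2 * Real.log (1 + B)) ≤
        Real.log (max ‖DD c (circleMap 0 r β)‖ ‖(η1 : ℂ) * DD g (circleMap 0 r β)‖) := by
      intro β
      have hw := norm_circleMap_lt hr0 hr1 β
      have hap : 0 < ‖DD c (circleMap 0 r β)‖ := lt_of_le_of_ne (norm_nonneg _) (Ne.symm (hane β))
      have h1 : ‖DD c (circleMap 0 r β)‖ ≤ B := norm_DD_le c _ hw
      have h2 : Real.log ‖DD c (circleMap 0 r β)‖ ≤ Real.log (1 + B) :=
        Real.log_le_log hap (by linarith)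
      have h3 : 0 ≤ Real.log (1 + B) := Real.log_nonneg (by linarith)
      have h4 : 0 ≤ Real.log (1 / η1) := by
        refine Real.log_nonneg ?_
        rw [one_le_div hη10]; exact hη11
      rcases le_total 1 ‖DD g (circleMap 0 r β)‖ with h | h
      · rw [max_eq_right h]
        have hgp : 0 < ‖DD g (circleMap 0 r β)‖ := by linarith
        have h5 : Real.log ‖(η1 : ℂ) * DD g (circleMap 0 r β)‖ ≤
            Real.log (max ‖DD c (circleMap 0 r β)‖ ‖(η1 : ℂ) * DD g (circleMap 0 r β)‖) := by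
          refine Real.log_le_log ?_ (le_max_right _ _)
          rw [norm_mul, Complex.norm_real, Real.norm_of_nonneg hη10.le]; positivity
        rw [norm_mul, Complex.norm_real, Real.norm_of_nonneg hη10.le,
          Real.log_mul hη10.ne' hgp.ne'] at h5
        have h6 : Real.log (1 / η1) = -Real.log η1 := by rw [one_div, Real.log_inv]
        rw [norm_mul, Complex.norm_real, Real.norm_of_nonneg hη10.le]
        linarith
      · rw [max_eq_left h, Real.log_one]
        have h5 : Real.log ‖DD c (circleMap 0 r β)‖ ≤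
            Real.log (max ‖DD c (circleMap 0 r β)‖ ‖(η1 : ℂ) * DD g (circleMap 0 r β)‖) :=
          Real.log_le_log hap (le_max_left _ _)
        linarith
    have hsc : Continuous fun β : ℝ => Real.log (max 1 ‖DD g (circleMap 0 r β)‖) +
        Real.log ‖DD c (circleMap 0 r β)‖ := hloggc.add hlogac
    have hI1 : ∫ β in (0 : ℝ)..(2 * Real.pi), (Real.log (max 1 ‖DD g (circleMap 0 r β)‖) +
        Real.log ‖DD c (circleMap 0 r β)‖ - (Real.log (1 / η1) + 2 * Real.log (1 + B))) ≤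
        ∫ β in (0 : ℝ)..(2 * Real.pi), Real.log (max ‖DD c (circleMap 0 r β)‖
          ‖(η1 : ℂ) * DD g (circleMap 0 r β)‖) :=
      intervalIntegral.integral_mono_on h2pi.le
        ((hsc.sub continuous_const).intervalIntegrable _ _)
        (hlogmc.intervalIntegrable _ _) fun β _ => hpt β
    rw [intervalIntegral.integral_sub (hsc.intervalIntegrable _ _)
      (continuous_const.intervalIntegrable _ _),
      intervalIntegral.integral_add (hloggc.intervalIntegrable _ _)
      (hlogac.intervalIntegrable _ _), intervalIntegral.integral_const, sub_zero,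
      smul_eq_mul] at hI1
    -- the three circle averages
    have hav1 : ∫ β in (0 : ℝ)..(2 * Real.pi), Real.log ‖DD c (circleMap 0 r β)‖ =
        2 * Real.pi * JJ (DD c) r := by
      unfold JJ
      rw [Real.circleAverage_def, smul_eq_mul, ← mul_assoc, mul_inv_cancel₀ h2pi.ne', one_mul]
    have hav2 : ∫ β in (0 : ℝ)..(2 * Real.pi), Real.log (max 1 ‖DD g (circleMap 0 r β)‖) =
        2 * Real.pi * ∫ θ, Real.log (max 1 ‖poly g (vs (phi (r * zet θ)))‖) ∂mu := by
      have h1 := integral_zet (fun z : ℂ => Real.log (max 1 ‖poly g (vs (phi (r * z)))‖))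
      rw [h1, Real.circleAverage_def, smul_eq_mul, ← mul_assoc, mul_inv_cancel₀ h2pi.ne', one_mul]
      refine intervalIntegral.integral_congr fun β _ => ?_
      simp only [DD]
      congr 5
      simp [circleMap]
    have hav3 : ∫ β in (0 : ℝ)..(2 * Real.pi), Real.log ‖DD c (circleMap 0 r β) +
        circleMap 0 1 α * ((η1 : ℂ) * DD g (circleMap 0 r β))‖ = 2 * Real.pi * JJ (DD c') r := by
      unfold JJ
      rw [Real.circleAverage_def, smul_eq_mul, ← mul_assoc, mul_inv_cancel₀ h2pi.ne', one_mul]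
      refine intervalIntegral.integral_congr fun β _ => ?_
      rw [hDD', ha]
      congr 2
      ring
    rw [hav3] at hα
    rw [hav1, hav2] at hI1
    have hchain := hI1.trans hα
    have hjen := jensen_ineq (DD c) r hr0 ((analytic_DD c).mono (closedBall_subset_ball hr1)) hc0
    have htrr := htr r hr1r hr1
    have hLLA : A ≤ LL (fun s => poly g (vs s)) τ := hgA
    set X := ∫ θ, Real.log (max 1 ‖poly g (vs (phi (r * zet θ)))‖) ∂mu with hX
    have hAX : (100 * Real.pi) * ((k : ℝ) + 1 + Real.log (1 / η1) + 2 * Real.log (1 + B) -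
      Real.log ‖DD c 0‖) ≤ (100 * Real.pi) * X := hLLA.trans htrr
    have hX1 := le_of_mul_le_mul_left hAX (by positivity)
    have h7 : 2 * Real.pi * (X + JJ (DD c) r - (Real.log (1 / η1) + 2 * Real.log (1 + B))) ≤
        2 * Real.pi * JJ (DD c') r := by
      linarith
    have h8 := le_of_mul_le_mul_left h7 h2pi
    linarith
  -- better radius
  obtain ⟨r', hrr', hr'1, hr'z⟩ := exists_radius (DD c') (analytic_DD c') hc'0 r hr0 hr1
  have hr'0 : 0 < r' := by linarith
  have hJJr' : (k : ℝ) + 1 ≤ JJ (DD c') r' :=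
    hJJr.trans (jensen_mono (DD c') r r' hr0 hrr'.le
      ((analytic_DD c').mono (closedBall_subset_ball hr'1)) hc'0)
  -- minimum on the circle
  have hne : (sphere (0 : ℂ) r').Nonempty := NormedSpace.sphere_nonempty.2 hr'0.le
  obtain ⟨w0, hw0, hmin⟩ := (isCompact_sphere (0 : ℂ) r').exists_isMinOn hne
    (((analytic_DD c').continuousOn.mono (fun w hw => by
      rw [mem_sphere_zero_iff_norm] at hw
      rw [mem_ball_zero_iff, hw]; exact hr'1)).norm)
  have hw0' : ‖w0‖ = r' := mem_sphere_zero_iff_norm.1 hw0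
  have hm0 : 0 < ‖DD c' w0‖ := norm_pos_iff.2 (hr'z w0 hw0')
  have hc'0n : 0 < ‖DD c' 0‖ := norm_pos_iff.2 hc'0
  set η' : ℝ := min (η / 2) (min (‖DD c' w0‖ / 2) (‖DD c' 0‖ / 2)) with hη'
  have hr'2 : 0 < (1 - r' ^ 2) / 4 := by
    have : 0 < 1 - r' ^ 2 := by nlinarith
    positivity
  refine ⟨c', min σ (1 / 2 + (1 - r' ^ 2) / 4), η', lt_min hσ (by linarith), min_le_left _ _,
    lt_min (by positivity) (lt_min (by positivity) (by positivity)), min_le_left _ _, hc'0, ?_,
    hnd.trans (hη12.trans hη2k), fun s hs => (hsup s hs).trans ((min_le_right _ _).trans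
      (min_le_left _ _)), r', hr'0, hr'1, ?_, ?_, hJJr'⟩
  · have : η' ≤ ‖DD c' 0‖ / 2 := (min_le_right _ _).trans (min_le_right _ _)
    linarith
  · intro w hw
    exact (min_le_right _ _).trans (phi_re_ge hr'1 hw)
  · intro w hw
    have h1 : η' ≤ ‖DD c' w0‖ / 2 := (min_le_right _ _).trans (min_le_left _ _)
    have h2 : ‖DD c' w0‖ ≤ ‖DD c' w‖ := hmin (mem_sphere_zero_iff_norm.2 hw)
    linarith

end Pool.Agent.Helper873.HumpTwo
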