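import Pool.Agent.Helper873.Rot

set_option autoImplicit false
open MeasureTheory Metric Filter
open scoped ComplexConjugate ENNReal Topology

namespace Pool.Agent.Helper873.Jen

/-- circle average of the logarithm -/
noncomputable def JJ (g : ℂ → ℂ) (r : ℝ) : ℝ := Real.circleAverage (fun z => Real.log ‖g z‖) 0 r

lemma div_eq (g : ℂ → ℂ) (R : ℝ) (hg : AnalyticOnNhd ℂ g (closedBall 0 R)) (u : ℂ)
    (hu : u ∈ closedBall (0 : ℂ) R) :
    MeromorphicOn.divisor g (closedBall 0 R) u = (analyticOrderNatAt g u : ℤ) := by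
  rw [MeromorphicOn.AnalyticOnNhd.divisor_apply hg hu]
  unfold analyticOrderNatAt
  cases h : analyticOrderAt g u with
  | top => simp
  | coe n => simp

/-- Jensen's formula with a finite set of zeros. -/
theorem jensen (g : ℂ → ℂ) (R : ℝ) (hR : 0 < R) (hg : AnalyticOnNhd ℂ g (closedBall 0 R))
    (hg0 : g 0 ≠ 0) : ∃ S : Finset ℂ, (∀ u, u ∈ S ↔ (‖u‖ ≤ R ∧ analyticOrderNatAt g u ≠ 0)) ∧
      JJ g R = ∑ u ∈ S, (analyticOrderNatAt g u : ℝ) * Real.log (R / ‖u‖) + Real.log ‖g 0‖ := by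
  classical
  have habs : |R| = R := abs_of_pos hR
  have hg' : AnalyticOnNhd ℂ g (closedBall 0 |R|) := by rw [habs]; exact hg
  have h1 := hg'.circleAverage_log_norm hR.ne' hg0
  rw [habs] at h1
  have hfin : (MeromorphicOn.divisor g (closedBall (0 : ℂ) R)).support.Finite :=
    (MeromorphicOn.divisor g (closedBall (0 : ℂ) R)).finiteSupport (isCompact_closedBall 0 R)
  refine ⟨hfin.toFinset, fun u => ?_, ?_⟩
  · rw [Set.Finite.mem_toFinset, Function.mem_support]
    by_cases hu : u ∈ closedBall (0 : ℂ) R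
    · rw [div_eq g R hg u hu]
      rw [mem_closedBall_zero_iff] at hu
      simp only [hu, true_and]
      exact_mod_cast Iff.rfl
    · have h2 : MeromorphicOn.divisor g (closedBall (0 : ℂ) R) u = 0 :=
        Function.locallyFinsuppWithin.apply_eq_zero_of_notMem _ hu
      rw [mem_closedBall_zero_iff] at hu
      simp [h2, hu]
  · unfold JJ
    rw [h1]
    congr 1
    rw [finsum_eq_sum_of_support_subset (s := hfin.toFinset)]
    · refine Finset.sum_congr rfl fun u hu => ?_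
      rw [Set.Finite.mem_toFinset, Function.mem_support] at hu
      have hu' : u ∈ closedBall (0 : ℂ) R := by
        by_contra h
        exact hu (Function.locallyFinsuppWithin.apply_eq_zero_of_notMem _ h)
      rw [div_eq g R hg u hu', zero_sub, norm_neg]
      push_cast
      rfl
    · intro u hu
      rw [Set.Finite.coe_toFinset, Function.mem_support]
      intro h0
      rw [Function.mem_support, h0] at hu
      simp at hu

lemma order_zero_iff (g : ℂ → ℂ) (u : ℂ) (hg : AnalyticAt ℂ g u)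
    (h : analyticOrderNatAt g u ≠ 0) : g u = 0 := by
  by_contra hne
  have h1 : analyticOrderAt g u = 0 := hg.analyticOrderAt_eq_zero.2 hne
  apply h
  unfold analyticOrderNatAt
  rw [h1]; rfl

lemma term_nonneg (g : ℂ → ℂ) (R : ℝ) (u : ℂ) (hu : ‖u‖ ≤ R) (hu0 : u ≠ 0) :
    0 ≤ (analyticOrderNatAt g u : ℝ) * Real.log (R / ‖u‖) := by
  have h1 : 0 < ‖u‖ := norm_pos_iff.2 hu0
  have h2 : 1 ≤ R / ‖u‖ := by rw [one_le_div h1]; exact hu
  have := Real.log_nonneg h2
  positivity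

lemma ne_zero_of_order (g : ℂ → ℂ) (u : ℂ) (hg : AnalyticAt ℂ g u) (hg0 : g 0 ≠ 0)
    (h : analyticOrderNatAt g u ≠ 0) : u ≠ 0 := by
  rintro rfl
  exact hg0 (order_zero_iff g 0 hg h)

/-- Jensen's inequality -/
lemma jensen_ineq (g : ℂ → ℂ) (R : ℝ) (hR : 0 < R) (hg : AnalyticOnNhd ℂ g (closedBall 0 R))
    (hg0 : g 0 ≠ 0) : Real.log ‖g 0‖ ≤ JJ g R := by
  obtain ⟨S, hS, hJ⟩ := jensen g R hR hg hg0
  rw [hJ]
  have : 0 ≤ ∑ u ∈ S, (analyticOrderNatAt g u : ℝ) * Real.log (R / ‖u‖) := by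
    refine Finset.sum_nonneg fun u hu => ?_
    obtain ⟨h1, h2⟩ := (hS u).1 hu
    exact term_nonneg g R u h1 (ne_zero_of_order g u (hg u (mem_closedBall_zero_iff.2 h1)) hg0 h2)
  linarith

/-- monotonicity in the radius -/
lemma jensen_mono (g : ℂ → ℂ) (r R : ℝ) (hr : 0 < r) (hrR : r ≤ R)
    (hg : AnalyticOnNhd ℂ g (closedBall 0 R)) (hg0 : g 0 ≠ 0) : JJ g r ≤ JJ g R := by
  have hR : 0 < R := by linarith
  have hgr : AnalyticOnNhd ℂ g (closedBall 0 r) := hg.mono (closedBall_subset_closedBall hrR)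
  obtain ⟨S, hS, hJ⟩ := jensen g R hR hg hg0
  obtain ⟨S', hS', hJ'⟩ := jensen g r hr hgr hg0
  rw [hJ, hJ']
  have hsub : S' ⊆ S := by
    intro u hu
    obtain ⟨h1, h2⟩ := (hS' u).1 hu
    exact (hS u).2 ⟨h1.trans hrR, h2⟩
  have h3 : ∑ u ∈ S', (analyticOrderNatAt g u : ℝ) * Real.log (r / ‖u‖) ≤
      ∑ u ∈ S', (analyticOrderNatAt g u : ℝ) * Real.log (R / ‖u‖) := by
    refine Finset.sum_le_sum fun u hu => ?_
    obtain ⟨h1, h2⟩ := (hS' u).1 hu
    have hu0 := ne_zero_of_order g u (hgr u (mem_closedBall_zero_iff.2 h1)) hg0 h2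
    have h4 : 0 < ‖u‖ := norm_pos_iff.2 hu0
    refine mul_le_mul_of_nonneg_left ?_ (Nat.cast_nonneg _)
    exact Real.log_le_log (by positivity) (by gcongr)
  have h5 : ∑ u ∈ S', (analyticOrderNatAt g u : ℝ) * Real.log (R / ‖u‖) ≤
      ∑ u ∈ S, (analyticOrderNatAt g u : ℝ) * Real.log (R / ‖u‖) := by
    refine Finset.sum_le_sum_of_subset_of_nonneg hsub fun u hu _ => ?_
    obtain ⟨h1, h2⟩ := (hS u).1 hu
    exact term_nonneg g R u h1 (ne_zero_of_order g u (hg u (mem_closedBall_zero_iff.2 h1)) hg0 h2)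
  linarith

/-- zeros have positive order -/
lemma order_ne_zero (g : ℂ → ℂ) (R : ℝ) (hg : AnalyticOnNhd ℂ g (ball 0 R)) (hR : 0 < R)
    (hg0 : g 0 ≠ 0) (u : ℂ) (hu : ‖u‖ < R) (h : g u = 0) : analyticOrderNatAt g u ≠ 0 := by
  have hu' : u ∈ ball (0 : ℂ) R := mem_ball_zero_iff.2 hu
  have h1 : analyticOrderAt g u ≠ 0 := by
    rw [Ne, (hg u hu').analyticOrderAt_eq_zero]
    exact fun h2 => h2 h
  have h2 : analyticOrderAt g u ≠ ⊤ := by
    intro htop
    rw [analyticOrderAt_eq_top] at htop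
    have h3 := hg.eqOn_zero_of_preconnected_of_eventuallyEq_zero
      (convex_ball (0 : ℂ) R).isPreconnected hu' htop
    exact hg0 (h3 (mem_ball_self hR))
  intro h3
  unfold analyticOrderNatAt at h3
  rw [ENat.toNat_eq_zero] at h3
  rcases h3 with h3 | h3
  · exact h1 h3
  · exact h2 h3

/-- circles free of zeros -/
lemma exists_radius (g : ℂ → ℂ) (hg : AnalyticOnNhd ℂ g (ball 0 1)) (hg0 : g 0 ≠ 0) (r0 : ℝ)
    (hr0 : 0 < r0) (hr1 : r0 < 1) : ∃ r, r0 < r ∧ r < 1 ∧ ∀ w : ℂ, ‖w‖ = r → g w ≠ 0 := by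
  classical
  set R : ℝ := (r0 + 1) / 2 with hR
  have hR0 : 0 < R := by linarith
  have hR1 : R < 1 := by linarith
  have hgR : AnalyticOnNhd ℂ g (closedBall 0 R) := hg.mono (closedBall_subset_ball hR1)
  obtain ⟨S, hS, _⟩ := jensen g R hR0 hgR hg0
  have hfin : (S.image fun u => ‖u‖ : Set ℝ).Finite := (S.image fun u => ‖u‖).finite_toSet
  have hinf : (Set.Ioo r0 R).Infinite := Set.Ioo_infinite (by linarith)
  obtain ⟨r, hr, hrS⟩ := hinf.exists_notMem_finite hfin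
  refine ⟨r, hr.1, by linarith [hr.2], fun w hw h0 => hrS ?_⟩
  have h1 := order_ne_zero g 1 hg one_pos hg0 w (by linarith [hr.2]) h0
  have h2 : w ∈ S := (hS w).2 ⟨by linarith [hr.2], h1⟩
  simp only [Finset.coe_image, Set.mem_image, Finset.mem_coe]
  exact ⟨w, h2, hw⟩

end Pool.Agent.Helper873.Jen
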