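import Pool.Agent.Helper873.Block

set_option autoImplicit false
open MeasureTheory Metric Filter
open scoped ComplexConjugate ENNReal Topology

namespace Pool.Agent.Helper873.Multi

open Pool.Agent.Helper873.OneVar Pool.Agent.Helper873.Pk Pool.Agent.Helper873.Product
  Pool.Agent.Helper873.NT Pool.Agent.Helper873.Block

/-- the contraction constant -/
noncomputable def c0 : ℝ := 4 * Real.exp (-48)

lemma c0_pos : 0 < c0 := by unfold c0; positivity

lemma exp48 : Real.exp 48 * Real.exp (-48) = 1 := by rw [← Real.exp_add]; norm_num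

lemma exp48_small : Real.exp (-48) ≤ 1 / 8 := by
  have h1 : (8 : ℝ) ≤ Real.exp 48 := by
    have := Real.add_one_le_exp (48 : ℝ)
    linarith
  have h2 := exp48
  have h3 := Real.exp_pos (-48)
  nlinarith

lemma c0_lt_one : c0 < 1 := by
  unfold c0
  have := exp48_small
  linarith

theorem multi (A : ℝ) (hA : 1 ≤ A) (n : ℕ) : ∃ Ns b : ℕ, 1 ≤ b ∧ ∃ T : Finset ℕ, T.card ≤ n ∧
    ∀ m : ℕ, 2 ≤ m → ∀ a < b * m, ∃ Q : (ℕ → UnitAddCircle) → ℝ, Continuous Q ∧
      (∀ z, 0 ≤ Q z) ∧ (∀ z z' : ℕ → UnitAddCircle, (∀ j < Ns, z j = z' j) → Q z = Q z') ∧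
      ∫ z, W (b * m) Ns a z * Q z ∂tor ≤ (1 - c0) ^ n ∧
      ∀ z, (∃ N ∈ T, A ≤ MM (b * m) N z) ∨ 1 ≤ Q z := by
  classical
  induction n with
  | zero =>
    refine ⟨0, 1, le_rfl, ∅, by simp, fun m _ a _ => ⟨fun _ => 1, continuous_const,
      fun _ => zero_le_one, fun _ _ _ => rfl, ?_, fun z => Or.inr le_rfl⟩⟩
    simp only [mul_one, pow_zero]
    rw [integral_W]
  | succ n ih =>
    obtain ⟨Ns, b, hb, T, hT, hQ⟩ := ih
    obtain ⟨B, hB⟩ := block A hA Ns
    have hBb : B ≤ b * (B + 1) := by nlinarith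
    obtain ⟨hN, hb2, hblock⟩ := hB (b * (B + 1)) hBb
    set N := NN (b * (B + 1)) with hNdef
    refine ⟨N, b * (B + 1), by omega, insert N T, ?_, fun m hm a ha => ?_⟩
    · exact (Finset.card_insert_le _ _).trans (by omega)
    obtain ⟨h, hhc, hhp, hE1, hE2, hdich⟩ := hblock m hm a ha
    have hJ : b * (B + 1) * m = b * ((B + 1) * m) := by ring
    have ha' : a < b * ((B + 1) * m) := by rw [← hJ]; exact ha
    obtain ⟨Q, hQc, hQ0, hQd, hQi, hQdich⟩ := hQ ((B + 1) * m) (by nlinarith) a ha'
    rw [← hJ] at hQi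
    simp_rw [← hJ] at hQdich
    set J := b * (B + 1) * m with hJdef
    set s : ℝ := 2 * Real.exp (-48) with hs
    have hs0 : 0 < s := by positivity
    set ZZ : (ℕ → UnitAddCircle) → ℝ := fun z => ∏ k ∈ Finset.Ico Ns N, h k (z k) with hZZ
    have hZc : Continuous ZZ := continuous_finsetProd _ fun k _ =>
      (hhc k).comp (continuous_apply k)
    refine ⟨fun z => Q z * (1 - s * (ZZ z - 2)) ^ 2, ?_, ?_, ?_, ?_, ?_⟩
    · exact hQc.mul ((continuous_const.sub (continuous_const.mul
        (hZc.sub continuous_const))).pow 2)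
    · intro z
      exact mul_nonneg (hQ0 z) (sq_nonneg _)
    · intro z z' hz
      have h1 : ZZ z = ZZ z' := by
        refine Finset.prod_congr rfl fun k hk => ?_
        rw [Finset.mem_Ico] at hk
        rw [hz k hk.2]
      simp only [h1, hQd z z' fun j hj => hz j (lt_of_lt_of_le hj hN)]
    · have i1 := integral_W_mul J Ns N a hN Q hQc hQd (fun _ _ => 1) (fun _ => continuous_const)
      have i2 := integral_W_mul J Ns N a hN Q hQc hQd h hhc
      have i3 := integral_W_mul J Ns N a hN Q hQc hQd (fun k t => (h k t) ^ 2)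
        (fun k => (hhc k).pow 2)
      set I := ∫ z, W J Ns a z * Q z ∂tor with hI
      set E1 := ∏ k ∈ Finset.Ico Ns N, ∫ t, pk (al J a k) t * h k t ∂mu with hE1def
      set E2 := ∏ k ∈ Finset.Ico Ns N, ∫ t, pk (al J a k) t * (h k t) ^ 2 ∂mu with hE2def
      have hI0 : 0 ≤ I := integral_nonneg fun z => mul_nonneg (W_pos _ _ _ _).le (hQ0 z)
      have hone : ∏ k ∈ Finset.Ico Ns N, ∫ t, pk (al J a k) t * 1 ∂mu = 1 := by
        refine Finset.prod_eq_one fun k _ => ?_
        simp only [mul_one]
        exact integral_pk (norm_al_lt J a k)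
      rw [hone, mul_one] at i1
      simp only [Finset.prod_const_one, mul_one] at i1
      have hc1 : Continuous fun z => W J N a z * Q z := (continuous_W J N a).mul hQc
      have hc2 : Continuous fun z => W J N a z * (Q z * ZZ z) :=
        (continuous_W J N a).mul (hQc.mul hZc)
      have hc3 : Continuous fun z => W J N a z * (Q z * ∏ k ∈ Finset.Ico Ns N, (h k (z k)) ^ 2) :=
        (continuous_W J N a).mul (hQc.mul (continuous_finsetProd _ fun k _ =>
          ((hhc k).comp (continuous_apply k)).pow 2))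
      have e : ∀ z, W J N a z * (Q z * (1 - s * (ZZ z - 2)) ^ 2) =
          (1 + 2 * s) ^ 2 * (W J N a z * Q z) + (-(2 * s * (1 + 2 * s))) *
            (W J N a z * (Q z * ZZ z)) +
          s ^ 2 * (W J N a z * (Q z * ∏ k ∈ Finset.Ico Ns N, (h k (z k)) ^ 2)) := by
        intro z
        have h1 : ∏ k ∈ Finset.Ico Ns N, (h k (z k)) ^ 2 = (ZZ z) ^ 2 := by
          rw [hZZ, Finset.prod_pow]
        rw [h1]; ring
      simp_rw [e]
      have hA12 : Integrable (fun z => (1 + 2 * s) ^ 2 * (W J N a z * Q z) +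
          (-(2 * s * (1 + 2 * s))) * (W J N a z * (Q z * ZZ z))) tor :=
        ((integrable_torR hc1).const_mul _).add ((integrable_torR hc2).const_mul _)
      rw [integral_add hA12 ((integrable_torR hc3).const_mul _),
        integral_add ((integrable_torR hc1).const_mul _) ((integrable_torR hc2).const_mul _),
        integral_const_mul, integral_const_mul, integral_const_mul, i1, i3]
      have i2' : ∫ z, W J N a z * (Q z * ZZ z) ∂tor = I * E1 := i2
      rw [i2']
      have h5 : (1 + 2 * s) ^ 2 + (-(2 * s * (1 + 2 * s))) * E1 + s ^ 2 * E2 ≤ 1 - c0 := by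
        have h6 : s ^ 2 * E2 ≤ s ^ 2 * Real.exp 48 := by gcongr
        have h7 : 2 * s * (1 + 2 * s) * 4 ≤ 2 * s * (1 + 2 * s) * E1 := by gcongr
        have h8 : s ^ 2 * Real.exp 48 = 2 * s := by
          rw [hs]
          linear_combination (4 * Real.exp (-48)) * exp48
        have h9 : c0 = 2 * s := by rw [hs]; unfold c0; ring
        nlinarith
      calc (1 + 2 * s) ^ 2 * I + (-(2 * s * (1 + 2 * s))) * (I * E1) + s ^ 2 * (I * E2)
          = I * ((1 + 2 * s) ^ 2 + (-(2 * s * (1 + 2 * s))) * E1 + s ^ 2 * E2) := by ring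
        _ ≤ I * (1 - c0) := mul_le_mul_of_nonneg_left h5 hI0
        _ ≤ (1 - c0) ^ n * (1 - c0) :=
            mul_le_mul_of_nonneg_right hQi (by linarith [c0_lt_one])
        _ = (1 - c0) ^ (n + 1) := by rw [pow_succ]
    · intro z
      rcases hQdich z with ⟨N', hN', h1⟩ | h1
      · exact Or.inl ⟨N', Finset.mem_insert_of_mem hN', h1⟩
      · rcases hdich z with h2 | h2
        · exact Or.inl ⟨N, Finset.mem_insert_self _ _, h2⟩
        · right
          have h3 : ZZ z ≤ 2 := h2
          have h4 : 1 ≤ (1 - s * (ZZ z - 2)) ^ 2 := by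
            have : 0 ≤ s * (2 - ZZ z) := mul_nonneg hs0.le (by linarith)
            nlinarith
          calc (1 : ℝ) = 1 * 1 := by norm_num
            _ ≤ Q z * (1 - s * (ZZ z - 2)) ^ 2 := mul_le_mul h1 h4 zero_le_one (hQ0 z)

/-- **Part 1.** The square roots of the averaged weights are small. -/
theorem small_sqrt (ε : ℝ) (hε : 0 < ε) : ∃ N0 b : ℕ, 1 ≤ b ∧ ∀ m : ℕ, 2 ≤ m → ∀ N ≥ N0,
    ∫ z, Real.sqrt (MM (b * m) N z) ∂tor ≤ ε := by
  classical
  set e : ℝ := ε / 2 with he
  have he0 : 0 < e := by positivity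
  -- choose n
  have hlim : Tendsto (fun n : ℕ => ((n : ℝ) + 1) * (1 - c0) ^ n) atTop (𝓝 0) := by
    have h1 := tendsto_self_mul_const_pow_of_lt_one (r := 1 - c0) (by linarith [c0_lt_one])
      (by linarith [c0_pos])
    have h2 := tendsto_pow_atTop_nhds_zero_of_lt_one (r := 1 - c0) (by linarith [c0_lt_one])
      (by linarith [c0_pos])
    have h3 := h1.add h2
    rw [add_zero] at h3
    refine h3.congr fun n => ?_
    ring
  obtain ⟨n, hn⟩ := ((tendsto_order.1 hlim).2 (e ^ 2) (by positivity)).exists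
  set A : ℝ := max 1 (((n : ℝ) + 1) / e ^ 2) with hA
  have hA1 : 1 ≤ A := le_max_left _ _
  have hA2 : ((n : ℝ) + 1) / A ≤ e ^ 2 := by
    rw [div_le_iff₀ (by linarith)]
    have := le_max_right 1 (((n : ℝ) + 1) / e ^ 2)
    rw [← hA, div_le_iff₀ (by positivity)] at this
    linarith
  obtain ⟨Ns, b, hb, T, hT, hQ⟩ := multi A hA1 n
  refine ⟨Ns, b, hb, fun m hm N hN => ?_⟩
  set J := b * m with hJ
  have hJ1 : 1 ≤ J := by rw [hJ]; nlinarith
  have hJr : (0 : ℝ) < J := by exact_mod_cast hJ1
  set Y : (ℕ → UnitAddCircle) → ℝ := fun z => (1 + ∑ i ∈ T, MM J i z) / (n + 1) with hY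
  have hYc : Continuous Y := (continuous_const.add (continuous_finsetSum _ fun i _ =>
    continuous_MM J i)).div_const _
  have hn1 : (0 : ℝ) < (n : ℝ) + 1 := by positivity
  have hsumT : ∀ z, 0 ≤ ∑ i ∈ T, MM J i z := fun z =>
    Finset.sum_nonneg fun i _ => (MM_pos J i hJ1 z).le
  have hYpos : ∀ z, 0 < Y z := fun z => by
    have := hsumT z
    simp only [hY]; positivity
  have hY1 : ∀ z, 1 / (n + 1) ≤ Y z := fun z => by
    have := hsumT z
    simp only [hY]
    gcongr
    linarith
  have hIY : ∫ z, Y z ∂tor ≤ 1 := by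
    simp only [hY]
    rw [integral_div, integral_add (integrable_const _)
      (integrable_finsetSum _ fun i _ => integrable_torR (continuous_MM J i)),
      integral_finsetSum _ fun i _ => integrable_torR (continuous_MM J i)]
    simp_rw [integral_MM J _ hJ1]
    rw [div_le_one hn1]
    have : (T.card : ℝ) ≤ n := by exact_mod_cast hT
    simp
    linarith
  have hWY : ∀ a < J, ∫ z, W J N a z / Y z ∂tor ≤ 2 * e ^ 2 := by
    intro a ha
    obtain ⟨Q, hQc, hQ0, hQd, hQi, hQdich⟩ := hQ m hm a ha
    rw [← hJ] at hQi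
    have h1 : ∀ z, W J N a z / Y z ≤ (n + 1) / A * W J N a z + (n + 1) * (W J N a z * Q z) := by
      intro z
      have hW := W_pos J N a z
      have hinv : 1 / Y z ≤ (n + 1) / A + (n + 1) * Q z := by
        rcases hQdich z with ⟨i, hi, h2⟩ | h2
        · rw [← hJ] at h2
          have h3 : A / (n + 1) ≤ Y z := by
            simp only [hY]
            gcongr
            have h4 := Finset.single_le_sum (f := fun i => MM J i z)
              (fun i _ => (MM_pos J i hJ1 z).le) hi
            linarith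
          have h5 : 1 / Y z ≤ (n + 1) / A := by
            rw [div_le_div_iff₀ (hYpos z) (by linarith)]
            rw [div_le_iff₀ hn1] at h3
            linarith
          have h6 : 0 ≤ (n + 1) * Q z := mul_nonneg hn1.le (hQ0 z)
          linarith
        · have h3 := hY1 z
          have h4 : 1 / Y z ≤ n + 1 := by
            rw [div_le_iff₀ (hYpos z)]
            rw [div_le_iff₀ hn1] at h3
            linarith
          have h5 : (n + 1 : ℝ) * 1 ≤ (n + 1) * Q z := by gcongr
          have h6 : 0 ≤ (n + 1 : ℝ) / A := by positivity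
          linarith
      calc W J N a z / Y z = W J N a z * (1 / Y z) := by ring
        _ ≤ W J N a z * ((n + 1) / A + (n + 1) * Q z) :=
            mul_le_mul_of_nonneg_left hinv hW.le
        _ = _ := by ring
    have hi1 := integrable_torR (continuous_W J N a)
    have hi2 := integrable_torR ((continuous_W J N a).mul hQc)
    have hi3 : Integrable (fun z => W J N a z / Y z) tor :=
      integrable_torR ((continuous_W J N a).div hYc fun z => (hYpos z).ne')
    have hi4 : Integrable (fun z => (n + 1) / A * W J N a z + (n + 1) * (W J N a z * Q z)) tor :=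
      (hi1.const_mul _).add (hi2.const_mul _)
    refine (integral_mono hi3 hi4 h1).trans ?_
    have hi5 : Integrable (fun z => W J N a z * Q z) tor := hi2
    rw [integral_add (hi1.const_mul _) (hi5.const_mul _), integral_const_mul, integral_const_mul,
      integral_W, integral_W_mul' J Ns N a hN Q hQc hQd]
    have h2 : ((n : ℝ) + 1) * ∫ z, W J Ns a z * Q z ∂tor ≤ (n + 1) * (1 - c0) ^ n := by gcongr
    linarith
  have hMY : ∫ z, MM J N z / Y z ∂tor ≤ 2 * e ^ 2 := by
    have e1 : ∀ z, MM J N z / Y z = (1 / (J : ℝ)) * ∑ a ∈ Finset.range J, W J N a z / Y z := by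
      intro z
      unfold MM
      rw [mul_div_assoc, Finset.sum_div]
    simp_rw [e1]
    have hia : ∀ a, Integrable (fun z => W J N a z / Y z) tor := fun a =>
      integrable_torR ((continuous_W J N a).div hYc fun z => (hYpos z).ne')
    rw [integral_const_mul, integral_finsetSum _ fun a _ => hia a]
    have h1 : ∑ a ∈ Finset.range J, ∫ z, W J N a z / Y z ∂tor ≤ J * (2 * e ^ 2) := by
      have := Finset.sum_le_card_nsmul (Finset.range J) _ (2 * e ^ 2) fun a ha =>
        hWY a (Finset.mem_range.1 ha)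
      rwa [Finset.card_range, nsmul_eq_mul] at this
    calc (1 / (J : ℝ)) * ∑ a ∈ Finset.range J, ∫ z, W J N a z / Y z ∂tor
        ≤ (1 / (J : ℝ)) * (J * (2 * e ^ 2)) := by gcongr
      _ = 2 * e ^ 2 := by field_simp
  have hpt : ∀ z, Real.sqrt (MM J N z) ≤ e / 2 * Y z + 1 / (2 * e) * (MM J N z / Y z) := by
    intro z
    have hM := MM_pos J N hJ1 z
    have hYz := hYpos z
    rw [Real.sqrt_le_left (by positivity)]
    have h1 : e / 2 * Y z + 1 / (2 * e) * (MM J N z / Y z) =
        (e ^ 2 * (Y z) ^ 2 + MM J N z) / (2 * e * Y z) := by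
      field_simp
    rw [h1, div_pow, le_div_iff₀ (by positivity)]
    nlinarith [sq_nonneg (e ^ 2 * (Y z) ^ 2 - MM J N z)]
  have hi1 : Integrable (fun z => Real.sqrt (MM J N z)) tor :=
    integrable_torR (Real.continuous_sqrt.comp (continuous_MM J N))
  have hi2 : Integrable (fun z => MM J N z / Y z) tor :=
    integrable_torR ((continuous_MM J N).div hYc fun z => (hYpos z).ne')
  have hi3 : Integrable Y tor := integrable_torR hYc
  have hi4 : Integrable (fun z => e / 2 * Y z + 1 / (2 * e) * (MM J N z / Y z)) tor :=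
    (hi3.const_mul _).add (hi2.const_mul _)
  refine (integral_mono hi1 hi4 hpt).trans ?_
  rw [integral_add (hi3.const_mul _) (hi2.const_mul _), integral_const_mul, integral_const_mul]
  have h1 : e / 2 * ∫ z, Y z ∂tor ≤ e / 2 * 1 := by gcongr
  have h2 : 1 / (2 * e) * ∫ z, MM J N z / Y z ∂tor ≤ 1 / (2 * e) * (2 * e ^ 2) := by gcongr
  have h3 : 1 / (2 * e) * (2 * e ^ 2) = e := by field_simp
  have h4 : ε = 2 * e := by rw [he]; ring
  linarith

end Pool.Agent.Helper873.Multi
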