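import Pool.Agent.Helper873.Cartan
import Pool.Agent.Helper873.Multi
import Pool.Agent.Helper873.Alg

set_option autoImplicit false
open MeasureTheory Metric Filter
open scoped ComplexConjugate ENNReal Topology

namespace Pool.Agent.Helper873.KPoly

open Pool.Agent.Helper873.OneVar Pool.Agent.Helper873.Product Pool.Agent.Helper873.Pk
  Pool.Agent.Helper873.Block Pool.Agent.Helper873.Alg Pool.Agent.Helper873.Monomial
  Pool.Agent.Helper873.Cartan Pool.Agent.Helper873.NT Pool.Agent.Helper873.Embed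
  Pool.Agent.Helper873.Zeta

/-- truncated product kernel -/
noncomputable def KR (J N R a : ℕ) (w : ℕ → ℂ) : ℂ :=
  ∏ k ∈ Finset.range N, ((Real.sqrt (1 - qq J k) : ℂ) * ∑ r ∈ Finset.range R, (al J a k * w k) ^ r)

lemma isP_KR (J N R a : ℕ) : IsP (KR J N R a) := by
  unfold KR
  refine isP_prod _ (fun k w => (Real.sqrt (1 - qq J k) : ℂ) *
    ∑ r ∈ Finset.range R, (al J a k * w k) ^ r) fun k _ => ?_
  refine IsP.smul _ (isP_sum _ (fun r w => (al J a k * w k) ^ r) fun r _ => ?_)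
  exact isP_pow ((isP_coord k).smul _) r

/-- one factor -/
lemma geom_norm (x : ℂ) (hx : ‖x‖ ≤ 3 / 4) (R : ℕ) :
    (1 - (3 / 4) ^ R) * (1 / ‖1 - x‖) ≤ ‖∑ r ∈ Finset.range R, x ^ r‖ ∧
    ‖∑ r ∈ Finset.range R, x ^ r‖ ≤ (1 + (3 / 4) ^ R) * (1 / ‖1 - x‖) := by
  have hx1 : x ≠ 1 := by
    rintro rfl
    norm_num at hx
  have h1x : 0 < ‖1 - x‖ := norm_pos_iff.2 (sub_ne_zero.2 (Ne.symm hx1))
  have h1 : ∑ r ∈ Finset.range R, x ^ r = (1 - x ^ R) / (1 - x) := by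
    rw [geom_sum_eq hx1]
    rw [← neg_sub 1 (x ^ R), ← neg_sub 1 x, neg_div_neg_eq]
  have h2 : ‖x ^ R‖ ≤ (3 / 4) ^ R := by
    rw [norm_pow]
    exact pow_le_pow_left₀ (norm_nonneg _) hx R
  rw [h1, norm_div, div_eq_mul_one_div ‖1 - x ^ R‖]
  constructor
  · refine mul_le_mul_of_nonneg_right ?_ (one_div_nonneg.2 (norm_nonneg _))
    have := norm_sub_norm_le (1 : ℂ) (x ^ R)
    rw [norm_one] at this
    linarith
  · refine mul_le_mul_of_nonneg_right ?_ (one_div_nonneg.2 (norm_nonneg _))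
    have := norm_sub_le (1 : ℂ) (x ^ R)
    rw [norm_one] at this
    linarith

lemma norm_al_le (J a k : ℕ) : ‖al J a k‖ ≤ 3 / 4 := by
  have h := norm_al_sq_le J a k
  nlinarith [norm_nonneg (al J a k)]

lemma norm_al_mul_le (J a k : ℕ) (w : ℂ) (hw : ‖w‖ ≤ 1) : ‖al J a k * w‖ ≤ 3 / 4 := by
  rw [norm_mul]
  calc ‖al J a k‖ * ‖w‖ ≤ 3 / 4 * 1 :=
        mul_le_mul (norm_al_le J a k) hw (norm_nonneg _) (by norm_num)
    _ = 3 / 4 := by norm_num

/-- the full kernel modulus -/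
noncomputable def KA (J N a : ℕ) (w : ℕ → ℂ) : ℝ :=
  ∏ k ∈ Finset.range N, (Real.sqrt (1 - qq J k) * (1 / ‖1 - al J a k * w k‖))

lemma exists_R (N : ℕ) : ∃ R : ℕ, (1 / 2 : ℝ) ≤ (1 - (3 / 4) ^ R) ^ N ∧
    (1 + (3 / 4) ^ R : ℝ) ^ N ≤ 2 := by
  have h1 : Tendsto (fun R : ℕ => (1 - (3 / 4 : ℝ) ^ R) ^ N) atTop (𝓝 1) := by
    have := tendsto_pow_atTop_nhds_zero_of_lt_one (r := (3 / 4 : ℝ)) (by norm_num) (by norm_num)
    have h2 := ((tendsto_const_nhds (x := (1 : ℝ))).sub this).pow N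
    simpa using h2
  have h3 : Tendsto (fun R : ℕ => (1 + (3 / 4 : ℝ) ^ R) ^ N) atTop (𝓝 1) := by
    have := tendsto_pow_atTop_nhds_zero_of_lt_one (r := (3 / 4 : ℝ)) (by norm_num) (by norm_num)
    have h2 := ((tendsto_const_nhds (x := (1 : ℝ))).add this).pow N
    simpa using h2
  have h4 := ((tendsto_order.1 h1).1 (1 / 2) (by norm_num)).and
    ((tendsto_order.1 h3).2 2 (by norm_num))
  obtain ⟨R, hR⟩ := h4.exists
  exact ⟨R, hR.1.le, hR.2.le⟩

lemma KA_pos (J N a : ℕ) (w : ℕ → ℂ) (hw : ∀ k, ‖w k‖ ≤ 1) : 0 < KA J N a w := by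
  refine Finset.prod_pos fun k _ => ?_
  have h1 := norm_al_mul_le J a k (w k) (hw k)
  have h2 : 0 < ‖1 - al J a k * w k‖ := by
    have := norm_sub_norm_le (1 : ℂ) (al J a k * w k)
    rw [norm_one] at this
    linarith
  have h3 : 0 < 1 - qq J k := by have := qq_le_half J k; linarith
  have := Real.sqrt_pos.2 h3
  positivity

lemma KR_bounds (J N R a : ℕ) (hR1 : (1 / 2 : ℝ) ≤ (1 - (3 / 4) ^ R) ^ N)
    (hR2 : (1 + (3 / 4) ^ R : ℝ) ^ N ≤ 2) (w : ℕ → ℂ) (hw : ∀ k, ‖w k‖ ≤ 1) :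
    KA J N a w / 2 ≤ ‖KR J N R a w‖ ∧ ‖KR J N R a w‖ ≤ 2 * KA J N a w := by
  have hKA := KA_pos J N a w hw
  have h34 : (3 / 4 : ℝ) ^ R ≤ 1 := pow_le_one₀ (by norm_num) (by norm_num)
  have h1 : ‖KR J N R a w‖ = ∏ k ∈ Finset.range N, (Real.sqrt (1 - qq J k) *
      ‖∑ r ∈ Finset.range R, (al J a k * w k) ^ r‖) := by
    unfold KR
    rw [norm_prod]
    refine Finset.prod_congr rfl fun k _ => ?_
    rw [norm_mul, Complex.norm_real, Real.norm_of_nonneg (Real.sqrt_nonneg _)]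
  have hf : ∀ k, (1 - (3 / 4) ^ R) * (Real.sqrt (1 - qq J k) * (1 / ‖1 - al J a k * w k‖)) ≤
      Real.sqrt (1 - qq J k) * ‖∑ r ∈ Finset.range R, (al J a k * w k) ^ r‖ ∧
      Real.sqrt (1 - qq J k) * ‖∑ r ∈ Finset.range R, (al J a k * w k) ^ r‖ ≤
      (1 + (3 / 4) ^ R) * (Real.sqrt (1 - qq J k) * (1 / ‖1 - al J a k * w k‖)) := by
    intro k
    have h2 := geom_norm (al J a k * w k) (norm_al_mul_le J a k (w k) (hw k)) R
    have hs := Real.sqrt_nonneg (1 - qq J k)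
    constructor
    · calc (1 - (3 / 4) ^ R) * (Real.sqrt (1 - qq J k) * (1 / ‖1 - al J a k * w k‖))
          = Real.sqrt (1 - qq J k) * ((1 - (3 / 4) ^ R) * (1 / ‖1 - al J a k * w k‖)) := by ring
        _ ≤ _ := mul_le_mul_of_nonneg_left h2.1 hs
    · calc Real.sqrt (1 - qq J k) * ‖∑ r ∈ Finset.range R, (al J a k * w k) ^ r‖
          ≤ Real.sqrt (1 - qq J k) * ((1 + (3 / 4) ^ R) * (1 / ‖1 - al J a k * w k‖)) :=
            mul_le_mul_of_nonneg_left h2.2 hs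
        _ = _ := by ring
  rw [h1]
  constructor
  · calc KA J N a w / 2 = (1 / 2) * KA J N a w := by ring
      _ ≤ (1 - (3 / 4) ^ R) ^ N * KA J N a w := mul_le_mul_of_nonneg_right hR1 hKA.le
      _ = ∏ k ∈ Finset.range N, ((1 - (3 / 4) ^ R) *
          (Real.sqrt (1 - qq J k) * (1 / ‖1 - al J a k * w k‖))) := by
          rw [Finset.prod_mul_distrib, Finset.prod_const, Finset.card_range]; rfl
      _ ≤ _ := Finset.prod_le_prod (fun k _ => by
          have : 0 ≤ 1 - (3 / 4 : ℝ) ^ R := by linarith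
          positivity) fun k _ => (hf k).1
  · calc ∏ k ∈ Finset.range N, (Real.sqrt (1 - qq J k) *
          ‖∑ r ∈ Finset.range R, (al J a k * w k) ^ r‖)
        ≤ ∏ k ∈ Finset.range N, ((1 + (3 / 4) ^ R) *
          (Real.sqrt (1 - qq J k) * (1 / ‖1 - al J a k * w k‖))) :=
          Finset.prod_le_prod (fun k _ => by positivity) fun k _ => (hf k).2
      _ = (1 + (3 / 4) ^ R) ^ N * KA J N a w := by
          rw [Finset.prod_mul_distrib, Finset.prod_const, Finset.card_range]; rfl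
      _ ≤ 2 * KA J N a w := mul_le_mul_of_nonneg_right hR2 hKA.le

/-- on the torus the square of the modulus is the weight -/
lemma KA_sq (J N a : ℕ) (z : ℕ → UnitAddCircle) :
    (KA J N a (fun k => zet (z k))) ^ 2 = W J N a z := by
  unfold KA W
  rw [← Finset.prod_pow]
  refine Finset.prod_congr rfl fun k _ => ?_
  unfold pk
  rw [mul_pow, Real.sq_sqrt (by have := qq_le_half J k; linarith), norm_al_sq]
  rw [one_div, inv_pow, div_eq_mul_inv]

/-- the point on the line -/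
noncomputable def pt (J : ℕ) (t : ℝ) : ℂ := ((1 / 2 + 1 / (J : ℝ) : ℝ) : ℂ) + (t : ℂ) * Complex.I

lemma al_mul_vs (J a k : ℕ) (t : ℝ) : al J a k * vs (pt J t) k = ((qq J k : ℝ) : ℂ) *
    Complex.exp ((((a : ℝ) / J - t) * Real.log (Nat.nth Nat.Prime k) : ℝ) * Complex.I) := by
  have h2 := two_le_p k
  have hp0 : (0 : ℝ) < (Nat.nth Nat.Prime k : ℝ) := by linarith
  have hpc : (Nat.nth Nat.Prime k : ℂ) ≠ 0 := by
    have : (Nat.nth Nat.Prime k : ℝ) ≠ 0 := hp0.ne'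
    exact_mod_cast this
  unfold al vs pt qq
  rw [Complex.cpow_def_of_ne_zero hpc]
  have hlog : Complex.log (Nat.nth Nat.Prime k : ℂ) = ((Real.log (Nat.nth Nat.Prime k) : ℝ) : ℂ) := by
    rw [← Complex.ofReal_natCast, ← Complex.ofReal_log hp0.le]
  rw [hlog, Real.rpow_def_of_pos hp0, Real.rpow_def_of_pos hp0]
  push_cast
  rw [← Complex.exp_add, ← Complex.exp_add, ← Complex.exp_add]
  congr 1
  ring

lemma norm_vs_le (s : ℂ) (hs : 0 ≤ s.re) (k : ℕ) : ‖vs s k‖ ≤ 1 := by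
  have h2 := two_le_p k
  unfold vs
  rw [Complex.norm_natCast_cpow_of_pos (Nat.prime_nth_prime k).pos]
  refine Real.rpow_le_one_of_one_le_of_nonpos (by linarith) ?_
  simp
  exact hs

end Pool.Agent.Helper873.KPoly
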