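import Pool.Agent.Helper873.Alg

set_option autoImplicit false
open MeasureTheory Metric Filter
open scoped ComplexConjugate ENNReal Topology

namespace Pool.Agent.Helper873.Mean

open Pool.Agent.Helper873.OneVar Pool.Agent.Helper873.Product Pool.Agent.Helper873.Alg
  Pool.Agent.Helper873.Monomial Pool.Agent.Helper873.Embed

/-- the Kronecker flow -/
noncomputable def zt (t : ℝ) (k : ℕ) : UnitAddCircle :=
  ((t * Real.log (Nat.nth Nat.Prime k) / (2 * Real.pi) : ℝ) : UnitAddCircle)

lemma zet_coe (x : ℝ) : zet (x : UnitAddCircle) = Complex.exp (-(2 * Real.pi * x : ℝ) * Complex.I) := by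
  unfold zet
  rw [fourier_coe_apply]
  congr 1
  push_cast
  ring

lemma zet_zt (t : ℝ) (k : ℕ) : zet (zt t k) = vs (t * Complex.I) k := by
  unfold zt
  rw [zet_coe]
  unfold vs
  have h2 := two_le_p k
  have hp0 : (0 : ℝ) < (Nat.nth Nat.Prime k : ℝ) := by linarith
  have hpc : (Nat.nth Nat.Prime k : ℂ) ≠ 0 := by
    have : (Nat.nth Nat.Prime k : ℝ) ≠ 0 := hp0.ne'
    exact_mod_cast this
  rw [Complex.cpow_def_of_ne_zero hpc]
  have hlog : Complex.log (Nat.nth Nat.Prime k : ℂ) = ((Real.log (Nat.nth Nat.Prime k) : ℝ) : ℂ) := by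
    rw [← Complex.ofReal_natCast, ← Complex.ofReal_log hp0.le]
  rw [hlog]
  congr 1
  have hpi : (Real.pi : ℂ) ≠ 0 := by exact_mod_cast Real.pi_ne_zero
  push_cast
  field_simp

lemma continuous_zt : Continuous zt := by
  refine continuous_pi fun k => ?_
  unfold zt
  exact (AddCircle.continuous_mk' (1 : ℝ)).comp (by fun_prop)

/-- chi as a continuous map -/
noncomputable def chiC (m : ℕ) : C(ℕ → UnitAddCircle, ℂ) := ⟨chi m, continuous_chi m⟩

lemma chi_mul (m n : ℕ) (z : ℕ → UnitAddCircle) :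
    chi m z * chi n z = chi ((m + 1) * (n + 1) - 1) z := by
  unfold chi
  rw [mon_mul (m + 1) (n + 1) (by omega) (by omega)]
  congr 1

/-- the span of the characters -/
noncomputable def V : Submodule ℂ C(ℕ → UnitAddCircle, ℂ) :=
  Submodule.span ℂ (Set.range fun p : ℕ × ℕ => chiC p.1 * star (chiC p.2))

lemma V_mul (f g : C(ℕ → UnitAddCircle, ℂ)) (hf : f ∈ V) (hg : g ∈ V) : f * g ∈ V := by
  unfold V at hf
  induction hf using Submodule.span_induction with
  | mem f hf =>
    obtain ⟨p, rfl⟩ := hf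
    unfold V at hg
    induction hg using Submodule.span_induction with
    | mem g hg =>
      obtain ⟨q, rfl⟩ := hg
      refine Submodule.subset_span ⟨((p.1 + 1) * (q.1 + 1) - 1, (p.2 + 1) * (q.2 + 1) - 1), ?_⟩
      ext z
      have h1 := chi_mul p.1 q.1 z
      have h2 := chi_mul p.2 q.2 z
      simp only [ContinuousMap.mul_apply, ContinuousMap.star_apply, chiC, ContinuousMap.coe_mk]
      rw [← h1, ← h2, star_mul']
      ring
    | zero => rw [mul_zero]; exact V.zero_mem
    | add g g' _ _ hg hg' => rw [mul_add]; exact V.add_mem hg hg'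
    | smul a g _ hg => rw [mul_smul_comm]; exact V.smul_mem a hg
  | zero => rw [zero_mul]; exact V.zero_mem
  | add f f' _ _ hf hf' => rw [add_mul]; exact V.add_mem hf hf'
  | smul a f _ hf => rw [smul_mul_assoc]; exact V.smul_mem a hf

lemma V_star (f : C(ℕ → UnitAddCircle, ℂ)) (hf : f ∈ V) : star f ∈ V := by
  unfold V at hf
  induction hf using Submodule.span_induction with
  | mem f hf =>
    obtain ⟨p, rfl⟩ := hf
    refine Submodule.subset_span ⟨(p.2, p.1), ?_⟩
    simp only [star_mul', star_star]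
    rw [mul_comm]
  | zero => rw [star_zero]; exact V.zero_mem
  | add f f' _ _ hf hf' => rw [star_add]; exact V.add_mem hf hf'
  | smul a f _ hf => rw [star_smul]; exact V.smul_mem _ hf

lemma chi_zero (z : ℕ → UnitAddCircle) : chi 0 z = 1 := by
  unfold chi
  exact mon_one _

lemma chi_prime (k : ℕ) (z : ℕ → UnitAddCircle) :
    chi (Nat.nth Nat.Prime k - 1) z = zet (z k) := by
  unfold chi
  rw [Nat.sub_add_cancel (Nat.prime_nth_prime k).one_le]
  exact mon_prime k _

/-- coordinate functions -/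
noncomputable def coordC (k : ℕ) : C(ℕ → UnitAddCircle, ℂ) :=
  ⟨fun z => zet (z k), continuous_zet.comp (continuous_apply k)⟩

lemma coordC_mem (k : ℕ) : coordC k ∈ V := by
  refine Submodule.subset_span ⟨(Nat.nth Nat.Prime k - 1, 0), ?_⟩
  ext z
  simp only [ContinuousMap.mul_apply, ContinuousMap.star_apply, chiC, ContinuousMap.coe_mk,
    coordC, chi_zero, chi_prime, star_one, mul_one]

lemma zet_injective : Function.Injective zet := by
  intro s t h
  unfold zet at h
  rw [fourier_apply, fourier_apply] at h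
  have h1 : AddCircle.toCircle ((-1 : ℤ) • s) = AddCircle.toCircle ((-1 : ℤ) • t) :=
    Circle.ext h
  have h2 := AddCircle.injective_toCircle (T := (1 : ℝ)) one_ne_zero h1
  simpa using h2

lemma dense (f : C(ℕ → UnitAddCircle, ℂ)) (ε : ℝ) (hε : 0 < ε) : ∃ g ∈ V, ‖f - g‖ < ε := by
  let A : StarSubalgebra ℂ C(ℕ → UnitAddCircle, ℂ) := StarAlgebra.adjoin ℂ (Set.range coordC)
  have hsep : A.SeparatesPoints := by
    intro z z' hz
    obtain ⟨k, hk⟩ := Function.ne_iff.1 hz
    refine ⟨coordC k, ⟨coordC k, ?_, rfl⟩, ?_⟩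
    · exact StarAlgebra.subset_adjoin ℂ _ ⟨k, rfl⟩
    · intro h
      exact hk (zet_injective h)
  have htop := ContinuousMap.starSubalgebra_topologicalClosure_eq_top_of_separatesPoints A hsep
  have hf : f ∈ A.topologicalClosure := by rw [htop]; trivial
  have hf' : f ∈ closure (A : Set C(ℕ → UnitAddCircle, ℂ)) := hf
  obtain ⟨g, hg, hfg⟩ := Metric.mem_closure_iff.1 hf' ε hε
  refine ⟨g, ?_, by rwa [← dist_eq_norm]⟩
  have hg' : g ∈ StarAlgebra.adjoin ℂ (Set.range coordC) := hg
  clear hg hfg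
  induction hg' using StarAlgebra.adjoin_induction with
  | mem x hx => obtain ⟨k, rfl⟩ := hx; exact coordC_mem k
  | algebraMap r =>
    have h1 : (algebraMap ℂ C(ℕ → UnitAddCircle, ℂ)) r = r • (chiC 0 * star (chiC 0)) := by
      ext z
      simp [chiC, chi_zero]
    rw [h1]
    exact V.smul_mem r (Submodule.subset_span ⟨(0, 0), rfl⟩)
  | add x y _ _ hx hy => exact V.add_mem hx hy
  | mul x y _ _ hx hy => exact V_mul x y hx hy
  | star x _ hx => exact V_star x hx

/-- mean over `[-T, T]` -/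
noncomputable def mT (f : ℝ → ℂ) (T : ℝ) : ℂ := (1 / (2 * T) : ℝ) * ∫ t in (-T)..T, f t

lemma mT_le (f : ℝ → ℂ) (B : ℝ) (hB : ∀ t, ‖f t‖ ≤ B) (T : ℝ) (hT : 0 < T) : ‖mT f T‖ ≤ B := by
  unfold mT
  rw [norm_mul, Complex.norm_real, Real.norm_of_nonneg (by positivity)]
  have h1 := intervalIntegral.norm_integral_le_of_norm_le_const (a := -T) (b := T) (f := f) (C := B)
    fun t _ => hB t
  rw [abs_of_nonneg (by linarith : 0 ≤ T - -T)] at h1
  calc 1 / (2 * T) * ‖∫ t in (-T)..T, f t‖ ≤ 1 / (2 * T) * (B * (T - -T)) := by gcongr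
    _ = B := by field_simp; ring

lemma mT_exp (ω : ℝ) (hω : ω ≠ 0) :
    Tendsto (fun T => mT (fun t => Complex.exp ((ω * t : ℝ) * Complex.I)) T) atTop (𝓝 0) := by
  have hint : ∀ T : ℝ, ∫ t in (-T)..T, Complex.exp (((ω * t : ℝ) : ℂ) * Complex.I) =
      (Complex.exp ((ω * T : ℝ) * Complex.I) - Complex.exp ((ω * (-T) : ℝ) * Complex.I)) /
        (ω * Complex.I) := by
    intro T
    have hc : (ω : ℂ) * Complex.I ≠ 0 := by
      refine mul_ne_zero ?_ Complex.I_ne_zero
      exact_mod_cast hω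
    have h1 := integral_exp_mul_complex (a := -T) (b := T) hc
    have h2 : ∀ t : ℝ, Complex.exp (((ω * t : ℝ) : ℂ) * Complex.I) =
        Complex.exp ((ω : ℂ) * Complex.I * t) := by
      intro t; congr 1; push_cast; ring
    simp_rw [h2]
    rw [h1]
  have hb : ∀ T : ℝ, 0 < T → ‖mT (fun t => Complex.exp ((ω * t : ℝ) * Complex.I)) T‖ ≤
      (1 / |ω|) * (1 / T) := by
    intro T hT
    unfold mT
    rw [hint T, norm_mul, Complex.norm_real, Real.norm_of_nonneg (by positivity), norm_div,
      norm_mul, Complex.norm_I, mul_one, Complex.norm_real, Real.norm_eq_abs]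
    have h3 : ‖Complex.exp ((ω * T : ℝ) * Complex.I) - Complex.exp ((ω * (-T) : ℝ) * Complex.I)‖ ≤
        2 := by
      refine (norm_sub_le _ _).trans ?_
      rw [Complex.norm_exp_ofReal_mul_I, Complex.norm_exp_ofReal_mul_I]
      norm_num
    have hω' : 0 < |ω| := abs_pos.2 hω
    calc 1 / (2 * T) * (‖Complex.exp ((ω * T : ℝ) * Complex.I) -
          Complex.exp ((ω * (-T) : ℝ) * Complex.I)‖ / |ω|) ≤ 1 / (2 * T) * (2 / |ω|) := by gcongr
      _ = _ := by field_simp
  refine squeeze_zero_norm' (a := fun T => (1 / |ω|) * (1 / T)) ?_ ?_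
  · filter_upwards [eventually_gt_atTop 0] with T hT using hb T hT
  · have h5 : Tendsto (fun T : ℝ => T⁻¹) atTop (𝓝 0) := tendsto_inv_atTop_zero
    have := h5.const_mul (1 / |ω|)
    rw [mul_zero] at this
    refine this.congr fun T => ?_
    rw [one_div T]

lemma chi_zt (m : ℕ) (t : ℝ) :
    chi m (zt t) = Complex.exp (((-Real.log (m + 1) * t : ℝ) : ℂ) * Complex.I) := by
  unfold chi
  have h1 : (fun j => zet (zt t j)) = vs (t * Complex.I) := funext fun k => zet_zt t k
  rw [h1, mon_vs (m + 1) (by omega)]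
  have hm : ((m + 1 : ℕ) : ℂ) ≠ 0 := by exact_mod_cast (Nat.succ_ne_zero m)
  rw [Complex.cpow_def_of_ne_zero hm]
  have hlog : Complex.log ((m + 1 : ℕ) : ℂ) = ((Real.log (m + 1) : ℝ) : ℂ) := by
    have h2 : (((m + 1 : ℕ) : ℝ) : ℂ) = ((m + 1 : ℕ) : ℂ) := by push_cast; rfl
    rw [← h2, ← Complex.ofReal_log (by positivity)]
    push_cast; rfl
  rw [hlog]
  congr 1
  push_cast
  ring

/-- the property that the time mean equals the space mean -/
def EqM (f : C(ℕ → UnitAddCircle, ℂ)) : Prop :=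
  Tendsto (fun T => mT (fun t => f (zt t)) T) atTop (𝓝 (∫ z, f z ∂tor))

lemma eqM_char (m n : ℕ) : EqM (chiC m * star (chiC n)) := by
  unfold EqM
  by_cases h : m = n
  · subst h
    have h1 : ∀ z : ℕ → UnitAddCircle, (chiC m * star (chiC m)) z = 1 := by
      intro z
      simp only [ContinuousMap.mul_apply, ContinuousMap.star_apply, chiC, ContinuousMap.coe_mk]
      rw [← starRingEnd_apply, Complex.mul_conj, Complex.normSq_eq_norm_sq, norm_chi]
      simp
    simp_rw [h1]
    have h2 : ∀ T : ℝ, 0 < T → mT (fun _ => (1 : ℂ)) T = 1 := by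
      intro T hT
      unfold mT
      rw [intervalIntegral.integral_const]
      rw [Complex.real_smul, mul_one]
      rw [← Complex.ofReal_mul]
      have : 1 / (2 * T) * (T - -T) = 1 := by field_simp; ring
      rw [this]; simp
    have h3 : ∫ _ : ℕ → UnitAddCircle, (1 : ℂ) ∂tor = 1 := by simp
    rw [h3]
    refine Tendsto.congr' ?_ tendsto_const_nhds
    filter_upwards [eventually_gt_atTop 0] with T hT using (h2 T hT).symm
  · have h0 : ∫ z, (chiC m * star (chiC n)) z ∂tor = 0 := orth m n h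
    rw [h0]
    set ω : ℝ := Real.log (n + 1) - Real.log (m + 1) with hω
    have hω0 : ω ≠ 0 := by
      intro h0
      have h1 : Real.log (n + 1) = Real.log (m + 1) := by linarith
      have h2 := Real.log_injOn_pos (Set.mem_Ioi.2 (by positivity : (0 : ℝ) < (n : ℝ) + 1))
        (Set.mem_Ioi.2 (by positivity : (0 : ℝ) < (m : ℝ) + 1)) h1
      have h3 : (n : ℝ) = m := by linarith
      exact h (by exact_mod_cast h3.symm)
    have h1 : ∀ t : ℝ, (chiC m * star (chiC n)) (zt t) =
        Complex.exp ((ω * t : ℝ) * Complex.I) := by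
      intro t
      simp only [ContinuousMap.mul_apply, ContinuousMap.star_apply, chiC, ContinuousMap.coe_mk]
      rw [chi_zt, chi_zt, ← starRingEnd_apply, ← Complex.exp_conj, ← Complex.exp_add]
      congr 1
      rw [map_mul, Complex.conj_ofReal, Complex.conj_I, hω]
      push_cast
      ring
    simp_rw [h1]
    exact mT_exp ω hω0

lemma integrable_C (f : C(ℕ → UnitAddCircle, ℂ)) : Integrable (fun z => f z) tor :=
  integrable_tor f.continuous

lemma ii (f : C(ℕ → UnitAddCircle, ℂ)) (a b : ℝ) :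
    IntervalIntegrable (fun t => f (zt t)) volume a b :=
  (f.continuous.comp continuous_zt).intervalIntegrable a b

lemma eqM_V (f : C(ℕ → UnitAddCircle, ℂ)) (hf : f ∈ V) : EqM f := by
  unfold V at hf
  induction hf using Submodule.span_induction with
  | mem f hf => obtain ⟨p, rfl⟩ := hf; exact eqM_char p.1 p.2
  | zero =>
    unfold EqM
    simp [mT]
  | add f g _ _ hf hg =>
    unfold EqM at *
    have h1 : ∫ z, (f + g) z ∂tor = ∫ z, f z ∂tor + ∫ z, g z ∂tor := by
      simp only [ContinuousMap.add_apply]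
      exact integral_add (integrable_C f) (integrable_C g)
    rw [h1]
    refine (hf.add hg).congr fun T => ?_
    unfold mT
    simp only [ContinuousMap.add_apply]
    rw [intervalIntegral.integral_add (ii f _ _) (ii g _ _), mul_add]
  | smul a f _ hf =>
    unfold EqM at *
    have h1 : ∫ z, (a • f) z ∂tor = a * ∫ z, f z ∂tor := by
      simp only [ContinuousMap.smul_apply, smul_eq_mul]
      exact integral_const_mul _ _
    rw [h1]
    refine (hf.const_mul a).congr fun T => ?_
    unfold mT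
    simp only [ContinuousMap.smul_apply, smul_eq_mul]
    rw [intervalIntegral.integral_const_mul]
    ring

/-- **Kronecker-Weyl** -/
theorem kw (f : C(ℕ → UnitAddCircle, ℂ)) : EqM f := by
  unfold EqM
  rw [Metric.tendsto_atTop]
  intro ε hε
  obtain ⟨g, hg, hfg⟩ := dense f (ε / 4) (by positivity)
  obtain ⟨N, hN⟩ := (Metric.tendsto_atTop.1 (eqM_V g hg)) (ε / 4) (by positivity)
  refine ⟨max N 1, fun T hT => ?_⟩
  have hT1 : 0 < T := lt_of_lt_of_le one_pos ((le_max_right _ _).trans hT)
  have h1 := hN T ((le_max_left _ _).trans hT)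
  rw [dist_eq_norm] at h1 ⊢
  have hpt : ∀ z, ‖f z - g z‖ ≤ ε / 4 := fun z =>
    ((f - g).norm_coe_le_norm z).trans hfg.le
  have h2 : mT (fun t => f (zt t)) T - mT (fun t => g (zt t)) T =
      mT (fun t => f (zt t) - g (zt t)) T := by
    unfold mT
    rw [intervalIntegral.integral_sub (ii f _ _) (ii g _ _)]
    ring
  have h3 := mT_le (fun t => f (zt t) - g (zt t)) (ε / 4) (fun t => hpt (zt t)) T hT1
  rw [← h2] at h3
  have h4 : ‖∫ z, g z ∂tor - ∫ z, f z ∂tor‖ ≤ ε / 4 := by
    rw [← integral_sub (integrable_C g) (integrable_C f)]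
    have h5 := norm_integral_le_of_norm_le_const (μ := tor) (f := fun z => g z - f z) (C := ε / 4)
      (Filter.Eventually.of_forall fun z => by
        rw [norm_sub_rev]; exact hpt z)
    simpa using h5
  have h6 : mT (fun t => f (zt t)) T - ∫ z, f z ∂tor =
      (mT (fun t => f (zt t)) T - mT (fun t => g (zt t)) T) +
      (mT (fun t => g (zt t)) T - ∫ z, g z ∂tor) + (∫ z, g z ∂tor - ∫ z, f z ∂tor) := by ring
  rw [h6]
  calc _ ≤ ‖mT (fun t => f (zt t)) T - mT (fun t => g (zt t)) T‖ +
      ‖mT (fun t => g (zt t)) T - ∫ z, g z ∂tor‖ + ‖∫ z, g z ∂tor - ∫ z, f z ∂tor‖ :=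
        norm_add₃_le
    _ < ε := by linarith

/-- the mean value theorem for Dirichlet polynomials -/
theorem mean_value (c : ℕ →₀ ℂ) :
    Tendsto (fun T : ℝ => (1 / (2 * T)) * ∫ t in (-T)..T, ‖poly c (vs (t * Complex.I))‖) atTop
      (𝓝 (∫ z, ‖poly c (fun k => zet (z k))‖ ∂tor)) := by
  have hzc : Continuous fun z : ℕ → UnitAddCircle => (fun j => zet (z j) : ℕ → ℂ) :=
    continuous_pi fun j => continuous_zet.comp (continuous_apply j)
  let f : C(ℕ → UnitAddCircle, ℂ) := ⟨fun z => ((‖poly c (fun k => zet (z k))‖ : ℝ) : ℂ),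
    Complex.continuous_ofReal.comp ((continuous_poly c).comp hzc).norm⟩
  have h1 := kw f
  unfold EqM at h1
  have h2 : ∫ z, f z ∂tor = ((∫ z, ‖poly c (fun k => zet (z k))‖ ∂tor : ℝ) : ℂ) :=
    integral_ofReal
  rw [h2] at h1
  have h3 := (Complex.continuous_re.tendsto _).comp h1
  rw [Complex.ofReal_re] at h3
  refine h3.congr fun T => ?_
  simp only [Function.comp]
  unfold mT
  have h4 : ∀ t : ℝ, f (zt t) = ((‖poly c (vs (t * Complex.I))‖ : ℝ) : ℂ) := by
    intro t
    have h5 : (fun j => zet (zt t j)) = vs (t * Complex.I) := funext fun k => zet_zt t k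
    change ((‖poly c (fun k => zet (zt t k))‖ : ℝ) : ℂ) = _
    rw [h5]
  simp_rw [h4]
  rw [intervalIntegral.integral_ofReal, ← Complex.ofReal_mul, Complex.ofReal_re]

end Pool.Agent.Helper873.Mean
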