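import Pool.Agent.Helper873.Embed
import Pool.Agent.Helper873.Dual

set_option autoImplicit false
open MeasureTheory Metric
open scoped ComplexConjugate ENNReal

namespace Pool.Agent.Helper873.Monomial

open Pool.Agent.Helper873.OneVar Pool.Agent.Helper873.Product Pool.Agent.Helper873.Embed

/-- exponent of the `k`-th prime in `n` -/
noncomputable def ex (n k : ℕ) : ℕ := n.factorization (Nat.nth Nat.Prime k)

/-- the monomial attached to `n` by the Bohr correspondence -/
noncomputable def mon (n : ℕ) (w : ℕ → ℂ) : ℂ := ∏ k ∈ Finset.range n, w k ^ ex n k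

lemma ex_eq_zero (n k : ℕ) (h : n ≤ k) : ex n k = 0 := by
  unfold ex
  refine Nat.factorization_eq_zero_of_lt ?_
  have := Nat.add_two_le_nth_prime k
  omega

lemma mon_eq (n N : ℕ) (h : n ≤ N) (w : ℕ → ℂ) :
    mon n w = ∏ k ∈ Finset.range N, w k ^ ex n k := by
  unfold mon
  refine Finset.prod_subset (Finset.range_mono h) fun k _ hk => ?_
  rw [ex_eq_zero n k (by simpa using hk), pow_zero]

lemma prod_primes_nat (g : ℕ → ℕ) (M : ℕ) :
    ∏ j ∈ Finset.range (Nat.primeCounting' M), g (Nat.nth Nat.Prime j) =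
      ∏ p ∈ Nat.primesBelow M, g p := by
  refine Finset.prod_nbij' (fun j => Nat.nth Nat.Prime j) (fun p => Nat.count Nat.Prime p)
    ?_ ?_ ?_ ?_ ?_
  · intro j hj
    rw [Nat.mem_primesBelow]
    exact ⟨Nat.nth_lt_of_lt_count (Finset.mem_range.1 hj), Nat.prime_nth_prime j⟩
  · intro p hp
    rw [Nat.mem_primesBelow] at hp
    rw [Finset.mem_range]
    exact Nat.count_strict_mono hp.2 hp.1
  · intro j _
    exact Nat.primeCounting'_nth_eq j
  · intro p hp
    exact Nat.nth_count (Nat.prime_of_mem_primesBelow hp)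
  · intro j _
    rfl

lemma prod_ex (n N : ℕ) (hn : n ≠ 0) (h : n ≤ N) :
    ∏ k ∈ Finset.range N, (Nat.nth Nat.Prime k) ^ ex n k = n := by
  have h1 : Nat.primeCounting' (Nat.nth Nat.Prime N) = N := Nat.primeCounting'_nth_eq N
  have h2 := prod_primes_nat (fun p => p ^ n.factorization p) (Nat.nth Nat.Prime N)
  rw [h1] at h2
  unfold ex
  rw [h2]
  conv_rhs => rw [← Nat.prod_factorization_pow_eq_self hn]
  rw [Finsupp.prod, Nat.support_factorization]
  symm
  refine Finset.prod_subset ?_ ?_
  · intro p hp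
    rw [Nat.mem_primesBelow]
    refine ⟨?_, Nat.prime_of_mem_primeFactors hp⟩
    have := Nat.le_of_mem_primeFactors hp
    have := Nat.add_two_le_nth_prime N
    omega
  · intro p _ hp
    rw [← Nat.support_factorization, Finsupp.notMem_support_iff] at hp
    rw [hp, pow_zero]

lemma ex_injective (n m : ℕ) (hn : n ≠ 0) (hm : m ≠ 0) (h : ∀ k, ex n k = ex m k) : n = m := by
  have h1 := prod_ex n (max n m) hn (le_max_left _ _)
  have h2 := prod_ex m (max n m) hm (le_max_right _ _)
  simp_rw [h] at h1
  exact h1.symm.trans h2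

lemma mon_xs (n : ℕ) (hn : n ≠ 0) (δ : ℝ) :
    mon n (fun j => (xs δ j : ℂ)) = (((n : ℝ) ^ (-(1 / 2 + δ)) : ℝ) : ℂ) := by
  unfold mon
  have h1 : ∏ k ∈ Finset.range n, ((xs δ k : ℝ) : ℂ) ^ ex n k =
      ((∏ k ∈ Finset.range n, (xs δ k) ^ ex n k : ℝ) : ℂ) := by
    push_cast; rfl
  rw [h1]
  congr 1
  have h2 : ∀ k, (xs δ k) ^ ex n k = ((((Nat.nth Nat.Prime k) ^ ex n k : ℕ) : ℝ)) ^ (-(1 / 2 + δ)) := by
    intro k
    unfold xs
    rw [← Real.rpow_natCast, ← Real.rpow_mul (by positivity), mul_comm,
      Real.rpow_mul (by positivity), Real.rpow_natCast]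
    push_cast; rfl
  simp_rw [h2]
  rw [Real.finsetProd_rpow _ _ (fun k _ => by positivity), ← Nat.cast_prod, prod_ex n n hn le_rfl]

/-- the polynomial attached to a finitely supported coefficient sequence -/
noncomputable def poly (c : ℕ →₀ ℂ) (w : ℕ → ℂ) : ℂ := c.sum fun m a => a * mon (m + 1) w

lemma continuous_mon (n : ℕ) : Continuous (mon n) := by
  unfold mon
  exact continuous_finsetProd _ fun k _ => (continuous_apply k).pow _

lemma continuous_poly (c : ℕ →₀ ℂ) : Continuous (poly c) := by
  unfold poly Finsupp.sum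
  exact continuous_finsetSum _ fun m _ => continuous_const.mul (continuous_mon _)

lemma poly_var (c : ℕ →₀ ℂ) (w : ℕ → ℂ) (i : ℕ) :
    ∃ g : Polynomial ℂ, ∀ u, poly c (Function.update w i u) = g.eval u := by
  classical
  refine ⟨∑ m ∈ c.support, Polynomial.C (c m) * ∏ k ∈ Finset.range (m + 1),
    (if k = i then Polynomial.X else Polynomial.C (w k)) ^ ex (m + 1) k, fun u => ?_⟩
  unfold poly mon Finsupp.sum
  rw [Polynomial.eval_finsetSum]
  refine Finset.sum_congr rfl fun m _ => ?_
  rw [Polynomial.eval_mul, Polynomial.eval_C, Polynomial.eval_prod]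
  refine congrArg (fun t => c m * t) (Finset.prod_congr rfl fun k _ => ?_)
  rw [Polynomial.eval_pow]
  by_cases hk : k = i
  · subst hk; simp
  · simp [hk]

lemma exists_bound (c : ℕ →₀ ℂ) : ∃ N₀ : ℕ, ∀ m ∈ c.support, m + 1 ≤ N₀ :=
  ⟨c.support.sup (fun m => m + 1), fun m hm => Finset.le_sup (f := fun m => m + 1) hm⟩

lemma poly_dep (c : ℕ →₀ ℂ) (N₀ : ℕ) (h : ∀ m ∈ c.support, m + 1 ≤ N₀)
    (w w' : ℕ → ℂ) (hw : ∀ j < N₀, w j = w' j) : poly c w = poly c w' := by
  unfold poly mon Finsupp.sum
  refine Finset.sum_congr rfl fun m hm => ?_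
  refine congrArg (fun t => c m * t) (Finset.prod_congr rfl fun k hk => ?_)
  rw [hw k (lt_of_lt_of_le (Finset.mem_range.1 hk) (h m hm))]

/-- characters on the torus -/
noncomputable def chi (m : ℕ) (z : ℕ → UnitAddCircle) : ℂ := mon (m + 1) (fun j => zet (z j))

lemma continuous_chi (m : ℕ) : Continuous (chi m) := by
  have hzc : Continuous fun z : ℕ → UnitAddCircle => (fun j => zet (z j) : ℕ → ℂ) :=
    continuous_pi fun j => continuous_zet.comp (continuous_apply j)
  exact (continuous_mon _).comp hzc

lemma norm_chi (m : ℕ) (z : ℕ → UnitAddCircle) : ‖chi m z‖ = 1 := by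
  unfold chi mon
  rw [norm_prod]
  refine Finset.prod_eq_one fun k _ => ?_
  rw [norm_pow, norm_zet, one_pow]

lemma integral_zet_pow (a b : ℕ) (h : a ≠ b) :
    ∫ w, zet w ^ a * conj (zet w ^ b) ∂(AddCircle.haarAddCircle (T := 1)) = 0 := by
  have h1 : fourierCoeff (T := 1) (fourier ((b : ℤ)) : UnitAddCircle → ℂ) (a : ℤ) = 0 := by
    rw [fourierCoeff_fourier, Pi.single_eq_of_ne]
    exact_mod_cast h
  rw [← h1, fourierCoeff]
  refine integral_congr_ae (Filter.Eventually.of_forall fun w => ?_)
  simp only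
  rw [zet_pow, zet_pow, smul_eq_mul, ← fourier_neg, neg_neg]

lemma orth (m n : ℕ) (h : m ≠ n) : ∫ z, chi m z * conj (chi n z) ∂tor = 0 := by
  obtain ⟨k, hk⟩ : ∃ k, ex (m + 1) k ≠ ex (n + 1) k := by
    by_contra hcon
    push Not at hcon
    have := ex_injective (m + 1) (n + 1) (by omega) (by omega) hcon
    omega
  have hcc : Continuous fun z => chi m z * conj (chi n z) :=
    (continuous_chi m).mul (Complex.continuous_conj.comp (continuous_chi n))
  rw [integral_resample k (fun z => chi m z * conj (chi n z)) hcc 1 (fun z => by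
      rw [norm_mul, RCLike.norm_conj, norm_chi, norm_chi, one_mul])]
  set N := max (max (m + 1) (n + 1)) (k + 1) with hN
  have hmN : m + 1 ≤ N := le_trans (le_max_left _ _) (le_max_left _ _)
  have hnN : n + 1 ≤ N := le_trans (le_max_right _ _) (le_max_left _ _)
  have hkN : k ∈ Finset.range N := Finset.mem_range.2 (lt_of_lt_of_le (Nat.lt_succ_self k)
    (le_max_right _ _))
  have hsplit : ∀ (r : ℕ), r + 1 ≤ N → ∀ (z : ℕ → UnitAddCircle) (w : UnitAddCircle),
      chi r (Function.update z k w) = zet w ^ ex (r + 1) k *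
        ∏ j ∈ (Finset.range N).erase k, zet (z j) ^ ex (r + 1) j := by
    intro r hr z w
    unfold chi
    rw [mon_eq (r + 1) N hr, ← Finset.mul_prod_erase _ _ hkN, Function.update_self]
    congr 1
    refine Finset.prod_congr rfl fun j hj => ?_
    rw [Function.update_of_ne (Finset.ne_of_mem_erase hj)]
  have hin : ∀ z : ℕ → UnitAddCircle,
      ∫ w, chi m (Function.update z k w) * conj (chi n (Function.update z k w))
        ∂(AddCircle.haarAddCircle (T := 1)) = 0 := by
    intro z
    have e : ∀ w, chi m (Function.update z k w) * conj (chi n (Function.update z k w)) =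
        (zet w ^ ex (m + 1) k * conj (zet w ^ ex (n + 1) k)) *
        ((∏ j ∈ (Finset.range N).erase k, zet (z j) ^ ex (m + 1) j) *
          conj (∏ j ∈ (Finset.range N).erase k, zet (z j) ^ ex (n + 1) j)) := by
      intro w
      rw [hsplit m hmN, hsplit n hnN, map_mul]
      ring
    simp_rw [e]
    rw [integral_mul_const, integral_zet_pow _ _ hk, zero_mul]
  simp_rw [hin]
  simp

lemma integrable_tor {f : (ℕ → UnitAddCircle) → ℂ} (hf : Continuous f) : Integrable f tor :=
  hf.integrable_of_hasCompactSupport (HasCompactSupport.of_compactSpace f)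

/-- coefficient bound -/
lemma coeff_bound (c : ℕ →₀ ℂ) (n : ℕ) :
    ‖c n‖ ≤ ∫ z, ‖poly c (fun j => zet (z j))‖ ∂tor := by
  have hpc : Continuous fun z : ℕ → UnitAddCircle => poly c (fun j => zet (z j)) :=
    (continuous_poly c).comp
      (continuous_pi fun j => continuous_zet.comp (continuous_apply j))
  have h1 : ∫ z, poly c (fun j => zet (z j)) * conj (chi n z) ∂tor = c n := by
    have e : ∀ z : ℕ → UnitAddCircle, poly c (fun j => zet (z j)) * conj (chi n z) =
        ∑ m ∈ c.support, c m * (chi m z * conj (chi n z)) := by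
      intro z
      unfold poly Finsupp.sum chi
      rw [Finset.sum_mul]
      refine Finset.sum_congr rfl fun m _ => ?_
      ring
    simp_rw [e]
    rw [integral_finsetSum]
    · simp_rw [integral_const_mul]
      have h2 : ∀ m ∈ c.support, c m * ∫ z, chi m z * conj (chi n z) ∂tor =
          if m = n then c m else 0 := by
        intro m _
        by_cases hmn : m = n
        · subst hmn
          rw [if_pos rfl]
          have : ∀ z, chi m z * conj (chi m z) = 1 := by
            intro z
            rw [Complex.mul_conj, Complex.normSq_eq_norm_sq, norm_chi]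
            simp
          simp_rw [this]
          simp
        · rw [if_neg hmn, orth m n hmn, mul_zero]
      rw [Finset.sum_congr rfl h2, Finset.sum_ite_eq']
      by_cases hn : n ∈ c.support
      · rw [if_pos hn]
      · rw [if_neg hn]
        exact (Finsupp.notMem_support_iff.1 hn).symm
    · intro m _
      exact (integrable_tor ((continuous_chi m).mul
        (Complex.continuous_conj.comp (continuous_chi n)))).const_mul _
  rw [← h1]
  refine (norm_integral_le_integral_norm _).trans (le_of_eq ?_)
  refine integral_congr_ae (Filter.Eventually.of_forall fun z => ?_)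
  simp only
  rw [norm_mul, RCLike.norm_conj, norm_chi, mul_one]

end Pool.Agent.Helper873.Monomial
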