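import Pool.Agent.Helper873.Embed

set_option autoImplicit false
open Finset Filter

namespace Pool.Agent.Helper873.NT

open Pool.Agent.Helper873.Zeta Pool.Agent.Helper873.Embed

lemma exists_large (M : ℕ) (s : ℝ) (hs : 0 < s) :
    ∃ M' : ℕ, M ≤ M' ∧ 1 ≤ M' ∧ (M' : ℝ) ^ (-s) ≤ 1 / 2 := by
  obtain ⟨M1, hM1⟩ := exists_nat_ge ((2 : ℝ) ^ (1 / s))
  refine ⟨max M (M1 + 1), le_max_left _ _, le_trans (by omega) (le_max_right _ _), ?_⟩
  set M' := max M (M1 + 1)
  have hM : (2 : ℝ) ^ (1 / s) ≤ (M' : ℝ) := by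
    refine hM1.trans ?_
    have : M1 ≤ M' := le_trans (by omega) (le_max_right _ _)
    exact_mod_cast this
  have h2 : (2 : ℝ) ≤ (M' : ℝ) ^ s := by
    calc (2 : ℝ) = ((2 : ℝ) ^ (1 / s)) ^ s := by
          rw [← Real.rpow_mul (by norm_num), one_div, inv_mul_cancel₀ hs.ne', Real.rpow_one]
      _ ≤ (M' : ℝ) ^ s := Real.rpow_le_rpow (by positivity) hM hs.le
  rw [Real.rpow_neg (by positivity), one_div]
  exact inv_anti₀ (by norm_num) h2

/-- `∑ log p / p^{1+s} ≤ 4 / s`. -/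
lemma sum_log (M : ℕ) (s : ℝ) (hs : 0 < s) (hs1 : s ≤ 1) :
    ∑ p ∈ Nat.primesBelow M, Real.log p * (p : ℝ) ^ (-(1 + s)) ≤ 4 / s := by
  obtain ⟨M', hMM', hM1, hM2⟩ := exists_large M s hs
  have hterm : ∀ p ∈ Nat.primesBelow M', 0 ≤ Real.log p * (p : ℝ) ^ (-(1 + s)) := by
    intro p hp
    have := (Nat.prime_of_mem_primesBelow hp).one_lt
    have h1 : 0 ≤ Real.log p := Real.log_nonneg (by exact_mod_cast this.le)
    positivity
  have hsub : Nat.primesBelow M ⊆ Nat.primesBelow M' := by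
    intro p hp
    rw [Nat.mem_primesBelow] at hp ⊢
    exact ⟨by omega, hp.2⟩
  refine (Finset.sum_le_sum_of_subset_of_nonneg hsub fun p hp _ => hterm p hp).trans ?_
  -- per prime inequality
  have hper : ∀ p ∈ Nat.primesBelow M', s / 2 * (Real.log p * (p : ℝ) ^ (-(1 + s))) ≤
      Real.log ((1 - (p : ℝ) ^ (-(1 + s / 2)))⁻¹) - Real.log ((1 - (p : ℝ) ^ (-(1 + s)))⁻¹) := by
    intro p hp
    have hp1 := (Nat.prime_of_mem_primesBelow hp).one_lt
    have hp1' : (1 : ℝ) < p := by exact_mod_cast hp1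
    have hp0 : (0 : ℝ) < p := by linarith
    have hlog : 0 < Real.log p := Real.log_pos hp1'
    set u := (p : ℝ) ^ (-(1 + s / 2)) with hu
    set v := (p : ℝ) ^ (-(1 + s)) with hv
    have u1 : u < 1 := Real.rpow_lt_one_of_one_lt_of_neg hp1' (by linarith)
    have v1 : v < 1 := Real.rpow_lt_one_of_one_lt_of_neg hp1' (by linarith)
    have v0 : 0 < v := Real.rpow_pos_of_pos hp0 _
    have huv : u = v * (p : ℝ) ^ (s / 2) := by
      rw [hu, hv, ← Real.rpow_add hp0]; congr 1; ring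
    have hexp : 1 + s / 2 * Real.log p ≤ (p : ℝ) ^ (s / 2) := by
      rw [Real.rpow_def_of_pos hp0]
      have := Real.add_one_le_exp (Real.log p * (s / 2))
      linarith
    have h1 : s / 2 * (Real.log p * v) ≤ u - v := by
      rw [huv]
      nlinarith
    refine h1.trans ?_
    rw [Real.log_inv, Real.log_inv]
    have h2 : Real.log (1 - u) - Real.log (1 - v) ≤ (1 - u) / (1 - v) - 1 := by
      rw [← Real.log_div (by linarith) (by linarith)]
      exact Real.log_le_sub_one_of_pos (div_pos (by linarith) (by linarith))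
    have h3 : (1 - u) / (1 - v) - 1 = -((u - v) / (1 - v)) := by
      have : (1 - v) ≠ 0 := by linarith
      field_simp; ring
    have huv' : 0 ≤ u - v := by
      have : 0 ≤ s / 2 * (Real.log p * v) := by positivity
      linarith
    have h4 : u - v ≤ (u - v) / (1 - v) := by
      rw [le_div_iff₀ (by linarith)]
      nlinarith
    linarith
  have hsum := Finset.sum_le_sum hper
  rw [← Finset.mul_sum, Finset.sum_sub_distrib] at hsum
  have hne : ∀ r : ℝ, 0 < r → ∀ p ∈ Nat.primesBelow M', (1 - (p : ℝ) ^ (-(1 + r)))⁻¹ ≠ 0 := by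
    intro r hr p hp
    have hp1 := (Nat.prime_of_mem_primesBelow hp).one_lt
    have hp1' : (1 : ℝ) < p := by exact_mod_cast hp1
    have u1 : (p : ℝ) ^ (-(1 + r)) < 1 := Real.rpow_lt_one_of_one_lt_of_neg hp1' (by linarith)
    exact inv_ne_zero (by linarith)
  rw [← Real.log_prod (hne (s / 2) (by positivity)), ← Real.log_prod (hne s hs)] at hsum
  have hZ1 := Z_upper M' (s / 2) (by positivity)
  have hZ2 := Z_lower M' hM1 s hs
  have hZ1p := Z_pos M' (s / 2) (by positivity)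
  have hZ2' : 1 / (2 * s) ≤ Z M' s := by
    refine le_trans ?_ hZ2
    rw [div_le_div_iff₀ (by positivity) hs]
    nlinarith
  have hsum2 : s / 2 * ∑ p ∈ Nat.primesBelow M', Real.log p * (p : ℝ) ^ (-(1 + s)) ≤
      Real.log (Z M' (s / 2)) - Real.log (Z M' s) := hsum
  have h5 : Real.log (Z M' (s / 2)) - Real.log (Z M' s) ≤ Real.log 6 := by
    rw [← Real.log_div hZ1p.ne' (Z_pos M' s hs).ne']
    refine Real.log_le_log (div_pos hZ1p (Z_pos M' s hs)) ?_
    rw [div_le_iff₀ (Z_pos M' s hs)]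
    have h6 : 1 + 1 / (s / 2) ≤ 3 / s := by
      rw [le_div_iff₀ hs]
      have : (1 + 1 / (s / 2)) * s = s + 2 := by field_simp
      rw [this]; linarith
    have h7 : 3 / s = 6 * (1 / (2 * s)) := by field_simp; ring
    linarith
  have h8 : Real.log 6 ≤ 2 := by
    rw [Real.log_le_iff_le_exp (by norm_num)]
    have := Real.quadratic_le_exp_of_nonneg (show (0 : ℝ) ≤ 2 by norm_num)
    have h9 : Real.exp 2 = Real.exp 1 * Real.exp 1 := by rw [← Real.exp_add]; norm_num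
    have h10 := Real.exp_one_gt_d9
    nlinarith
  rw [le_div_iff₀ hs]
  linarith

/-- Bound for the primes below `e^b`: `∑ log² p / p ≤ 12 b²`. -/
lemma sum_log_sq (b : ℕ) (hb : 1 ≤ b) (X : ℕ) (hX : (X : ℝ) ≤ Real.exp b) :
    ∑ p ∈ Nat.primesBelow X, (Real.log p) ^ 2 * (p : ℝ) ^ (-(1 : ℝ)) ≤ 12 * (b : ℝ) ^ 2 := by
  have hb0 : (0 : ℝ) < b := by exact_mod_cast hb
  have h1 := sum_log X (1 / b) (by positivity) (by
    rw [div_le_one hb0]; exact_mod_cast hb)
  have h2 : ∀ p ∈ Nat.primesBelow X, (Real.log p) ^ 2 * (p : ℝ) ^ (-(1 : ℝ)) ≤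
      3 * b * (Real.log p * (p : ℝ) ^ (-(1 + 1 / (b : ℝ)))) := by
    intro p hp
    rw [Nat.mem_primesBelow] at hp
    have hp1' : (1 : ℝ) < p := by exact_mod_cast hp.2.one_lt
    have hp0 : (0 : ℝ) < p := by linarith
    have hlog : 0 < Real.log p := Real.log_pos hp1'
    have hlogb : Real.log p ≤ b := by
      rw [Real.log_le_iff_le_exp hp0]
      have : (p : ℝ) ≤ X := by exact_mod_cast hp.1.le
      linarith
    have h3 : (p : ℝ) ^ (-(1 : ℝ)) ≤ 3 * (p : ℝ) ^ (-(1 + 1 / (b : ℝ))) := by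
      have h4 : (p : ℝ) ^ (-(1 : ℝ)) = (p : ℝ) ^ (1 / (b : ℝ)) * (p : ℝ) ^ (-(1 + 1 / (b : ℝ))) := by
        rw [← Real.rpow_add hp0]; congr 1; ring
      rw [h4]
      refine mul_le_mul_of_nonneg_right ?_ (by positivity)
      rw [Real.rpow_def_of_pos hp0]
      have h5 : Real.log p * (1 / (b : ℝ)) ≤ 1 := by
        rw [mul_one_div, div_le_one hb0]; exact hlogb
      have h6 := Real.exp_le_exp.2 h5
      have h7 := Real.exp_one_lt_d9
      linarith
    have h8 : 0 < (p : ℝ) ^ (-(1 + 1 / (b : ℝ))) := by positivity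
    calc (Real.log p) ^ 2 * (p : ℝ) ^ (-(1 : ℝ))
        ≤ (Real.log p * b) * (3 * (p : ℝ) ^ (-(1 + 1 / (b : ℝ)))) := by
          rw [sq]
          gcongr
      _ = _ := by ring
  refine (Finset.sum_le_sum h2).trans ?_
  rw [← Finset.mul_sum]
  calc 3 * (b : ℝ) * ∑ p ∈ Nat.primesBelow X, Real.log p * (p : ℝ) ^ (-(1 + 1 / (b : ℝ)))
      ≤ 3 * b * (4 / (1 / (b : ℝ))) := by gcongr
    _ = 12 * (b : ℝ) ^ 2 := by field_simp; ring

/-- `δ² ∑ log² p / p^{1+2δ} ≤ 4` -/
lemma sum_log_sq' (M : ℕ) (δ : ℝ) (hδ : 0 < δ) (hδ1 : δ ≤ 1) :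
    ∑ p ∈ Nat.primesBelow M, (δ * Real.log p) ^ 2 * (p : ℝ) ^ (-(1 + 2 * δ)) ≤ 4 := by
  have h1 := sum_log M δ hδ hδ1
  have h2 : ∀ p ∈ Nat.primesBelow M, (δ * Real.log p) ^ 2 * (p : ℝ) ^ (-(1 + 2 * δ)) ≤
      δ * (Real.log p * (p : ℝ) ^ (-(1 + δ))) := by
    intro p hp
    rw [Nat.mem_primesBelow] at hp
    have hp1' : (1 : ℝ) < p := by exact_mod_cast hp.2.one_lt
    have hp0 : (0 : ℝ) < p := by linarith
    have hlog : 0 < Real.log p := Real.log_pos hp1'
    have h3 : (p : ℝ) ^ (-(1 + 2 * δ)) = (p : ℝ) ^ (-δ) * (p : ℝ) ^ (-(1 + δ)) := by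
      rw [← Real.rpow_add hp0]; congr 1; ring
    have h4 : (δ * Real.log p) * (p : ℝ) ^ (-δ) ≤ 1 := by
      rw [Real.rpow_def_of_pos hp0]
      have h5 := Real.add_one_le_exp (δ * Real.log p)
      have h6 : Real.exp (Real.log p * -δ) = (Real.exp (δ * Real.log p))⁻¹ := by
        rw [← Real.exp_neg]; congr 1; ring
      rw [h6, ← div_eq_mul_inv, div_le_one (Real.exp_pos _)]
      linarith
    have h8 : 0 < (p : ℝ) ^ (-(1 + δ)) := by positivity
    rw [h3]
    calc (δ * Real.log p) ^ 2 * ((p : ℝ) ^ (-δ) * (p : ℝ) ^ (-(1 + δ)))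
        = ((δ * Real.log p) * (p : ℝ) ^ (-δ)) * (δ * Real.log p * (p : ℝ) ^ (-(1 + δ))) := by ring
      _ ≤ 1 * (δ * Real.log p * (p : ℝ) ^ (-(1 + δ))) := by
          refine mul_le_mul_of_nonneg_right h4 (by positivity)
      _ = _ := by ring
  refine (Finset.sum_le_sum h2).trans ?_
  rw [← Finset.mul_sum]
  calc δ * ∑ p ∈ Nat.primesBelow M, Real.log p * (p : ℝ) ^ (-(1 + δ)) ≤ δ * (4 / δ) := by gcongr
    _ = 4 := by field_simp

/-- lower bound of the partial Euler product at `2/J` -/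
lemma Z_low (b : ℕ) (hb : 2 ≤ b) (J : ℕ) (hJ : 2 * b ≤ J) :
    (b : ℝ) / 4 ≤ Z ⌊Real.exp b⌋₊ (2 / J) := by
  set X := ⌊Real.exp b⌋₊ with hX
  have hb2 : (2 : ℝ) ≤ b := by exact_mod_cast hb
  have hexp : (b : ℝ) + 1 ≤ Real.exp b := Real.add_one_le_exp _
  have hX1 : 1 ≤ X := by
    rw [hX, Nat.one_le_floor_iff]; linarith
  have hJ0 : (0 : ℝ) < J := by
    have : 0 < J := by omega
    exact_mod_cast this
  have hs : (0 : ℝ) < 2 / J := by positivity
  refine le_trans ?_ (Z_lower X hX1 _ hs)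
  have hXr : (1 : ℝ) ≤ X := by exact_mod_cast hX1
  have hX0 : (0 : ℝ) < X := by linarith
  -- log X ≥ b - 1
  have hlogX : (b : ℝ) - 1 ≤ Real.log X := by
    rw [Real.le_log_iff_exp_le hX0]
    have h1 : Real.exp b < X + 1 := Nat.lt_floor_add_one _
    have h2 : Real.exp ((b : ℝ) - 1) = Real.exp b / Real.exp 1 := Real.exp_sub _ _
    have h3 := Real.exp_one_gt_d9
    have h4 : Real.exp ((b : ℝ) - 1) ≤ Real.exp b / 2 := by
      rw [h2]
      exact div_le_div_of_nonneg_left (Real.exp_pos _).le (by norm_num) (by linarith)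
    have h5 : (2 : ℝ) ≤ Real.exp b := by linarith
    linarith
  have hlogXb : Real.log X ≤ b := by
    rw [Real.log_le_iff_le_exp hX0]
    exact Nat.floor_le (Real.exp_pos _).le
  set y : ℝ := 2 / J * Real.log X with hy
  have hlogX0 : 0 ≤ Real.log X := by linarith
  have hy0 : 0 ≤ y := by positivity
  have hy1 : y ≤ 1 := by
    rw [hy, div_mul_eq_mul_div, div_le_one hJ0]
    have : (2 : ℝ) * b ≤ J := by exact_mod_cast hJ
    linarith
  have hXy : (X : ℝ) ^ (-(2 / (J : ℝ))) = Real.exp (-y) := by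
    rw [Real.rpow_def_of_pos hX0, hy]; congr 1; ring
  rw [hXy]
  have hexpy : Real.exp (-y) ≤ 1 - y / 2 := by
    have h6 := Real.add_one_le_exp y
    have h7 : Real.exp (-y) ≤ 1 / (1 + y) := by
      rw [Real.exp_neg, ← one_div]
      exact one_div_le_one_div_of_le (by linarith) (by linarith)
    refine h7.trans ?_
    rw [div_le_iff₀ (by linarith)]
    nlinarith
  have h8 : y / 2 / (2 / (J : ℝ)) = Real.log X / 2 := by
    rw [hy]; field_simp
  calc (b : ℝ) / 4 ≤ Real.log X / 2 := by linarith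
    _ = y / 2 / (2 / (J : ℝ)) := h8.symm
    _ ≤ (1 - Real.exp (-y)) / (2 / (J : ℝ)) := by
        apply div_le_div_of_nonneg_right _ hs.le
        linarith

lemma sum_primes_eq (g : ℕ → ℝ) (M : ℕ) :
    ∑ j ∈ Finset.range (Nat.primeCounting' M), g (Nat.nth Nat.Prime j) =
      ∑ p ∈ Nat.primesBelow M, g p := by
  refine Finset.sum_nbij' (fun j => Nat.nth Nat.Prime j) (fun p => Nat.count Nat.Prime p)
    ?_ ?_ ?_ ?_ ?_
  · intro j hj
    rw [Nat.mem_primesBelow]
    exact ⟨Nat.nth_lt_of_lt_count (Finset.mem_range.1 hj), Nat.prime_nth_prime j⟩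
  · intro p hp
    rw [Nat.mem_primesBelow] at hp
    rw [Finset.mem_range]
    exact Nat.count_strict_mono hp.2 hp.1
  · intro j _
    exact Nat.primeCounting'_nth_eq j
  · intro p hp
    exact Nat.nth_count (Nat.prime_of_mem_primesBelow hp)
  · intro j _
    rfl

/-- the number of primes below `e^b` -/
noncomputable def NN (b : ℕ) : ℕ := Nat.primeCounting' ⌊Real.exp b⌋₊

lemma log_p_le (b k : ℕ) (hk : k < NN b) : Real.log (Nat.nth Nat.Prime k) ≤ b := by
  have h1 : Nat.nth Nat.Prime k < ⌊Real.exp b⌋₊ := Nat.nth_lt_of_lt_count hk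
  have h2 : (Nat.nth Nat.Prime k : ℝ) ≤ Real.exp b := by
    have : (Nat.nth Nat.Prime k : ℝ) ≤ (⌊Real.exp b⌋₊ : ℝ) := by exact_mod_cast h1.le
    exact this.trans (Nat.floor_le (Real.exp_pos _).le)
  rw [Real.log_le_iff_le_exp (by have := two_le_p k; linarith)]
  exact h2

lemma NN_tendsto : Tendsto NN atTop atTop := by
  have h1 : Tendsto (fun b : ℕ => ⌊Real.exp b⌋₊) atTop atTop :=
    tendsto_nat_floor_atTop.comp (Real.tendsto_exp_atTop.comp tendsto_natCast_atTop_atTop)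
  exact Nat.tendsto_primeCounting'.comp h1

/-- divergence of the sum of the reciprocals of the primes -/
lemma sum_inv_tendsto : Tendsto (fun N : ℕ => ∑ k ∈ range N, (1 : ℝ) / (Nat.nth Nat.Prime k))
    atTop atTop := by
  have hns : ¬ Summable fun k : ℕ => (1 : ℝ) / (Nat.nth Nat.Prime k) := by
    intro h
    refine Nat.Primes.not_summable_one_div ?_
    have e : (fun p : Nat.Primes => (1 / (p : ℕ) : ℝ)) =
        (fun k : ℕ => (1 : ℝ) / (Nat.nth Nat.Prime k)) ∘ fun p : Nat.Primes =>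
          Nat.count Nat.Prime (p : ℕ) := by
      funext p
      simp only [Function.comp]
      rw [Nat.nth_count p.2]
    rw [e]
    refine h.comp_injective ?_
    intro p q hpq
    have h1 : Nat.nth Nat.Prime (Nat.count Nat.Prime (p : ℕ)) = p := Nat.nth_count p.2
    have h2 : Nat.nth Nat.Prime (Nat.count Nat.Prime (q : ℕ)) = q := Nat.nth_count q.2
    have hpq' : Nat.count Nat.Prime (p : ℕ) = Nat.count Nat.Prime (q : ℕ) := hpq
    apply Subtype.ext
    rw [← h1, hpq', h2]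
  exact (not_summable_iff_tendsto_nat_atTop_of_nonneg fun k => by positivity).1 hns

end Pool.Agent.Helper873.NT
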