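import Mathlib

set_option autoImplicit false
open MeasureTheory Metric
open scoped ComplexConjugate

namespace Pool.Agent.Helper873.OneVar

/-- the (conjugated) coordinate function on the circle `ℝ/ℤ` -/
noncomputable def zet (t : UnitAddCircle) : ℂ := fourier (-1) t

lemma continuous_zet : Continuous zet := (fourier (-1)).continuous

lemma norm_zet (t : UnitAddCircle) : ‖zet t‖ = 1 := by
  unfold zet
  rw [fourier_apply]
  exact Circle.norm_coe _

lemma zet_pow (n : ℕ) (t : UnitAddCircle) : zet t ^ n = fourier (-(n : ℤ)) t := by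
  unfold zet
  rw [fourier_apply, fourier_apply]
  rw [neg_smul, one_smul, neg_smul, AddCircle.toCircle_neg, AddCircle.toCircle_neg,
    natCast_zsmul, AddCircle.toCircle_nsmul]
  push_cast
  rw [inv_pow]

lemma integral_zet {E : Type*} [NormedAddCommGroup E] [NormedSpace ℝ E] (φ : ℂ → E) :
    ∫ t : UnitAddCircle, φ (zet t) ∂AddCircle.haarAddCircle = Real.circleAverage φ 0 1 := by
  have h1 : Real.circleAverage φ 0 1 = Real.circleAverage (fun z => φ z⁻¹) 0 1 :=
    (Real.circleAverage_zero_one_congr_inv (f := φ)).symm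
  rw [h1, Real.circleAverage_def, AddCircle.integral_haarAddCircle]
  rw [inv_one, one_smul, ← UnitAddCircle.intervalIntegral_preimage 0]
  have h2 : ∀ a : ℝ, φ (zet (a : UnitAddCircle)) =
      (fun θ : ℝ => φ (circleMap 0 1 θ)⁻¹) ((2 * Real.pi) * a) := by
    intro a
    simp only
    congr 1
    unfold zet
    rw [fourier_coe_apply, circleMap_zero, Complex.ofReal_one, one_mul, ← Complex.exp_neg]
    congr 1
    push_cast
    ring
  simp_rw [h2]
  rw [intervalIntegral.integral_comp_mul_left (fun θ : ℝ => φ (circleMap 0 1 θ)⁻¹)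
    (by positivity)]
  simp

/-- A square root of `1 - b z`. -/
lemma sqrt_factor (b : ℂ) (hb : ‖b‖ ≤ 1) :
    ∃ h : ℂ → ℂ, DiffContOnCl ℂ h (ball 0 1) ∧ ∀ z, ‖h z‖ ^ 2 = ‖1 - b * z‖ := by
  refine ⟨fun z => (1 - b * z) ^ ((2 : ℕ) : ℂ)⁻¹, ⟨?_, ?_⟩, ?_⟩
  · intro z hz
    rw [mem_ball_zero_iff] at hz
    have hre : 0 < (1 - b * z).re := by
      have : ‖b * z‖ < 1 := by
        rw [norm_mul]
        calc ‖b‖ * ‖z‖ ≤ 1 * ‖z‖ := by gcongr
          _ < 1 := by simpa using hz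
      have h2 := Complex.re_le_norm (b * z)
      simp only [Complex.sub_re, Complex.one_re]
      linarith
    refine DifferentiableAt.differentiableWithinAt ?_
    refine DifferentiableAt.cpow (by fun_prop) (by fun_prop) ?_
    exact Or.inl hre
  · rw [closure_ball _ one_ne_zero]
    intro z hz
    rw [mem_closedBall_zero_iff] at hz
    have hre : 0 ≤ (1 - b * z).re := by
      have : ‖b * z‖ ≤ 1 := by
        rw [norm_mul]
        calc ‖b‖ * ‖z‖ ≤ 1 * 1 := by gcongr
          _ = 1 := by simp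
      have h2 := Complex.re_le_norm (b * z)
      simp only [Complex.sub_re, Complex.one_re]
      linarith
    refine ContinuousAt.continuousWithinAt ?_
    have h1 : ContinuousAt (fun x : ℂ => x ^ ((2 : ℕ) : ℂ)⁻¹) (1 - b * z) := by
      refine Complex.continuousAt_cpow_const_of_re_pos (Or.inl hre) ?_
      have : (((2 : ℕ) : ℂ)⁻¹).re = 1 / 2 := by norm_num
      rw [this]; norm_num
    exact ContinuousAt.comp (f := fun z : ℂ => 1 - b * z) (g := fun x : ℂ => x ^ ((2 : ℕ) : ℂ)⁻¹)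
      h1 (by fun_prop)
  · intro z
    rw [← norm_pow, Complex.cpow_nat_inv_pow _ two_ne_zero]

lemma norm_sub_le_of_disc (a z : ℂ) (ha : ‖a‖ ≤ 1) (hz : ‖z‖ ≤ 1) :
    ‖z - a‖ ≤ ‖1 - conj a * z‖ := by
  have h : ‖z - a‖ ^ 2 ≤ ‖1 - conj a * z‖ ^ 2 := by
    rw [← Complex.normSq_eq_norm_sq, ← Complex.normSq_eq_norm_sq]
    have ha2 : Complex.normSq a ≤ 1 := by
      rw [Complex.normSq_eq_norm_sq]; nlinarith [norm_nonneg a]
    have hz2 : Complex.normSq z ≤ 1 := by
      rw [Complex.normSq_eq_norm_sq]; nlinarith [norm_nonneg z]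
    rw [Complex.normSq_apply] at *
    simp only [Complex.sub_re, Complex.sub_im, Complex.mul_re, Complex.mul_im, Complex.conj_re,
      Complex.conj_im, Complex.one_re, Complex.one_im, Complex.normSq_apply]
    nlinarith [mul_nonneg (sub_nonneg.2 ha2) (sub_nonneg.2 hz2)]
  exact (sq_le_sq₀ (norm_nonneg _) (norm_nonneg _)).1 h

lemma norm_sub_eq_of_circle (a z : ℂ) (hz : ‖z‖ = 1) :
    ‖1 - conj a * z‖ = ‖z - a‖ := by
  have h : ‖z - a‖ ^ 2 = ‖1 - conj a * z‖ ^ 2 := by
    rw [← Complex.normSq_eq_norm_sq, ← Complex.normSq_eq_norm_sq]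
    have hz2 : Complex.normSq z = 1 := by
      rw [Complex.normSq_eq_norm_sq, hz]; norm_num
    rw [Complex.normSq_apply] at hz2
    simp only [Complex.sub_re, Complex.sub_im, Complex.mul_re, Complex.mul_im, Complex.conj_re,
      Complex.conj_im, Complex.one_re, Complex.one_im, Complex.normSq_apply]
    linear_combination (1 - (a.re * a.re + a.im * a.im)) * hz2
  exact ((sq_eq_sq₀ (norm_nonneg _) (norm_nonneg _)).1 h).symm

/-- outer square root of a linear factor -/
lemma outer_factor (a : ℂ) :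
    ∃ h : ℂ → ℂ, DiffContOnCl ℂ h (ball 0 1) ∧ (∀ z, ‖z‖ = 1 → ‖h z‖ ^ 2 = ‖z - a‖) ∧
      ∀ z, ‖z‖ < 1 → ‖z - a‖ ≤ ‖h z‖ ^ 2 := by
  by_cases ha : ‖a‖ ≤ 1
  · obtain ⟨h, h1, h2⟩ := sqrt_factor (conj a) (by simpa using ha)
    refine ⟨h, h1, fun z hz => ?_, fun z hz => ?_⟩
    · rw [h2, norm_sub_eq_of_circle a z hz]
    · rw [h2]; exact norm_sub_le_of_disc a z ha hz.le
  · push Not at ha
    have ha0 : a ≠ 0 := by
      rintro rfl
      simp at ha
      linarith
    obtain ⟨h, h1, h2⟩ := sqrt_factor a⁻¹ (by rw [norm_inv]; exact inv_le_one_of_one_le₀ ha.le)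
    have key : ∀ z, ‖((Real.sqrt ‖a‖ : ℝ) : ℂ) * h z‖ ^ 2 = ‖z - a‖ := by
      intro z
      rw [norm_mul, mul_pow, h2, Complex.norm_real, Real.norm_of_nonneg (Real.sqrt_nonneg _),
        Real.sq_sqrt (norm_nonneg _), ← norm_mul, mul_sub, mul_one, ← mul_assoc,
        mul_inv_cancel₀ ha0, one_mul, norm_sub_rev]
    refine ⟨fun z => ((Real.sqrt ‖a‖ : ℝ) : ℂ) * h z, ?_, fun z _ => key z, fun z _ => (key z).ge⟩
    exact h1.const_smul ((Real.sqrt ‖a‖ : ℝ) : ℂ)

lemma exists_outer (g : Polynomial ℂ) :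
    ∃ h : ℂ → ℂ, DiffContOnCl ℂ h (ball 0 1) ∧ (∀ z, ‖z‖ = 1 → ‖h z‖ ^ 2 = ‖g.eval z‖) ∧
      ∀ z, ‖z‖ < 1 → ‖g.eval z‖ ≤ ‖h z‖ ^ 2 := by
  have key : ∀ s : Multiset ℂ, ∃ h : ℂ → ℂ, DiffContOnCl ℂ h (ball 0 1) ∧
      (∀ z, ‖z‖ = 1 → ‖h z‖ ^ 2 = ‖((s.map fun a => Polynomial.X - Polynomial.C a).prod).eval z‖) ∧
      ∀ z, ‖z‖ < 1 → ‖((s.map fun a => Polynomial.X - Polynomial.C a).prod).eval z‖ ≤
        ‖h z‖ ^ 2 := by
    intro s
    induction s using Multiset.induction_on with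
    | empty =>
      refine ⟨fun _ => 1, diffContOnCl_const, ?_, ?_⟩ <;> simp
    | cons a s ih =>
      obtain ⟨h, h1, h2, h3⟩ := ih
      obtain ⟨k, k1, k2, k3⟩ := outer_factor a
      refine ⟨fun z => k z * h z, k1.smul h1, fun z hz => ?_, fun z hz => ?_⟩
      · simp only [Multiset.map_cons, Multiset.prod_cons, Polynomial.eval_mul,
          Polynomial.eval_sub, Polynomial.eval_X, Polynomial.eval_C, norm_mul, mul_pow]
        rw [k2 z hz, h2 z hz]
      · simp only [Multiset.map_cons, Multiset.prod_cons, Polynomial.eval_mul,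
          Polynomial.eval_sub, Polynomial.eval_X, Polynomial.eval_C, norm_mul, mul_pow]
        exact mul_le_mul (k3 z hz) (h3 z hz) (norm_nonneg _) (by positivity)
  obtain ⟨h, h1, h2, h3⟩ := key g.roots
  have hg : g = Polynomial.C g.leadingCoeff *
      (g.roots.map fun a => Polynomial.X - Polynomial.C a).prod :=
    (IsAlgClosed.splits g).eq_prod_roots
  have hval : ∀ z, ‖g.eval z‖ = ‖g.leadingCoeff‖ *
      ‖((g.roots.map fun a => Polynomial.X - Polynomial.C a).prod).eval z‖ := by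
    intro z
    conv_lhs => rw [hg]
    rw [Polynomial.eval_mul, Polynomial.eval_C, norm_mul]
  have hn : ∀ z, ‖((Real.sqrt ‖g.leadingCoeff‖ : ℝ) : ℂ) * h z‖ ^ 2 =
      ‖g.leadingCoeff‖ * ‖h z‖ ^ 2 := by
    intro z
    rw [norm_mul, mul_pow, Complex.norm_real, Real.norm_of_nonneg (Real.sqrt_nonneg _),
        Real.sq_sqrt (norm_nonneg _)]
  refine ⟨fun z => ((Real.sqrt ‖g.leadingCoeff‖ : ℝ) : ℂ) * h z,
    h1.const_smul ((Real.sqrt ‖g.leadingCoeff‖ : ℝ) : ℂ), fun z hz => ?_, fun z hz => ?_⟩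
  · rw [hn, hval, h2 z hz]
  · rw [hn, hval]
    exact mul_le_mul_of_nonneg_left (h3 z hz) (norm_nonneg _)

lemma norm_one_sub_zet (x : ℝ) (t : UnitAddCircle) :
    ‖1 - (x : ℂ) * zet t‖ = ‖zet t - x‖ := by
  have := norm_sub_eq_of_circle (x : ℂ) (zet t) (norm_zet t)
  rwa [Complex.conj_ofReal] at this

lemma one_sub_zet_ne (x : ℝ) (hx0 : 0 ≤ x) (hx : x < 1) (t : UnitAddCircle) :
    0 < ‖1 - (x : ℂ) * zet t‖ := by
  rw [norm_pos_iff]
  intro h
  have h1 : (x : ℂ) * zet t = 1 := by linear_combination -h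
  have h2 := congrArg norm h1
  rw [norm_mul, norm_zet, Complex.norm_real, Real.norm_of_nonneg hx0] at h2
  simp at h2
  linarith

lemma cauchy_zet (h : ℂ → ℂ) (hd : DiffContOnCl ℂ h (ball 0 1)) (x : ℝ) (hx0 : 0 ≤ x)
    (hx : x < 1) :
    ∫ t : UnitAddCircle, (zet t / (zet t - x)) * h (zet t) ∂AddCircle.haarAddCircle = h x := by
  have h1 := DiffContOnCl.circleAverage_smul_div (c := 0) (R := 1) (w := (x : ℂ)) (f := h)
    (by simpa using hd)
    (by simpa [Complex.norm_real, abs_of_nonneg hx0] using hx)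
  rw [← h1, ← integral_zet]
  simp

/-- The one variable inequality. -/
theorem sqrt_ineq (g : Polynomial ℂ) (x : ℝ) (hx0 : 0 ≤ x) (hx : x < 1) :
    Real.sqrt ‖g.eval (x : ℂ)‖ ≤
      ∫ t : UnitAddCircle, Real.sqrt ‖g.eval (zet t)‖ / ‖1 - (x : ℂ) * zet t‖
        ∂AddCircle.haarAddCircle := by
  obtain ⟨h, h1, h2, h3⟩ := exists_outer g
  have e1 : Real.sqrt ‖g.eval (x : ℂ)‖ ≤ ‖h x‖ := by
    rw [Real.sqrt_le_left (norm_nonneg _)]
    refine h3 x ?_
    rw [Complex.norm_real, Real.norm_of_nonneg hx0]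
    exact hx
  refine e1.trans ?_
  rw [← cauchy_zet h h1 x hx0 hx]
  refine (norm_integral_le_integral_norm _).trans (le_of_eq ?_)
  refine integral_congr_ae (Filter.Eventually.of_forall fun t => ?_)
  simp only
  rw [norm_mul, norm_div, norm_zet, ← norm_one_sub_zet x t, ← h2 (zet t) (norm_zet t),
    Real.sqrt_sq (norm_nonneg _)]
  ring

lemma cauchy_kernel (x y : ℝ) (hx0 : 0 ≤ x) (hx : x < 1) (hy0 : 0 ≤ y) (hy : y < 1) :
    ∫ t : UnitAddCircle, (1 / (1 - (x : ℂ) * zet t)) * conj (1 / (1 - (y : ℂ) * zet t))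
      ∂AddCircle.haarAddCircle = 1 / (1 - (x : ℂ) * y) := by
  have hd : DiffContOnCl ℂ (fun z : ℂ => 1 / (1 - (x : ℂ) * z)) (ball 0 1) := by
    have hne : ∀ z : ℂ, z ∈ closure (ball (0 : ℂ) 1) → 1 - (x : ℂ) * z ≠ 0 := by
      intro z hz h
      rw [closure_ball _ one_ne_zero, mem_closedBall_zero_iff] at hz
      have h1 : (x : ℂ) * z = 1 := by linear_combination -h
      have h2 := congrArg norm h1
      rw [norm_mul, Complex.norm_real, Real.norm_of_nonneg hx0] at h2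
      simp at h2
      nlinarith
    have := (DiffContOnCl.inv (s := ball (0 : ℂ) 1) (f := fun z : ℂ => 1 - (x : ℂ) * z)
      (Differentiable.diffContOnCl (by fun_prop)) hne)
    simp only [one_div]
    exact this
  rw [← cauchy_zet _ hd y hy0 hy]
  refine integral_congr_ae (Filter.Eventually.of_forall fun t => ?_)
  simp only
  have hz : zet t ≠ 0 := by
    rw [← norm_pos_iff, norm_zet]; norm_num
  have hc : conj (zet t) = (zet t)⁻¹ := by
    rw [Complex.inv_def, Complex.normSq_eq_norm_sq, norm_zet]; simp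
  have hne : zet t - (y : ℂ) ≠ 0 := by
    rw [← norm_pos_iff, ← norm_one_sub_zet y t]
    exact one_sub_zet_ne y hy0 hy t
  have e1 : conj (1 / (1 - (y : ℂ) * zet t)) = zet t / (zet t - y) := by
    rw [map_div₀, map_one, map_sub, map_one, map_mul, Complex.conj_ofReal, hc]
    have : (1 - (y : ℂ) * (zet t)⁻¹) = (zet t - y) / zet t := by
      field_simp
    rw [this, one_div, inv_div]
  rw [e1]; ring

end Pool.Agent.Helper873.OneVar
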