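import Pool.Agent.Helper873.NT

set_option autoImplicit false
open MeasureTheory Metric
open scoped ComplexConjugate ENNReal

namespace Pool.Agent.Helper873.Pk

open Pool.Agent.Helper873.OneVar

/-- Haar probability measure on the circle -/
noncomputable abbrev mu : Measure UnitAddCircle := AddCircle.haarAddCircle (T := 1)

/-- the Poisson kernel -/
noncomputable def pk (α : ℂ) (t : UnitAddCircle) : ℝ := (1 - ‖α‖ ^ 2) / ‖1 - α * zet t‖ ^ 2

lemma norm_lt_one {α : ℂ} (h : ‖α‖ ^ 2 ≤ 1 / 2) : ‖α‖ < 1 := by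
  nlinarith [norm_nonneg α]

lemma den_pos {α : ℂ} (h : ‖α‖ < 1) (t : UnitAddCircle) : 0 < ‖1 - α * zet t‖ := by
  rw [norm_pos_iff]
  intro h0
  have h1 : α * zet t = 1 := by linear_combination -h0
  have h2 : ‖α * zet t‖ = 1 := by rw [h1]; simp
  rw [norm_mul, norm_zet, mul_one] at h2
  linarith

lemma pk_pos {α : ℂ} (h : ‖α‖ < 1) (t : UnitAddCircle) : 0 < pk α t := by
  have := den_pos h t
  have h2 : 0 < 1 - ‖α‖ ^ 2 := by nlinarith [norm_nonneg α]
  unfold pk; positivity

lemma continuous_pk {α : ℂ} (h : ‖α‖ < 1) : Continuous (pk α) := by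
  unfold pk
  refine Continuous.div continuous_const ?_ fun t => (pow_pos (den_pos h t) 2).ne'
  exact ((continuous_const.sub (continuous_const.mul continuous_zet)).norm).pow 2

lemma log_pk {α : ℂ} (h : ‖α‖ < 1) (t : UnitAddCircle) :
    Real.log (pk α t) = Real.log (1 - ‖α‖ ^ 2) - 2 * Real.log ‖1 - α * zet t‖ := by
  have h2 : 0 < 1 - ‖α‖ ^ 2 := by nlinarith [norm_nonneg α]
  unfold pk
  rw [Real.log_div h2.ne' (pow_pos (den_pos h t) 2).ne', Real.log_pow]
  norm_num

lemma abs_log_pk_le {α : ℂ} (h : ‖α‖ ^ 2 ≤ 1 / 2) (t : UnitAddCircle) :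
    |Real.log (pk α t)| ≤ 2 := by
  have h1 := norm_lt_one h
  have hn := norm_nonneg α
  have hd := den_pos h1 t
  have hp := pk_pos h1 t
  have hαz : ‖α * zet t‖ = ‖α‖ := by rw [norm_mul, norm_zet, mul_one]
  have hu : ‖1 - α * zet t‖ ≤ 1 + ‖α‖ := by
    have := norm_sub_le (1 : ℂ) (α * zet t)
    rwa [hαz, norm_one] at this
  have hl : 1 - ‖α‖ ≤ ‖1 - α * zet t‖ := by
    have := norm_sub_norm_le (1 : ℂ) (α * zet t)
    rwa [hαz, norm_one] at this
  have he : (7 : ℝ) ≤ Real.exp 2 := by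
    have h9 : Real.exp 2 = Real.exp 1 * Real.exp 1 := by rw [← Real.exp_add]; norm_num
    have h10 := Real.exp_one_gt_d9
    nlinarith
  have ha : ‖α‖ ≤ 3 / 4 := by nlinarith
  have h7 : pk α t ≤ 7 := by
    unfold pk
    rw [div_le_iff₀ (by positivity)]
    have : (1 - ‖α‖) ^ 2 ≤ ‖1 - α * zet t‖ ^ 2 := by
      apply pow_le_pow_left₀ (by linarith) hl
    nlinarith
  have h8 : 1 / 7 ≤ pk α t := by
    unfold pk
    rw [le_div_iff₀ (by positivity)]
    have : ‖1 - α * zet t‖ ^ 2 ≤ (1 + ‖α‖) ^ 2 := by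
      apply pow_le_pow_left₀ (norm_nonneg _) hu
    nlinarith
  rw [abs_le]
  constructor
  · rw [Real.le_log_iff_exp_le hp]
    rw [Real.exp_neg]
    calc (Real.exp 2)⁻¹ ≤ 7⁻¹ := inv_anti₀ (by norm_num) he
      _ ≤ pk α t := by rw [← one_div]; exact h8
  · rw [Real.log_le_iff_le_exp hp]
    linarith

lemma pk_eq_poisson (α : ℂ) (t : UnitAddCircle) :
    pk α t = poissonKernel 0 (conj α) (zet t) := by
  rw [poissonKernel_def]
  unfold pk
  have h := norm_sub_eq_of_circle (conj α) (zet t) (norm_zet t)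
  rw [Complex.conj_conj] at h
  rw [h]
  simp [norm_zet]

lemma integral_pk_harm {α : ℂ} (h : ‖α‖ < 1) (f : ℂ → ℝ)
    (hf : InnerProductSpace.HarmonicOnNhd f (closedBall 0 1)) :
    ∫ t, pk α t * f (zet t) ∂mu = f (conj α) := by
  have h1 := InnerProductSpace.HarmonicOnNhd.circleAverage_poissonKernel_smul (w := conj α) hf
    (by rw [mem_ball_zero_iff, RCLike.norm_conj]; exact h)
  rw [← h1, ← integral_zet]
  refine integral_congr_ae (Filter.Eventually.of_forall fun t => ?_)
  simp only [pk_eq_poisson, Pi.smul_apply', smul_eq_mul]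

lemma integral_pk {α : ℂ} (h : ‖α‖ < 1) : ∫ t, pk α t ∂mu = 1 := by
  have := integral_pk_harm h (fun _ => (1 : ℝ)) (fun x _ => by
    exact InnerProductSpace.harmonicAt_const (1 : ℝ))
  simpa using this

lemma harm_log {β : ℂ} (h : ‖β‖ < 1) :
    InnerProductSpace.HarmonicOnNhd (fun z : ℂ => Real.log ‖1 - β * z‖) (closedBall 0 1) := by
  intro z hz
  rw [mem_closedBall_zero_iff] at hz
  refine AnalyticAt.harmonicAt_log_norm (f := fun z => 1 - β * z) (by fun_prop) ?_
  intro h0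
  have h1 : β * z = 1 := by linear_combination -h0
  have h2 : ‖β * z‖ = 1 := by rw [h1]; simp
  rw [norm_mul] at h2
  nlinarith [norm_nonneg β, norm_nonneg z]

lemma integral_pk_log {α β : ℂ} (h : ‖α‖ < 1) (hβ : ‖β‖ < 1) :
    ∫ t, pk α t * Real.log ‖1 - β * zet t‖ ∂mu = Real.log ‖1 - β * conj α‖ :=
  integral_pk_harm h (fun z : ℂ => Real.log ‖1 - β * z‖) (harm_log hβ)

lemma pk_zero (t : UnitAddCircle) : pk 0 t = 1 := by simp [pk]

lemma integral_log {β : ℂ} (hβ : ‖β‖ < 1) :
    ∫ t, Real.log ‖1 - β * zet t‖ ∂mu = 0 := by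
  have := integral_pk_log (α := 0) (by simp) hβ
  simpa [pk_zero] using this

lemma integral_inv_pk (α : ℂ) :
    ∫ t, (pk α t)⁻¹ ∂mu = (1 + ‖α‖ ^ 2) / (1 - ‖α‖ ^ 2) := by
  have e : ∀ t, (pk α t)⁻¹ = (1 / (1 - ‖α‖ ^ 2)) * ((1 + ‖α‖ ^ 2) - 2 * (α * zet t).re) := by
    intro t
    unfold pk
    have h1 : ‖1 - α * zet t‖ ^ 2 = (1 + ‖α‖ ^ 2) - 2 * (α * zet t).re := by
      rw [← Complex.normSq_eq_norm_sq, Complex.normSq_sub]
      rw [Complex.normSq_eq_norm_sq, Complex.normSq_eq_norm_sq, norm_mul, norm_zet]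
      simp
    rw [h1, inv_div, div_eq_mul_inv, one_div, mul_comm]
  simp_rw [e]
  rw [integral_const_mul, integral_sub, integral_const_mul]
  · have h2 : ∫ t, (α * zet t).re ∂mu = 0 := by
      have h3 : ∫ t, α * zet t ∂mu = 0 := by
        have h4 := integral_zet (fun z : ℂ => α * z)
        rw [h4]
        have h5 : Differentiable ℂ (fun z : ℂ => α * z) := by fun_prop
        rw [DiffContOnCl.circleAverage (f := fun z : ℂ => α * z) (c := 0) (R := 1)
          h5.diffContOnCl]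
        simp
      have h5 := integral_re (μ := mu) (f := fun t => α * zet t)
        (integrable_cont (continuous_const.mul continuous_zet))
      simp only [RCLike.re_eq_complex_re] at h5
      rw [h5, h3]
      simp
    rw [h2]
    simp
    ring
  · exact integrable_const _
  · refine (integrable_cont ?_)
    exact continuous_const.mul (Complex.continuous_re.comp (continuous_const.mul continuous_zet))

/-! ### averages of logarithms of Poisson kernels -/

variable {ι : Type*}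

/-- average of the logarithms -/
noncomputable def gg (S : Finset ι) (β : ι → ℂ) (t : UnitAddCircle) : ℝ :=
  (1 / (S.card : ℝ)) * ∑ s ∈ S, Real.log (pk (β s) t)

lemma continuous_log_pk {α : ℂ} (h : ‖α‖ < 1) : Continuous fun t => Real.log (pk α t) :=
  (continuous_pk h).log fun t => (pk_pos h t).ne'

lemma continuous_gg (S : Finset ι) (β : ι → ℂ) (hβ : ∀ s ∈ S, ‖β s‖ ^ 2 ≤ 1 / 2) :
    Continuous (gg S β) := by
  unfold gg
  exact continuous_const.mul (continuous_finsetSum S fun s hs =>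
    continuous_log_pk (norm_lt_one (hβ s hs)))

lemma abs_gg_le (S : Finset ι) (β : ι → ℂ) (hβ : ∀ s ∈ S, ‖β s‖ ^ 2 ≤ 1 / 2)
    (t : UnitAddCircle) : |gg S β t| ≤ 2 := by
  unfold gg
  rw [abs_mul, abs_of_nonneg (by positivity : (0 : ℝ) ≤ 1 / (S.card : ℝ))]
  have h1 : |∑ s ∈ S, Real.log (pk (β s) t)| ≤ S.card * 2 := by
    refine (Finset.abs_sum_le_sum_abs _ _).trans ?_
    refine (Finset.sum_le_card_nsmul _ _ 2 fun s hs => abs_log_pk_le (hβ s hs) t).trans ?_
    rw [nsmul_eq_mul]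
  by_cases hS : S.card = 0
  · rw [hS]; simp
  · have hS' : (0 : ℝ) < S.card := by positivity
    calc 1 / (S.card : ℝ) * |∑ s ∈ S, Real.log (pk (β s) t)| ≤ 1 / (S.card : ℝ) * (S.card * 2) := by
          gcongr
      _ = 2 := by field_simp

lemma integral_pk_gg {q : ℝ} (hq : q ≤ 1 / 2) {α : ℂ} (hα : ‖α‖ ^ 2 ≤ 1 / 2)
    (S : Finset ι) (hS : S.Nonempty) (β : ι → ℂ) (hβ : ∀ s ∈ S, ‖β s‖ ^ 2 = q) :
    ∫ t, pk α t * gg S β t ∂mu = Real.log (1 - q) +
      (1 / (S.card : ℝ)) * ∑ s ∈ S, -(2 * Real.log ‖1 - β s * conj α‖) := by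
  have hα1 := norm_lt_one hα
  have hβ1 : ∀ s ∈ S, ‖β s‖ < 1 := fun s hs => norm_lt_one (by rw [hβ s hs]; exact hq)
  have hS' : (0 : ℝ) < S.card := by exact_mod_cast hS.card_pos
  have e : ∀ t, pk α t * gg S β t = (1 / (S.card : ℝ)) * ∑ s ∈ S,
      (Real.log (1 - q) * pk α t - 2 * (pk α t * Real.log ‖1 - β s * zet t‖)) := by
    intro t
    unfold gg
    rw [mul_left_comm, Finset.mul_sum]
    congr 1
    refine Finset.sum_congr rfl fun s hs => ?_
    rw [log_pk (hβ1 s hs), hβ s hs]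
    ring
  have hint : ∀ s ∈ S, Integrable (fun t => pk α t * Real.log ‖1 - β s * zet t‖) mu := by
    intro s hs
    refine integrable_cont ((continuous_pk hα1).mul ?_)
    refine Continuous.log ?_ fun t => (den_pos (hβ1 s hs) t).ne'
    exact (continuous_const.sub (continuous_const.mul continuous_zet)).norm
  simp_rw [e]
  rw [integral_const_mul, integral_finsetSum]
  · have e2 : ∀ s ∈ S, ∫ t, (Real.log (1 - q) * pk α t -
        2 * (pk α t * Real.log ‖1 - β s * zet t‖)) ∂mu =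
        Real.log (1 - q) + -(2 * Real.log ‖1 - β s * conj α‖) := by
      intro s hs
      rw [integral_sub ((integrable_cont (continuous_pk hα1)).const_mul _)
        ((hint s hs).const_mul _), integral_const_mul, integral_const_mul, integral_pk hα1,
        integral_pk_log hα1 (hβ1 s hs)]
      ring
    rw [Finset.sum_congr rfl e2, Finset.sum_add_distrib, Finset.sum_const, nsmul_eq_mul,
      mul_add, ← mul_assoc, one_div, inv_mul_cancel₀ hS'.ne', one_mul]
  · intro s hs
    exact ((integrable_cont (continuous_pk hα1)).const_mul _).sub ((hint s hs).const_mul _)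

lemma integral_gg {q : ℝ} (hq : q ≤ 1 / 2)
    (S : Finset ι) (hS : S.Nonempty) (β : ι → ℂ) (hβ : ∀ s ∈ S, ‖β s‖ ^ 2 = q) :
    ∫ t, gg S β t ∂mu = Real.log (1 - q) := by
  have := integral_pk_gg hq (α := 0) (by simp) S hS β hβ
  simpa [pk_zero] using this

lemma norm_sq_circle (q φ : ℝ) :
    ‖1 - (q : ℂ) * Complex.exp (φ * Complex.I)‖ ^ 2 = 1 - 2 * q * Real.cos φ + q ^ 2 := by
  rw [← Complex.normSq_eq_norm_sq, Complex.normSq_apply]
  simp only [Complex.sub_re, Complex.sub_im, Complex.mul_re, Complex.mul_im, Complex.ofReal_re,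
    Complex.ofReal_im, Complex.one_re, Complex.one_im, Complex.exp_ofReal_mul_I_re,
    Complex.exp_ofReal_mul_I_im]
  have := Real.sin_sq_add_cos_sq φ
  linear_combination q ^ 2 * this

lemma log_bounds (q φ : ℝ) (hq0 : 0 ≤ q) (hq : q ≤ 1 / 2) (hφ : |φ| ≤ 1) :
    q / 2 ≤ -(2 * Real.log ‖1 - (q : ℂ) * Complex.exp (φ * Complex.I)‖) ∧
    -(2 * Real.log (1 - q)) - 4 * q * φ ^ 2 ≤
      -(2 * Real.log ‖1 - (q : ℂ) * Complex.exp (φ * Complex.I)‖) := by
  have h1 := norm_sq_circle q φ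
  have h2 : 2 * Real.log ‖1 - (q : ℂ) * Complex.exp (φ * Complex.I)‖ =
      Real.log (1 - 2 * q * Real.cos φ + q ^ 2) := by
    rw [← h1, Real.log_pow]; norm_num
  have hφ2 : φ ^ 2 ≤ 1 := by
    rw [← sq_abs]; nlinarith [abs_nonneg φ]
  have hcos := Real.one_sub_sq_div_two_le_cos (x := φ)
  have hcos1 := Real.cos_le_one φ
  have hq1 : 0 < (1 - q) ^ 2 := by
    have : 0 < 1 - q := by linarith
    positivity
  have hpos : 0 < 1 - 2 * q * Real.cos φ + q ^ 2 := by nlinarith
  rw [h2]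
  constructor
  · have h3 := Real.log_le_sub_one_of_pos hpos
    nlinarith
  · have h4 : 2 * Real.log (1 - q) = Real.log ((1 - q) ^ 2) := by
      rw [Real.log_pow]; norm_num
    rw [h4]
    have h5 : Real.log (1 - 2 * q * Real.cos φ + q ^ 2) - Real.log ((1 - q) ^ 2) ≤
        (1 - 2 * q * Real.cos φ + q ^ 2) / (1 - q) ^ 2 - 1 := by
      rw [← Real.log_div hpos.ne' hq1.ne']
      exact Real.log_le_sub_one_of_pos (div_pos hpos hq1)
    have h6 : (1 - 2 * q * Real.cos φ + q ^ 2) / (1 - q) ^ 2 - 1 ≤ 4 * q * φ ^ 2 := by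
      rw [sub_le_iff_le_add, div_le_iff₀ hq1]
      have h7 : 1 / 4 ≤ (1 - q) ^ 2 := by nlinarith
      have h8 : 2 * q * (1 - Real.cos φ) ≤ q * φ ^ 2 := by nlinarith
      have h9 : 0 ≤ q * φ ^ 2 := by positivity
      nlinarith
    linarith

/-- the variance -/
noncomputable def va (α : ℂ) (g : UnitAddCircle → ℝ) (m : ℝ) : ℝ :=
  ∫ t, pk α t * (g t - m) ^ 2 ∂mu

lemma exp_lower (x : ℝ) (hx : |x| ≤ 1 / 2) : 1 + x + x ^ 2 / 4 ≤ Real.exp x := by
  have h := Real.exp_bound (x := x) (by linarith) (n := 3) (by norm_num)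
  rw [abs_le] at h
  have h1 : ∑ m ∈ Finset.range 3, x ^ m / (m.factorial : ℝ) = 1 + x + x ^ 2 / 2 := by
    simp [Finset.sum_range_succ]
  rw [h1] at h
  have h2 : |x| ^ 3 * ((Nat.succ 3 : ℕ) / ((Nat.factorial 3 : ℕ) * (3 : ℕ) : ℝ)) =
      |x| ^ 2 * |x| * (2 / 9) := by
    norm_num [Nat.factorial]
    rw [← sq_abs x]; ring
  have h3 := h.1
  rw [h2] at h3
  have h4 : |x| ^ 2 * |x| * (2 / 9) ≤ x ^ 2 / 9 := by
    rw [sq_abs]; nlinarith [sq_nonneg x]
  nlinarith [sq_nonneg x]

lemma exp_upper (x : ℝ) (hx : |x| ≤ 1) : Real.exp x ≤ 1 + x + x ^ 2 := by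
  have h := Real.abs_exp_sub_one_sub_id_le hx
  rw [abs_le] at h
  linarith [h.2]

lemma moments {α : ℂ} (hα : ‖α‖ < 1) (g : UnitAddCircle → ℝ) (hg : Continuous g) (m : ℝ)
    (hm : ∫ t, pk α t * g t ∂mu = m) (hb : ∀ t, |g t - m| ≤ 4) (l : ℝ) (hl0 : 0 ≤ l)
    (hl : l ≤ 1 / 8) :
    1 + l ^ 2 * va α g m / 4 ≤ ∫ t, pk α t * Real.exp (l * (g t - m)) ∂mu ∧
    ∫ t, pk α t * Real.exp (2 * l * (g t - m)) ∂mu ≤ 1 + 4 * l ^ 2 * va α g m := by
  have hc := continuous_pk hα
  have hgm : Continuous fun t => g t - m := hg.sub continuous_const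
  have hi1 : Integrable (fun t => pk α t) mu := integrable_cont hc
  have hi2 : Integrable (fun t => pk α t * g t) mu := integrable_cont (hc.mul hg)
  have hi3 : Integrable (fun t => pk α t * (g t - m) ^ 2) mu := integrable_cont (hc.mul (hgm.pow 2))
  have hmean : ∫ t, pk α t * (g t - m) ∂mu = 0 := by
    simp_rw [mul_sub]
    rw [integral_sub hi2 (hi1.mul_const m), hm, integral_mul_const, integral_pk hα]
    ring
  have hi4 : Integrable (fun t => pk α t * (g t - m)) mu := integrable_cont (hc.mul hgm)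
  constructor
  · have e : ∫ t, (pk α t + l * (pk α t * (g t - m)) + l ^ 2 / 4 * (pk α t * (g t - m) ^ 2)) ∂mu =
        1 + l ^ 2 * va α g m / 4 := by
      have hA : Integrable (fun t => pk α t + l * (pk α t * (g t - m))) mu :=
        hi1.add (hi4.const_mul l)
      rw [integral_add hA (hi3.const_mul _), integral_add hi1
        (hi4.const_mul l), integral_const_mul, integral_const_mul, hmean, integral_pk hα]
      unfold va; ring
    rw [← e]
    refine integral_mono ((hi1.add (hi4.const_mul l)).add (hi3.const_mul _))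
      (integrable_cont (hc.mul (Real.continuous_exp.comp (continuous_const.mul hgm)))) fun t => ?_
    have h1 : |l * (g t - m)| ≤ 1 / 2 := by
      rw [abs_mul, abs_of_nonneg hl0]
      have := hb t
      nlinarith [abs_nonneg (g t - m)]
    have h2 := exp_lower _ h1
    have h3 := mul_le_mul_of_nonneg_left h2 (pk_pos hα t).le
    simp only
    nlinarith
  · have e : ∫ t, (pk α t + 2 * l * (pk α t * (g t - m)) + 4 * l ^ 2 * (pk α t * (g t - m) ^ 2))
        ∂mu = 1 + 4 * l ^ 2 * va α g m := by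
      have hA : Integrable (fun t => pk α t + 2 * l * (pk α t * (g t - m))) mu :=
        hi1.add (hi4.const_mul _)
      rw [integral_add hA (hi3.const_mul _), integral_add hi1
        (hi4.const_mul _), integral_const_mul, integral_const_mul, hmean, integral_pk hα]
      unfold va; ring
    rw [← e]
    refine integral_mono
      (integrable_cont (hc.mul (Real.continuous_exp.comp (continuous_const.mul hgm))))
      ((hi1.add (hi4.const_mul _)).add (hi3.const_mul _)) fun t => ?_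
    have h1 : |2 * l * (g t - m)| ≤ 1 := by
      rw [abs_mul, abs_of_nonneg (by positivity)]
      have := hb t
      nlinarith [abs_nonneg (g t - m)]
    have h2 := exp_upper _ h1
    have h3 := mul_le_mul_of_nonneg_left h2 (pk_pos hα t).le
    simp only
    nlinarith

/-- all facts about one coordinate -/
theorem coord {q Φ : ℝ} (hq0 : 0 < q) (hq : q ≤ 1 / 2) (hΦ : Φ ≤ 1) {α : ℂ}
    (hα : ‖α‖ ^ 2 = q)
    (S : Finset ι) (hS : S.Nonempty) (β : ι → ℂ) (hβ : ∀ s ∈ S, ‖β s‖ ^ 2 = q)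
    (φ : ι → ℝ) (hφ : ∀ s ∈ S, |φ s| ≤ Φ)
    (hβα : ∀ s ∈ S, β s * conj α = (q : ℂ) * Complex.exp (φ s * Complex.I)) :
    ∃ m v : ℝ, |m| ≤ 2 ∧ -Real.log (1 - q) - 4 * q * Φ ^ 2 ≤ m ∧ q / 16 ≤ v ∧
      ∀ l : ℝ, 0 ≤ l → l ≤ 1 / 8 →
        1 + l ^ 2 * v / 4 ≤ ∫ t, pk α t * Real.exp (l * (gg S β t - m)) ∂mu ∧
        ∫ t, pk α t * Real.exp (2 * l * (gg S β t - m)) ∂mu ≤ 1 + 4 * l ^ 2 * v := by
  have hα' : ‖α‖ ^ 2 ≤ 1 / 2 := by rw [hα]; exact hq
  have hα1 := norm_lt_one hα'
  have hβ' : ∀ s ∈ S, ‖β s‖ ^ 2 ≤ 1 / 2 := fun s hs => by rw [hβ s hs]; exact hq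
  have hS' : (0 : ℝ) < S.card := by exact_mod_cast hS.card_pos
  have hc := continuous_pk hα1
  have hg := continuous_gg S β hβ'
  have hΦ0 : 0 ≤ Φ := by
    obtain ⟨s, hs⟩ := hS
    exact (abs_nonneg _).trans (hφ s hs)
  set m := ∫ t, pk α t * gg S β t ∂mu with hm
  have hmabs : |m| ≤ 2 := by
    rw [hm, ← Real.norm_eq_abs]
    calc ‖∫ t, pk α t * gg S β t ∂mu‖ ≤ ∫ t, ‖pk α t * gg S β t‖ ∂mu :=
          norm_integral_le_integral_norm _
      _ ≤ ∫ t, pk α t * 2 ∂mu := by
          refine integral_mono (integrable_cont (hc.mul hg).norm)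
            ((integrable_cont hc).mul_const 2) fun t => ?_
          simp only
          rw [norm_mul, Real.norm_eq_abs, Real.norm_eq_abs, abs_of_pos (pk_pos hα1 t)]
          exact mul_le_mul_of_nonneg_left (abs_gg_le S β hβ' t) (pk_pos hα1 t).le
      _ = 2 := by rw [integral_mul_const, integral_pk hα1]; norm_num
  have hmeq := integral_pk_gg hq hα' S hS β hβ
  rw [← hm] at hmeq
  -- average bounds
  have havg : ∀ (x : ℝ) (f : ι → ℝ), (∀ s ∈ S, x ≤ f s) →
      x ≤ (1 / (S.card : ℝ)) * ∑ s ∈ S, f s := by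
    intro x f h
    have h1 := Finset.card_nsmul_le_sum S f x h
    rw [nsmul_eq_mul] at h1
    rw [one_div, ← div_eq_inv_mul, le_div_iff₀ hS']
    linarith
  have hlow : -Real.log (1 - q) - 4 * q * Φ ^ 2 ≤ m := by
    have := havg (-(2 * Real.log (1 - q)) - 4 * q * Φ ^ 2)
      (fun s => -(2 * Real.log ‖1 - β s * conj α‖)) (fun s hs => by
        rw [hβα s hs]
        have h2 := (log_bounds q (φ s) hq0.le hq ((hφ s hs).trans hΦ)).2
        have h3 : (φ s) ^ 2 ≤ Φ ^ 2 := by
          rw [← sq_abs]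
          exact pow_le_pow_left₀ (abs_nonneg _) (hφ s hs) 2
        have h4 : 4 * q * (φ s) ^ 2 ≤ 4 * q * Φ ^ 2 := by gcongr
        linarith)
    linarith
  have hgap : q / 2 ≤ m - Real.log (1 - q) := by
    have := havg (q / 2)
      (fun s => -(2 * Real.log ‖1 - β s * conj α‖)) (fun s hs => by
        rw [hβα s hs]
        exact (log_bounds q (φ s) hq0.le hq ((hφ s hs).trans hΦ)).1)
    linarith
  have hgm : Continuous fun t => gg S β t - m := hg.sub continuous_const
  have hvar : q / 16 ≤ va α (gg S β) m := by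
    have h1 : ∀ t, (pk α t - 1) * (gg S β t - m) ≤
        4 * (pk α t * (gg S β t - m) ^ 2) + 1 / 16 * ((pk α t) - 2 + (pk α t)⁻¹) := by
      intro t
      have hp := pk_pos hα1 t
      have h2 : (pk α t) - 2 + (pk α t)⁻¹ = (pk α t - 1) ^ 2 * (pk α t)⁻¹ := by
        field_simp; ring
      rw [h2]
      have h3 : 4 * (pk α t * (gg S β t - m) ^ 2) + 1 / 16 * ((pk α t - 1) ^ 2 * (pk α t)⁻¹) -
          (pk α t - 1) * (gg S β t - m) =
          (pk α t)⁻¹ * (2 * pk α t * (gg S β t - m) - (pk α t - 1) / 4) ^ 2 := by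
        field_simp; ring
      have h4 : 0 ≤ (pk α t)⁻¹ * (2 * pk α t * (gg S β t - m) - (pk α t - 1) / 4) ^ 2 := by
        positivity
      linarith
    have hi1 : Integrable (fun t => pk α t) mu := integrable_cont hc
    have hi2 : Integrable (fun t => (pk α t)⁻¹) mu :=
      integrable_cont (hc.inv₀ fun t => (pk_pos hα1 t).ne')
    have hi3 : Integrable (fun t => pk α t * (gg S β t - m) ^ 2) mu :=
      integrable_cont (hc.mul (hgm.pow 2))
    have hi4 : Integrable (fun t => (pk α t - 1) * (gg S β t - m)) mu :=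
      integrable_cont ((hc.sub continuous_const).mul hgm)
    have hi5 : Integrable (fun t => (pk α t) - 2 + (pk α t)⁻¹) mu :=
      (hi1.sub (integrable_const 2)).add hi2
    have hA : Integrable (fun t => 4 * (pk α t * (gg S β t - m) ^ 2) +
        1 / 16 * ((pk α t) - 2 + (pk α t)⁻¹)) mu := (hi3.const_mul 4).add (hi5.const_mul (1 / 16))
    have h5 := integral_mono hi4 hA h1
    have h6 : ∫ t, (pk α t - 1) * (gg S β t - m) ∂mu = m - Real.log (1 - q) := by
      have e : ∀ t, (pk α t - 1) * (gg S β t - m) =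
          pk α t * gg S β t - m * pk α t - (gg S β t - m) := fun t => by ring
      simp_rw [e]
      have hi6 : Integrable (fun t => pk α t * gg S β t) mu := integrable_cont (hc.mul hg)
      have hA : Integrable (fun t => pk α t * gg S β t - m * pk α t) mu :=
        hi6.sub (hi1.const_mul m)
      rw [integral_sub hA (integrable_cont hgm),
        integral_sub hi6 (hi1.const_mul m), integral_const_mul, integral_pk hα1, ← hm,
        integral_sub (integrable_cont hg) (integrable_const m), integral_gg hq S hS β hβ]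
      simp
    have h7 : ∫ t, (4 * (pk α t * (gg S β t - m) ^ 2) +
        1 / 16 * ((pk α t) - 2 + (pk α t)⁻¹)) ∂mu = 4 * va α (gg S β) m +
        1 / 16 * (1 - 2 + (1 + q) / (1 - q)) := by
      have hA : Integrable (fun t => pk α t - 2) mu := hi1.sub (integrable_const 2)
      rw [integral_add (hi3.const_mul 4) (hi5.const_mul (1 / 16)), integral_const_mul,
        integral_const_mul, integral_add hA hi2,
        integral_sub hi1 (integrable_const 2), integral_pk hα1, integral_inv_pk, hα]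
      simp [va]
    rw [h6] at h5
    rw [h7] at h5
    have h8 : 1 - 2 + (1 + q) / (1 - q) ≤ 4 * q := by
      have : (0 : ℝ) < 1 - q := by linarith
      have h9 : (1 + q) / (1 - q) = 1 + 2 * q / (1 - q) := by field_simp; ring
      have h10 : 2 * q / (1 - q) ≤ 4 * q := by
        rw [div_le_iff₀ this]; nlinarith
      linarith
    linarith
  have hb : ∀ t, |gg S β t - m| ≤ 4 := by
    intro t
    have h1 := abs_gg_le S β hβ' t
    have := abs_sub (gg S β t) m
    linarith
  refine ⟨m, va α (gg S β) m, hmabs, hlow, hvar, fun l hl0 hl => ?_⟩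
  exact moments hα1 (gg S β) hg m hm.symm hb l hl0 hl

end Pool.Agent.Helper873.Pk
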