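import Pool.Agent.Helper873.PolDef

open MeasureTheory Filter Topology Set TopologicalSpace

namespace Pool.Agent.Helper873.Pol

/-- the closed set attached to a sequence of basic open sets -/
def univ1 {S : Type} (B : ℕ → Set S) (u : ℕ → ℕ) : Set S := {s | ∀ n, s ∉ B (u n)}

theorem exists_basis_with_empty (S : Type) [TopologicalSpace S] [SecondCountableTopology S] :
    ∃ B : ℕ → Set S, (∀ n, IsOpen (B n)) ∧ ∀ C : Set S, IsClosed C → ∃ u : ℕ → ℕ, univ1 B u = C := by
  classical
  obtain ⟨b, hbc, -, hb⟩ := exists_countable_basis S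
  have hne : (insert (∅ : Set S) b).Nonempty := ⟨∅, mem_insert _ _⟩
  obtain ⟨B, hB⟩ := (hbc.insert ∅).exists_eq_range hne
  refine ⟨B, ?_, ?_⟩
  · intro n
    have : B n ∈ insert (∅ : Set S) b := by rw [hB]; exact mem_range_self n
    rcases this with h | h
    · rw [h]; exact isOpen_empty
    · exact hb.isOpen h
  · intro C hC
    -- the basic open sets contained in the complement of C
    have hE : ∃ k, B k = ∅ := by
      have : (∅ : Set S) ∈ range B := by rw [← hB]; exact mem_insert _ _
      exact this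
    obtain ⟨k0, hk0⟩ := hE
    refine ⟨fun n => if B n ⊆ Cᶜ then n else k0, ?_⟩
    ext s
    simp only [univ1, mem_ofPred_eq]
    constructor
    · intro h
      by_contra hs
      obtain ⟨v, hv, hsv, hvC⟩ := hb.exists_subset_of_mem_open (show s ∈ Cᶜ from hs) hC.isOpen_compl
      have : v ∈ range B := by rw [← hB]; exact mem_insert_of_mem _ hv
      obtain ⟨n, rfl⟩ := this
      have h1 := h n
      rw [if_pos hvC] at h1
      exact h1 hsv
    · intro hs n
      by_cases h : B n ⊆ Cᶜ
      · rw [if_pos h]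
        intro h2
        exact h h2 hs
      · rw [if_neg h, hk0]
        exact notMem_empty s

/-- the natural closed embedding of the Baire space in `ℝ^ℕ` -/
def iota (y : ℕ → ℕ) : ℕ → ℝ := fun n => (y n : ℝ)

theorem isClosedEmbedding_iota : IsClosedEmbedding iota := by
  have h : IsClosedEmbedding (Nat.cast : ℕ → ℝ) := Nat.isClosedEmbedding_coe_real
  exact IsClosedEmbedding.piMap (f := fun _ : ℕ => (Nat.cast : ℕ → ℝ)) (fun _ => h)

/-- There is a closed set `H ⊆ ℕ^ℕ × ℝ^ℕ` such that the set of points with empty section is not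
analytic. -/
theorem exists_coanalytic : ∃ H : Set ((ℕ → ℕ) × (ℕ → ℝ)), IsClosed H ∧
    ¬ AnalyticSet {x : ℕ → ℕ | ∀ z, (x, z) ∉ H} := by
  obtain ⟨B, hBo, hB⟩ := exists_basis_with_empty ((ℕ → ℕ) × (ℕ → ℝ))
  refine ⟨{p | ∀ n, p ∉ B (p.1 n)}, ?_, ?_⟩
  · rw [← isOpen_compl_iff]
    have : ({p : (ℕ → ℕ) × (ℕ → ℝ) | ∀ n, p ∉ B (p.1 n)})ᶜ
        = ⋃ n, ⋃ k, ({p : (ℕ → ℕ) × (ℕ → ℝ) | p.1 n = k} ∩ B k) := by
      ext p
      simp only [mem_compl_iff, mem_ofPred_eq, not_forall, not_not, mem_iUnion, mem_inter_iff]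
      constructor
      · rintro ⟨n, hn⟩
        exact ⟨n, p.1 n, rfl, hn⟩
      · rintro ⟨n, k, hk, hp⟩
        exact ⟨n, by rw [hk]; exact hp⟩
    rw [this]
    refine isOpen_iUnion fun n => isOpen_iUnion fun k => IsOpen.inter ?_ (hBo k)
    have hc : Continuous fun p : (ℕ → ℕ) × (ℕ → ℝ) => p.1 n := by fun_prop
    exact (isOpen_discrete {k}).preimage hc
  · intro hA
    -- P is the projection of a closed set
    have hP : ∃ F : Set ((ℕ → ℕ) × (ℕ → ℝ)), IsClosed F ∧
        {x : ℕ → ℕ | ∀ z, (x, z) ∉ {p : (ℕ → ℕ) × (ℕ → ℝ) | ∀ n, p ∉ B (p.1 n)}}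
          = {x | ∃ z, (x, z) ∈ F} := by
      rw [AnalyticSet] at hA
      rcases hA with h | ⟨f, hf, hr⟩
      · refine ⟨∅, isClosed_empty, ?_⟩
        rw [h]; ext x; simp
      · refine ⟨(fun y : ℕ → ℕ => (f y, iota y)) '' univ, ?_, ?_⟩
        · -- image of the graph, closed
          have h1 : IsClosed {p : (ℕ → ℕ) × (ℕ → ℕ) | p.1 = f p.2} :=
            isClosed_eq continuous_fst (hf.comp continuous_snd)
          have h2 : IsClosedEmbedding (Prod.map (id : (ℕ → ℕ) → (ℕ → ℕ)) iota) :=
            IsClosedEmbedding.id.prodMap isClosedEmbedding_iota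
          have h3 := h2.isClosedMap _ h1
          convert h3 using 1
          ext p
          constructor
          · rintro ⟨y, -, rfl⟩
            exact ⟨(f y, y), rfl, rfl⟩
          · rintro ⟨⟨x, y⟩, hxy, rfl⟩
            refine ⟨y, trivial, ?_⟩
            have : x = f y := hxy
            rw [this]; rfl
        · rw [← hr]
          ext x
          constructor
          · rintro ⟨y, rfl⟩
            exact ⟨iota y, y, trivial, rfl⟩
          · rintro ⟨z, y, -, hy⟩
            exact ⟨y, (Prod.ext_iff.mp hy).1⟩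
    obtain ⟨F, hF, hPF⟩ := hP
    obtain ⟨u, hu⟩ := hB F hF
    have key : (u ∈ {x : ℕ → ℕ | ∀ z, (x, z) ∉ {p : (ℕ → ℕ) × (ℕ → ℝ) | ∀ n, p ∉ B (p.1 n)}}) ↔
        ∃ z, (u, z) ∈ F := by
      rw [hPF]; rfl
    have key2 : (∃ z, (u, z) ∈ F) ↔ ∃ z, ∀ n, (u, z) ∉ B (u n) := by
      rw [← hu]; rfl
    rw [key2] at key
    simp only [mem_ofPred_eq, not_forall, not_not] at key
    by_cases h : ∃ z, ∀ n, (u, z) ∉ B (u n)
    · have h' := key.mpr h
      obtain ⟨z, hz⟩ := h
      obtain ⟨n, hn⟩ := h' z
      exact hz n hn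
    · apply h
      apply key.mp
      intro z
      by_contra hz
      apply h
      refine ⟨z, fun n hn => hz ⟨n, hn⟩⟩

/-- in a metrizable space every closed set is the zero set of a continuous nonnegative function -/
theorem exists_zero_fun {X : Type} [TopologicalSpace X] [MetrizableSpace X] (H : Set X)
    (hH : IsClosed H) : ∃ f : X → ℝ, Continuous f ∧ (∀ x, 0 ≤ f x) ∧ ∀ x, f x = 0 ↔ x ∈ H := by
  let _ := metrizableSpaceMetric X
  rcases H.eq_empty_or_nonempty with h | h
  · refine ⟨fun _ => 1, continuous_const, fun _ => zero_le_one, fun x => ?_⟩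
    rw [h]; simp
  · exact ⟨fun x => Metric.infDist x H, Metric.continuous_infDist_pt H,
      fun x => Metric.infDist_nonneg, fun x => (hH.mem_iff_infDist_zero h).symm⟩

/-- the sheet space: the zero section together with the graph of `g` -/
def sheets (g : (ℕ → ℝ) → ℝ) : Set ((ℕ → ℝ) × ℝ) := {p | p.2 = 0 ∨ p.2 = g p.1}

theorem isClosed_sheets (g : (ℕ → ℝ) → ℝ) (hg : Continuous g) : IsClosed (sheets g) :=
  (isClosed_eq continuous_snd continuous_const).union
    (isClosed_eq continuous_snd (hg.comp continuous_fst))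

/-- if `g` has no zero then the sheet space is homeomorphic to the one of the constant `1` -/
theorem homeo_sheets (g : (ℕ → ℝ) → ℝ) (hg : Continuous g) (h0 : ∀ z, g z ≠ 0) :
    Nonempty (sheets g ≃ₜ sheets (fun _ => 1)) := by
  refine ⟨{ toFun := fun p => ⟨(p.1.1, p.1.2 / g p.1.1), ?_⟩
            invFun := fun p => ⟨(p.1.1, p.1.2 * g p.1.1), ?_⟩
            left_inv := ?_
            right_inv := ?_
            continuous_toFun := ?_
            continuous_invFun := ?_ }⟩
  · rcases p.2 with h | h
    · left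
      show p.1.2 / g p.1.1 = 0
      rw [h, zero_div]
    · right
      show p.1.2 / g p.1.1 = 1
      rw [h, div_self (h0 _)]
  · rcases p.2 with h | h
    · left
      show p.1.2 * g p.1.1 = 0
      rw [h, zero_mul]
    · right
      show p.1.2 * g p.1.1 = g p.1.1
      rw [h, one_mul]
  · intro p
    apply Subtype.ext
    refine Prod.ext rfl ?_
    show p.1.2 / g p.1.1 * g p.1.1 = p.1.2
    exact div_mul_cancel₀ _ (h0 _)
  · intro p
    apply Subtype.ext
    refine Prod.ext rfl ?_
    show p.1.2 * g p.1.1 / g p.1.1 = p.1.2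
    exact mul_div_cancel_right₀ _ (h0 _)
  · refine Continuous.subtype_mk ?_ _
    refine Continuous.prodMk (continuous_fst.comp continuous_subtype_val) ?_
    refine Continuous.div (continuous_snd.comp continuous_subtype_val)
      (hg.comp (continuous_fst.comp continuous_subtype_val)) (fun p => h0 _)
  · refine Continuous.subtype_mk ?_ _
    refine Continuous.prodMk (continuous_fst.comp continuous_subtype_val) ?_
    exact (continuous_snd.comp continuous_subtype_val).mul
      (hg.comp (continuous_fst.comp continuous_subtype_val))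

/-- if `g` has a zero then the sheet space is connected -/
theorem isPreconnected_sheets (g : (ℕ → ℝ) → ℝ) (hg : Continuous g) (z : ℕ → ℝ) (hz : g z = 0) :
    IsPreconnected (sheets g) := by
  have huniv : IsPreconnected (univ : Set (ℕ → ℝ)) := convex_univ.isPreconnected
  have h1 : IsPreconnected ((fun w : ℕ → ℝ => (w, (0:ℝ))) '' univ) :=
    huniv.image _ (by fun_prop)
  have h2 : IsPreconnected ((fun w : ℕ → ℝ => (w, g w)) '' univ) :=
    huniv.image _ (Continuous.continuousOn (by fun_prop))
  have h3 : sheets g = ((fun w : ℕ → ℝ => (w, (0:ℝ))) '' univ) ∪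
      ((fun w : ℕ → ℝ => (w, g w)) '' univ) := by
    ext p
    constructor
    · rintro (h | h)
      · left
        exact ⟨p.1, trivial, Prod.ext rfl h.symm⟩
      · right
        exact ⟨p.1, trivial, Prod.ext rfl h.symm⟩
    · rintro (⟨w, -, rfl⟩ | ⟨w, -, rfl⟩)
      · left; rfl
      · right; rfl
  rw [h3]
  exact IsPreconnected.union (z, 0) ⟨z, trivial, rfl⟩ ⟨z, trivial, Prod.ext rfl hz⟩ h1 h2

/-- the sheet space of the constant `1` is not connected -/
theorem not_isPreconnected_sheets_one : ¬ IsPreconnected (sheets (fun _ => 1)) := by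
  intro h
  have h1 := h.image (fun p : (ℕ → ℝ) × ℝ => p.2) continuous_snd.continuousOn
  have h2 : (fun p : (ℕ → ℝ) × ℝ => p.2) '' sheets (fun _ => 1) = {0, 1} := by
    ext t
    constructor
    · rintro ⟨p, h | h, rfl⟩
      · left; exact h
      · right; exact h
    · rintro (h | h)
      · exact ⟨(0, 0), Or.inl rfl, h.symm⟩
      · exact ⟨(0, 1), Or.inr rfl, h.symm⟩
  rw [h2] at h1
  have h3 := h1.ordConnected
  have h4 : (1 / 2 : ℝ) ∈ ({0, 1} : Set ℝ) :=
    h3.out (show (0 : ℝ) ∈ ({0, 1} : Set ℝ) from Or.inl rfl)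
      (show (1 : ℝ) ∈ ({0, 1} : Set ℝ) from Or.inr rfl) ⟨by norm_num, by norm_num⟩
  rcases h4 with h | h
  · norm_num at h
  · rw [mem_singleton_iff] at h; norm_num at h

theorem sheets_homeo_iff (g : (ℕ → ℝ) → ℝ) (hg : Continuous g) :
    Nonempty (sheets g ≃ₜ sheets (fun _ => 1)) ↔ ∀ z, g z ≠ 0 := by
  constructor
  · rintro ⟨φ⟩ z hz
    have h1 : PreconnectedSpace (sheets g) :=
      isPreconnected_iff_preconnectedSpace.mp (isPreconnected_sheets g hg z hz)
    have h2 : PreconnectedSpace (sheets (fun _ : ℕ → ℝ => (1:ℝ))) := by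
      refine ⟨?_⟩
      have h3 := isPreconnected_univ.image φ φ.continuous.continuousOn
      rwa [image_univ, φ.surjective.range_eq] at h3
    exact not_isPreconnected_sheets_one (isPreconnected_iff_preconnectedSpace.mpr h2)
  · exact homeo_sheets g hg

/-- push forward of a closed set along a closed embedding -/
def push {X W : Type} [TopologicalSpace X] [TopologicalSpace W] (e : X → W)
    (he : IsClosedEmbedding e) (C : Set X) (hC : IsClosed C) : Closeds W :=
  ⟨e '' C, he.isClosedMap C hC⟩

theorem push_homeo {X W : Type} [TopologicalSpace X] [TopologicalSpace W] (e : X → W)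
    (he : IsClosedEmbedding e) (C D : Set X) (hC : IsClosed C) (hD : IsClosed D) :
    Nonempty ((push e he C hC : Set W) ≃ₜ (push e he D hD : Set W)) ↔ Nonempty (C ≃ₜ D) := by
  have hCe : Nonempty (C ≃ₜ (push e he C hC : Set W)) := ⟨he.isEmbedding.homeomorphImage C⟩
  have hDe : Nonempty (D ≃ₜ (push e he D hD : Set W)) := ⟨he.isEmbedding.homeomorphImage D⟩
  obtain ⟨a⟩ := hCe
  obtain ⟨b⟩ := hDe
  constructor
  · rintro ⟨φ⟩
    exact ⟨(a.trans φ).trans b.symm⟩
  · rintro ⟨φ⟩
    exact ⟨(a.symm.trans φ).trans b⟩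

/-- a family of closed sets `s ↦ {x : x ∈ C s}` such that each `C s` is the closure of countably
many points depending measurably on `s` is a Borel family -/
theorem measurable_of_dense {S W ι : Type} [Countable ι] [MeasurableSpace S] [TopologicalSpace W]
    [MeasurableSpace W] [BorelSpace W] (C : S → Closeds W) (d : ι → S → W)
    (hd : ∀ n, Measurable (d n)) (hC : ∀ s, (C s : Set W) = closure (range fun n => d n s)) :
    Measurable C := by
  refine measurable_generateFrom ?_
  rintro _ ⟨O, hO, rfl⟩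
  have : C ⁻¹' {F : Closeds W | ((F : Set W) ∩ O).Nonempty} = ⋃ n, (d n) ⁻¹' O := by
    ext s
    rw [mem_iUnion]
    constructor
    · rintro ⟨w, hw, hwO⟩
      rw [hC s] at hw
      rw [_root_.mem_closure_iff] at hw
      obtain ⟨_, hv, ⟨n, rfl⟩⟩ := hw O hO hwO
      exact ⟨n, hv⟩
    · rintro ⟨n, hn⟩
      refine ⟨d n s, ?_, hn⟩
      rw [hC s]
      exact subset_closure ⟨n, rfl⟩
  rw [this]
  exact MeasurableSet.iUnion fun n => hd n hO.measurableSet

theorem measurable_hit {W : Type} [TopologicalSpace W] (O : Set W) (hO : IsOpen O) :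
    MeasurableSet {F : Closeds W | ((F : Set W) ∩ O).Nonempty} :=
  MeasurableSpace.measurableSet_generateFrom ⟨O, hO, rfl⟩

instance measurableEq_closeds (W : Type) [TopologicalSpace W] [SecondCountableTopology W] :
    MeasurableEq (Closeds W) := by
  refine ⟨?_⟩
  obtain ⟨b, hbc, -, hb⟩ := exists_countable_basis W
  have : diagonal (Closeds W) = ⋂ O ∈ b, {p : Closeds W × Closeds W |
      ((p.1 : Set W) ∩ O).Nonempty ↔ ((p.2 : Set W) ∩ O).Nonempty} := by
    ext p
    simp only [mem_diagonal_iff, mem_iInter, mem_ofPred_eq]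
    constructor
    · intro h O _
      rw [h]
    · intro h
      have key : ∀ A B : Closeds W, (∀ O ∈ b, ((A : Set W) ∩ O).Nonempty →
          ((B : Set W) ∩ O).Nonempty) → (A : Set W) ⊆ B := by
        intro A B hAB x hx
        by_contra hxB
        obtain ⟨v, hv, hxv, hvB⟩ := hb.exists_subset_of_mem_open (show x ∈ (B : Set W)ᶜ from hxB)
          B.isClosed.isOpen_compl
        obtain ⟨y, hyB, hyv⟩ := hAB v hv ⟨x, hx, hxv⟩
        exact hvB hyv hyB
      apply Closeds.ext
      exact Subset.antisymm (key _ _ fun O hO => (h O hO).mp) (key _ _ fun O hO => (h O hO).mpr)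
  rw [this]
  refine MeasurableSet.biInter hbc fun O hO => ?_
  have hm := measurable_hit O (hb.isOpen hO)
  have h1 : MeasurableSet {p : Closeds W × Closeds W | ((p.1 : Set W) ∩ O).Nonempty} :=
    measurable_fst hm
  have h2 : MeasurableSet {p : Closeds W × Closeds W | ((p.2 : Set W) ∩ O).Nonempty} :=
    measurable_snd hm
  have h3 : {p : Closeds W × Closeds W |
      ((p.1 : Set W) ∩ O).Nonempty ↔ ((p.2 : Set W) ∩ O).Nonempty} =
      ({p | ((p.1 : Set W) ∩ O).Nonempty} ∩ {p | ((p.2 : Set W) ∩ O).Nonempty}) ∪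
      ({p | ((p.1 : Set W) ∩ O).Nonempty}ᶜ ∩ {p | ((p.2 : Set W) ∩ O).Nonempty}ᶜ) := by
    ext p
    simp only [mem_ofPred_eq, mem_union, mem_inter_iff, mem_compl_iff]
    tauto
  rw [h3]
  exact (h1.inter h2).union (h1.compl.inter h2.compl)

instance measurableEq_prod {Q R : Type} [MeasurableSpace Q] [MeasurableSpace R] [MeasurableEq Q]
    [MeasurableEq R] : MeasurableEq (Q × R) := by
  refine ⟨?_⟩
  have h1 : MeasurableSet {p : (Q × R) × (Q × R) | p.1.1 = p.2.1} :=
    measurableSet_eq_fun (measurable_fst.comp measurable_fst) (measurable_fst.comp measurable_snd)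
  have h2 : MeasurableSet {p : (Q × R) × (Q × R) | p.1.2 = p.2.2} :=
    measurableSet_eq_fun (measurable_snd.comp measurable_fst) (measurable_snd.comp measurable_snd)
  convert h1.inter h2 using 1
  ext p
  simp only [mem_diagonal_iff, mem_inter_iff, mem_ofPred_eq]
  exact Prod.ext_iff

/-- the preimage of an analytic set under a Borel map defined on a Polish space is analytic -/
theorem IsAnalytic.preimage {Q S : Type} [MeasurableSpace Q] [MeasurableEq Q]
    [TopologicalSpace S] [PolishSpace S] [MeasurableSpace S] [BorelSpace S] {R : Set Q}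
    (hR : IsAnalytic R) (φ : S → Q) (hφ : Measurable φ) : AnalyticSet (φ ⁻¹' R) := by
  obtain ⟨Z, tZ, pZ, mZ, bZ, B, f, hB, hf, rfl⟩ := hR
  have h1 : MeasurableSet {p : S × Z | p.2 ∈ B ∧ φ p.1 = f p.2} :=
    (measurable_snd hB).inter
      (measurableSet_eq_fun (hφ.comp measurable_fst) (hf.comp measurable_snd))
  have h2 : φ ⁻¹' (f '' B) = Prod.fst '' {p : S × Z | p.2 ∈ B ∧ φ p.1 = f p.2} := by
    ext s
    constructor
    · rintro ⟨z, hz, hfz⟩
      exact ⟨(s, z), ⟨hz, hfz.symm⟩, rfl⟩
    · rintro ⟨⟨s', z⟩, ⟨hz, hfz⟩, rfl⟩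
      exact ⟨z, hz, hfz.symm⟩
  rw [h2]
  exact h1.analyticSet.image_of_continuous continuous_fst

theorem sheets_eq_closure (g : (ℕ → ℝ) → ℝ) (hg : Continuous g) (q : ℕ → ℕ → ℝ)
    (hq : DenseRange q) :
    sheets g = closure (range fun i : ℕ × Bool => (q i.1, if i.2 then g (q i.1) else 0)) := by
  apply Subset.antisymm
  · have key : ∀ (h : (ℕ → ℝ) → ℝ), Continuous h → ∀ z, ((z, h z) : (ℕ → ℝ) × ℝ) ∈
        closure (range fun k : ℕ => (q k, h (q k))) := by
      intro h hh z
      have hc : Continuous fun z : ℕ → ℝ => (z, h z) := by fun_prop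
      have h1 := image_closure_subset_closure_image (s := range q) hc
      rw [hq.closure_range, ← range_comp] at h1
      exact h1 ⟨z, trivial, rfl⟩
    rintro ⟨z, t⟩ (h | h)
    · have h0 : t = 0 := h
      subst h0
      refine closure_mono ?_ (key (fun _ => 0) continuous_const z)
      rintro _ ⟨k, rfl⟩
      exact ⟨(k, false), by simp⟩
    · have h0 : t = g z := h
      subst h0
      refine closure_mono ?_ (key g hg z)
      rintro _ ⟨k, rfl⟩
      exact ⟨(k, true), by simp⟩
  · apply closure_minimal _ (isClosed_sheets g hg)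
    rintro _ ⟨⟨k, b⟩, rfl⟩
    cases b
    · left; simp
    · right; simp

/-- The main reduction: a Borel family of pairs of closed subsets of `W` for which being
homeomorphic is a non-analytic condition. -/
theorem exists_reduction (W : Type) [TopologicalSpace W] (e : (ℕ → ℝ) × ℝ → W)
    (he : IsClosedEmbedding e) :
    ∃ φ : (ℕ → ℕ) → Closeds W × Closeds W, Measurable φ ∧ ¬ AnalyticSet (φ ⁻¹' HomeoRel W) := by
  obtain ⟨H, hH, hHn⟩ := exists_coanalytic
  obtain ⟨f, hf, hf0, hfH⟩ := exists_zero_fun H hH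
  let _ : MeasurableSpace W := borel W
  have : BorelSpace W := ⟨rfl⟩
  have hg : ∀ x : ℕ → ℕ, Continuous fun z : ℕ → ℝ => f (x, z) := fun x => by fun_prop
  refine ⟨fun x => (push e he (sheets fun z => f (x, z)) (isClosed_sheets _ (hg x)),
    push e he (sheets fun _ => 1) (isClosed_sheets _ continuous_const)), ?_, ?_⟩
  · refine Measurable.prodMk ?_ measurable_const
    obtain ⟨q, hq⟩ := exists_dense_seq (ℕ → ℝ)
    refine measurable_of_dense (ι := ℕ × Bool) _
      (fun i x => e (q i.1, if i.2 then f (x, q i.1) else 0)) ?_ ?_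
    · intro i
      refine he.continuous.measurable.comp ?_
      refine Measurable.prodMk measurable_const ?_
      cases i.2
      · exact measurable_const
      · have h1 : Continuous fun x : ℕ → ℕ => f (x, q i.1) := by fun_prop
        exact h1.measurable
    · intro x
      show e '' _ = _
      rw [sheets_eq_closure _ (hg x) q hq, ← he.closure_image_eq, ← range_comp]
      rfl
  · intro hA
    apply hHn
    convert hA using 1
    ext x
    show (∀ z, (x, z) ∉ H) ↔ Nonempty _
    rw [push_homeo, sheets_homeo_iff _ (hg x)]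
    constructor
    · intro h z hz
      exact h z ((hfH _).mp hz)
    · intro h z hz
      exact h z ((hfH _).mpr hz)

/-- The homeomorphism relation is not analytic. -/
theorem not_isAnalytic (W : Type) [TopologicalSpace W] [SecondCountableTopology W]
    (e : (ℕ → ℝ) × ℝ → W) (he : IsClosedEmbedding e) : ¬ IsAnalytic (HomeoRel W) := by
  intro h
  obtain ⟨φ, hφ, hn⟩ := exists_reduction W e he
  exact hn (h.preimage φ hφ)

/-- The homeomorphism relation is not Borel reducible to any analytic relation. -/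
theorem not_reducible (W : Type) [TopologicalSpace W] [SecondCountableTopology W]
    (e : (ℕ → ℝ) × ℝ → W) (he : IsClosedEmbedding e) (Y : Type) [MeasurableSpace Y]
    [StandardBorelSpace Y] (E : Set (Y × Y)) (hE : IsAnalytic E) (ψ : Closeds W → Y)
    (hψ : Measurable ψ) : ¬ ∀ A B, (A, B) ∈ HomeoRel W ↔ (ψ A, ψ B) ∈ E := by
  intro h
  obtain ⟨φ, hφ, hn⟩ := exists_reduction W e he
  apply hn
  have h1 := hE.preimage (fun x => (ψ (φ x).1, ψ (φ x).2))
    ((hψ.comp (measurable_fst.comp hφ)).prodMk (hψ.comp (measurable_snd.comp hφ)))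
  convert h1 using 1
  ext x
  exact h _ _

theorem homeoNotAnalytic (W : Type) [TopologicalSpace W] [SecondCountableTopology W]
    (e : (ℕ → ℝ) × ℝ → W) (he : IsClosedEmbedding e) : HomeoNotAnalytic W := by
  refine ⟨not_isAnalytic W e he, ?_⟩
  intro Y _ _ E hE
  rintro ⟨ψ, hψ, h⟩
  exact not_reducible W e he Y _ hE ψ hψ h

/-- adding one coordinate to a sequence -/
def consMap (p : (ℕ → ℝ) × ℝ) : ℕ → ℝ := fun n => Nat.casesOn n p.2 (fun k => p.1 k)

theorem isClosedEmbedding_consMap : IsClosedEmbedding consMap := by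
  have h : Continuous consMap := by
    refine continuous_pi fun n => ?_
    cases n with
    | zero => exact continuous_snd
    | succ k => exact (continuous_apply k).comp continuous_fst
  let φ : (ℕ → ℝ) × ℝ ≃ₜ (ℕ → ℝ) :=
    { toFun := consMap
      invFun := fun z => (fun n => z (n + 1), z 0)
      left_inv := fun p => rfl
      right_inv := fun z => by
        funext n
        cases n <;> rfl
      continuous_toFun := h
      continuous_invFun := by fun_prop }
  exact φ.isClosedEmbedding

/-- every Polish space is homeomorphic to a closed subset of the Urysohn space -/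
theorem IsUrysohn.exists_closedEmbedding {U : Type} [MetricSpace U] (hU : IsUrysohn U) (X : Type)
    [TopologicalSpace X] [PolishSpace X] : ∃ e : X → U, IsClosedEmbedding e := by
  let _ := upgradeIsCompletelyMetrizable X
  obtain ⟨f, hf⟩ := hU.universal X
  exact ⟨f, hf.isClosedEmbedding⟩

end Pool.Agent.Helper873.Pol
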