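import Pool.Agent.Helper873.PolA

open MeasureTheory Filter Topology Set TopologicalSpace

namespace Pool.Agent.Helper873.Pol

/-- Connectedness of a space fibred over a connected space `L`, with full connected fibre `M`
outside a closed set `G` with empty interior and nonempty fibres over `G`. -/
theorem preconnected_fibred {L M : Type} [TopologicalSpace L] [TopologicalSpace M]
    [PreconnectedSpace L] [ConnectedSpace M] (X : Set (L × M)) (G : Set L)
    (hint : interior G = ∅) (hfull : ∀ l z, l ∉ G → (l, z) ∈ X)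
    (hne : ∀ l, ∃ z, (l, z) ∈ X) : PreconnectedSpace X := by
  refine preconnectedSpace_of_forall_constant fun χ hχ => ?_
  -- key local property
  have key : ∀ (l : L) (z : M) (h : (l, z) ∈ X), ∃ N : Set L, IsOpen N ∧ l ∈ N ∧
      ∀ l' ∈ N, ∀ (hl' : l' ∉ G) (z' : M), χ ⟨(l', z'), hfull l' z' hl'⟩ = χ ⟨(l, z), h⟩ := by
    intro l z h
    have h1 : IsOpen (χ ⁻¹' {χ ⟨(l, z), h⟩}) := (isOpen_discrete _).preimage hχ
    obtain ⟨O, hO, hOe⟩ := isOpen_induced_iff.mp h1
    have h2 : (l, z) ∈ O := by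
      have : (⟨(l, z), h⟩ : X) ∈ χ ⁻¹' {χ ⟨(l, z), h⟩} := rfl
      rw [← hOe] at this
      exact this
    obtain ⟨N, P, hN, hP, hlN, hzP, hNP⟩ := isOpen_prod_iff.mp hO l z h2
    refine ⟨N, hN, hlN, ?_⟩
    intro l' hl'N hl' z'
    have h3 : χ ⟨(l', z), hfull l' z hl'⟩ = χ ⟨(l, z), h⟩ := by
      have : (⟨(l', z), hfull l' z hl'⟩ : X) ∈ χ ⁻¹' {χ ⟨(l, z), h⟩} := by
        rw [← hOe]
        exact hNP ⟨hl'N, hzP⟩
      exact this
    rw [← h3]
    -- constancy along the full fibre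
    have h4 : Continuous fun w : M => χ ⟨(l', w), hfull l' w hl'⟩ := by
      refine hχ.comp ?_
      exact Continuous.subtype_mk (by fun_prop) _
    exact PreconnectedSpace.constant inferInstance h4
  have hex : ∀ N : Set L, IsOpen N → N.Nonempty → ∃ l' ∈ N, l' ∉ G := by
    intro N hN hNn
    by_contra hcon
    push Not at hcon
    have : N ⊆ interior G := interior_maximal (fun l hl => hcon l hl) hN
    rw [hint] at this
    exact hNn.not_subset_empty this
  choose ζ hζ using hne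
  -- the function induced on the base
  have hwd : ∀ (l : L) (z : M) (h : (l, z) ∈ X), χ ⟨(l, z), h⟩ = χ ⟨(l, ζ l), hζ l⟩ := by
    intro l z h
    obtain ⟨N1, hN1, hl1, k1⟩ := key l z h
    obtain ⟨N2, hN2, hl2, k2⟩ := key l (ζ l) (hζ l)
    obtain ⟨l', ⟨ha, hb⟩, hc⟩ := hex (N1 ∩ N2) (hN1.inter hN2) ⟨l, hl1, hl2⟩
    rw [← k1 l' ha hc (ζ l'), ← k2 l' hb hc (ζ l')]
  have hloc : IsLocallyConstant fun l : L => χ ⟨(l, ζ l), hζ l⟩ := by
    rw [IsLocallyConstant.iff_exists_open]
    intro l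
    obtain ⟨N, hN, hl, k⟩ := key l (ζ l) (hζ l)
    refine ⟨N, hN, hl, ?_⟩
    intro l' hl'
    obtain ⟨N', hN', hl'', k'⟩ := key l' (ζ l') (hζ l')
    obtain ⟨l2, ⟨ha, hb⟩, hc⟩ := hex (N ∩ N') (hN.inter hN') ⟨l', hl', hl''⟩
    rw [← k l2 ha hc (ζ l2), ← k' l2 hb hc (ζ l2)]
  rintro ⟨⟨l1, z1⟩, h1⟩ ⟨⟨l2, z2⟩, h2⟩
  rw [hwd l1 z1 h1, hwd l2 z2 h2]
  exact hloc.apply_eq_of_preconnectedSpace l1 l2

/-- There is a continuous injection of the Cantor space into the interval `[-1, 1]` whose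
range contains no nondegenerate connected set. -/
theorem exists_cantor : ∃ c : (ℕ → Bool) → ℝ, Continuous c ∧ Function.Injective c ∧
    (∀ b, c b ∈ Icc (-1 : ℝ) 1) ∧ ∀ I : Set ℝ, IsPreconnected I → I ⊆ range c → I.Subsingleton := by
  have hP : Perfect (Icc (-1 : ℝ) 1) := by
    have := (isOpen_Ioo (a := (-1:ℝ)) (b := 1)).perfect_closure
    rwa [closure_Ioo (by norm_num)] at this
  obtain ⟨c, hr, hc, hi⟩ := hP.exists_nat_bool_injection ⟨0, by norm_num, by norm_num⟩
  refine ⟨c, hc, hi, fun b => hr ⟨b, rfl⟩, ?_⟩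
  intro I hI hIr
  have hemb : IsClosedEmbedding c := hc.isClosedEmbedding hi
  have h1 : c '' (c ⁻¹' I) = I := image_preimage_eq_of_subset hIr
  have h2 : IsPreconnected (c ⁻¹' I) := by
    rw [← hemb.isEmbedding.isInducing.isPreconnected_image, h1]
    exact hI
  rw [← h1]
  exact h2.subsingleton.image c

/-- the gates on the line -/
def gate (c : (ℕ → Bool) → ℝ) : Set ℝ := {t | Real.sin (2 * Real.pi * t) ∈ range c}

theorem isClosed_gate (c : (ℕ → Bool) → ℝ) (hc : Continuous c) : IsClosed (gate c) := by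
  have h : IsClosed (range c) := (isCompact_range hc).isClosed
  exact h.preimage (by fun_prop : Continuous fun t : ℝ => Real.sin (2 * Real.pi * t))

theorem gate_add_one (c : (ℕ → Bool) → ℝ) (t : ℝ) :
    Real.sin (2 * Real.pi * (t + 1)) = Real.sin (2 * Real.pi * t) := by
  rw [mul_add, mul_one, Real.sin_add_two_pi]

theorem interior_gate (c : (ℕ → Bool) → ℝ)
    (hI : ∀ I : Set ℝ, IsPreconnected I → I ⊆ range c → I.Subsingleton) :
    interior (gate c) = ∅ := by
  rw [eq_empty_iff_forall_notMem]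
  intro t ht
  obtain ⟨ε, hε, hb⟩ := Metric.isOpen_iff.mp isOpen_interior t ht
  have hb' : Metric.ball t ε ⊆ gate c := hb.trans interior_subset
  have h1 : IsPreconnected ((fun t : ℝ => Real.sin (2 * Real.pi * t)) '' Metric.ball t ε) :=
    ((convex_ball t ε).isPreconnected).image _
      (Continuous.continuousOn (by fun_prop))
  have h2 := hI _ h1 (by rintro _ ⟨s, hs, rfl⟩; exact hb' hs)
  have hconst : ∀ s ∈ Metric.ball t ε, Real.sin (2 * Real.pi * s) = Real.sin (2 * Real.pi * t) :=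
    fun s hs => h2 ⟨s, hs, rfl⟩ ⟨t, Metric.mem_ball_self hε, rfl⟩
  have hd : ∀ s : ℝ, HasDerivAt (fun t : ℝ => Real.sin (2 * Real.pi * t))
      (Real.cos (2 * Real.pi * s) * (2 * Real.pi)) s := by
    intro s
    have h3 : HasDerivAt (fun t : ℝ => 2 * Real.pi * t) (2 * Real.pi) s := by
      simpa using (hasDerivAt_id s).const_mul (2 * Real.pi)
    exact h3.sin
  have hd2 : ∀ s : ℝ, HasDerivAt (fun t : ℝ => Real.cos (2 * Real.pi * t))
      (-Real.sin (2 * Real.pi * s) * (2 * Real.pi)) s := by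
    intro s
    have h3 : HasDerivAt (fun t : ℝ => 2 * Real.pi * t) (2 * Real.pi) s := by
      simpa using (hasDerivAt_id s).const_mul (2 * Real.pi)
    exact h3.cos
  have hcos : ∀ s ∈ Metric.ball t ε, Real.cos (2 * Real.pi * s) = 0 := by
    intro s hs
    have he : (fun t : ℝ => Real.sin (2 * Real.pi * t)) =ᶠ[𝓝 s]
        fun _ => Real.sin (2 * Real.pi * t) := by
      filter_upwards [Metric.isOpen_ball.mem_nhds hs] with r hr
      exact hconst r hr
    have h4 : HasDerivAt (fun t : ℝ => Real.sin (2 * Real.pi * t)) 0 s :=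
      (hasDerivAt_const s (Real.sin (2 * Real.pi * t))).congr_of_eventuallyEq he
    have h5 := (hd s).unique h4
    rcases mul_eq_zero.mp h5 with h6 | h6
    · exact h6
    · exact absurd h6 (by positivity)
  have he : (fun t : ℝ => Real.cos (2 * Real.pi * t)) =ᶠ[𝓝 t] fun _ => 0 := by
    filter_upwards [Metric.isOpen_ball.mem_nhds (Metric.mem_ball_self hε)] with r hr
    exact hcos r hr
  have h4 : HasDerivAt (fun t : ℝ => Real.cos (2 * Real.pi * t)) 0 t :=
    (hasDerivAt_const t (0:ℝ)).congr_of_eventuallyEq he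
  have h5 := (hd2 t).unique h4
  have h6 : Real.sin (2 * Real.pi * t) = 0 := by
    rcases mul_eq_zero.mp h5 with h6 | h6
    · linarith
    · exact absurd h6 (by positivity)
  have h7 := Real.sin_sq_add_cos_sq (2 * Real.pi * t)
  rw [h6, hcos t (Metric.mem_ball_self hε)] at h7
  norm_num at h7

/-- doubling a periodic space which is cut periodically -/
theorem double_homeo {M : Type} [TopologicalSpace M] (X : Set (ℝ × M)) (t0 : ℝ)
    (hper : ∀ (t : ℝ) (z : M) (n : ℤ), (t, z) ∈ X → (t + n, z) ∈ X)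
    (hcut : ∀ (n : ℤ) (z : M), (t0 + n, z) ∉ X) : Nonempty (X × Bool ≃ₜ X) := by
  classical
  -- the floor is locally constant
  have hfl : Continuous fun x : X => ⌊x.1.1 - t0⌋ := by
    rw [continuous_discrete_rng]
    intro m
    have : ((fun x : X => ⌊x.1.1 - t0⌋) ⁻¹' {m}) =
        {x : X | t0 + m < x.1.1 ∧ x.1.1 < t0 + m + 1} := by
      ext x
      simp only [mem_preimage, mem_singleton_iff, mem_ofPred_eq, Int.floor_eq_iff]
      constructor
      · rintro ⟨h1, h2⟩
        refine ⟨lt_of_le_of_ne (by linarith) ?_, by linarith⟩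
        intro h3
        apply hcut m x.1.2
        rw [h3]
        exact x.2
      · rintro ⟨h1, h2⟩
        exact ⟨by linarith, by linarith⟩
    rw [this]
    have hc : Continuous fun x : X => x.1.1 := continuous_fst.comp continuous_subtype_val
    exact (isOpen_lt continuous_const hc).inter (isOpen_lt hc continuous_const)
  let ib : Bool → ℤ := fun b => if b then 1 else 0
  have hib : Continuous ib := continuous_of_discreteTopology
  refine ⟨{ toFun := fun p => ⟨(p.1.1.1 + ((⌊p.1.1.1 - t0⌋ + ib p.2 : ℤ) : ℝ), p.1.1.2),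
              hper _ _ _ p.1.2⟩
            invFun := fun x => (⟨(x.1.1 + ((-(⌊x.1.1 - t0⌋ / 2) - ⌊x.1.1 - t0⌋ % 2 : ℤ) : ℝ), x.1.2),
              hper _ _ _ x.2⟩, decide (⌊x.1.1 - t0⌋ % 2 = 1))
            left_inv := ?_
            right_inv := ?_
            continuous_toFun := ?_
            continuous_invFun := ?_ }⟩
  · rintro ⟨⟨⟨t, z⟩, h⟩, b⟩
    have h1 : ⌊t + ((⌊t - t0⌋ + ib b : ℤ) : ℝ) - t0⌋ = 2 * ⌊t - t0⌋ + ib b := by
      have : t + ((⌊t - t0⌋ + ib b : ℤ) : ℝ) - t0 = (t - t0) + ((⌊t - t0⌋ + ib b : ℤ) : ℝ) := by ring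
      rw [this, Int.floor_add_intCast]
      ring
    have h2 : (2 * ⌊t - t0⌋ + ib b) / 2 = ⌊t - t0⌋ := by
      cases b <;> simp only [ib] <;> simp <;> omega
    have h3 : (2 * ⌊t - t0⌋ + ib b) % 2 = ib b := by
      cases b <;> simp only [ib] <;> simp <;> omega
    refine Prod.ext ?_ ?_
    · apply Subtype.ext
      refine Prod.ext ?_ rfl
      show t + ((⌊t - t0⌋ + ib b : ℤ) : ℝ) + _ = t
      simp only [h1, h2, h3]
      push_cast
      ring
    · show decide (⌊t + ((⌊t - t0⌋ + ib b : ℤ) : ℝ) - t0⌋ % 2 = 1) = b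
      rw [h1, h3]
      cases b <;> simp [ib]
  · rintro ⟨⟨t, z⟩, h⟩
    apply Subtype.ext
    refine Prod.ext ?_ rfl
    set m := ⌊t - t0⌋ with hm
    have h4 : ib (decide (m % 2 = 1)) = m % 2 := by
      by_cases h : m % 2 = 1
      · simp [ib, h]
      · have : m % 2 = 0 := by omega
        simp [ib, this]
    have h5 : ⌊t + ((-(m / 2) - m % 2 : ℤ) : ℝ) - t0⌋ = m / 2 := by
      have : t + ((-(m / 2) - m % 2 : ℤ) : ℝ) - t0 = (t - t0) + ((-(m / 2) - m % 2 : ℤ) : ℝ) := by
        ring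
      rw [this, Int.floor_add_intCast, ← hm]
      omega
    show t + ((-(m / 2) - m % 2 : ℤ) : ℝ) +
      ((⌊t + ((-(m / 2) - m % 2 : ℤ) : ℝ) - t0⌋ + ib (decide (m % 2 = 1)) : ℤ) : ℝ) = t
    rw [h5, h4]
    push_cast
    ring
  · refine Continuous.subtype_mk ?_ _
    refine Continuous.prodMk ?_ ?_
    · refine Continuous.add (by fun_prop) ?_
      have : Continuous fun p : X × Bool => (⌊p.1.1.1 - t0⌋ + ib p.2 : ℤ) :=
        (hfl.comp continuous_fst).add (hib.comp continuous_snd)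
      exact continuous_of_discreteTopology.comp this
    · fun_prop
  · refine Continuous.prodMk ?_ ?_
    · refine Continuous.subtype_mk ?_ _
      refine Continuous.prodMk ?_ (by fun_prop)
      refine Continuous.add (by fun_prop) ?_
      have : Continuous fun x : X => (-(⌊x.1.1 - t0⌋ / 2) - ⌊x.1.1 - t0⌋ % 2 : ℤ) :=
        (continuous_of_discreteTopology (f := fun m : ℤ => -(m / 2) - m % 2)).comp hfl
      exact continuous_of_discreteTopology.comp this
    · exact (continuous_of_discreteTopology (f := fun m : ℤ => decide (m % 2 = 1))).comp hfl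

end Pool.Agent.Helper873.Pol
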