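import Pool.Agent.Helper873.PolDef

open MeasureTheory Filter Topology Set TopologicalSpace

namespace Pool.Agent.Helper873.Pol

/-- `Σ¹₂` subset of a measurable space: projection along a Polish space of the complement of an
analytic set. -/
def IsSigma12 {α : Type} [MeasurableSpace α] (s : Set α) : Prop :=
  ∃ (Z : Type) (_ : TopologicalSpace Z) (_ : PolishSpace Z) (_ : MeasurableSpace Z)
    (_ : BorelSpace Z) (R : Set (α × Z)), IsAnalytic R ∧ s = {a | ∃ z, (a, z) ∉ R}

/-- A `Σ¹₂`-complete subset of a measurable space: it is `Σ¹₂` and every `Σ¹₂` subset of a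
standard Borel space is its preimage under a Borel map. -/
def IsSigma12Complete {α : Type} [MeasurableSpace α] (s : Set α) : Prop :=
  IsSigma12 s ∧ ∀ (S : Type) [MeasurableSpace S] [StandardBorelSpace S] (A : Set S),
    IsSigma12 A → ∃ φ : S → α, Measurable φ ∧ A = φ ⁻¹' s

end Pool.Agent.Helper873.Pol
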