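import Pool.Agent.Helper873.PolB
import Pool.Agent.Helper873.PolDefB

open MeasureTheory Filter Topology Set TopologicalSpace

namespace Pool.Agent.Helper873.Pol

instance polish_cantor : PolishSpace (ℕ → Bool) := by
  have : IsCompletelyMetrizableSpace (ℕ → Bool) := inferInstance
  infer_instance

instance polish_prod_cantor {S : Type} [TopologicalSpace S] [PolishSpace S] :
    PolishSpace (S × (ℕ → Bool)) := by
  have : IsCompletelyMetrizableSpace (ℕ → Bool) := inferInstance
  have : IsCompletelyMetrizableSpace (S × (ℕ → Bool)) := inferInstance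
  infer_instance

/-- the set where all `k n` are nonzero -/
def nz {X : Type} (k : ℕ → X → ℝ) : Set X := {x | ∀ n, k n x ≠ 0}

/-- its closed copy in `X × ℝ^ℕ` -/
def nzc {X : Type} (k : ℕ → X → ℝ) : Set (X × (ℕ → ℝ)) := {p | ∀ n, p.2 n * k n p.1 = 1}

theorem isClosed_nzc {X : Type} [TopologicalSpace X] (k : ℕ → X → ℝ) (hk : ∀ n, Continuous (k n)) :
    IsClosed (nzc k) := by
  have : nzc k = ⋂ n, {p : X × (ℕ → ℝ) | p.2 n * k n p.1 = 1} := by
    ext p; simp [nzc]
  rw [this]
  refine isClosed_iInter fun n => isClosed_eq ?_ continuous_const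
  exact ((continuous_apply n).comp continuous_snd).mul ((hk n).comp continuous_fst)

theorem mem_nzc_iff {X : Type} (k : ℕ → X → ℝ) (x : X) (s : ℕ → ℝ) :
    (x, s) ∈ nzc k ↔ x ∈ nz k ∧ s = fun n => (k n x)⁻¹ := by
  constructor
  · intro h
    have h1 : x ∈ nz k := by
      intro n h0
      have := h n
      rw [h0, mul_zero] at this
      exact zero_ne_one this
    refine ⟨h1, ?_⟩
    funext n
    exact eq_inv_of_mul_eq_one_left (h n)
  · rintro ⟨h, rfl⟩ n
    exact inv_mul_cancel₀ (h n)

/-- `nz k` is homeomorphic to `nzc k` -/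
theorem nz_homeo {X : Type} [TopologicalSpace X] (k : ℕ → X → ℝ) (hk : ∀ n, Continuous (k n)) :
    Nonempty (nz k ≃ₜ nzc k) := by
  refine ⟨{ toFun := fun x => ⟨(x.1, fun n => (k n x.1)⁻¹), (mem_nzc_iff k _ _).mpr ⟨x.2, rfl⟩⟩
            invFun := fun p => ⟨p.1.1, ((mem_nzc_iff k _ _).mp p.2).1⟩
            left_inv := fun x => rfl
            right_inv := ?_
            continuous_toFun := ?_
            continuous_invFun := ?_ }⟩
  · rintro ⟨⟨x, s⟩, h⟩
    apply Subtype.ext
    exact Prod.ext rfl ((mem_nzc_iff k _ _).mp h).2.symm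
  · refine Continuous.subtype_mk ?_ _
    refine Continuous.prodMk continuous_subtype_val ?_
    refine continuous_pi fun n => ?_
    exact ((hk n).comp continuous_subtype_val).inv₀ (fun x => x.2 n)
  · exact Continuous.subtype_mk (continuous_fst.comp continuous_subtype_val) _

theorem nzc_eq_closure {X ι : Type} [TopologicalSpace X] (k : ℕ → X → ℝ)
    (hk : ∀ n, Continuous (k n)) (d : ι → X) (hd : ∀ i, d i ∈ nz k)
    (hdense : nz k ⊆ closure (range d)) :
    nzc k = closure (range fun i => (d i, fun n => (k n (d i))⁻¹)) := by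
  apply Subset.antisymm
  · rintro ⟨x, s⟩ h
    obtain ⟨hx, rfl⟩ := (mem_nzc_iff k _ _).mp h
    have hc : ContinuousWithinAt (fun x : X => (x, fun n => (k n x)⁻¹)) (range d) x := by
      refine ContinuousWithinAt.prodMk continuousWithinAt_id ?_
      refine continuousWithinAt_pi.mpr fun n => ?_
      exact ((hk n).continuousWithinAt).inv₀ (hx n)
    have h2 := hc.mem_closure_image (hdense hx)
    rw [← range_comp] at h2
    exact h2
  · apply closure_minimal _ (isClosed_nzc k hk)
    rintro _ ⟨i, rfl⟩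
    exact (mem_nzc_iff k _ _).mpr ⟨hd i, rfl⟩

/-- normal form of `Σ¹₂` subsets of a Polish space -/
theorem IsSigma12.normal_form {S : Type} [TopologicalSpace S] [PolishSpace S] [MeasurableSpace S]
    [BorelSpace S] {A : Set S} (hA : IsSigma12 A) :
    ∃ K : Set ((S × (ℕ → Bool)) × (ℕ → ℝ)), IsClosed K ∧
      A = {a | ∃ b, ∀ z, ((a, b), z) ∉ K} := by
  obtain ⟨Z, tZ, pZ, mZ, bZ, R, hR, rfl⟩ := hA
  rcases isEmpty_or_nonempty Z with hZ | hZ
  · refine ⟨univ, isClosed_univ, ?_⟩
    ext a
    constructor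
    · rintro ⟨z, -⟩
      exact (IsEmpty.false z).elim
    · rintro ⟨b, hb⟩
      exact (hb 0 trivial).elim
  · obtain ⟨f, hf, hfi⟩ := MeasurableSpace.measurable_injection_nat_bool_of_countablySeparated Z
    have hemb : MeasurableEmbedding f := hf.measurableEmbedding hfi
    obtain ⟨θ, hθ, hθf⟩ := hemb.exists_measurable_extend measurable_id (fun _ => hZ)
    have hA' : AnalyticSet ((fun p : S × (ℕ → Bool) => (p.1, θ p.2)) ⁻¹' R) :=
      hR.preimage _ (measurable_fst.prodMk (hθ.comp measurable_snd))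
    have hK : ∃ K : Set ((S × (ℕ → Bool)) × (ℕ → ℝ)), IsClosed K ∧
        (fun p : S × (ℕ → Bool) => (p.1, θ p.2)) ⁻¹' R = {p | ∃ z, (p, z) ∈ K} := by
      rw [AnalyticSet] at hA'
      rcases hA' with h | ⟨g, hg, hr⟩
      · refine ⟨∅, isClosed_empty, ?_⟩
        rw [h]; ext x; simp
      · refine ⟨(fun y : ℕ → ℕ => (g y, iota y)) '' univ, ?_, ?_⟩
        · have h1 : IsClosed {p : (S × (ℕ → Bool)) × (ℕ → ℕ) | p.1 = g p.2} :=
            isClosed_eq continuous_fst (hg.comp continuous_snd)
          have h2 : IsClosedEmbedding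
              (Prod.map (id : (S × (ℕ → Bool)) → (S × (ℕ → Bool))) iota) :=
            IsClosedEmbedding.id.prodMap isClosedEmbedding_iota
          have h3 := h2.isClosedMap _ h1
          convert h3 using 1
          ext p
          constructor
          · rintro ⟨y, -, rfl⟩
            exact ⟨(g y, y), rfl, rfl⟩
          · rintro ⟨⟨x, y⟩, hxy, rfl⟩
            refine ⟨y, trivial, ?_⟩
            have : x = g y := hxy
            rw [this]; rfl
        · rw [← hr]
          ext x
          constructor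
          · rintro ⟨y, rfl⟩
            exact ⟨iota y, y, trivial, rfl⟩
          · rintro ⟨z, y, -, hy⟩
            exact ⟨y, (Prod.ext_iff.mp hy).1⟩
    obtain ⟨K, hK, hKe⟩ := hK
    refine ⟨K, hK, ?_⟩
    have hmem : ∀ a b, (a, θ b) ∈ R ↔ ∃ z, ((a, b), z) ∈ K := by
      intro a b
      exact Set.ext_iff.mp hKe (a, b)
    ext a
    constructor
    · rintro ⟨z, hz⟩
      refine ⟨f z, fun w hw => hz ?_⟩
      have : θ (f z) = z := congrFun hθf z
      rw [← this]
      exact (hmem a (f z)).mpr ⟨w, hw⟩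
    · rintro ⟨b, hb⟩
      refine ⟨θ b, fun h => ?_⟩
      obtain ⟨w, hw⟩ := (hmem a b).mp h
      exact hb w hw

/-- The geometric construction: functions `k n` whose common non-vanishing set `nz` is a space
over the line, with cuts exactly when some section of `K` is empty. -/
theorem exists_spaces {S : Type} [TopologicalSpace S] [MetrizableSpace S]
    (K : Set ((S × (ℕ → Bool)) × (ℕ → ℝ))) (hK : IsClosed K) :
    ∃ k : ℕ → S → (ℝ × (ℕ → ℝ)) → ℝ,
      (∀ n, Continuous fun p : S × (ℝ × (ℕ → ℝ)) => k n p.1 p.2) ∧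
      (∃ d : ℕ → ℝ × (ℕ → ℝ), ∀ a, (∀ i, d i ∈ nz fun n => k n a) ∧
        (nz fun n => k n a) ⊆ closure (range d)) ∧
      (∀ a, (∃ b, ∀ z, ((a, b), z) ∉ K) → Nonempty ((nz fun n => k n a) × Bool ≃ₜ (nz fun n => k n a))) ∧
      (∀ a, (¬ ∃ b, ∀ z, ((a, b), z) ∉ K) → PreconnectedSpace (nz fun n => k n a)) := by
  obtain ⟨c, hc, hci, hcI, hct⟩ := exists_cantor
  have hce : IsClosedEmbedding c := hc.isClosedEmbedding hci
  -- the closed set of allowed points over the gates
  let KK : Set ((S × ℝ) × (ℕ → ℝ)) :=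
    {p | ∃ b, c b = Real.sin (2 * Real.pi * p.1.2) ∧ ((p.1.1, b), p.2) ∈ K}
  have hKK : IsClosed KK := by
    have h1 : IsClosedEmbedding (Prod.map (Prod.map (id : S → S) c) (id : (ℕ → ℝ) → (ℕ → ℝ))) :=
      (IsClosedEmbedding.id.prodMap hce).prodMap IsClosedEmbedding.id
    have h2 := h1.isClosedMap K hK
    have h3 : Continuous fun p : (S × ℝ) × (ℕ → ℝ) =>
        ((p.1.1, Real.sin (2 * Real.pi * p.1.2)), p.2) := by fun_prop
    convert h2.preimage h3 using 1
    ext p
    constructor
    · rintro ⟨b, hb, hp⟩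
      refine ⟨((p.1.1, b), p.2), hp, ?_⟩
      show ((p.1.1, c b), p.2) = _
      rw [hb]
    · rintro ⟨⟨⟨a, b⟩, z⟩, hp, he⟩
      have e1 : a = p.1.1 := congrArg (fun q : (S × ℝ) × (ℕ → ℝ) => q.1.1) he
      have e2 : c b = Real.sin (2 * Real.pi * p.1.2) :=
        congrArg (fun q : (S × ℝ) × (ℕ → ℝ) => q.1.2) he
      have e3 : z = p.2 := congrArg (fun q : (S × ℝ) × (ℕ → ℝ) => q.2) he
      exact ⟨b, e2, by rw [← e1, ← e3]; exact hp⟩
  obtain ⟨u, hu, hu0, huz⟩ := exists_zero_fun (gate c) (isClosed_gate c hc)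
  obtain ⟨v, hv, hv0, hvz⟩ := exists_zero_fun KK hKK
  let k : ℕ → S → (ℝ × (ℕ → ℝ)) → ℝ := fun n a p => max (u p.1) (1 / (n + 1) - v ((a, p.1), p.2))
  have hnz : ∀ a p, p ∈ (nz fun n => k n a) ↔ (p.1 ∉ gate c ∨ ((a, p.1), p.2) ∈ KK) := by
    intro a p
    constructor
    · intro h
      by_contra hcon
      push Not at hcon
      obtain ⟨h1, h2⟩ := hcon
      have hu1 : u p.1 = 0 := (huz _).mpr h1
      have hv1 : 0 < v ((a, p.1), p.2) :=
        lt_of_le_of_ne (hv0 _) (fun h0 => h2 ((hvz _).mp h0.symm))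
      obtain ⟨n, hn⟩ := exists_nat_one_div_lt hv1
      apply h n
      show max (u p.1) (1 / ((n : ℝ) + 1) - v ((a, p.1), p.2)) = 0
      rw [hu1]
      exact max_eq_left (by linarith)
    · rintro (h | h) n
      · have hu1 : 0 < u p.1 := lt_of_le_of_ne (hu0 _) (fun h0 => h ((huz _).mp h0.symm))
        have : 0 < k n a p := lt_of_lt_of_le hu1 (le_max_left _ _)
        exact this.ne'
      · have hv1 : v ((a, p.1), p.2) = 0 := (hvz _).mpr h
        have : 0 < k n a p := by
          refine lt_of_lt_of_le ?_ (le_max_right _ _)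
          show (0:ℝ) < 1 / (n + 1) - v ((a, p.1), p.2)
          rw [hv1, sub_zero]
          positivity
        exact this.ne'
  have hperm : ∀ (a : S) (t : ℝ) (z : ℕ → ℝ) (n : ℤ), (t, z) ∈ (nz fun n => k n a) →
      (t + n, z) ∈ (nz fun n => k n a) := by
    intro a t z n h
    have hs : Real.sin (2 * Real.pi * (t + n)) = Real.sin (2 * Real.pi * t) := by
      have : 2 * Real.pi * (t + n) = 2 * Real.pi * t + n * (2 * Real.pi) := by ring
      rw [this, Real.sin_add_int_mul_two_pi]
    rw [hnz] at h ⊢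
    rcases h with h | h
    · left
      intro h1
      apply h
      show Real.sin (2 * Real.pi * t) ∈ range c
      rw [← hs]
      exact h1
    · right
      obtain ⟨b, hb, hp⟩ := h
      exact ⟨b, by show c b = Real.sin (2 * Real.pi * (t + n)); rw [hs]; exact hb, hp⟩
  refine ⟨k, ?_, ?_, ?_, ?_⟩
  · intro n
    show Continuous fun p : S × (ℝ × (ℕ → ℝ)) => max (u p.2.1) (1 / ((n : ℝ) + 1) - v ((p.1, p.2.1), p.2.2))
    fun_prop
  · -- dense sequence outside the gates
    have hopen : IsOpen {p : ℝ × (ℕ → ℝ) | p.1 ∉ gate c} :=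
      ((isClosed_gate c hc).preimage continuous_fst).isOpen_compl
    obtain ⟨t1, ht1⟩ : ∃ t, t ∉ gate c := by
      by_contra hcon
      push Not at hcon
      have h1 : gate c = univ := eq_univ_of_forall hcon
      have h2 := interior_gate c hct
      rw [h1, interior_univ] at h2
      exact univ_nonempty.ne_empty h2
    have hne : Nonempty {p : ℝ × (ℕ → ℝ) | p.1 ∉ gate c} := ⟨⟨(t1, 0), ht1⟩⟩
    obtain ⟨q, hq⟩ := exists_dense_seq {p : ℝ × (ℕ → ℝ) | p.1 ∉ gate c}
    refine ⟨fun i => (q i).1, fun a => ⟨fun i => (hnz a _).mpr (Or.inl (q i).2), ?_⟩⟩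
    have hdense : Dense {p : ℝ × (ℕ → ℝ) | p.1 ∉ gate c} := by
      have h1 : Dense ((gate c)ᶜ) := interior_eq_empty_iff_dense_compl.mp (interior_gate c hct)
      have h2 : {p : ℝ × (ℕ → ℝ) | p.1 ∉ gate c} = (gate c)ᶜ ×ˢ univ := by
        ext p; simp
      rw [h2]
      exact h1.prod dense_univ
    have h3 : closure (range fun i => (q i).1) = univ := by
      have h4 : DenseRange fun i => (q i).1 := by
        have h5 : DenseRange (Subtype.val : {p : ℝ × (ℕ → ℝ) | p.1 ∉ gate c} → _) := by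
          rw [DenseRange, Subtype.range_coe]
          exact hdense
        exact h5.comp hq continuous_subtype_val
      exact h4.closure_range
    rw [h3]
    exact subset_univ _
  · rintro a ⟨b, hb⟩
    refine double_homeo _ (Real.arcsin (c b) / (2 * Real.pi)) (fun t z n h => hperm a t z n h) ?_
    intro n z h
    have hs : Real.sin (2 * Real.pi * (Real.arcsin (c b) / (2 * Real.pi) + n)) = c b := by
      have : 2 * Real.pi * (Real.arcsin (c b) / (2 * Real.pi) + n) =
          Real.arcsin (c b) + n * (2 * Real.pi) := by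
        field_simp
      rw [this, Real.sin_add_int_mul_two_pi, Real.sin_arcsin (hcI b).1 (hcI b).2]
    rw [hnz] at h
    rcases h with h | h
    · exact h ⟨b, hs.symm⟩
    · obtain ⟨b', hb', hp⟩ := h
      have hb'' : c b' = c b := by rw [← hs]; exact hb'
      rw [hci hb''] at hp
      exact hb z hp
  · intro a ha
    push Not at ha
    have : ConnectedSpace (ℕ → ℝ) := by
      have h1 : IsPreconnected (univ : Set (ℕ → ℝ)) := convex_univ.isPreconnected
      exact { toPreconnectedSpace := ⟨h1⟩, toNonempty := ⟨0⟩ }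
    refine preconnected_fibred _ (gate c) (interior_gate c hct) ?_ ?_
    · intro l z hl
      exact (hnz a _).mpr (Or.inl hl)
    · intro l
      by_cases hl : l ∈ gate c
      · obtain ⟨b, hb⟩ := hl
        obtain ⟨z, hz⟩ := ha b
        exact ⟨z, (hnz a _).mpr (Or.inr ⟨b, hb, hz⟩)⟩
      · exact ⟨0, (hnz a _).mpr (Or.inl hl)⟩

end Pool.Agent.Helper873.Pol
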