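import Pool.Agent.Helper873.PolC

open MeasureTheory Filter Topology Set TopologicalSpace

namespace Pool.Agent.Helper873.Pol

theorem prod_zero_homeo {E : Type} [TopologicalSpace E] (C : Set E) :
    Nonempty (C ≃ₜ (C ×ˢ ({0} : Set ℝ) : Set (E × ℝ))) := by
  refine ⟨{ toFun := fun x => ⟨(x.1, 0), x.2, rfl⟩
            invFun := fun p => ⟨p.1.1, p.2.1⟩
            left_inv := fun x => rfl
            right_inv := ?_
            continuous_toFun := ?_
            continuous_invFun := ?_ }⟩
  · rintro ⟨⟨x, t⟩, hx, ht⟩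
    apply Subtype.ext
    exact Prod.ext rfl (Eq.symm ht)
  · exact Continuous.subtype_mk (by fun_prop) _
  · exact Continuous.subtype_mk (by fun_prop) _

theorem prod_pair_homeo {E : Type} [TopologicalSpace E] (C : Set E) :
    Nonempty (C × Bool ≃ₜ (C ×ˢ ({0, 1} : Set ℝ) : Set (E × ℝ))) := by
  let ib : Bool → ℝ := fun b => if b then 1 else 0
  have hib : IsEmbedding ib := by
    refine (Continuous.isClosedEmbedding continuous_of_discreteTopology ?_).isEmbedding
    intro a b h
    cases a <;> cases b <;> simp [ib] at h ⊢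
  have hf : IsEmbedding (Prod.map (Subtype.val : C → E) ib) :=
    IsEmbedding.subtypeVal.prodMap hib
  have hr : range (Prod.map (Subtype.val : C → E) ib) = C ×ˢ ({0, 1} : Set ℝ) := by
    ext p
    constructor
    · rintro ⟨⟨x, b⟩, rfl⟩
      refine ⟨x.2, ?_⟩
      cases b
      · left; rfl
      · right; rfl
    · rintro ⟨h1, h2⟩
      rcases h2 with h2 | h2
      · exact ⟨(⟨p.1, h1⟩, false), Prod.ext rfl (Eq.symm h2)⟩
      · exact ⟨(⟨p.1, h1⟩, true), Prod.ext rfl (Eq.symm h2)⟩
  exact ⟨hf.toHomeomorph.trans (Homeomorph.setCongr hr)⟩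

theorem not_preconnected_pair {E : Type} [TopologicalSpace E] (C : Set E) (hC : C.Nonempty) :
    ¬ PreconnectedSpace (C ×ˢ ({0, 1} : Set ℝ) : Set (E × ℝ)) := by
  intro h0
  have h := isPreconnected_iff_preconnectedSpace.mpr h0
  have h1 := h.image (fun p : E × ℝ => p.2) continuous_snd.continuousOn
  obtain ⟨x, hx⟩ := hC
  have h2 : (fun p : E × ℝ => p.2) '' (C ×ˢ ({0, 1} : Set ℝ)) = {0, 1} := by
    ext t
    constructor
    · rintro ⟨p, h, rfl⟩
      exact h.2
    · intro h
      exact ⟨(x, t), ⟨hx, h⟩, rfl⟩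
  rw [h2] at h1
  have h3 := h1.ordConnected
  have h4 : (1 / 2 : ℝ) ∈ ({0, 1} : Set ℝ) :=
    h3.out (show (0 : ℝ) ∈ ({0, 1} : Set ℝ) from Or.inl rfl)
      (show (1 : ℝ) ∈ ({0, 1} : Set ℝ) from Or.inr rfl) ⟨by norm_num, by norm_num⟩
  rcases h4 with h | h
  · norm_num at h
  · rw [mem_singleton_iff] at h; norm_num at h

/-- Every `Σ¹₂` set is a Borel preimage of the homeomorphism relation of the closed subsets of
`W`. -/
theorem hard (W : Type) [TopologicalSpace W] (e : ((ℝ × (ℕ → ℝ)) × (ℕ → ℝ)) × ℝ → W)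
    (he : IsClosedEmbedding e) (S : Type) [MeasurableSpace S] [StandardBorelSpace S] (A : Set S)
    (hA : IsSigma12 A) : ∃ φ : S → Closeds W × Closeds W, Measurable φ ∧ A = φ ⁻¹' HomeoRel W := by
  let _ := upgradeStandardBorel S
  obtain ⟨K, hK, rfl⟩ := hA.normal_form
  obtain ⟨k, hk, ⟨d, hd⟩, hyes, hno⟩ := exists_spaces K hK
  let _ : MeasurableSpace W := borel W
  have : BorelSpace W := ⟨rfl⟩
  have hka : ∀ a n, Continuous (k n a) := fun a n =>
    (hk n).comp (by fun_prop : Continuous fun p : ℝ × (ℕ → ℝ) => (a, p))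
  have hC : ∀ a, IsClosed (nzc fun n => k n a) := fun a => isClosed_nzc _ (hka a)
  have hcl : ∀ a, (nzc fun n => k n a) =
      closure (range fun i => (d i, fun n => (k n a (d i))⁻¹)) := fun a =>
    nzc_eq_closure _ (hka a) d (hd a).1 (hd a).2
  have hpt : ∀ (i : ℕ) (j : ℝ), Measurable fun a : S =>
      e ((d i, fun n => (k n a (d i))⁻¹), j) := by
    intro i j
    refine he.continuous.measurable.comp ?_
    refine Measurable.prodMk (Measurable.prodMk measurable_const ?_) measurable_const
    refine measurable_pi_lambda _ fun n => ?_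
    have h1 : Continuous fun a : S => k n a (d i) :=
      (hk n).comp (by fun_prop : Continuous fun a : S => (a, d i))
    exact h1.measurable.inv
  refine ⟨fun a => (push e he ((nzc fun n => k n a) ×ˢ {0}) ((hC a).prod isClosed_singleton),
    push e he ((nzc fun n => k n a) ×ˢ {0, 1}) ((hC a).prod (Set.toFinite _).isClosed)), ?_, ?_⟩
  · refine Measurable.prodMk ?_ ?_
    · refine measurable_of_dense (ι := ℕ) _
        (fun i a => e ((d i, fun n => (k n a (d i))⁻¹), 0)) (fun i => hpt i 0) ?_
      intro a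
      show e '' _ = _
      have h1 : (nzc fun n => k n a) ×ˢ ({0} : Set ℝ) =
          closure (range fun i => ((d i, fun n => (k n a (d i))⁻¹), (0:ℝ))) := by
        rw [hcl a, ← closure_singleton, ← closure_prod_eq]
        congr 1
        ext p
        constructor
        · rintro ⟨⟨i, hi⟩, hp⟩
          exact ⟨i, Prod.ext hi (Eq.symm hp)⟩
        · rintro ⟨i, rfl⟩
          exact ⟨⟨i, rfl⟩, rfl⟩
      rw [h1, ← he.closure_image_eq, ← range_comp]
      rfl
    · refine measurable_of_dense (ι := ℕ × Bool) _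
        (fun i a => e ((d i.1, fun n => (k n a (d i.1))⁻¹), if i.2 then 1 else 0))
        (fun i => hpt i.1 _) ?_
      intro a
      show e '' _ = _
      have h1 : (nzc fun n => k n a) ×ˢ ({0, 1} : Set ℝ) =
          closure (range fun i : ℕ × Bool =>
            ((d i.1, fun n => (k n a (d i.1))⁻¹), if i.2 then (1:ℝ) else 0)) := by
        rw [hcl a, ← (Set.toFinite ({0, 1} : Set ℝ)).isClosed.closure_eq, ← closure_prod_eq]
        congr 1
        ext p
        constructor
        · rintro ⟨⟨i, hi⟩, hp⟩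
          rcases hp with hp | hp
          · exact ⟨(i, false), Prod.ext hi (by simpa using Eq.symm hp)⟩
          · exact ⟨(i, true), Prod.ext hi (by simpa using Eq.symm hp)⟩
        · rintro ⟨⟨i, b⟩, rfl⟩
          refine ⟨⟨i, rfl⟩, ?_⟩
          cases b
          · left; simp
          · right; simp
      rw [h1, ← he.closure_image_eq, ← range_comp]
      rfl
  · ext a
    show _ ↔ Nonempty _
    rw [push_homeo]
    obtain ⟨f1⟩ := nz_homeo (fun n => k n a) (hka a)
    obtain ⟨f2⟩ := prod_zero_homeo (nzc fun n => k n a)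
    obtain ⟨f3⟩ := prod_pair_homeo (nzc fun n => k n a)
    constructor
    · intro ha
      obtain ⟨g⟩ := hyes a ha
      exact ⟨((f2.symm.trans f1.symm).trans g.symm).trans
        ((f1.prodCongr (Homeomorph.refl Bool)).trans f3)⟩
    · rintro ⟨g⟩
      by_contra hcon
      have h1 := hno a hcon
      have h2 : PreconnectedSpace
          ((nzc fun n => k n a) ×ˢ ({0, 1} : Set ℝ) : Set _) := by
        let g' := (f1.trans f2).trans g
        refine ⟨?_⟩
        have h3 := isPreconnected_univ.image g' g'.continuous.continuousOn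
        rwa [image_univ, g'.surjective.range_eq] at h3
      refine not_preconnected_pair _ ?_ h2
      exact ⟨_, (mem_nzc_iff _ (d 0) _).mpr ⟨(hd a).1 0, rfl⟩⟩

end Pool.Agent.Helper873.Pol
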