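import Mathlib

open MeasureTheory Filter Topology Set TopologicalSpace

namespace Pool.Agent.Helper873.Pol

/-- The Effros Borel structure on the closed subsets of `W`: it is generated by the sets
`{F : F ∩ O ≠ ∅}`, `O` open. -/
instance effros (W : Type) [TopologicalSpace W] : MeasurableSpace (Closeds W) :=
  MeasurableSpace.generateFrom
    {S | ∃ O : Set W, IsOpen O ∧ S = {F : Closeds W | ((F : Set W) ∩ O).Nonempty}}

/-- The homeomorphism relation on the closed subsets of `W`. -/
def HomeoRel (W : Type) [TopologicalSpace W] : Set (Closeds W × Closeds W) :=
  {p | Nonempty ((p.1 : Set W) ≃ₜ (p.2 : Set W))}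

/-- Analytic subset of a measurable space: the image of a Borel subset of a Polish space under a
Borel map (for standard Borel spaces this is the usual class `Σ¹₁`). -/
def IsAnalytic {α : Type} [MeasurableSpace α] (s : Set α) : Prop :=
  ∃ (Z : Type) (_ : TopologicalSpace Z) (_ : PolishSpace Z) (_ : MeasurableSpace Z)
    (_ : BorelSpace Z) (B : Set Z) (f : Z → α), MeasurableSet B ∧ Measurable f ∧ f '' B = s

/-- `U` is the Urysohn universal Polish metric space: a complete separable metric space which
contains an isometric copy of every separable metric space and in which every isometry between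
finite subsets extends to an isometry of `U` (these properties determine `U` up to isometry). -/
structure IsUrysohn (U : Type) [MetricSpace U] : Prop where
  complete : CompleteSpace U
  separable : SeparableSpace U
  universal : ∀ (X : Type) [MetricSpace X] [SeparableSpace X], ∃ f : X → U, Isometry f
  homogeneous : ∀ (s : Finset U) (f : s → U), Isometry f → ∃ g : U ≃ᵢ U, ∀ x : s, g x = f x

/-- The homeomorphism relation on `F(W)` is not analytic, and it is not Borel reducible to any
analytic equivalence relation on a standard Borel space. -/
def HomeoNotAnalytic (W : Type) [TopologicalSpace W] : Prop :=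
  ¬ IsAnalytic (HomeoRel W) ∧
  ∀ (Y : Type) [MeasurableSpace Y] [StandardBorelSpace Y] (E : Setoid Y),
    IsAnalytic {p : Y × Y | E p.1 p.2} →
      ¬ ∃ ψ : Closeds W → Y, Measurable ψ ∧ ∀ A B, (A, B) ∈ HomeoRel W ↔ E (ψ A) (ψ B)

end Pool.Agent.Helper873.Pol
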