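import Pool.Agent.Helper873.PolD

open MeasureTheory Filter Topology Set TopologicalSpace

namespace Pool.Agent.Helper873.Pol

/-- interleaving two sequences of indices -/
def weave (ν μ : ℕ → ℕ) : ℕ → ℕ := fun n => if n % 2 = 0 then ν (n / 2) else μ (n / 2)

theorem weave_even (ν μ : ℕ → ℕ) (n : ℕ) : weave ν μ (2 * n) = ν n := by
  simp [weave]

theorem weave_odd (ν μ : ℕ → ℕ) (n : ℕ) : weave ν μ (2 * n + 1) = μ n := by
  have h1 : (2 * n + 1) % 2 = 1 := by omega
  have h2 : (2 * n + 1) / 2 = n := by omega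
  simp [weave, h1, h2]

/-- the filter along which the second sequence converges -/
theorem exists_limit {W : Type} [MetricSpace W] [CompleteSpace W] (a b : ℕ → W)
    (h : ∀ ν : ℕ → ℕ, CauchySeq (a ∘ ν) → CauchySeq (b ∘ ν)) (x : W)
    (hx : x ∈ closure (range a)) : ∃ y : W, y ∈ closure (range b) ∧
      Tendsto b (comap a (𝓝 x)) (𝓝 y) := by
  have hne : (comap a (𝓝 x)).NeBot := by
    rw [comap_neBot_iff]
    intro t ht
    obtain ⟨_, h1, ⟨n, rfl⟩⟩ := mem_closure_iff_nhds.mp hx t ht
    exact ⟨n, h1⟩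
  have hcau : Cauchy (map b (comap a (𝓝 x))) := by
    rw [Metric.cauchy_iff]
    refine ⟨hne.map b, ?_⟩
    intro ε hε
    by_contra hcon
    push Not at hcon
    -- choose bad pairs
    have hbad : ∀ k : ℕ, ∃ n m : ℕ, dist (a n) x < 1 / (k + 1) ∧ dist (a m) x < 1 / (k + 1) ∧
        ε ≤ dist (b n) (b m) := by
      intro k
      have hU : b '' (a ⁻¹' (Metric.ball x (1 / (k + 1)))) ∈ map b (comap a (𝓝 x)) :=
        image_mem_map (preimage_mem_comap (Metric.ball_mem_nhds x (by positivity)))
      obtain ⟨_, ⟨n, hn, rfl⟩, _, ⟨m, hm, rfl⟩, hd⟩ := hcon _ hU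
      exact ⟨n, m, hn, hm, hd⟩
    choose ν μ hν hμ hd using hbad
    have hta : Tendsto (a ∘ weave ν μ) atTop (𝓝 x) := by
      rw [Metric.tendsto_atTop]
      intro δ hδ
      obtain ⟨N, hN⟩ := exists_nat_one_div_lt hδ
      refine ⟨2 * N, fun n hn => ?_⟩
      have hle : (1 : ℝ) / ((n / 2 : ℕ) + 1) ≤ 1 / (N + 1) := by
        apply one_div_le_one_div_of_le (by positivity)
        have : N ≤ n / 2 := by omega
        have : (N : ℝ) ≤ ((n / 2 : ℕ) : ℝ) := by exact_mod_cast this
        linarith
      show dist (a (weave ν μ n)) x < δ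
      unfold weave
      split_ifs
      · exact lt_of_lt_of_le (hν _) (hle.trans hN.le)
      · exact lt_of_lt_of_le (hμ _) (hle.trans hN.le)
    have hcb := h _ hta.cauchySeq
    rw [Metric.cauchySeq_iff] at hcb
    obtain ⟨N, hN⟩ := hcb ε hε
    have h1 := hN (2 * N) (by omega) (2 * N + 1) (by omega)
    simp only [Function.comp, weave_even, weave_odd] at h1
    exact absurd (hd N) (not_le.mpr h1)
  obtain ⟨y, hy⟩ := CompleteSpace.complete hcau
  refine ⟨y, ?_, hy⟩
  have hT : Tendsto b (comap a (𝓝 x)) (𝓝 y) := hy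
  exact mem_closure_of_tendsto hT (Eventually.of_forall fun n => mem_range_self n)

/-- an index type without a topology -/
def Ix : Type := ℕ

/-- the extension map -/
theorem exists_extension {W : Type} [MetricSpace W] [CompleteSpace W] (a b : ℕ → W)
    (h : ∀ ν : ℕ → ℕ, CauchySeq (a ∘ ν) → CauchySeq (b ∘ ν)) :
    ∃ F : closure (range a) → closure (range b), Continuous F ∧
      ∀ n, F ⟨a n, subset_closure (mem_range_self n)⟩ = ⟨b n, subset_closure (mem_range_self n)⟩ := by
  let a' : Ix → closure (range a) := fun n => ⟨a n, subset_closure (mem_range_self (f := a) n)⟩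
  let b' : Ix → closure (range b) := fun n => ⟨b n, subset_closure (mem_range_self (f := b) n)⟩
  let tN : TopologicalSpace Ix := TopologicalSpace.induced a' inferInstance
  have hdr : DenseRange a' := by
    intro x
    rw [mem_closure_iff_nhds]
    intro t ht
    obtain ⟨u, hu, hut⟩ := mem_nhds_subtype _ _ _ |>.mp ht
    obtain ⟨_, h1, ⟨n, rfl⟩⟩ := mem_closure_iff_nhds.mp x.2 u hu
    exact ⟨a' n, hut h1, n, rfl⟩
  have di : IsDenseInducing a' := ⟨⟨rfl⟩, hdr⟩
  have hlim : ∀ x : closure (range a), ∃ y : closure (range b),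
      Tendsto b' (comap a' (𝓝 x)) (𝓝 y) := by
    intro x
    obtain ⟨y, hy, hT⟩ := exists_limit a b h x x.2
    refine ⟨⟨y, hy⟩, ?_⟩
    rw [tendsto_subtype_rng, nhds_subtype_eq_comap, comap_comap]
    exact hT
  have aux : ∀ m : Ix, di.extend b' (a' m) = b' m := by
    intro m
    obtain ⟨y, hy⟩ := hlim (a' m)
    have h1 : y = b' m := by
      have h2 : (pure m : Filter Ix) ≤ comap a' (𝓝 (a' m)) := by
        rw [← map_le_iff_le_comap, Filter.map_pure]
        exact pure_le_nhds _
      have h3 : Tendsto b' (pure m) (𝓝 y) := hy.mono_left h2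
      have h4 : Tendsto b' (pure m) (𝓝 (b' m)) := tendsto_pure_nhds _ _
      exact tendsto_nhds_unique h3 h4
    rw [h1] at hy
    exact di.extend_eq_of_tendsto hy
  exact ⟨di.extend b', di.continuous_extend hlim, fun n => aux n⟩

theorem homeo_of_cauchy {W : Type} [MetricSpace W] [CompleteSpace W] (a b : ℕ → W)
    (h : ∀ ν : ℕ → ℕ, CauchySeq (a ∘ ν) ↔ CauchySeq (b ∘ ν)) :
    Nonempty (closure (range a) ≃ₜ closure (range b)) := by
  obtain ⟨F, hF, hFa⟩ := exists_extension a b fun ν => (h ν).mp
  obtain ⟨G, hG, hGb⟩ := exists_extension b a fun ν => (h ν).mpr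
  have dense : ∀ c : ℕ → W, DenseRange fun n =>
      (⟨c n, subset_closure (mem_range_self n)⟩ : closure (range c)) := by
    intro c x
    rw [mem_closure_iff_nhds]
    intro t ht
    obtain ⟨u, hu, hut⟩ := mem_nhds_subtype _ _ _ |>.mp ht
    obtain ⟨_, h1, ⟨n, rfl⟩⟩ := mem_closure_iff_nhds.mp x.2 u hu
    exact ⟨_, hut h1, n, rfl⟩
  have h1 : G ∘ F = id := by
    refine (dense a).equalizer (hG.comp hF) continuous_id ?_
    funext n
    simp only [Function.comp, hFa, hGb, id]
  have h2 : F ∘ G = id := by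
    refine (dense b).equalizer (hF.comp hG) continuous_id ?_
    funext n
    simp only [Function.comp, hFa, hGb, id]
  exact ⟨{ toFun := F
           invFun := G
           left_inv := fun x => congrFun h1 x
           right_inv := fun x => congrFun h2 x
           continuous_toFun := hF
           continuous_invFun := hG }⟩

/-- a homeomorphism of nonempty closed subsets is coded by two sequences -/
theorem exists_sequences {W : Type} [MetricSpace W] [CompleteSpace W] [SecondCountableTopology W]
    (A B : Closeds W) (hA : (A : Set W).Nonempty) (h : Nonempty ((A : Set W) ≃ₜ (B : Set W))) :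
    ∃ a b : ℕ → W, (A : Set W) = closure (range a) ∧ (B : Set W) = closure (range b) ∧
      ∀ ν : ℕ → ℕ, CauchySeq (a ∘ ν) ↔ CauchySeq (b ∘ ν) := by
  obtain ⟨φ⟩ := h
  have : Nonempty (A : Set W) := hA.to_subtype
  obtain ⟨q, hq⟩ := exists_dense_seq (A : Set W)
  have hcl : ∀ (C : Closeds W) (r : ℕ → ↥(C : Set W)), DenseRange r →
      (C : Set W) = closure (range fun n => (r n : W)) := by
    intro C r hr
    apply Subset.antisymm
    · intro x hx
      have h1 := image_closure_subset_closure_image (s := range r)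
        (continuous_subtype_val : Continuous (Subtype.val : ↥(C : Set W) → W))
      rw [hr.closure_range, ← range_comp] at h1
      exact h1 ⟨⟨x, hx⟩, trivial, rfl⟩
    · apply closure_minimal _ C.isClosed
      rintro _ ⟨n, rfl⟩
      exact (r n).2
  -- transport of Cauchy sequences
  have key : ∀ (C D : Closeds W) (ψ : ↥(C : Set W) → ↥(D : Set W)), Continuous ψ →
      ∀ r : ℕ → ↥(C : Set W), CauchySeq (fun n => (r n : W)) → CauchySeq fun n => (ψ (r n) : W) := by
    intro C D ψ hψ r hr
    obtain ⟨x, hx⟩ := cauchySeq_tendsto_of_complete hr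
    have hxC : x ∈ (C : Set W) :=
      C.isClosed.mem_of_tendsto hx (Eventually.of_forall fun n => (r n).2)
    have h1 : Tendsto r atTop (𝓝 ⟨x, hxC⟩) := tendsto_subtype_rng.mpr hx
    have h2 : Tendsto (fun n => (ψ (r n) : W)) atTop (𝓝 (ψ ⟨x, hxC⟩ : W)) :=
      ((continuous_subtype_val.comp hψ).tendsto _).comp h1
    exact h2.cauchySeq
  refine ⟨fun n => q n, fun n => φ (q n), hcl A q hq, ?_, ?_⟩
  · exact hcl B (fun n => φ (q n)) (φ.surjective.denseRange.comp hq φ.continuous)
  · intro ν
    constructor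
    · intro hν
      exact key A B φ φ.continuous (fun n => q (ν n)) hν
    · intro hν
      have := key B A φ.symm φ.symm.continuous (fun n => φ (q (ν n))) hν
      show CauchySeq fun n => (q (ν n) : W)
      simpa using this

end Pool.Agent.Helper873.Pol
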