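import Pool.Agent.Helper873.PolE

open MeasureTheory Filter Topology Set TopologicalSpace

namespace Pool.Agent.Helper873.Pol

theorem isAnalytic_empty {Q : Type} [MeasurableSpace Q] : IsAnalytic (∅ : Set Q) := by
  rcases isEmpty_or_nonempty Q with h | h
  · exact ⟨Empty, inferInstance, inferInstance, inferInstance, inferInstance, ∅,
      Empty.elim, MeasurableSet.empty, measurable_of_empty _, by simp⟩
  · exact ⟨ℕ → ℕ, inferInstance, inferInstance, inferInstance, inferInstance, ∅,
      fun _ => Classical.arbitrary Q, MeasurableSet.empty, measurable_const, by simp⟩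

/-- a set whose preimage under a Borel surjection from a Polish space is analytic is analytic -/
theorem isAnalytic_of_preimage {P Q : Type} [TopologicalSpace P] [MeasurableSpace P]
    [BorelSpace P] [MeasurableSpace Q] (π : P → Q) (hπ : Measurable π)
    (hs : Function.Surjective π) (R : Set Q) (h : AnalyticSet (π ⁻¹' R)) : IsAnalytic R := by
  rw [AnalyticSet] at h
  rcases h with h | ⟨g, hg, hr⟩
  · have : R = ∅ := by
      rw [← image_preimage_eq R hs, h, image_empty]
    rw [this]
    exact isAnalytic_empty
  · refine ⟨ℕ → ℕ, inferInstance, inferInstance, inferInstance, inferInstance, univ,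
      fun y => π (g y), MeasurableSet.univ, hπ.comp hg.measurable, ?_⟩
    rw [image_univ, ← image_preimage_eq R hs, ← hr, ← range_comp]
    rfl

/-- coding of the closed sets -/
noncomputable def code {W : Type} [TopologicalSpace W] (p : Bool × (ℕ → W)) : Closeds W :=
  if p.1 then ⟨closure (range p.2), isClosed_closure⟩ else ⊥

theorem measurable_clos {W : Type} [TopologicalSpace W] [MeasurableSpace W] [BorelSpace W] :
    Measurable fun a : ℕ → W => (⟨closure (range a), isClosed_closure⟩ : Closeds W) :=
  measurable_of_dense _ (fun n a => a n) (fun n => measurable_pi_apply n) (fun _ => rfl)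

theorem measurable_code {W : Type} [TopologicalSpace W] [MeasurableSpace W] [BorelSpace W] :
    Measurable (code : Bool × (ℕ → W) → Closeds W) := by
  unfold code
  refine Measurable.ite ?_ (measurable_clos.comp measurable_snd) measurable_const
  have : MeasurableSet ({true} : Set Bool) := MeasurableSet.singleton true
  exact measurable_fst this

theorem surjective_code {W : Type} [TopologicalSpace W] [SecondCountableTopology W] [Nonempty W] :
    Function.Surjective (code : Bool × (ℕ → W) → Closeds W) := by
  intro A
  rcases (A : Set W).eq_empty_or_nonempty with h | h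
  · refine ⟨(false, fun _ => Classical.arbitrary W), ?_⟩
    apply Closeds.ext
    simp [code, h]
  · have : Nonempty (A : Set W) := h.to_subtype
    obtain ⟨q, hq⟩ := exists_dense_seq (A : Set W)
    refine ⟨(true, fun n => q n), ?_⟩
    apply Closeds.ext
    simp only [code, if_true, Closeds.coe_mk]
    apply Subset.antisymm
    · apply closure_minimal _ A.isClosed
      rintro _ ⟨n, rfl⟩
      exact (q n).2
    · intro x hx
      have h1 := image_closure_subset_closure_image (s := range q)
        (continuous_subtype_val : Continuous (Subtype.val : ↥(A : Set W) → W))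
      rw [hq.closure_range, ← range_comp] at h1
      exact h1 ⟨⟨x, hx⟩, trivial, rfl⟩

theorem measurableSet_cauchy (W : Type) [MetricSpace W] [CompleteSpace W]
    [SecondCountableTopology W] [MeasurableSpace W] [BorelSpace W] :
    MeasurableSet {p : (ℕ → W) × (ℕ → ℕ) | CauchySeq (p.1 ∘ p.2)} := by
  have hm : ∀ n, Measurable fun p : (ℕ → W) × (ℕ → ℕ) => p.1 (p.2 n) := by
    intro n
    have h1 : Measurable fun p : (ℕ → W) × ℕ => p.1 p.2 :=
      measurable_from_prod_countable_left fun k => measurable_pi_apply k
    exact h1.comp (measurable_fst.prodMk ((measurable_pi_apply n).comp measurable_snd))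
  have h2 := measurableSet_exists_tendsto (l := atTop) hm
  convert h2 using 1
  ext p
  constructor
  · intro h
    exact cauchySeq_tendsto_of_complete h
  · rintro ⟨c, hc⟩
    exact hc.cauchySeq

/-- Gao's upper bound: the homeomorphism relation is `Σ¹₂`. -/
theorem isSigma12_homeoRel (W : Type) [TopologicalSpace W] [PolishSpace W] :
    IsSigma12 (HomeoRel W) := by
  rcases isEmpty_or_nonempty W with hW | hW
  · refine ⟨ℕ → ℕ, inferInstance, inferInstance, inferInstance, inferInstance, ∅,
      isAnalytic_empty, ?_⟩
    ext p
    refine ⟨fun _ => ⟨fun _ => 0, fun h => h⟩, fun _ => ?_⟩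
    have h1 : p.1 = p.2 := by
      apply Closeds.ext
      ext x
      exact (IsEmpty.false x).elim
    show Nonempty _
    rw [h1]
    exact ⟨Homeomorph.refl _⟩
  · let _ := upgradeIsCompletelyMetrizable W
    let _ : MeasurableSpace W := borel W
    have : BorelSpace W := ⟨rfl⟩
    let R : Set ((Closeds W × Closeds W) × ((ℕ → W) × (ℕ → W))) :=
      {q | ¬ (q.1 = (⊥, ⊥)) ∧ ∃ ν : ℕ → ℕ,
        (¬ (q.1.1 = ⟨closure (range q.2.1), isClosed_closure⟩ ∧
            q.1.2 = ⟨closure (range q.2.2), isClosed_closure⟩) ∨
          ¬ (CauchySeq (q.2.1 ∘ ν) ↔ CauchySeq (q.2.2 ∘ ν)))}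
    refine ⟨(ℕ → W) × (ℕ → W), inferInstance, inferInstance, inferInstance, inferInstance, R,
      ?_, ?_⟩
    · -- R is analytic
      let P := ((Bool × (ℕ → W)) × (Bool × (ℕ → W))) × ((ℕ → W) × (ℕ → W))
      let π : P → (Closeds W × Closeds W) × ((ℕ → W) × (ℕ → W)) :=
        fun x => ((code x.1.1, code x.1.2), x.2)
      have hπ : Measurable π :=
        ((measurable_code.comp (measurable_fst.comp measurable_fst)).prodMk
          (measurable_code.comp (measurable_snd.comp measurable_fst))).prodMk measurable_snd
      have hs : Function.Surjective π := by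
        rintro ⟨⟨A, B⟩, z⟩
        obtain ⟨x, rfl⟩ := surjective_code A
        obtain ⟨y, rfl⟩ := surjective_code B
        exact ⟨((x, y), z), rfl⟩
      refine isAnalytic_of_preimage π hπ hs R ?_
      have h1 : π ⁻¹' R = Prod.fst '' {y : P × (ℕ → ℕ) | ¬ ((π y.1).1 = (⊥, ⊥)) ∧
          (¬ ((π y.1).1.1 = ⟨closure (range (π y.1).2.1), isClosed_closure⟩ ∧
            (π y.1).1.2 = ⟨closure (range (π y.1).2.2), isClosed_closure⟩) ∨
          ¬ (CauchySeq ((π y.1).2.1 ∘ y.2) ↔ CauchySeq ((π y.1).2.2 ∘ y.2)))} := by
        ext x
        constructor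
        · rintro ⟨h1, ν, h2⟩
          exact ⟨(x, ν), ⟨h1, h2⟩, rfl⟩
        · rintro ⟨⟨x', ν⟩, ⟨h1, h2⟩, rfl⟩
          exact ⟨h1, ν, h2⟩
      rw [h1]
      refine AnalyticSet.image_of_continuous (MeasurableSet.analyticSet ?_) continuous_fst
      have m0 : Measurable fun y : P × (ℕ → ℕ) => π y.1 := hπ.comp measurable_fst
      have e1 : MeasurableSet {y : P × (ℕ → ℕ) | (π y.1).1 = (⊥, ⊥)} :=
        measurableSet_eq_fun (measurable_fst.comp m0) measurable_const
      have e2 : MeasurableSet {y : P × (ℕ → ℕ) |
          (π y.1).1.1 = ⟨closure (range (π y.1).2.1), isClosed_closure⟩} :=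
        measurableSet_eq_fun (measurable_fst.comp (measurable_fst.comp m0))
          (measurable_clos.comp (measurable_fst.comp (measurable_snd.comp m0)))
      have e3 : MeasurableSet {y : P × (ℕ → ℕ) |
          (π y.1).1.2 = ⟨closure (range (π y.1).2.2), isClosed_closure⟩} :=
        measurableSet_eq_fun (measurable_snd.comp (measurable_fst.comp m0))
          (measurable_clos.comp (measurable_snd.comp (measurable_snd.comp m0)))
      have e4 : MeasurableSet {y : P × (ℕ → ℕ) | CauchySeq ((π y.1).2.1 ∘ y.2)} :=
        ((measurable_fst.comp (measurable_snd.comp m0)).prodMk measurable_snd)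
          (measurableSet_cauchy W)
      have e5 : MeasurableSet {y : P × (ℕ → ℕ) | CauchySeq ((π y.1).2.2 ∘ y.2)} :=
        ((measurable_snd.comp (measurable_snd.comp m0)).prodMk measurable_snd)
          (measurableSet_cauchy W)
      have hall := (e1.compl).inter (((e2.inter e3).compl).union
        (((e4.inter e5).union (e4.compl.inter e5.compl)).compl))
      convert hall using 1
      ext y
      simp only [mem_ofPred_eq, mem_inter_iff, mem_compl_iff, mem_union]
      tauto
    · ext p
      constructor
      · intro hp
        rcases (p.1 : Set W).eq_empty_or_nonempty with h | h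
        · obtain ⟨φ⟩ := hp
          have h1 : p.1 = ⊥ := Closeds.ext h
          have h2 : p.2 = ⊥ := by
            apply Closeds.ext
            rw [Closeds.coe_bot, eq_empty_iff_forall_notMem]
            intro x hx
            exact (eq_empty_iff_forall_notMem.mp h) _ (φ.symm ⟨x, hx⟩).2
          refine ⟨(fun _ => Classical.arbitrary W, fun _ => Classical.arbitrary W), ?_⟩
          rintro ⟨h3, -⟩
          exact h3 (Prod.ext h1 h2)
        · obtain ⟨a, b, ha, hb, hν⟩ := exists_sequences p.1 p.2 h hp
          refine ⟨(a, b), ?_⟩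
          rintro ⟨-, ν, h3 | h3⟩
          · exact h3 ⟨Closeds.ext ha, Closeds.ext hb⟩
          · exact h3 (hν ν)
      · rintro ⟨z, hz⟩
        by_cases h0 : p = (⊥, ⊥)
        · show Nonempty _
          rw [h0]
          exact ⟨Homeomorph.refl _⟩
        · have h1 : ∀ ν : ℕ → ℕ, (p.1 = ⟨closure (range z.1), isClosed_closure⟩ ∧
              p.2 = ⟨closure (range z.2), isClosed_closure⟩) ∧
              (CauchySeq (z.1 ∘ ν) ↔ CauchySeq (z.2 ∘ ν)) := by
            intro ν
            by_contra hcon
            apply hz
            refine ⟨h0, ν, ?_⟩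
            rw [not_and_or] at hcon
            exact hcon
          obtain ⟨hA, hB⟩ := (h1 0).1
          show Nonempty _
          rw [hA, hB]
          exact homeo_of_cauchy z.1 z.2 fun ν => (h1 ν).2

end Pool.Agent.Helper873.Pol
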