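import Pool.Agent.Helper873.PolF

open MeasureTheory Filter Topology Set TopologicalSpace

namespace Pool.Agent.Helper873.Pol

/-- merging two sequences -/
def mergeMap (p : (ℕ → ℝ) × (ℕ → ℝ)) : ℕ → ℝ :=
  fun n => if n % 2 = 0 then p.1 (n / 2) else p.2 (n / 2)

theorem isClosedEmbedding_mergeMap : IsClosedEmbedding mergeMap := by
  have h : Continuous mergeMap := by
    refine continuous_pi fun n => ?_
    unfold mergeMap
    split_ifs
    · exact (continuous_apply _).comp continuous_fst
    · exact (continuous_apply _).comp continuous_snd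
  let φ : (ℕ → ℝ) × (ℕ → ℝ) ≃ₜ (ℕ → ℝ) :=
    { toFun := mergeMap
      invFun := fun z => (fun n => z (2 * n), fun n => z (2 * n + 1))
      left_inv := fun p => by
        refine Prod.ext ?_ ?_
        · funext n
          simp [mergeMap]
        · funext n
          have h1 : (2 * n + 1) % 2 = 1 := by omega
          have h2 : (2 * n + 1) / 2 = n := by omega
          simp [mergeMap, h1, h2]
      right_inv := fun z => by
        funext n
        unfold mergeMap
        split_ifs with h
        · show z (2 * (n / 2)) = z n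
          congr 1
          omega
        · show z (2 * (n / 2) + 1) = z n
          congr 1
          omega
      continuous_toFun := h
      continuous_invFun := by fun_prop }
  exact φ.isClosedEmbedding

/-- the ambient space of the construction is a closed subspace of `ℝ^ℕ` -/
theorem exists_ambient :
    ∃ e : ((ℝ × (ℕ → ℝ)) × (ℕ → ℝ)) × ℝ → ℕ → ℝ, IsClosedEmbedding e := by
  have h1 : IsClosedEmbedding (Prod.swap : ℝ × (ℕ → ℝ) → (ℕ → ℝ) × ℝ) :=
    (Homeomorph.prodComm ℝ (ℕ → ℝ)).isClosedEmbedding
  have h2 : IsClosedEmbedding (consMap ∘ (Prod.swap : ℝ × (ℕ → ℝ) → (ℕ → ℝ) × ℝ)) :=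
    isClosedEmbedding_consMap.comp h1
  have h3 := (h2.prodMap (IsClosedEmbedding.id (X := ℕ → ℝ)))
  have h4 := isClosedEmbedding_mergeMap.comp h3
  have h5 := h4.prodMap (IsClosedEmbedding.id (X := ℝ))
  exact ⟨_, isClosedEmbedding_consMap.comp h5⟩

theorem isSigma12Complete_homeoRel (W : Type) [TopologicalSpace W] [PolishSpace W]
    (e : ((ℝ × (ℕ → ℝ)) × (ℕ → ℝ)) × ℝ → W) (he : IsClosedEmbedding e) :
    IsSigma12Complete (HomeoRel W) :=
  ⟨isSigma12_homeoRel W, fun S _ _ A hA => hard W e he S A hA⟩

end Pool.Agent.Helper873.Pol
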