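import Pool.Agent.Helper873.Geo

set_option autoImplicit false
open MeasureTheory Metric Filter
open scoped ComplexConjugate ENNReal Topology

namespace Pool.Agent.Helper873.Rot

lemma one_sided (a b : ℂ) (ha : a ≠ 0) :
    CircleIntegrable (fun z => Real.log ‖a + z * b‖) 0 1 ∧
    Real.log (max ‖a‖ ‖b‖) ≤ Real.circleAverage (fun z => Real.log ‖a + z * b‖) 0 1 := by
  by_cases hb : b = 0
  · subst hb
    simp only [mul_zero, add_zero, norm_zero]
    refine ⟨circleIntegrable_const _ _ _, ?_⟩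
    rw [Real.circleAverage_const, max_eq_left (norm_nonneg _)]
  have hnB : 0 < ‖b‖ := norm_pos_iff.2 hb
  have hnA : 0 < ‖a‖ := norm_pos_iff.2 ha
  set u : ℂ := -a / b with hu
  let f1 : ℂ → ℝ := fun z => Real.log ‖b‖ + Real.log ‖z - u‖
  have hf1i : CircleIntegrable f1 0 1 :=
    (circleIntegrable_const _ _ _).add (circleIntegrable_log_norm_sub_const 1)
  have hcod : f1 =ᶠ[codiscreteWithin (sphere (0 : ℂ) |1|)] (fun z => Real.log ‖a + z * b‖) := by
    filter_upwards [compl_singleton_mem_codiscreteWithin u] with z hz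
    have hz' : z ≠ u := hz
    simp only [f1]
    have h1 : ‖a + z * b‖ = ‖b‖ * ‖z - u‖ := by
      rw [← norm_mul]
      congr 1
      rw [hu]; field_simp; ring
    have h2 : 0 < ‖z - u‖ := norm_pos_iff.2 (sub_ne_zero.2 hz')
    rw [h1, Real.log_mul hnB.ne' h2.ne']
  refine ⟨hf1i.congr_codiscreteWithin hcod, ?_⟩
  have h2 := Real.circleAverage_congr_codiscreteWithin (c := (0 : ℂ)) (R := 1) hcod one_ne_zero
  rw [← h2]
  have h3 : Real.circleAverage f1 0 1 = Real.log ‖b‖ + Real.posLog ‖u‖ := by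
    have h4 := Real.circleAverage_fun_add (circleIntegrable_const (Real.log ‖b‖) 0 1)
      (circleIntegrable_log_norm_sub_const (a := u) (c := 0) 1)
    have h5 := circleAverage_log_norm_sub_const_eq_posLog (a := u)
    rw [Real.circleAverage_const, h5] at h4
    exact h4
  rw [h3]
  have hun : ‖u‖ = ‖a‖ / ‖b‖ := by rw [hu, norm_div, norm_neg]
  rcases le_total ‖a‖ ‖b‖ with h | h
  · rw [max_eq_right h]
    have := Real.posLog_nonneg (x := ‖u‖)
    linarith
  · rw [max_eq_left h]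
    have h6 : Real.log ‖u‖ ≤ Real.posLog ‖u‖ := by
      rw [Real.posLog_def]; exact le_max_right _ _
    rw [hun, Real.log_div hnA.ne' hnB.ne'] at h6
    rw [hun]
    linarith

/-- choice of a rotation -/
theorem exists_rotation (a b : ℝ → ℂ) (ha : Continuous a) (hb : Continuous b)
    (hne : ∀ β, a β ≠ 0) : ∃ α : ℝ,
    ∫ β in (0 : ℝ)..(2 * Real.pi), Real.log (max ‖a β‖ ‖b β‖) ≤
      ∫ β in (0 : ℝ)..(2 * Real.pi), Real.log ‖a β + circleMap 0 1 α * b β‖ := by
  have h2pi : (0 : ℝ) < 2 * Real.pi := Real.two_pi_pos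
  set μ : Measure ℝ := volume.restrict (Set.Ioc (0 : ℝ) (2 * Real.pi)) with hμ
  have hμu : μ Set.univ = ENNReal.ofReal (2 * Real.pi) := by
    rw [hμ, Measure.restrict_apply_univ, Real.volume_Ioc, sub_zero]
  have : IsFiniteMeasure μ := ⟨by rw [hμu]; exact ENNReal.ofReal_lt_top⟩
  have hμr : μ.real Set.univ = 2 * Real.pi := by
    rw [Measure.real, hμu, ENNReal.toReal_ofReal h2pi.le]
  have hμ0 : μ ≠ 0 := by
    intro h
    rw [h] at hμu
    simp at hμu
    linarith [hμu, Real.pi_pos]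
  let K : ℝ × ℝ → ℝ := fun p => Real.log ‖a p.2 + circleMap 0 1 p.1 * b p.2‖
  have hKm : Measurable K := by
    have h1 : Continuous fun p : ℝ × ℝ => ‖a p.2 + circleMap 0 1 p.1 * b p.2‖ := by
      have h2 : Continuous fun p : ℝ × ℝ => circleMap 0 1 p.1 :=
        (continuous_circleMap 0 1).comp continuous_fst
      exact ((ha.comp continuous_snd).add (h2.mul (hb.comp continuous_snd))).norm
    exact Real.measurable_log.comp h1.measurable
  -- bounds
  obtain ⟨β0, hβ0, hmin⟩ := (isCompact_Icc (a := (0 : ℝ)) (b := 2 * Real.pi)).exists_isMinOn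
    (Set.nonempty_Icc.2 h2pi.le) ha.norm.continuousOn
  obtain ⟨β1, hβ1, hmax⟩ := (isCompact_Icc (a := (0 : ℝ)) (b := 2 * Real.pi)).exists_isMaxOn
    (Set.nonempty_Icc.2 h2pi.le) (ha.norm.add hb.norm).continuousOn
  have ha0 : 0 < ‖a β0‖ := norm_pos_iff.2 (hne β0)
  set M : ℝ := max 1 (‖a β1‖ + ‖b β1‖) with hM
  have hM1 : 1 ≤ M := le_max_left _ _
  have hKub : ∀ α, ∀ β ∈ Set.Icc (0 : ℝ) (2 * Real.pi), K (α, β) ≤ Real.log M := by
    intro α β hβ
    simp only [K]
    by_cases h0 : ‖a β + circleMap 0 1 α * b β‖ = 0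
    · rw [h0, Real.log_zero]; exact Real.log_nonneg hM1
    · refine Real.log_le_log (lt_of_le_of_ne (norm_nonneg _) (Ne.symm h0)) ?_
      have h1 := norm_add_le (a β) (circleMap 0 1 α * b β)
      rw [norm_mul, norm_circleMap_zero, abs_one, one_mul] at h1
      have h2 : ‖a β‖ + ‖b β‖ ≤ ‖a β1‖ + ‖b β1‖ := hmax hβ
      exact h1.trans (h2.trans (le_max_right _ _))
  have hslice : ∀ β, Integrable (fun α => K (α, β)) μ ∧
      2 * Real.pi * Real.log (max ‖a β‖ ‖b β‖) ≤ ∫ α, K (α, β) ∂μ := by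
    intro β
    obtain ⟨h1, h2⟩ := one_sided (a β) (b β) (hne β)
    constructor
    · have h3 : IntervalIntegrable (fun α => K (α, β)) volume 0 (2 * Real.pi) := h1
      exact (intervalIntegrable_iff_integrableOn_Ioc_of_le h2pi.le).1 h3
    · rw [Real.circleAverage_def, smul_eq_mul, intervalIntegral.integral_of_le h2pi.le] at h2
      have h4 : ∫ α, K (α, β) ∂μ =
          ∫ θ in Set.Ioc 0 (2 * Real.pi), Real.log ‖a β + circleMap 0 1 θ * b β‖ := rfl
      rw [h4]
      calc 2 * Real.pi * Real.log (max ‖a β‖ ‖b β‖) ≤ 2 * Real.pi *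
            ((2 * Real.pi)⁻¹ * ∫ θ in Set.Ioc 0 (2 * Real.pi),
              Real.log ‖a β + circleMap 0 1 θ * b β‖) := by gcongr
        _ = _ := by rw [← mul_assoc, mul_inv_cancel₀ h2pi.ne', one_mul]
  have hKint : Integrable K (μ.prod μ) := by
    rw [integrable_prod_iff' hKm.aestronglyMeasurable]
    refine ⟨Eventually.of_forall fun β => (hslice β).1, ?_⟩
    have hms : AEStronglyMeasurable (fun β => ∫ α, ‖K (α, β)‖ ∂μ) μ :=
      (hKm.norm.stronglyMeasurable.integral_prod_left').aestronglyMeasurable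
    set C : ℝ := 2 * (2 * Real.pi * Real.log M) + 2 * Real.pi * |Real.log ‖a β0‖| with hC
    refine Integrable.of_bound hms C ?_
    rw [hμ, ae_restrict_iff' measurableSet_Ioc]
    refine Eventually.of_forall fun β hβ => ?_
    have hβ' := Set.Ioc_subset_Icc_self hβ
    rw [← hμ, Real.norm_of_nonneg (integral_nonneg fun _ => norm_nonneg _)]
    have h1 := integral_abs_eq_two_mul_integral_posPart_sub_integral (hslice β).1
    have h1' : ∫ α, ‖K (α, β)‖ ∂μ = 2 * ∫ α, (K (α, β))⁺ ∂μ - ∫ α, K (α, β) ∂μ := h1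
    rw [h1']
    have h2 : ∫ α, (K (α, β))⁺ ∂μ ≤ ∫ _, Real.log M ∂μ := by
      refine integral_mono_of_nonneg (Eventually.of_forall fun α => posPart_nonneg _)
        (integrable_const _) (Eventually.of_forall fun α => ?_)
      simp only
      rw [posPart_def]
      exact sup_le (hKub α β hβ') (Real.log_nonneg hM1)
    rw [integral_const, smul_eq_mul, hμr] at h2
    have h3 := (hslice β).2
    have h4 : -|Real.log ‖a β0‖| ≤ Real.log (max ‖a β‖ ‖b β‖) := by
      have h5 : Real.log ‖a β0‖ ≤ Real.log (max ‖a β‖ ‖b β‖) := by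
        refine Real.log_le_log ha0 ?_
        have h6 : ‖a β0‖ ≤ ‖a β‖ := hmin hβ'
        exact h6.trans (le_max_left _ _)
      linarith [neg_abs_le (Real.log ‖a β0‖)]
    have h5 : 2 * Real.pi * (-|Real.log ‖a β0‖|) ≤
        2 * Real.pi * Real.log (max ‖a β‖ ‖b β‖) := by gcongr
    rw [hC]
    linarith
  -- Fubini
  have hF := integral_integral_swap (f := fun α β => K (α, β)) hKint
  have hlogc : Continuous fun β => Real.log (max ‖a β‖ ‖b β‖) :=
    Continuous.log (ha.norm.max hb.norm) fun β =>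
      (lt_of_lt_of_le (norm_pos_iff.2 (hne β)) (le_max_left _ _)).ne'
  have hlogi : Integrable (fun β => Real.log (max ‖a β‖ ‖b β‖)) μ :=
    (hlogc.continuousOn.integrableOn_compact isCompact_Icc).mono_set Set.Ioc_subset_Icc_self
  have h1 : ∫ β, 2 * Real.pi * Real.log (max ‖a β‖ ‖b β‖) ∂μ ≤ ∫ β, ∫ α, K (α, β) ∂μ ∂μ :=
    integral_mono (hlogi.const_mul _) hKint.integral_prod_right fun β => (hslice β).2
  rw [← hF, integral_const_mul] at h1
  obtain ⟨α, hα⟩ := exists_average_le hμ0 hKint.integral_prod_left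
  refine ⟨α, ?_⟩
  rw [intervalIntegral.integral_of_le h2pi.le, intervalIntegral.integral_of_le h2pi.le]
  refine le_trans ?_ hα
  rw [average_eq, hμr, smul_eq_mul]
  rw [inv_mul_eq_div, le_div_iff₀ h2pi]
  linarith

end Pool.Agent.Helper873.Rot
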