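import Pool.Agent.Helper873.Pk

set_option autoImplicit false
open MeasureTheory Metric Filter
open scoped ComplexConjugate ENNReal Topology

namespace Pool.Agent.Helper873.Trig

open Pool.Agent.Helper873.OneVar Pool.Agent.Helper873.Pk

lemma fourier_zet (n : ℤ) (t : UnitAddCircle) :
    (∃ m : ℕ, n = -(m : ℤ) ∧ fourier n t = zet t ^ m) ∨
    (∃ m : ℕ, n = (m : ℤ) ∧ fourier n t = conj (zet t ^ m)) := by
  rcases le_total n 0 with h | h
  · left
    obtain ⟨m, hm⟩ : ∃ m : ℕ, n = -(m : ℤ) := ⟨n.natAbs, by omega⟩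
    subst hm
    exact ⟨m, rfl, by rw [zet_pow]⟩
  · right
    obtain ⟨m, hm⟩ : ∃ m : ℕ, n = (m : ℤ) := ⟨n.natAbs, by omega⟩
    subst hm
    exact ⟨m, rfl, by rw [zet_pow, ← fourier_neg, neg_neg]⟩

/-- trigonometric polynomials are sums of polynomials and conjugates of polynomials -/
lemma span_poly (q : C(UnitAddCircle, ℂ)) (hq : q ∈ Submodule.span ℂ
    (Set.range (fourier (T := (1 : ℝ))))) :
    ∃ P Q : Polynomial ℂ, ∀ t, q t = P.eval (zet t) + conj (Q.eval (zet t)) := by
  induction hq using Submodule.span_induction with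
  | mem q hq =>
    obtain ⟨n, rfl⟩ := hq
    rcases le_total n 0 with h | h
    · refine ⟨Polynomial.X ^ n.natAbs, 0, fun t => ?_⟩
      rcases fourier_zet n t with ⟨m, hm, h1⟩ | ⟨m, hm, h1⟩
      · have : n.natAbs = m := by omega
        rw [h1, this]; simp
      · have h2 : m = 0 := by omega
        have h3 : n.natAbs = 0 := by omega
        rw [h1, h2, h3]; simp
    · refine ⟨0, Polynomial.X ^ n.natAbs, fun t => ?_⟩
      rcases fourier_zet n t with ⟨m, hm, h1⟩ | ⟨m, hm, h1⟩
      · have h2 : m = 0 := by omega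
        have h3 : n.natAbs = 0 := by omega
        rw [h1, h2, h3]; simp
      · have : n.natAbs = m := by omega
        rw [h1, this]; simp
  | zero => exact ⟨0, 0, fun t => by simp⟩
  | add f g _ _ hf hg =>
    obtain ⟨P, Q, h⟩ := hf
    obtain ⟨P', Q', h'⟩ := hg
    refine ⟨P + P', Q + Q', fun t => ?_⟩
    rw [ContinuousMap.add_apply, h, h', Polynomial.eval_add, Polynomial.eval_add, map_add]
    ring
  | smul a f _ hf =>
    obtain ⟨P, Q, h⟩ := hf
    refine ⟨Polynomial.C a * P, Polynomial.C (conj a) * Q, fun t => ?_⟩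
    rw [ContinuousMap.smul_apply, h, Polynomial.eval_mul, Polynomial.eval_mul,
      Polynomial.eval_C, Polynomial.eval_C, map_mul, Complex.conj_conj, smul_eq_mul]
    ring

/-- real continuous functions on the circle are uniformly approximated by real parts of
polynomials -/
lemma approx (U : UnitAddCircle → ℝ) (hU : Continuous U) (η : ℝ) (hη : 0 < η) :
    ∃ P : Polynomial ℂ, ∀ t, |(P.eval (zet t)).re - U t| ≤ η := by
  let f : C(UnitAddCircle, ℂ) := ⟨fun t => (U t : ℂ), Complex.continuous_ofReal.comp hU⟩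
  have h1 : f ∈ (Submodule.span ℂ (Set.range (fourier (T := (1 : ℝ))))).topologicalClosure := by
    rw [span_fourier_closure_eq_top]; trivial
  have h2 : f ∈ closure ((Submodule.span ℂ (Set.range (fourier (T := (1 : ℝ)))) :
      Submodule ℂ C(UnitAddCircle, ℂ)) : Set C(UnitAddCircle, ℂ)) := h1
  obtain ⟨q, hq, hfq⟩ := Metric.mem_closure_iff.1 h2 η hη
  obtain ⟨P, Q, hPQ⟩ := span_poly q hq
  refine ⟨P + Q, fun t => ?_⟩
  have h3 : (((P + Q).eval (zet t)).re) = (q t).re := by
    rw [hPQ, Polynomial.eval_add, Complex.add_re, Complex.add_re, Complex.conj_re]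
  have h4 : ‖(f - q) t‖ ≤ ‖f - q‖ := (f - q).norm_coe_le_norm t
  rw [dist_eq_norm] at hfq
  have h5 : (f - q) t = (U t : ℂ) - q t := rfl
  rw [h3]
  have h6 : (q t).re - U t = -(((U t : ℂ) - q t).re) := by
    rw [Complex.sub_re, Complex.ofReal_re]; ring
  rw [h6, abs_neg]
  calc |((U t : ℂ) - q t).re| ≤ ‖(U t : ℂ) - q t‖ := Complex.abs_re_le_norm _
    _ ≤ ‖f - q‖ := by rw [← h5]; exact h4
    _ ≤ η := hfq.le

lemma harm_re (P : Polynomial ℂ) :
    InnerProductSpace.HarmonicOnNhd (fun z : ℂ => (P.eval z).re) (closedBall 0 1) := by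
  intro z _
  have h : AnalyticAt ℂ (fun z : ℂ => P.eval z) z := P.differentiable.analyticAt z
  exact h.harmonicAt_re

/-- sub-mean value property of `log⁺ |g|` with respect to the Poisson kernel -/
theorem log_poisson (g : ℂ → ℂ) (hg : DiffContOnCl ℂ g (ball 0 1)) (w : ℂ) (hw : ‖w‖ < 1) :
    Real.log (max 1 ‖g w‖) ≤ ∫ t, pk (conj w) t * Real.log (max 1 ‖g (zet t)‖) ∂mu := by
  have hgc : ContinuousOn g (closedBall 0 1) := by
    have := hg.continuousOn
    rwa [closure_ball _ one_ne_zero] at this
  have hgz : Continuous fun t => g (zet t) :=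
    hgc.comp_continuous continuous_zet fun t => by
      rw [mem_closedBall_zero_iff, norm_zet]
  set U : UnitAddCircle → ℝ := fun t => Real.log (max 1 ‖g (zet t)‖) with hU
  have hUc : Continuous U := Continuous.log (continuous_const.max hgz.norm) fun p =>
    (lt_of_lt_of_le one_pos (le_max_left _ _)).ne'
  have hU0 : ∀ t, 0 ≤ U t := fun t => Real.log_nonneg (le_max_left _ _)
  have hw' : ‖conj w‖ < 1 := by rw [RCLike.norm_conj]; exact hw
  refine le_of_forall_pos_le_add fun η hη => ?_
  obtain ⟨P, hP⟩ := approx U hUc (η / 2) (by positivity)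
  have hharm := integral_pk_harm hw' (fun z : ℂ => (P.eval z).re) (harm_re P)
  rw [Complex.conj_conj] at hharm
  have hPc : Continuous fun t => (P.eval (zet t)).re :=
    Complex.continuous_re.comp (P.continuous.comp continuous_zet)
  have hpk := continuous_pk hw'
  -- upper bound of the real part at w
  have hup : (P.eval w).re ≤ ∫ t, pk (conj w) t * U t ∂mu + η / 2 := by
    rw [← hharm]
    have h1 : ∫ t, pk (conj w) t * (U t + η / 2) ∂mu = ∫ t, pk (conj w) t * U t ∂mu + η / 2 := by
      simp_rw [mul_add]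
      have hi : Integrable (fun t => pk (conj w) t * U t) mu := integrable_cont (hpk.mul hUc)
      rw [integral_add hi ((integrable_cont hpk).mul_const _), integral_mul_const,
        integral_pk hw', one_mul]
    rw [← h1]
    refine integral_mono (integrable_cont (hpk.mul hPc))
      (integrable_cont (hpk.mul (hUc.add continuous_const))) fun t => ?_
    refine mul_le_mul_of_nonneg_left ?_ (pk_pos hw' t).le
    have := (abs_le.1 (hP t)).2
    linarith
  have hlow : -(η / 2) ≤ (P.eval w).re := by
    rw [← hharm]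
    have h1 : ∫ t, pk (conj w) t * (-(η / 2)) ∂mu = -(η / 2) := by
      rw [integral_mul_const, integral_pk hw', one_mul]
    rw [← h1]
    refine integral_mono ((integrable_cont hpk).mul_const _) (integrable_cont (hpk.mul hPc))
      fun t => ?_
    refine mul_le_mul_of_nonneg_left ?_ (pk_pos hw' t).le
    have := (abs_le.1 (hP t)).1
    have := hU0 t
    linarith
  -- maximum modulus
  set h : ℂ → ℂ := fun z => g z * Complex.exp (-(P.eval z)) with hh
  have hhd : DiffContOnCl ℂ h (ball 0 1) := by
    have h1 : Differentiable ℂ fun z => Complex.exp (-(P.eval z)) :=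
      (P.differentiable.neg).cexp
    exact hg.smul h1.diffContOnCl
  have hbd : ∀ z ∈ frontier (ball (0 : ℂ) 1), ‖h z‖ ≤ Real.exp (η / 2) := by
    intro z hz
    rw [frontier_ball _ one_ne_zero, mem_sphere_zero_iff_norm] at hz
    obtain ⟨t, ht⟩ : ∃ t, zet t = z := by
      have hz0 : z ≠ 0 := by
        rintro rfl; simp at hz
      refine ⟨((-(Complex.arg z) / (2 * Real.pi) : ℝ) : UnitAddCircle), ?_⟩
      unfold zet
      rw [fourier_coe_apply]
      have h2 : 2 * (Real.pi : ℂ) * Complex.I * ((-1 : ℤ) : ℂ) *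
          ((-(Complex.arg z) / (2 * Real.pi) : ℝ) : ℂ) / ((1 : ℝ) : ℂ) =
          (Complex.arg z : ℂ) * Complex.I := by
        have hpi : (Real.pi : ℂ) ≠ 0 := by exact_mod_cast Real.pi_ne_zero
        push_cast
        field_simp
      rw [h2]
      have h3 := Complex.norm_mul_exp_arg_mul_I z
      rw [hz] at h3
      simpa using h3
    rw [← ht]
    simp only [hh]
    rw [norm_mul, Complex.norm_exp, Complex.neg_re]
    have h2 : ‖g (zet t)‖ ≤ Real.exp (U t) := by
      rw [hU]
      simp only
      rw [Real.exp_log (lt_of_lt_of_le one_pos (le_max_left _ _))]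
      exact le_max_right _ _
    calc ‖g (zet t)‖ * Real.exp (-(P.eval (zet t)).re) ≤
          Real.exp (U t) * Real.exp (-(P.eval (zet t)).re) := by gcongr
      _ = Real.exp (U t - (P.eval (zet t)).re) := by rw [← Real.exp_add]; ring_nf
      _ ≤ Real.exp (η / 2) := by
          apply Real.exp_le_exp.2
          have := (abs_le.1 (hP t)).1
          linarith
  have hmax := Complex.norm_le_of_forall_mem_frontier_norm_le isBounded_ball hhd hbd
    (z := w) (by rw [closure_ball _ one_ne_zero, mem_closedBall_zero_iff]; exact hw.le)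
  simp only [hh] at hmax
  rw [norm_mul, Complex.norm_exp, Complex.neg_re] at hmax
  have hgw : ‖g w‖ ≤ Real.exp ((P.eval w).re + η / 2) := by
    rw [Real.exp_add, Real.exp_neg] at *
    have hp := Real.exp_pos (P.eval w).re
    rw [← div_eq_mul_inv, div_le_iff₀ hp] at hmax
    linarith
  have h1le : 1 ≤ Real.exp ((P.eval w).re + η / 2) := Real.one_le_exp (by linarith)
  have h3 : max 1 ‖g w‖ ≤ Real.exp ((P.eval w).re + η / 2) := max_le h1le hgw
  have h4 := Real.log_le_log (lt_of_lt_of_le one_pos (le_max_left _ _)) h3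
  rw [Real.log_exp] at h4
  linarith

end Pool.Agent.Helper873.Trig
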